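import Pool.Agent.Lib.MP_29e17e_pr.Uni

set_option autoImplicit false
set_option linter.unusedSectionVars false

open Finset

namespace Pool.Agent.PERC29

variable {V : Type*} [Fintype V] [DecidableEq V] {E : Type*} [Fintype E] [DecidableEq E]
  {ends : E → Sym2 V}

open scoped Classical in
/-- The indicator that some cluster has size at least `m`. -/
noncomputable def fm (ends : E → Sym2 V) (m : ℝ) (ω : E → Bool) : ℝ :=
  if ∃ x, m ≤ cz ends ω x then 1 else 0

open scoped Classical in
/-- The indicator that some cluster meeting `B` has size at least `m`. -/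
noncomputable def gB (ends : E → Sym2 V) (m : ℝ) (B : Finset V) (ω : E → Bool) : ℝ :=
  if ∃ x, Conn ends ω B x ∧ m ≤ cz ends ω x then 1 else 0

lemma fm_nonneg (m : ℝ) (ω : E → Bool) : 0 ≤ fm ends m ω := by
  unfold fm; split_ifs <;> norm_num

lemma fm_le_one (m : ℝ) (ω : E → Bool) : fm ends m ω ≤ 1 := by
  unfold fm; split_ifs <;> norm_num

lemma gB_nonneg (m : ℝ) (B : Finset V) (ω : E → Bool) : 0 ≤ gB ends m B ω := by
  unfold gB; split_ifs <;> norm_num

lemma gB_le_one (m : ℝ) (B : Finset V) (ω : E → Bool) : gB ends m B ω ≤ 1 := by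
  unfold gB; split_ifs <;> norm_num

lemma fm_mono (m : ℝ) (e : E) (ω : E → Bool) :
    fm ends m ω ≤ fm ends m (Function.update ω e true) := by
  unfold fm
  by_cases h : ∃ x, m ≤ cz ends ω x
  · obtain ⟨x, hx⟩ := h
    have h2 : ∃ x, m ≤ cz ends (Function.update ω e true) x :=
      ⟨x, hx.trans (cz_mono (update_mono ω e))⟩
    rw [if_pos ⟨x, hx⟩, if_pos h2]
  · rw [if_neg h]
    split_ifs <;> norm_num

open scoped Classical in
/-- The sprinkling bound, for probabilities. -/
lemma sprinkle_prob {p s : ℝ} (h0 : 0 ≤ p) (h1 : p ≤ 1) (hs0 : 0 ≤ s) (hs1 : s ≤ 1)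
    {a t m τ ng : ℝ} (ha : 0 < a) (ht : 0 ≤ t) (hm0 : 0 ≤ m) (hτ : t * (m / a) * ng ≤ τ)
    (hs : ng + 1 ≤ s * τ / 4) :
    1 / 2 * Ex p (fun ω => if 2 * τ ≤ Tt ends ω a t ∧ ((GC ends ω a).card : ℝ) ≤ ng
      then (1 : ℝ) else 0) ≤ Ex (1 - (1 - p) * (1 - s)) (fm ends m) := by
  rw [Ex_orc, ← Ex_mul_left]
  apply Ex_mono h0 h1
  intro ω
  by_cases h : 2 * τ ≤ Tt ends ω a t ∧ ((GC ends ω a).card : ℝ) ≤ ng
  · rw [if_pos h, mul_one]
    have hub := union_bound hs0 hs1 ω ha ht hm0 h.2 hτ h.1 hs
    have hpt : ∀ ω' : E → Bool, 1 + (-1) * (if ∀ x, cz ends (orc ω ω') x < m then (1 : ℝ) else 0) ≤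
        fm ends m (orc ω ω') := by
      intro ω'
      by_cases h2 : ∀ x, cz ends (orc ω ω') x < m
      · rw [if_pos h2]
        have := fm_nonneg (ends := ends) m (orc ω ω')
        linarith
      · rw [if_neg h2]
        push Not at h2
        unfold fm
        rw [if_pos h2]
        linarith
    have hE := Ex_mono hs0 hs1 hpt
    rw [Ex_add, Ex_const, Ex_mul_left] at hE
    linarith
  · rw [if_neg h, mul_zero]
    exact Ex_nonneg hs0 hs1 fun ω' => fm_nonneg _ _

lemma gB_det (m : ℝ) (B : Finset V) (ω ω' : E → Bool)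
    (h : ∀ e x, x ∈ ends e → Conn ends ω B x → ω e = ω' e) : gB ends m B ω = gB ends m B ω' := by
  have hcz : ∀ x, Conn ends ω B x → cz ends ω' x = cz ends ω x := by
    intro x hx
    have h2 := reach_dep (ends := ends) (ω := ω) (ω' := ω')
      (S := Set.univ) (B := ({x} : Set V)) (A := (cu ends ω x : Set V))
      (by
        intro z
        simp only [Set.mem_singleton_iff, exists_eq_left, Finset.mem_coe, mem_cu])
      (by
        intro e a b h3 _ _ h4
        apply h e a (by rw [h3]; exact Sym2.mem_mk_left a b)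
        obtain ⟨b', hb', hr⟩ := hx
        exact ⟨b', hb', hr.trans (mem_cu.1 h4)⟩)
    unfold cz
    congr 2
    ext z
    have h5 := h2 z
    simp only [Set.mem_singleton_iff, exists_eq_left, Finset.mem_coe] at h5
    rw [mem_cu]
    exact h5
  unfold gB
  have hiff : (∃ x, Conn ends ω B x ∧ m ≤ cz ends ω x) ↔
      (∃ x, Conn ends ω' B x ∧ m ≤ cz ends ω' x) := by
    constructor
    · rintro ⟨x, hx, hm⟩
      exact ⟨x, (Conn_det ω ω' h x).2 hx, by rw [hcz x hx]; exact hm⟩
    · rintro ⟨x, hx, hm⟩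
      have hx' := (Conn_det ω ω' h x).1 hx
      exact ⟨x, hx', by rw [← hcz x hx']; exact hm⟩
  by_cases hc : ∃ x, Conn ends ω B x ∧ m ≤ cz ends ω x
  · rw [if_pos hc, if_pos (hiff.1 hc)]
  · rw [if_neg hc, if_neg (fun h2 => hc (hiff.2 h2))]

/-- The revealment of the exploration of the ghost clusters. -/
lemma tch_avg {p γ M : ℝ} (h0 : 0 ≤ p) (h1 : p ≤ 1) (hγ0 : 0 ≤ γ) (hγ1 : γ ≤ 1)
    (hM : ∀ x, Ex p (mg ends γ x) ≤ M) (e : E) :
    ∑ B : Finset V, gw γ B * Ex p (tch ends B e) ≤ 2 * M := by
  classical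
  have e2 : ∀ x, Ex p (mg ends γ x) = ∑ B : Finset V, gw γ B * Ex p (cn ends B x) := by
    intro x
    have : ∀ ω : E → Bool, mg ends γ x ω = ∑ B : Finset V, gw γ B * cn ends B x ω := by
      intro ω
      rw [mg_eq]
      rfl
    rw [Ex_congr this, Ex_sum]
    exact Finset.sum_congr rfl fun B _ => Ex_mul_left _ _ _
  induction hs : ends e using Sym2.ind with
  | _ a b =>
    have h2 : ∀ B : Finset V, Ex p (tch ends B e) ≤ Ex p (cn ends B a) + Ex p (cn ends B b) := by
      intro B
      rw [← Ex_add]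
      apply Ex_mono h0 h1
      intro ω
      unfold tch cn
      by_cases hx : ∃ x, x ∈ ends e ∧ Conn ends ω B x
      · rw [if_pos hx]
        obtain ⟨x, hx1, hx2⟩ := hx
        rw [hs, Sym2.mem_iff] at hx1
        rcases hx1 with rfl | rfl
        · rw [if_pos hx2]
          split_ifs <;> norm_num
        · rw [if_pos hx2]
          split_ifs <;> norm_num
      · rw [if_neg hx]
        split_ifs <;> norm_num
    calc ∑ B : Finset V, gw γ B * Ex p (tch ends B e) ≤
        ∑ B : Finset V, gw γ B * (Ex p (cn ends B a) + Ex p (cn ends B b)) :=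
          Finset.sum_le_sum fun B _ => mul_le_mul_of_nonneg_left (h2 B) (gw_nonneg hγ0 hγ1 B)
      _ = Ex p (mg ends γ a) + Ex p (mg ends γ b) := by
          rw [e2 a, e2 b, ← Finset.sum_add_distrib]
          exact Finset.sum_congr rfl fun B _ => by ring
      _ ≤ 2 * M := by linarith [hM a, hM b]

/-- The amplification inequality. -/
lemma amp_cov {p γ M m : ℝ} (h0 : 0 ≤ p) (h1 : p ≤ 1) (hγ0 : 0 ≤ γ) (hγ1 : γ ≤ 1)
    (hγm : 1 ≤ γ * m) (hM : ∀ x, Ex p (mg ends γ x) ≤ M) :
    (1 / 2) * (Ex p (fm ends m) * (1 - Ex p (fm ends m))) ≤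
      4 * p * M * Ex p (fun ω => ∑ e, if ω e = true then 0 else
        fm ends m (Function.update ω e true) - fm ends m ω) := by
  classical
  set F := Ex p (fm ends m) with hF
  have hF0 : 0 ≤ F := Ex_nonneg h0 h1 fun ω => fm_nonneg m ω
  have hF1 : F ≤ 1 := by
    have := Ex_mono h0 h1 (f := fm ends m) (g := fun _ => (1 : ℝ)) (fun ω => fm_le_one m ω)
    rwa [Ex_const] at this
  -- the covariance for fixed `B`
  have hcov : ∀ B : Finset V, Ex p (gB ends m B) * (1 - F) ≤
      ∑ e, Ex p (tch ends B e) * infl p e (fm ends m) := by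
    intro B
    have h2 := osss_gen (ends := ends) h0 h1 B (gB ends m B) (gB_nonneg m B) (gB_le_one m B)
      (gB_det m B) (fm ends m)
    have h3 : Ex p (fun ω => fm ends m ω * gB ends m B ω) = Ex p (gB ends m B) := by
      apply Ex_congr
      intro ω
      unfold fm gB
      by_cases hc : ∃ x, Conn ends ω B x ∧ m ≤ cz ends ω x
      · obtain ⟨x, hx, hm⟩ := hc
        rw [if_pos (⟨x, hm⟩ : ∃ x, m ≤ cz ends ω x),
          if_pos (⟨x, hx, hm⟩ : ∃ x, Conn ends ω B x ∧ m ≤ cz ends ω x), mul_one]
      · rw [if_neg hc, mul_zero]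
    rw [h3, ← hF] at h2
    linarith
  have hlow : (1 / 2) * F ≤ ∑ B : Finset V, gw γ B * Ex p (gB ends m B) := by
    have e1 : ∑ B : Finset V, gw γ B * Ex p (gB ends m B) =
        Ex p (fun ω => ∑ B : Finset V, gw γ B * gB ends m B ω) := by
      rw [Ex_sum]
      exact Finset.sum_congr rfl fun B _ => (Ex_mul_left _ _ _).symm
    rw [e1, hF, ← Ex_mul_left]
    apply Ex_mono h0 h1
    intro ω
    have hnn : 0 ≤ ∑ B : Finset V, gw γ B * gB ends m B ω :=
      Finset.sum_nonneg fun B _ => mul_nonneg (gw_nonneg hγ0 hγ1 B) (gB_nonneg m B ω)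
    unfold fm
    by_cases hx : ∃ x, m ≤ cz ends ω x
    · rw [if_pos hx]
      obtain ⟨x, hx⟩ := hx
      have h2 : mg ends γ x ω ≤ ∑ B : Finset V, gw γ B * gB ends m B ω := by
        rw [mg_eq]
        refine Finset.sum_le_sum fun B _ => ?_
        apply mul_le_mul_of_nonneg_left _ (gw_nonneg hγ0 hγ1 B)
        unfold gB
        by_cases hc : Conn ends ω B x
        · rw [if_pos hc, if_pos ⟨x, hc, hx⟩]
        · rw [if_neg hc]
          split_ifs <;> norm_num
      refine le_trans ?_ h2
      unfold mg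
      have h4 : (1 - γ) ^ (cl ends ω Set.univ x).card ≤ Real.exp (-1) := by
        have h5 : 1 - γ ≤ Real.exp (-γ) := by
          have := Real.add_one_le_exp (-γ)
          linarith
        calc (1 - γ) ^ (cl ends ω Set.univ x).card ≤
            (Real.exp (-γ)) ^ (cl ends ω Set.univ x).card :=
              pow_le_pow_left₀ (by linarith) h5 _
          _ = Real.exp (-(γ * (cl ends ω Set.univ x).card)) := by
              rw [← Real.exp_nat_mul]
              congr 1
              ring
          _ ≤ Real.exp (-1) := by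
              apply Real.exp_le_exp.2
              have h6 : m ≤ ((cl ends ω Set.univ x).card : ℝ) := hx
              have := mul_le_mul_of_nonneg_left h6 hγ0
              linarith
      have he1 : Real.exp (-1) ≤ 1 / 2 := by
        have := Real.exp_one_gt_d9
        have h2 : Real.exp (-1) * Real.exp 1 = 1 := by rw [← Real.exp_add]; norm_num
        have h3 := Real.exp_pos (-1)
        nlinarith
      linarith
    · rw [if_neg hx]
      linarith
  have hsum : (∑ B : Finset V, gw γ B * Ex p (gB ends m B)) * (1 - F) ≤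
      2 * M * ∑ e, infl p e (fm ends m) := by
    calc (∑ B : Finset V, gw γ B * Ex p (gB ends m B)) * (1 - F) =
        ∑ B : Finset V, gw γ B * (Ex p (gB ends m B) * (1 - F)) := by
          rw [Finset.sum_mul]
          exact Finset.sum_congr rfl fun B _ => by ring
      _ ≤ ∑ B : Finset V, gw γ B * ∑ e, Ex p (tch ends B e) * infl p e (fm ends m) :=
          Finset.sum_le_sum fun B _ => mul_le_mul_of_nonneg_left (hcov B) (gw_nonneg hγ0 hγ1 B)
      _ = ∑ e, (∑ B : Finset V, gw γ B * Ex p (tch ends B e)) * infl p e (fm ends m) := by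
          have : ∀ B : Finset V, gw γ B * ∑ e, Ex p (tch ends B e) * infl p e (fm ends m) =
              ∑ e, gw γ B * Ex p (tch ends B e) * infl p e (fm ends m) := by
            intro B
            rw [Finset.mul_sum]
            exact Finset.sum_congr rfl fun e _ => by ring
          rw [Finset.sum_congr rfl fun B _ => this B, Finset.sum_comm]
          exact Finset.sum_congr rfl fun e _ => by rw [Finset.sum_mul]
      _ ≤ ∑ e, (2 * M) * infl p e (fm ends m) :=
          Finset.sum_le_sum fun e _ => mul_le_mul_of_nonneg_right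
            (tch_avg h0 h1 hγ0 hγ1 hM e) (infl_nonneg h0 h1 e _)
      _ = _ := by rw [Finset.mul_sum]
  have hinf : ∑ e, infl p e (fm ends m) = 2 * p * Ex p (fun ω => ∑ e, if ω e = true then 0 else
        fm ends m (Function.update ω e true) - fm ends m ω) := by
    rw [Ex_sum, Finset.sum_congr rfl fun e _ => infl_eq h0 h1 e (fm ends m)
      (fun ω => fm_mono m e ω), ← Finset.mul_sum]
  rw [hinf] at hsum
  calc (1 / 2) * (F * (1 - F)) = ((1 / 2) * F) * (1 - F) := by ring
    _ ≤ (∑ B : Finset V, gw γ B * Ex p (gB ends m B)) * (1 - F) :=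
        mul_le_mul_of_nonneg_right hlow (by linarith)
    _ ≤ _ := hsum
    _ = _ := by ring

/-- Integration of the amplification inequality. -/
lemma amp_int {p q0 q W χ C m π η : ℝ} (hp : 0 < p) (hpq0 : p ≤ q0) (hq0q : q0 ≤ q) (hq : q < 1)
    (hW : 0 < W) (hχ : 0 < χ) (hC : 0 < C) (hqW : q * W ≤ C) (hm1 : 1 ≤ m) (hπ : 0 < π) (hη : 0 < η)
    (hM : ∀ r, p ≤ r → r ≤ q → ∀ x, Ex r (mg ends (1 / m) x) ≤ 3 * C * (1 / χ + W * (r - p)))
    (hstart : π ≤ Ex q0 (fm ends m)) (hend : Ex q (fm ends m) ≤ 1 - η) :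
    π * η / (24 * C ^ 2) * (Real.log (1 / χ + W * (q - p)) - Real.log (1 / χ + W * (q0 - p))) ≤
      1 := by
  set κ : ℝ := π * η / (24 * C ^ 2) with hκ
  have hκ0 : 0 < κ := by positivity
  set F : ℝ → ℝ := fun r => Ex r (fm ends m) with hF
  set R : ℝ → ℝ := fun r => Ex r (fun ω => ∑ e, if ω e = true then 0 else
        fm ends m (Function.update ω e true) - fm ends m ω) with hR
  have hFd : ∀ r, r < 1 → HasDerivAt F ((1 - r)⁻¹ * R r) r :=
    fun r hr => Ex_hasDerivAt r (fm ends m) (ne_of_lt hr)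
  have hFm : ∀ r r', 0 < r → r ≤ r' → r' < 1 → F r ≤ F r' :=
    fun r r' h1 h2 h3 => Ex_param_mono (fun ω e => fm_mono m e ω) h1 h2 h3
  have hlogpos : ∀ r, p ≤ r → 0 < 1 / χ + W * (r - p) := by
    intro r hr
    have : 0 ≤ W * (r - p) := mul_nonneg hW.le (by linarith)
    positivity
  have hLd : ∀ r, p ≤ r → HasDerivAt (fun r => κ * Real.log (1 / χ + W * (r - p)))
      (κ * (W / (1 / χ + W * (r - p)))) r := by
    intro r hr
    have h1 : HasDerivAt (fun r => 1 / χ + W * (r - p)) W r := by
      have := ((hasDerivAt_id r).sub_const p).const_mul W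
      simpa using this.const_add (1 / χ)
    have h2 := (h1.log (hlogpos r hr).ne').const_mul κ
    exact h2
  set H : ℝ → ℝ := fun r => F r - κ * Real.log (1 / χ + W * (r - p)) with hH
  have hHd : ∀ r, p ≤ r → r < 1 → HasDerivAt H ((1 - r)⁻¹ * R r -
      κ * (W / (1 / χ + W * (r - p)))) r := fun r h1 h2 => (hFd r h2).sub (hLd r h1)
  have hmon : MonotoneOn H (Set.Icc q0 q) := by
    apply monotoneOn_of_deriv_nonneg (convex_Icc q0 q)
    · intro r hr
      exact (hHd r (hpq0.trans hr.1) (lt_of_le_of_lt hr.2 hq)).continuousAt.continuousWithinAt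
    · intro r hr
      rw [interior_Icc] at hr
      exact (hHd r (hpq0.trans hr.1.le) (hr.2.trans hq)).differentiableAt.differentiableWithinAt
    · intro r hr
      rw [interior_Icc] at hr
      have hpr : p ≤ r := hpq0.trans hr.1.le
      have hr0 : 0 < r := lt_of_lt_of_le hp hpr
      have hr1 : r < 1 := hr.2.trans hq
      rw [(hHd r hpr hr1).deriv]
      have hc := amp_cov (ends := ends) (γ := 1 / m) (m := m) hr0.le hr1.le (by positivity)
        (by rw [div_le_one (by linarith)]; exact hm1) (by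
          rw [one_div, inv_mul_cancel₀ (by linarith)]) (hM r hpr hr.2.le)
      have hFr1 : π ≤ F r := hstart.trans (hFm q0 r (lt_of_lt_of_le hp hpq0) hr.1.le hr1)
      have hFr2 : F r ≤ 1 - η := (hFm r q hr0 hr.2.le hq).trans hend
      have hFF : π * η ≤ F r * (1 - F r) := by nlinarith
      have hL := hlogpos r hpr
      have hR0 : 0 ≤ R r := Ex_nonneg hr0.le hr1.le fun ω => Finset.sum_nonneg fun e _ => by
        split_ifs
        · exact le_rfl
        · have := fm_mono (ends := ends) m e ω
          linarith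
      have hRr : R r ≤ (1 - r)⁻¹ * R r := by
        have : 1 ≤ (1 - r)⁻¹ := by
          rw [one_le_inv₀ (by linarith)]
          linarith
        nlinarith
      have h5 : κ * (W / (1 / χ + W * (r - p))) ≤ R r := by
        rw [← mul_div_assoc, div_le_iff₀ hL]
        have h6 : (1 / 2) * (π * η) ≤ 4 * r * (3 * C * (1 / χ + W * (r - p))) * R r :=
          (mul_le_mul_of_nonneg_left hFF (by norm_num)).trans hc
        have h7 : r * W ≤ C := (mul_le_mul_of_nonneg_right hr.2.le hW.le).trans hqW
        -- multiply by `W`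
        have h8 : (π * η) * W ≤ (24 * C ^ 2) * (R r * (1 / χ + W * (r - p))) := by
          have h9 : (1 / 2) * (π * η) * W ≤
              4 * r * (3 * C * (1 / χ + W * (r - p))) * R r * W :=
            mul_le_mul_of_nonneg_right h6 hW.le
          have h10 : 4 * r * (3 * C * (1 / χ + W * (r - p))) * R r * W =
              (12 * C * (R r * (1 / χ + W * (r - p)))) * (r * W) := by ring
          rw [h10] at h9
          have h11 : (12 * C * (R r * (1 / χ + W * (r - p)))) * (r * W) ≤
              (12 * C * (R r * (1 / χ + W * (r - p)))) * C := by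
            apply mul_le_mul_of_nonneg_left h7
            positivity
          nlinarith
        rw [hκ, div_mul_eq_mul_div, div_le_iff₀ (by positivity)]
        linarith
      linarith
  have h1 := hmon (Set.left_mem_Icc.2 hq0q) (Set.right_mem_Icc.2 hq0q) hq0q
  have h2 : F q ≤ 1 := by
    change Ex q (fm ends m) ≤ 1
    linarith
  have h3 : 0 ≤ F q0 := hπ.le.trans hstart
  simp only [hH] at h1
  rw [mul_sub]
  linarith

end Pool.Agent.PERC29
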