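import Pool.Agent.Lib.MP_29e17e_pr.FixB

set_option autoImplicit false
set_option linter.unusedSectionVars false

open Finset

namespace Pool.Agent.PERC29

variable {V : Type*} [Fintype V] [DecidableEq V] {E : Type*} [Fintype E] [DecidableEq E]
  {ends : E → Sym2 V}

/-- Weight of the random set `B`. -/
noncomputable def gw (γ : ℝ) (B : Finset V) : ℝ := γ ^ B.card * (1 - γ) ^ (Fintype.card V - B.card)

open scoped Classical in
lemma ghost (γ : ℝ) (C : Finset V) :
    ∑ B : Finset V, gw γ B * (if ∃ b ∈ B, b ∈ C then 0 else 1) = (1 - γ) ^ C.card := by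
  have h1 : ∑ B : Finset V, gw γ B * (if ∃ b ∈ B, b ∈ C then 0 else 1) =
      ∑ B ∈ (Cᶜ).powerset, gw γ B := by
    rw [← Finset.sum_subset (Finset.subset_univ (Cᶜ).powerset)]
    · refine Finset.sum_congr rfl fun B hB => ?_
      rw [if_neg, mul_one]
      rintro ⟨b, hb, hbC⟩
      exact (Finset.mem_compl.1 (Finset.mem_powerset.1 hB hb)) hbC
    · intro B _ hB
      rw [if_pos, mul_zero]
      by_contra hcon
      apply hB
      rw [Finset.mem_powerset]
      intro b hb
      rw [Finset.mem_compl]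
      intro hbC
      exact hcon ⟨b, hb, hbC⟩
  rw [h1]
  have h2 : ∀ B ∈ (Cᶜ).powerset, gw γ B =
      (1 - γ) ^ C.card * (γ ^ B.card * (1 - γ) ^ ((Cᶜ).card - B.card)) := by
    intro B hB
    have hle : B.card ≤ (Cᶜ).card := Finset.card_le_card (Finset.mem_powerset.1 hB)
    have hC : C.card + (Cᶜ).card = Fintype.card V := Finset.card_add_card_compl C
    unfold gw
    have : Fintype.card V - B.card = C.card + ((Cᶜ).card - B.card) := by omega
    rw [this, pow_add]
    ring
  rw [Finset.sum_congr rfl h2, ← Finset.mul_sum, Finset.sum_pow_mul_eq_add_pow]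
  simp

lemma conn_iff (ω : E → Bool) (B : Finset V) (o : V) :
    Conn ends ω B o ↔ ∃ b ∈ B, b ∈ cl ends ω Set.univ o := by
  unfold Conn
  constructor
  · rintro ⟨b, hb, h⟩
    exact ⟨b, hb, mem_cl.2 h.symm⟩
  · rintro ⟨b, hb, h⟩
    exact ⟨b, hb, (mem_cl.1 h).symm⟩

open scoped Classical in
lemma ghost' (γ : ℝ) (ω : E → Bool) (o : V) :
    ∑ B : Finset V, gw γ B * (if Conn ends ω B o then 0 else 1) =
      (1 - γ) ^ (cl ends ω Set.univ o).card := by
  rw [← ghost]
  refine Finset.sum_congr rfl fun B _ => ?_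
  congr 1
  exact if_congr (conn_iff ω B o) rfl rfl

lemma gw_nonneg {γ : ℝ} (h0 : 0 ≤ γ) (h1 : γ ≤ 1) (B : Finset V) : 0 ≤ gw γ B := by
  unfold gw
  exact mul_nonneg (pow_nonneg h0 _) (pow_nonneg (by linarith) _)

lemma gw_sum (γ : ℝ) : ∑ B : Finset V, gw γ B = 1 := by
  classical
  have := ghost (V := V) γ ∅
  simpa using this

/-- The magnetisation function. -/
noncomputable def mg (ends : E → Sym2 V) (γ : ℝ) (o : V) (ω : E → Bool) : ℝ :=
  1 - (1 - γ) ^ (cl ends ω Set.univ o).card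

open scoped Classical in
lemma mg_eq (γ : ℝ) (o : V) (ω : E → Bool) :
    mg ends γ o ω = ∑ B : Finset V, gw γ B * (if Conn ends ω B o then 1 else 0) := by
  unfold mg
  rw [← ghost' (ends := ends)]
  calc _ = (∑ B : Finset V, gw γ B) - ∑ B : Finset V, gw γ B * (if Conn ends ω B o then 0 else 1) := by
        rw [gw_sum]
    _ = _ := by
        rw [← Finset.sum_sub_distrib]
        refine Finset.sum_congr rfl fun B _ => ?_
        split_ifs <;> ring

open scoped Classical in
/-- The averaged inequality. -/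
lemma ave (p χ γ : ℝ) (h0 : 0 ≤ p) (h1 : p ≤ 1) (hγ0 : 0 ≤ γ) (hγ1 : γ ≤ 1) (o : V)
    (hχ : ∀ y, Ex p (fun ω => cs ends ω Set.univ y) ≤ χ)
    (hχo : χ ≤ Ex p (fun ω => cs ends ω Set.univ o)) :
    χ * (1 - Ex p (mg ends γ o)) ≤
      Ex p (fun ω => (1 - γ) ^ (cl ends ω Set.univ o).card * cs ends ω Set.univ o) +
      p * χ * Ex p (fun ω => ∑ e, (if ω e = true then 0 else
        mg ends γ o (Function.update ω e true) - mg ends γ o ω)) := by
  have hχ0 : 0 ≤ χ := le_trans (Ex_nonneg h0 h1 fun ω => cs_nonneg ω _ _) (hχ o)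
  have hsum : ∀ h : (E → Bool) → ℝ,
      ∑ B : Finset V, gw γ B * Ex p (fun ω => (if Conn ends ω B o then 0 else 1) * h ω) =
      Ex p (fun ω => (1 - γ) ^ (cl ends ω Set.univ o).card * h ω) := by
    intro h
    have e1 : ∀ B : Finset V, gw γ B * Ex p (fun ω => (if Conn ends ω B o then 0 else 1) * h ω) =
        Ex p (fun ω => gw γ B * ((if Conn ends ω B o then 0 else 1) * h ω)) :=
      fun B => (Ex_mul_left _ _ _).symm
    rw [Finset.sum_congr rfl fun B _ => e1 B, ← Ex_sum]
    apply Ex_congr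
    intro ω
    rw [← ghost' (ends := ends), Finset.sum_mul]
    exact Finset.sum_congr rfl fun B _ => by ring
  have hl : χ * (1 - Ex p (mg ends γ o)) =
      ∑ B : Finset V, gw γ B * (χ * Ex p (fun ω => if Conn ends ω B o then (0 : ℝ) else 1)) := by
    have e1 := hsum (fun _ => 1)
    simp only [mul_one] at e1
    have e2 : Ex p (mg ends γ o) = 1 - Ex p (fun ω => (1 - γ) ^ (cl ends ω Set.univ o).card) := by
      have e3 : ∀ ω, mg ends γ o ω = 1 + (-1) * (1 - γ) ^ (cl ends ω Set.univ o).card := by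
        intro ω; unfold mg; ring
      rw [Ex_congr e3, Ex_add, Ex_mul_left, Ex_const]
      ring
    rw [e2, sub_sub_cancel, ← e1, Finset.mul_sum]
    exact Finset.sum_congr rfl fun B _ => by ring
  rw [hl]
  have hstep : ∀ B : Finset V, gw γ B * (χ * Ex p (fun ω => if Conn ends ω B o then (0 : ℝ) else 1)) ≤
      gw γ B * Ex p (fun ω => (if Conn ends ω B o then 0 else 1) * cs ends ω Set.univ o) +
      gw γ B * (p * χ * Ex p (fun ω => ∑ e, (if ω e = true then 0 else
        ((if Conn ends (Function.update ω e true) B o then (1 : ℝ) else 0) -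
          (if Conn ends ω B o then 1 else 0))))) := by
    intro B
    rw [← mul_add]
    apply mul_le_mul_of_nonneg_left _ (gw_nonneg hγ0 hγ1 B)
    refine (dct_B p χ h0 h1 B o hχ hχo).trans (add_le_add le_rfl ?_)
    apply mul_le_mul_of_nonneg_left _ (mul_nonneg h0 hχ0)
    exact Ex_mono h0 h1 fun ω => brd_le ω B o
  refine (Finset.sum_le_sum fun B _ => hstep B).trans (le_of_eq ?_)
  rw [Finset.sum_add_distrib, hsum]
  congr 1
  have e1 : ∀ B : Finset V, gw γ B * (p * χ * Ex p (fun ω => ∑ e, (if ω e = true then 0 else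
        ((if Conn ends (Function.update ω e true) B o then (1 : ℝ) else 0) -
          (if Conn ends ω B o then 1 else 0))))) =
      p * χ * Ex p (fun ω => gw γ B * ∑ e, (if ω e = true then 0 else
        ((if Conn ends (Function.update ω e true) B o then (1 : ℝ) else 0) -
          (if Conn ends ω B o then 1 else 0)))) := by
    intro B
    rw [Ex_mul_left]; ring
  rw [Finset.sum_congr rfl fun B _ => e1 B, ← Finset.mul_sum, ← Ex_sum]
  congr 1
  apply Ex_congr
  intro ω
  simp_rw [Finset.mul_sum]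
  rw [Finset.sum_comm]
  refine Finset.sum_congr rfl fun e _ => ?_
  by_cases he : ω e = true
  · simp [he]
  · simp only [he]
    rw [mg_eq, mg_eq, ← Finset.sum_sub_distrib]
    refine Finset.sum_congr rfl fun B _ => ?_
    simp only [if_false, Bool.false_eq_true]
    ring

/-- `N (1-γ)^N ≤ (1 - (1-γ)^N) / γ`. -/
lemma pow_ineq {γ : ℝ} (h0 : 0 < γ) (h1 : γ ≤ 1) (N : ℕ) :
    γ * ((1 - γ) ^ N * N) ≤ 1 - (1 - γ) ^ N := by
  have h2 : 0 ≤ 1 - γ := by linarith
  induction N with
  | zero => simp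
  | succ n ih =>
    have h3 : (1 - γ) ^ (n + 1) ≤ (1 - γ) ^ n := by
      rw [pow_succ]
      exact mul_le_of_le_one_right (pow_nonneg h2 n) (by linarith)
    have h4 : 0 ≤ (1 - γ) ^ (n + 1) := pow_nonneg h2 _
    push_cast
    have h5 : 1 - (1 - γ) ^ (n + 1) = (1 - (1 - γ) ^ n) + γ * (1 - γ) ^ n := by
      rw [pow_succ]; ring
    rw [h5]
    have h6 : γ * ((1 - γ) ^ (n + 1) * n) ≤ γ * ((1 - γ) ^ n * n) := by
      apply mul_le_mul_of_nonneg_left _ h0.le
      exact mul_le_mul_of_nonneg_right h3 (Nat.cast_nonneg n)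
    have h7 : γ * (1 - γ) ^ (n + 1) ≤ γ * (1 - γ) ^ n := mul_le_mul_of_nonneg_left h3 h0.le
    nlinarith

end Pool.Agent.PERC29
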