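import Pool.Agent.Lib.MP_29e17e_pr.Expc

set_option autoImplicit false
set_option linter.unusedSectionVars false

open Finset

namespace Pool.Agent.PERC29

variable {E : Type*} [Fintype E] [DecidableEq E]

open scoped Classical in
/-- Indicator that some set of the family is open. -/
noncomputable def opn (𝒜 : Set (Finset E)) (ω : E → Bool) : ℝ :=
  if ∃ F ∈ 𝒜, ∀ e ∈ F, ω e = true then 1 else 0

/-- Disjoint unions of members of two families. -/
def dsj (𝒜 ℬ : Set (Finset E)) : Set (Finset E) :=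
  {H | ∃ F ∈ 𝒜, ∃ G ∈ ℬ, Disjoint F G ∧ H = F ∪ G}

/-- averaging over one coordinate -/
private lemma bk_av (p : ℝ) (e : E) (f : (E → Bool) → ℝ) :
    Ex p f = Ex p (fun ω => p * f (Function.update ω e true) +
      (1 - p) * f (Function.update ω e false)) := by
  have hu : ∀ b, ∀ ω ω' : E → Bool, (∀ e' ≠ e, ω e' = ω' e') →
      f (Function.update ω e b) = f (Function.update ω' e b) := by
    intro b ω ω' h
    congr 1
    funext x
    by_cases hx : x = e
    · subst hx; simp
    · rw [Function.update_of_ne hx, Function.update_of_ne hx, h x hx]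
  have h1 : ∀ ω : E → Bool, f ω =
      ((if ω e = true then 1 else 0) * f (Function.update ω e true) +
        (-1) * ((if ω e = true then 1 else 0) * f (Function.update ω e false))) +
        f (Function.update ω e false) := by
    intro ω
    by_cases h : ω e = true
    · have h2 : Function.update ω e true = ω := by rw [← h, Function.update_eq_self]
      rw [if_pos h, h2]
      ring
    · have h' : ω e = false := by simpa using h
      have h2 : Function.update ω e false = ω := by rw [← h', Function.update_eq_self]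
      rw [if_neg h, h2]
      ring
  rw [Ex_congr h1, Ex_add, Ex_add, Ex_mul_left, Ex_coord p e _ (hu true),
    Ex_coord p e _ (hu false), Ex_add, Ex_mul_left, Ex_mul_left]
  ring

/-- the splitting event -/
private def bkX (𝒜 ℬ : Set (Finset E)) (S : Finset E) (ω ω' : E → Bool) : Prop :=
  ∃ F ∈ 𝒜, ∃ G ∈ ℬ, (∀ x ∈ F, ω x = true) ∧ (∀ x ∈ G, x ∉ S → ω x = true) ∧
    (∀ x ∈ G, x ∈ S → ω' x = true) ∧ ∀ x, x ∈ F → x ∈ G → x ∈ S

open scoped Classical in
/-- its indicator -/
private noncomputable def bkI (𝒜 ℬ : Set (Finset E)) (S : Finset E) (ω ω' : E → Bool) : ℝ :=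
  if bkX 𝒜 ℬ S ω ω' then 1 else 0

private lemma bkI_nonneg (𝒜 ℬ : Set (Finset E)) (S : Finset E) (ω ω' : E → Bool) :
    0 ≤ bkI 𝒜 ℬ S ω ω' := by
  unfold bkI
  split_ifs <;> norm_num

private lemma bkI_le (𝒜 ℬ : Set (Finset E)) (S : Finset E) (ω ω' : E → Bool) :
    bkI 𝒜 ℬ S ω ω' ≤ 1 := by
  unfold bkI
  split_ifs <;> norm_num

private lemma bkI_pos {𝒜 ℬ : Set (Finset E)} {S : Finset E} {ω ω' : E → Bool}
    (h : bkX 𝒜 ℬ S ω ω') : bkI 𝒜 ℬ S ω ω' = 1 := by
  unfold bkI
  rw [if_pos h]

private lemma bkI_neg {𝒜 ℬ : Set (Finset E)} {S : Finset E} {ω ω' : E → Bool}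
    (h : ¬ bkX 𝒜 ℬ S ω ω') : bkI 𝒜 ℬ S ω ω' = 0 := by
  unfold bkI
  rw [if_neg h]

/-- the average over the coordinate `e` of both configurations -/
private noncomputable def bkT (p : ℝ) (e : E) (g : (E → Bool) → (E → Bool) → ℝ)
    (ω ω' : E → Bool) : ℝ :=
  p * (p * g (Function.update ω e true) (Function.update ω' e true) +
    (1 - p) * g (Function.update ω e true) (Function.update ω' e false)) +
  (1 - p) * (p * g (Function.update ω e false) (Function.update ω' e true) +
    (1 - p) * g (Function.update ω e false) (Function.update ω' e false))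

private lemma bk_av2 (p : ℝ) (e : E) (g : (E → Bool) → (E → Bool) → ℝ) :
    Ex p (fun ω => Ex p (fun ω' => g ω ω')) = Ex p (fun ω => Ex p (fun ω' => bkT p e g ω ω')) := by
  rw [bk_av p e (fun ω => Ex p (fun ω' => g ω ω'))]
  apply Ex_congr
  intro ω
  rw [bk_av p e (fun ω' => g (Function.update ω e true) ω'),
    bk_av p e (fun ω' => g (Function.update ω e false) ω'), ← Ex_mul_left, ← Ex_mul_left, ← Ex_add]
  rfl

/-- admissible pair, up to the coordinate `e` -/
private lemma bk_get {𝒜 ℬ : Set (Finset E)} {S : Finset E} {e : E} (he : e ∉ S)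
    {ω ω' : E → Bool} {b b' : Bool}
    (h : bkX 𝒜 ℬ S (Function.update ω e b) (Function.update ω' e b')) :
    ∃ F ∈ 𝒜, ∃ G ∈ ℬ, (∀ x ∈ F, x ≠ e → ω x = true) ∧ (∀ x ∈ G, x ∉ S → x ≠ e → ω x = true) ∧
      (∀ x ∈ G, x ∈ S → ω' x = true) ∧ (∀ x, x ∈ F → x ∈ G → x ∈ S) ∧
      (e ∈ F → b = true) ∧ (e ∈ G → b = true) := by
  obtain ⟨F, hF, G, hG, h1, h2, h3, h4⟩ := h
  refine ⟨F, hF, G, hG, ?_, ?_, ?_, h4, ?_, ?_⟩
  · intro x hx hxe
    have := h1 x hx
    rwa [Function.update_of_ne hxe] at this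
  · intro x hx hxS hxe
    have := h2 x hx hxS
    rwa [Function.update_of_ne hxe] at this
  · intro x hx hxS
    have hxe : x ≠ e := fun h => he (h ▸ hxS)
    have := h3 x hx hxS
    rwa [Function.update_of_ne hxe] at this
  · intro heF
    have := h1 e heF
    rwa [Function.update_self] at this
  · intro heG
    have := h2 e heG he
    rwa [Function.update_self] at this

private lemma bk_put {𝒜 ℬ : Set (Finset E)} {S : Finset E} {e : E} {ω ω' : E → Bool}
    {F G : Finset E} (hF : F ∈ 𝒜) (hG : G ∈ ℬ) (h1 : ∀ x ∈ F, x ≠ e → ω x = true)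
    (h2 : ∀ x ∈ G, x ∉ S → x ≠ e → ω x = true) (h3 : ∀ x ∈ G, x ∈ S → ω' x = true)
    (h4 : ∀ x, x ∈ F → x ∈ G → x ∈ S) (he : e ∉ S) {b b' : Bool} (hb : e ∈ F → b = true)
    (hb' : e ∈ G → b' = true) :
    bkX 𝒜 ℬ (insert e S) (Function.update ω e b) (Function.update ω' e b') := by
  refine ⟨F, hF, G, hG, ?_, ?_, ?_, fun x hxF hxG => Finset.mem_insert_of_mem (h4 x hxF hxG)⟩
  · intro x hx
    by_cases hxe : x = e
    · subst hxe
      rw [Function.update_self]
      exact hb hx
    · rw [Function.update_of_ne hxe]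
      exact h1 x hx hxe
  · intro x hx hxS
    rw [Finset.mem_insert, not_or] at hxS
    rw [Function.update_of_ne hxS.1]
    exact h2 x hx hxS.2 hxS.1
  · intro x hx hxS
    by_cases hxe : x = e
    · subst hxe
      rw [Function.update_self]
      exact hb' hx
    · rw [Function.update_of_ne hxe]
      exact h3 x hx ((Finset.mem_insert.1 hxS).resolve_left hxe)

private lemma bk_put0 {𝒜 ℬ : Set (Finset E)} {S : Finset E} {e : E} {ω ω' : E → Bool}
    {F G : Finset E} (hF : F ∈ 𝒜) (hG : G ∈ ℬ) (h1 : ∀ x ∈ F, x ≠ e → ω x = true)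
    (h2 : ∀ x ∈ G, x ∉ S → x ≠ e → ω x = true) (h3 : ∀ x ∈ G, x ∈ S → ω' x = true)
    (h4 : ∀ x, x ∈ F → x ∈ G → x ∈ S) (he : e ∉ S) (hb : e ∉ F) (hb' : e ∉ G) (b b' : Bool) :
    bkX 𝒜 ℬ S (Function.update ω e b) (Function.update ω' e b') := by
  refine ⟨F, hF, G, hG, ?_, ?_, ?_, h4⟩
  · intro x hx
    have hxe : x ≠ e := fun h => hb (h ▸ hx)
    rw [Function.update_of_ne hxe]
    exact h1 x hx hxe
  · intro x hx hxS
    have hxe : x ≠ e := fun h => hb' (h ▸ hx)
    rw [Function.update_of_ne hxe]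
    exact h2 x hx hxS hxe
  · intro x hx hxS
    have hxe : x ≠ e := fun h => he (h ▸ hxS)
    rw [Function.update_of_ne hxe]
    exact h3 x hx hxS

private lemma bk_step_ptw {p : ℝ} (h0 : 0 ≤ p) (h1 : p ≤ 1) {𝒜 ℬ : Set (Finset E)}
    {S : Finset E} {e : E} (he : e ∉ S) (ω ω' : E → Bool) :
    bkT p e (bkI 𝒜 ℬ S) ω ω' ≤ bkT p e (bkI 𝒜 ℬ (insert e S)) ω ω' := by
  have hq : 0 ≤ 1 - p := by linarith
  have hpp : 0 ≤ p * p := mul_nonneg h0 h0
  have hpq : 0 ≤ p * (1 - p) := mul_nonneg h0 hq
  have hqq : 0 ≤ (1 - p) * (1 - p) := mul_nonneg hq hq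
  have n := fun (b b' : Bool) => bkI_nonneg 𝒜 ℬ (insert e S) (Function.update ω e b)
    (Function.update ω' e b')
  have l := fun (b b' : Bool) => bkI_le 𝒜 ℬ S (Function.update ω e b)
    (Function.update ω' e b')
  have m := fun (b b' : Bool) => bkI_nonneg 𝒜 ℬ S (Function.update ω e b)
    (Function.update ω' e b')
  unfold bkT
  by_cases hz : ∃ b', bkX 𝒜 ℬ S (Function.update ω e false) (Function.update ω' e b')
  · obtain ⟨b', hz⟩ := hz
    obtain ⟨F, hF, G, hG, k1, k2, k3, k4, k5, k6⟩ := bk_get he hz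
    have e1 : e ∉ F := fun h => by simpa using k5 h
    have e2 : e ∉ G := fun h => by simpa using k6 h
    have hall : ∀ b b', bkI 𝒜 ℬ (insert e S) (Function.update ω e b)
        (Function.update ω' e b') = 1 := fun b b' =>
      bkI_pos (bk_put hF hG k1 k2 k3 k4 he (fun h => absurd h e1) (fun h => absurd h e2))
    rw [hall, hall, hall, hall]
    have := mul_le_mul_of_nonneg_left (l true true) hpp
    have := mul_le_mul_of_nonneg_left (l true false) hpq
    have := mul_le_mul_of_nonneg_left (l false true) hpq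
    have := mul_le_mul_of_nonneg_left (l false false) hqq
    nlinarith
  · push Not at hz
    rw [bkI_neg (hz true), bkI_neg (hz false)]
    by_cases hx : ∃ b', bkX 𝒜 ℬ S (Function.update ω e true) (Function.update ω' e b')
    · obtain ⟨b', hx⟩ := hx
      obtain ⟨F, hF, G, hG, k1, k2, k3, k4, k5, k6⟩ := bk_get he hx
      by_cases heF : e ∈ F
      · have e2 : e ∉ G := fun h => he (k4 e heF h)
        have hall : ∀ b', bkI 𝒜 ℬ (insert e S) (Function.update ω e true)
            (Function.update ω' e b') = 1 := fun b' =>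
          bkI_pos (bk_put hF hG k1 k2 k3 k4 he (fun _ => rfl) (fun h => absurd h e2))
        rw [hall, hall]
        have := mul_le_mul_of_nonneg_left (l true true) hpp
        have := mul_le_mul_of_nonneg_left (l true false) hpq
        have := mul_nonneg hpq (n false true)
        have := mul_nonneg hqq (n false false)
        nlinarith
      · by_cases heG : e ∈ G
        · have hall : ∀ b, bkI 𝒜 ℬ (insert e S) (Function.update ω e b)
              (Function.update ω' e true) = 1 := fun b =>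
            bkI_pos (bk_put hF hG k1 k2 k3 k4 he (fun h => absurd h heF) (fun _ => rfl))
          rw [hall, hall]
          have := mul_le_mul_of_nonneg_left (l true true) hpp
          have := mul_le_mul_of_nonneg_left (l true false) hpq
          have := mul_nonneg hpq (n true false)
          have := mul_nonneg hqq (n false false)
          nlinarith
        · exact absurd (bk_put0 hF hG k1 k2 k3 k4 he heF heG false true) (hz true)
    · push Not at hx
      rw [bkI_neg (hx true), bkI_neg (hx false)]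
      have := mul_nonneg hpp (n true true)
      have := mul_nonneg hpq (n true false)
      have := mul_nonneg hpq (n false true)
      have := mul_nonneg hqq (n false false)
      nlinarith

/-- ROW 29e-BK. The van den Berg and Kesten inequality for increasing events.
Proof (splitting of edges): for `S : Finset E` let `X S ω ω'` be the event that there are `F ∈ 𝒜`,
`G ∈ ℬ` with `F` open in `ω`, `G \ S` open in `ω`, `G ∩ S` open in `ω'` and `F ∩ G ⊆ S`. Then
`X ∅ ω ω'` is the event that a member of `dsj 𝒜 ℬ` is open in `ω`, and `X univ ω ω'` is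
`(some F ∈ 𝒜 open in ω) ∧ (some G ∈ ℬ open in ω')`. With
`Q S := Ex p (fun ω => Ex p (fun ω' => indicator of X S ω ω'))` show `Q S ≤ Q (insert e S)` for
`e ∉ S`: condition on all coordinates except `e` (use `Ex_coord` or: average over the coordinate
`e` of `ω` and of `ω'`; `Ex_split` in Osss.lean). With the other coordinates fixed let
`z` = (exists admissible pair with `e ∉ F`, `e ∉ G`), `α` = (admissible pair with `e ∈ F \ G`),
`β` = (admissible pair with `e ∈ G \ F`). If `z`, both events hold for all values; otherwise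
`X S` is `ω e = true ∧ (α ∨ β)`, and `X (insert e S)` contains `(ω e = true ∧ α) ∨ (ω' e = true ∧ β)`,
whose conditional probability is at least `p` if `α ∨ β`. Induct on `S` (Finset.induction). -/
theorem bk {p : ℝ} (h0 : 0 ≤ p) (h1 : p ≤ 1) (𝒜 ℬ : Set (Finset E)) :
    Ex p (opn (dsj 𝒜 ℬ)) ≤ Ex p (opn 𝒜) * Ex p (opn ℬ) := by
  classical
  have hmono : ∀ S : Finset E, Ex p (fun ω => Ex p (fun ω' => bkI 𝒜 ℬ ∅ ω ω')) ≤
      Ex p (fun ω => Ex p (fun ω' => bkI 𝒜 ℬ S ω ω')) := by
    intro S
    induction S using Finset.induction_on with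
    | empty => exact le_rfl
    | insert e S he ih =>
      refine ih.trans ?_
      rw [bk_av2 p e (bkI 𝒜 ℬ S), bk_av2 p e (bkI 𝒜 ℬ (insert e S))]
      exact Ex_mono h0 h1 fun ω => Ex_mono h0 h1 fun ω' => bk_step_ptw h0 h1 he ω ω'
  have hempty : Ex p (fun ω => Ex p (fun ω' => bkI 𝒜 ℬ ∅ ω ω')) = Ex p (opn (dsj 𝒜 ℬ)) := by
    apply Ex_congr
    intro ω
    have h2 : ∀ ω', bkI 𝒜 ℬ ∅ ω ω' = opn (dsj 𝒜 ℬ) ω := by
      intro ω'
      unfold bkI opn
      have h3 : bkX 𝒜 ℬ ∅ ω ω' ↔ ∃ F ∈ dsj 𝒜 ℬ, ∀ e ∈ F, ω e = true := by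
        constructor
        · rintro ⟨F, hF, G, hG, k1, k2, -, k4⟩
          refine ⟨F ∪ G, ⟨F, hF, G, hG, ?_, rfl⟩, ?_⟩
          · rw [Finset.disjoint_left]
            intro x hx hx'
            exact absurd (k4 x hx hx') (Finset.notMem_empty x)
          · intro x hx
            rcases Finset.mem_union.1 hx with hx | hx
            · exact k1 x hx
            · exact k2 x hx (Finset.notMem_empty x)
        · rintro ⟨H, ⟨F, hF, G, hG, hd, rfl⟩, hH⟩
          refine ⟨F, hF, G, hG, fun x hx => hH x (Finset.mem_union_left _ hx),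
            fun x hx _ => hH x (Finset.mem_union_right _ hx),
            fun x _ hx => absurd hx (Finset.notMem_empty x), fun x hx hx' => ?_⟩
          exact absurd hx' (Finset.disjoint_left.1 hd hx)
      rw [if_congr h3 rfl rfl]
    rw [Ex_congr h2, Ex_const]
  have huniv : Ex p (fun ω => Ex p (fun ω' => bkI 𝒜 ℬ Finset.univ ω ω')) =
      Ex p (opn 𝒜) * Ex p (opn ℬ) := by
    have h2 : ∀ ω ω', bkI 𝒜 ℬ Finset.univ ω ω' = opn 𝒜 ω * opn ℬ ω' := by
      intro ω ω'
      unfold bkI opn
      have h3 : bkX 𝒜 ℬ Finset.univ ω ω' ↔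
          (∃ F ∈ 𝒜, ∀ e ∈ F, ω e = true) ∧ ∃ G ∈ ℬ, ∀ e ∈ G, ω' e = true := by
        constructor
        · rintro ⟨F, hF, G, hG, k1, -, k3, -⟩
          exact ⟨⟨F, hF, k1⟩, G, hG, fun x hx => k3 x hx (Finset.mem_univ x)⟩
        · rintro ⟨⟨F, hF, k1⟩, G, hG, k3⟩
          exact ⟨F, hF, G, hG, k1, fun x _ hx => absurd (Finset.mem_univ x) hx,
            fun x hx _ => k3 x hx, fun x _ _ => Finset.mem_univ x⟩
      rw [if_congr h3 rfl rfl]
      by_cases k1 : ∃ F ∈ 𝒜, ∀ e ∈ F, ω e = true
      · by_cases k2 : ∃ G ∈ ℬ, ∀ e ∈ G, ω' e = true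
        · rw [if_pos ⟨k1, k2⟩, if_pos k1, if_pos k2, mul_one]
        · rw [if_neg (fun h => k2 h.2), if_neg k2, mul_zero]
      · rw [if_neg (fun h => k1 h.1), if_neg k1, zero_mul]
    have h3 : ∀ ω, Ex p (fun ω' => bkI 𝒜 ℬ Finset.univ ω ω') = Ex p (opn ℬ) * opn 𝒜 ω := by
      intro ω
      rw [Ex_congr (h2 ω), Ex_mul_left, mul_comm]
    rw [Ex_congr h3, Ex_mul_left, mul_comm]
  rw [← hempty, ← huniv]
  exact hmono Finset.univ

end Pool.Agent.PERC29
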