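import Pool.Agent.Lib.MP_29e17e_pr.Corc

set_option autoImplicit false
set_option linter.unusedSectionVars false

open Finset

namespace Pool.Agent.PERC29

variable {V : Type*} [Fintype V] [DecidableEq V] {E : Type*} [Fintype E] [DecidableEq E]
  {ends : E → Sym2 V}

/-- The final constant. -/
noncomputable def lf (C η : ℝ) (i : ℕ) : ℝ :=
  min (lc C i) (Real.exp (-(2 / (lpi C / 4 * η / (24 * C ^ 2)))) / (1 + lB C i))

lemma lf_pos {C η : ℝ} (hC : 1 ≤ C) (i : ℕ) : 0 < lf C η i := by
  have h1 := lc_pos hC i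
  have h4 := lB_pos hC i
  unfold lf
  apply lt_min h1
  positivity

open scoped Classical in
/-- The main theorem in library form, in probability. -/
theorem fin_prob2 {p q χ W C η : ℝ} (i : ℕ) (hC : 1 ≤ C) (hη : 0 < η) (h0 : 0 < p) (h1 : p < q) (hq : q < 1)
    (hW : 0 < W) [Nonempty V]
    (hqW : q * W ≤ C) (hdeg : ∀ x, ∑ y, nb ends x y ≤ W)
    (hχ : ∀ x, Ex p (fun ω => cz ends ω x) = χ)
    (hT : ∀ r, p ≤ r → r ≤ q → ∀ x, ∀ k : ℕ, 1 ≤ k →
      Ex r (fun ω => if (k : ℝ) ≤ cz ends ω x then (1 : ℝ) else 0) ≤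
      C * (1 / Real.sqrt k + W * (r - p)))
    (hQ : ∀ x, ∀ j : ℕ, 1 ≤ j → j ≤ 2 ^ i → cv ends p (4 * j) x x ≤
      C * (χ ^ (3 * (j - 1)) + χ ^ (4 * j) / (Fintype.card V)))
    (hVK : (Fintype.card V) ≤ C * χ ^ (2 ^ i + 3))
    (hV : χ ^ 3 ≤ lf C η i * (Fintype.card V))
    (hpq : p + 1 / (lf C η i * W * χ) ≤ q) :
    1 - η ≤ Ex q (fm ends (lf C η i * (Fintype.card V) / χ)) := by
  have hne := ‹Nonempty V›
  obtain ⟨o⟩ := ‹Nonempty V›
  have hC0 : 0 < C := by linarith
  have hp1 : p < 1 := h1.trans hq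
  set N : ℝ := (Fintype.card V : ℝ) with hN
  have hN0 : 0 < N := by
    rw [hN]
    have : 0 < Fintype.card V := Fintype.card_pos_iff.2 ⟨o⟩
    exact_mod_cast this
  have hχ1 : 1 ≤ χ := by
    rw [← hχ o]
    have := Ex_mono h0.le hp1.le (f := fun _ : E → Bool => (1 : ℝ))
      (g := fun ω => cz ends ω o) (fun ω => one_le_cz ω o)
    rwa [Ex_const] at this
  have hχ0 : 0 < χ := by linarith
  set c := lf C η i with hc
  have hc0 : 0 < c := lf_pos hC i
  have hck : c ≤ lc C i := min_le_left _ _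
  set B := lB C i with hB
  have hB0 : 0 < B := lB_pos hC i
  set κ : ℝ := lpi C / 4 * η / (24 * C ^ 2) with hκ
  have hκ0 : 0 < κ := by
    have := lpi_pos hC
    positivity
  have hce : c ≤ Real.exp (-(2 / κ)) / (1 + B) := min_le_right _ _
  have hkB : lc C i ≤ 1 / B := (min_le_right _ _).trans (min_le_left _ _)
  have hkm : lc C i ≤ lm C i := (min_le_right _ _).trans (min_le_right _ _)
  have hkm0 : 0 < lm C i := lm_pos hC i
  have hcB : c * B ≤ 1 := by
    have := hck.trans hkB
    rw [le_div_iff₀ hB0] at this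
    exact this
  set s : ℝ := B / (W * χ) with hs
  have hs0 : 0 < s := by positivity
  have hsq : p + s ≤ q := by
    have f1 : s ≤ 1 / (c * W * χ) := by
      rw [hs, div_le_div_iff₀ (by positivity) (by positivity)]
      have f3 := mul_le_mul_of_nonneg_right hcB (by positivity : 0 ≤ W * χ)
      nlinarith [f3]
    linarith
  have hs1 : s ≤ 1 := by linarith
  have hVc : χ ^ 3 ≤ lc C i * N := hV.trans (mul_le_mul_of_nonneg_right hck hN0.le)
  have hpW : p * W ≤ C := (mul_le_mul_of_nonneg_right h1.le hW.le).trans hqW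
  have hTp : ∀ x, ∀ k : ℕ, 1 ≤ k → Ex p (fun ω => if (k : ℝ) ≤ cz ends ω x then (1 : ℝ) else 0) ≤
      C / Real.sqrt k := by
    intro x k hk
    have := hT p le_rfl h1.le x k hk
    rw [sub_self, mul_zero, add_zero, mul_one_div] at this
    exact this
  have hcore := core2 (ends := ends) i hC h0 hp1 hW hpW hdeg hχ hTp hQ hVK hVc hs1
  rw [← hN] at hcore
  set m : ℝ := lm C i * N / χ with hm
  have hmχ : χ ^ 2 ≤ m := by
    rw [hm, le_div_iff₀ hχ0]
    have : lc C i * N ≤ lm C i * N := mul_le_mul_of_nonneg_right hkm hN0.le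
    calc χ ^ 2 * χ = χ ^ 3 := by ring
      _ ≤ _ := hVc.trans this
  have hm1 : 1 ≤ m := by nlinarith
  have hm0 : 0 < m := by linarith
  have hsm : χ ≤ Real.sqrt m := Real.le_sqrt_of_sq_le hmχ
  set q0 : ℝ := p + s with hq0
  have hmonoF : ∀ r r', 0 < r → r ≤ r' → r' < 1 → Ex r (fm ends m) ≤ Ex r' (fm ends m) :=
    fun r r' a1 a2 a3 => Ex_param_mono (fun ω e => fm_mono m e ω) a1 a2 a3
  have hstart : lpi C / 4 ≤ Ex q0 (fm ends m) := by
    refine hcore.trans (hmonoF _ _ ?_ ?_ (by linarith))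
    · have f1 : (1 - p) * (1 - s) ≤ (1 - p) * 1 :=
        mul_le_mul_of_nonneg_left (by linarith) (by linarith)
      linarith
    · have f1 : 0 ≤ p * s := by positivity
      rw [hq0]
      nlinarith
  have hM : ∀ r, p ≤ r → r ≤ q → ∀ x, Ex r (mg ends (1 / m) x) ≤
      3 * C * (1 / χ + W * (r - p)) := by
    intro r hpr hrq x
    have hr0 : 0 ≤ r := h0.le.trans hpr
    have hr1 : r ≤ 1 := by linarith
    have hw : 0 ≤ W * (r - p) := mul_nonneg hW.le (by linarith)
    have f1 := mg_min (ends := ends) hr0 hr1 hm1 x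
    have f2 := min_tail2 hr0 hr1 hC0.le hw x (hT r hpr hrq x) hm1
    have f3 : (1 / m) * Ex r (fun ω => min (cz ends ω x) m) ≤
        (1 / m) * (3 * C * Real.sqrt m + 2 * C * (W * (r - p)) * m) :=
      mul_le_mul_of_nonneg_left f2 (by positivity)
    have f4 : (1 / m) * (3 * C * Real.sqrt m + 2 * C * (W * (r - p)) * m) =
        3 * C * (Real.sqrt m / m) + 2 * C * (W * (r - p)) := by
      field_simp
    have f5 : Real.sqrt m / m ≤ 1 / χ := by
      rw [div_le_div_iff₀ hm0 hχ0]
      have : Real.sqrt m * Real.sqrt m = m := Real.mul_self_sqrt hm0.le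
      have h2 : 0 ≤ Real.sqrt m := Real.sqrt_nonneg _
      nlinarith
    have f6 : 3 * C * (Real.sqrt m / m) ≤ 3 * C * (1 / χ) :=
      mul_le_mul_of_nonneg_left f5 (by positivity)
    have f7 : 0 ≤ C * (W * (r - p)) := mul_nonneg hC0.le hw
    linarith
  -- contradiction argument
  have hmain : 1 - η ≤ Ex q (fm ends m) := by
    by_contra hcon
    push Not at hcon
    have hint := amp_int (ends := ends) h0 (by linarith : p ≤ q0) hsq hq hW hχ0 hC0 hqW hm1
      (by have := lpi_pos hC; positivity) hη hM hstart hcon.le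
    rw [← hκ] at hint
    have g1 : 1 / χ + W * (q0 - p) = (1 + B) / χ := by
      rw [hq0, hs]
      field_simp
      ring
    have g2 : 1 / (c * χ) ≤ 1 / χ + W * (q - p) := by
      have : W * (1 / (c * W * χ)) ≤ W * (q - p) :=
        mul_le_mul_of_nonneg_left (by linarith) hW.le
      have e1 : W * (1 / (c * W * χ)) = 1 / (c * χ) := by field_simp
      have e2 : 0 < 1 / χ := by positivity
      linarith
    have g3 : Real.log (1 / (c * χ)) - Real.log ((1 + B) / χ) ≥ 2 / κ := by
      have e1 : Real.log (1 / (c * χ)) - Real.log ((1 + B) / χ) =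
          Real.log (1 / (c * (1 + B))) := by
        rw [← Real.log_div (by positivity) (by positivity)]
        congr 1
        field_simp
      rw [e1]
      have e2 : c * (1 + B) ≤ Real.exp (-(2 / κ)) := by
        rw [le_div_iff₀ (by positivity)] at hce
        exact hce
      have e3 : Real.log (c * (1 + B)) ≤ -(2 / κ) := by
        rw [Real.log_le_iff_le_exp (by positivity)]
        exact e2
      rw [one_div, Real.log_inv]
      linarith
    have g4 : Real.log (1 / (c * χ)) ≤ Real.log (1 / χ + W * (q - p)) :=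
      Real.log_le_log (by positivity) g2
    rw [g1] at hint
    have g5 : κ * (2 / κ) ≤ κ * (Real.log (1 / χ + W * (q - p)) - Real.log ((1 + B) / χ)) :=
      mul_le_mul_of_nonneg_left (by linarith) hκ0.le
    have g6 : κ * (2 / κ) = 2 := by field_simp
    linarith
  refine hmain.trans (Ex_mono (h0.trans h1).le hq.le fun ω => ?_)
  have hcm : c * N / χ ≤ m := by
    rw [hm]
    apply div_le_div_of_nonneg_right _ hχ0.le
    exact mul_le_mul_of_nonneg_right (hck.trans hkm) hN0.le
  unfold fm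
  by_cases hx : ∃ x, m ≤ cz ends ω x
  · obtain ⟨x, hx⟩ := hx
    rw [if_pos ⟨x, hx⟩, if_pos ⟨x, hcm.trans hx⟩]
  · rw [if_neg hx]
    split_ifs <;> norm_num

end Pool.Agent.PERC29
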