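import Pool.Agent.Lib.MP_29e17e_pr.Bridge
import Pool.Agent.Lib.MP_29e17e_pr.Prd

set_option autoImplicit false
set_option linter.unusedSectionVars false

open Finset

namespace Pool.Agent.PERC29

variable {V : Type} [Fintype V] [DecidableEq V] (G : SimpleGraph V) [Fintype G.edgeSet]

lemma conv_eq (p : ℝ) (n : ℕ) (x y : V) : conv G p n x y = cv (gends G) p n x y := by
  induction n generalizing y with
  | zero =>
    unfold conv cv
    by_cases h : x = y
    · rw [if_pos h, if_pos h]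
    · rw [if_neg h, if_neg h]
  | succ n ih =>
    unfold conv cv
    exact Finset.sum_congr rfl fun z _ => by rw [ih, tau_eq]

lemma cv_map (φ : G ≃g G) (p : ℝ) (n : ℕ) (x y : V) :
    cv (gends G) p n (φ x) (φ y) = cv (gends G) p n x y := by
  induction n generalizing y with
  | zero =>
    unfold cv
    by_cases h : x = y
    · rw [if_pos h, if_pos (congrArg φ h)]
    · rw [if_neg h, if_neg (fun h2 => h (φ.injective h2))]
  | succ n ih =>
    unfold cv
    rw [← Equiv.sum_comp φ.toEquiv]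
    refine Finset.sum_congr rfl fun z _ => ?_
    have h1 := ih z
    have h2 := ta_map G φ p z y
    change cv (gends G) p n (φ x) (φ z) * ta (gends G) p (φ z) (φ y) = _
    rw [h1, h2]

/-- The main theorem, for graphs. -/
theorem main_graph2 {C η : ℝ} (i : ℕ) (hC : 1 ≤ C) (hη : 0 < η) (D : ℕ) (hD1 : 1 ≤ D) (o : V)
    (p q : ℝ)
    (htrans : ∀ x y : V, ∃ φ : G ≃g G, φ x = y)
    (hD : ∀ x, Nat.card (G.neighborSet x) = D) (h0 : 0 < p) (h1 : p < q) (hq : q < 1)
    (hqD : q * D ≤ C)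
    (hT : ∀ r, p ≤ r → r ≤ q → ∀ k : ℕ, 1 ≤ k →
      prob G r (fun ω => k ≤ clusterSize G ω o) ≤ C * (1 / Real.sqrt k + D * (r - p)))
    (hQ : ∀ j : ℕ, 1 ≤ j → j ≤ 2 ^ i → conv G p (4 * j) o o ≤
      C * (chi G p o ^ (3 * (j - 1)) + chi G p o ^ (4 * j) / (Fintype.card V)))
    (hVK : (Fintype.card V) ≤ C * chi G p o ^ (2 ^ i + 3))
    (hV : chi G p o ^ 3 ≤ lf C η i * (Fintype.card V))
    (hpq : p + 1 / (lf C η i * D * chi G p o) ≤ q) :
    1 - η ≤ prob G q (fun ω => lf C η i * (Fintype.card V) / chi G p o ≤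
      (maxCluster G ω : ℝ)) := by
  classical
  have hne : Nonempty V := ⟨o⟩
  have hF : ∀ (r : ℝ) (F : ℝ → ℝ) (x y : V),
      Ex r (fun ω : G.edgeSet → Bool => F (cz (gends G) ω x)) =
      Ex r (fun ω => F (cz (gends G) ω y)) := by
    intro r F x y
    obtain ⟨φ, hφ⟩ := htrans y x
    rw [← hφ]
    exact Ex_cz_map G φ r F y
  have hmain : 1 - η ≤ Ex q (fm (gends G) (lf C η i * (Fintype.card V) / chi G p o)) := by
    apply fin_prob2 (W := (D : ℝ)) i hC hη h0 h1 hq (by exact_mod_cast hD1) hqD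
      (fun x => nb_deg G x D (hD x))
    · intro x
      rw [chi_eq]
      exact hF p (fun c => c) x o
    · intro r hpr hrq x k hk
      have h2 := hT r hpr hrq k hk
      rw [tail_eq] at h2
      refine le_trans (le_of_eq ?_) h2
      exact hF r (fun c => if (k : ℝ) ≤ c then 1 else 0) x o
    · intro x j hj1 hj2
      obtain ⟨φ, hφ⟩ := htrans o x
      rw [← hφ, cv_map, ← conv_eq]
      exact hQ j hj1 hj2
    · exact hVK
    · exact hV
    · exact hpq
  refine hmain.trans ?_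
  unfold prob
  rw [expect_eq]
  apply Ex_mono (h0.trans h1).le hq.le
  intro ω
  unfold fm
  by_cases hx : ∃ x, lf C η i * (Fintype.card V) / chi G p o ≤ cz (gends G) ω x
  · obtain ⟨x, hx⟩ := hx
    have h3 : lf C η i * (Fintype.card V) / chi G p o ≤ (maxCluster G ω : ℝ) := by
      rw [maxCluster_eq]
      exact hx.trans (cz_le_mxc ω x)
    rw [if_pos ⟨x, hx⟩, if_pos h3]
  · rw [if_neg hx]
    split_ifs <;> norm_num

/-- A power of two between `k` and `2 k`. -/
lemma exists_pow2 (k : ℕ) (hk : 1 ≤ k) : ∃ i : ℕ, k ≤ 2 ^ i ∧ 2 ^ i ≤ 2 * k := by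
  obtain ⟨i, h1, h2⟩ : ∃ i : ℕ, 2 ^ i ≤ k ∧ k < 2 ^ (i + 1) :=
    ⟨Nat.log 2 k, Nat.pow_log_le_self 2 (by omega), Nat.lt_pow_succ_log_self (by norm_num) k⟩
  exact ⟨i + 1, h2.le, by rw [pow_succ]; omega⟩

end Pool.Agent.PERC29
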