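import Pool.Agent.Lib.MP_29e17e_pr.Defs
import Pool.Agent.Lib.MP_29e17e_pr.Pro

set_option autoImplicit false
set_option linter.unusedSectionVars false

open Finset

namespace Pool.Agent.PERC29

section inv

variable {E : Type*} [Fintype E] [DecidableEq E]

lemma Ex_equiv (p : ℝ) (σ : E ≃ E) (f : (E → Bool) → ℝ) :
    Ex p (fun ω => f (fun e => ω (σ e))) = Ex p f := by
  unfold Ex
  set Φ : (E → Bool) ≃ (E → Bool) :=
    { toFun := fun ω e => ω (σ e)
      invFun := fun ω e => ω (σ.symm e)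
      left_inv := fun ω => by funext e; simp
      right_inv := fun ω => by funext e; simp } with hΦ
  rw [← Equiv.sum_comp Φ (fun ω => wt p ω * f ω)]
  refine Finset.sum_congr rfl fun ω _ => ?_
  have h1 : wt p (Φ ω) = wt p ω := by
    unfold wt
    exact Equiv.prod_comp σ (fun e => if ω e = true then p else 1 - p)
  rw [h1]
  rfl

end inv

variable {V : Type} [Fintype V] [DecidableEq V] (G : SimpleGraph V) [Fintype G.edgeSet]

/-- The ends of an edge. -/
def gends (G : SimpleGraph V) : G.edgeSet → Sym2 V := Subtype.val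

lemma expect_eq (p : ℝ) (X : (G.edgeSet → Bool) → ℝ) : expect G p X = Ex p X := by
  unfold expect Ex wt
  have : ∀ (i1 i2 : Fintype (G.edgeSet → Bool)) (j1 j2 : Fintype G.edgeSet),
      (@Finset.sum _ _ _ (@Finset.univ _ i1) (fun ω : G.edgeSet → Bool =>
        (@Finset.prod _ _ _ (@Finset.univ _ j1) (fun e => if ω e = true then p else 1 - p)) * X ω)) =
      (@Finset.sum _ _ _ (@Finset.univ _ i2) (fun ω : G.edgeSet → Bool =>
        (@Finset.prod _ _ _ (@Finset.univ _ j2) (fun e => if ω e = true then p else 1 - p)) * X ω)) := by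
    intro i1 i2 j1 j2
    rw [Subsingleton.elim i1 i2, Subsingleton.elim j1 j2]
  exact this _ _ _ _

lemma step_iff (ω : G.edgeSet → Bool) (a b : V) :
    Step (gends G) ω Set.univ a b ↔ (openGraph G ω).Adj a b := by
  unfold Step openGraph gends
  rw [SimpleGraph.fromEdgeSet_adj]
  simp only [Set.mem_univ, true_and, Set.mem_setOf_eq]
  constructor
  · rintro ⟨e, h1, h2⟩
    have h3 : s(a, b) ∈ G.edgeSet := h2 ▸ e.2
    refine ⟨⟨h3, ?_⟩, ?_⟩
    · have : e = ⟨s(a, b), h3⟩ := Subtype.ext h2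
      rw [← this]; exact h1
    · exact G.ne_of_adj h3
  · rintro ⟨⟨h1, h2⟩, -⟩
    exact ⟨⟨s(a, b), h1⟩, h2, rfl⟩

lemma rch_iff (ω : G.edgeSet → Bool) (a b : V) :
    Rch (gends G) ω Set.univ a b ↔ (openGraph G ω).Reachable a b := by
  rw [SimpleGraph.reachable_iff_reflTransGen]
  unfold Rch
  have : Step (gends G) ω Set.univ = (openGraph G ω).Adj := by
    funext a b
    exact propext (step_iff G ω a b)
  rw [this]

lemma clusterSize_eq (ω : G.edgeSet → Bool) (x : V) :
    clusterSize G ω x = (cu (gends G) ω x).card := by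
  classical
  unfold clusterSize
  rw [Nat.card_eq_fintype_card, Fintype.card_subtype]
  congr 1
  ext y
  rw [Finset.mem_filter, mem_cu, rch_iff]
  simp

lemma cz_eq (ω : G.edgeSet → Bool) (x : V) : (clusterSize G ω x : ℝ) = cz (gends G) ω x := by
  unfold cz
  rw [clusterSize_eq]

lemma maxCluster_eq (ω : G.edgeSet → Bool) : (maxCluster G ω : ℝ) = mxc (gends G) ω := by
  unfold maxCluster mxc
  congr 2
  funext x
  exact clusterSize_eq G ω x

lemma chi_eq (p : ℝ) (x : V) : chi G p x = Ex p (fun ω => cz (gends G) ω x) := by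
  unfold chi
  rw [expect_eq]
  exact Ex_congr fun ω => cz_eq G ω x

lemma tau_eq (p : ℝ) (x y : V) : tau G p x y = ta (gends G) p x y := by
  classical
  unfold tau ta prob
  rw [expect_eq]
  apply Ex_congr
  intro ω
  have hiff : y ∈ cu (gends G) ω x ↔ (openGraph G ω).Reachable x y := by
    rw [mem_cu, rch_iff]
  by_cases h : (openGraph G ω).Reachable x y
  · rw [if_pos h, if_pos (hiff.2 h)]
  · rw [if_neg h, if_neg (fun h2 => h (hiff.1 h2))]

lemma square_eq (p : ℝ) (x : V) : square G p x = sqd (gends G) p x := by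
  unfold square sqd
  refine Finset.sum_congr rfl fun u _ => ?_
  congr 1
  exact Finset.sum_congr rfl fun z _ => by rw [tau_eq, tau_eq]

open scoped Classical in
lemma tail_eq (p : ℝ) (x : V) (k : ℕ) :
    prob G p (fun ω => k ≤ clusterSize G ω x) =
      Ex p (fun ω => if (k : ℝ) ≤ cz (gends G) ω x then (1 : ℝ) else 0) := by
  unfold prob
  rw [expect_eq]
  apply Ex_congr
  intro ω
  have hiff : (k : ℝ) ≤ cz (gends G) ω x ↔ k ≤ clusterSize G ω x := by
    rw [← cz_eq, Nat.cast_le]
  by_cases h : k ≤ clusterSize G ω x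
  · rw [if_pos h, if_pos (hiff.2 h)]
  · rw [if_neg h, if_neg (fun h2 => h (hiff.1 h2))]

/-- The action of an automorphism on clusters. -/
lemma cu_map (φ : G ≃g G) (ω : G.edgeSet → Bool) (x y : V) :
    y ∈ cu (gends G) (fun e => ω (φ.mapEdgeSet e)) x ↔ φ y ∈ cu (gends G) ω (φ x) := by
  rw [mem_cu, mem_cu]
  have hstep : ∀ (ψ : G ≃g G) (ω : G.edgeSet → Bool) (a b : V),
      Step (gends G) (fun e => ω (ψ.mapEdgeSet e)) Set.univ a b →
      Step (gends G) ω Set.univ (ψ a) (ψ b) := by
    rintro ψ ω a b ⟨-, -, e, h1, h2⟩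
    refine ⟨trivial, trivial, ψ.mapEdgeSet e, h1, ?_⟩
    unfold gends at h2 ⊢
    change Sym2.map ψ e.val = s(ψ a, ψ b)
    rw [h2]
    rfl
  have hr : ∀ (ψ : G ≃g G) (ω : G.edgeSet → Bool) (a b : V),
      Rch (gends G) (fun e => ω (ψ.mapEdgeSet e)) Set.univ a b →
      Rch (gends G) ω Set.univ (ψ a) (ψ b) := by
    intro ψ ω a b h
    induction h with
    | refl => exact Rch.refl _
    | tail _ hcd ih => exact Relation.ReflTransGen.tail ih (hstep ψ ω _ _ hcd)
  constructor
  · exact hr φ ω x y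
  · intro h
    have h2 := hr φ.symm (fun e => ω (φ.mapEdgeSet e)) (φ x) (φ y) (by
      have h3 : (fun e => (fun e => ω (φ.mapEdgeSet e)) (φ.symm.mapEdgeSet e)) = ω := by
        funext e
        have h4 : φ.mapEdgeSet (φ.symm.mapEdgeSet e) = e := by
          apply Subtype.ext
          change Sym2.map φ (Sym2.map φ.symm e.val) = e.val
          rw [Sym2.map_map]
          have : (φ : V → V) ∘ (φ.symm : V → V) = id := by
            funext z
            simp
          rw [this]
          simp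
        simp only [h4]
      rw [h3]
      exact h)
    simpa using h2

lemma cz_map (φ : G ≃g G) (ω : G.edgeSet → Bool) (x : V) :
    cz (gends G) (fun e => ω (φ.mapEdgeSet e)) x = cz (gends G) ω (φ x) := by
  unfold cz
  congr 1
  apply Finset.card_bij (fun y _ => φ y)
  · intro y hy
    exact (cu_map G φ ω x y).1 hy
  · intro y _ y' _ h
    exact φ.injective h
  · intro z hz
    refine ⟨φ.symm z, ?_, by simp⟩
    apply (cu_map G φ ω x _).2
    simpa using hz

lemma Ex_cz_map (φ : G ≃g G) (p : ℝ) (F : ℝ → ℝ) (x : V) :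
    Ex p (fun ω : G.edgeSet → Bool => F (cz (gends G) ω (φ x))) =
      Ex p (fun ω => F (cz (gends G) ω x)) := by
  rw [← Ex_equiv p φ.mapEdgeSet (fun ω => F (cz (gends G) ω x))]
  apply Ex_congr
  intro ω
  rw [cz_map]

lemma ta_map (φ : G ≃g G) (p : ℝ) (x y : V) :
    ta (gends G) p (φ x) (φ y) = ta (gends G) p x y := by
  unfold ta
  rw [← Ex_equiv p φ.mapEdgeSet (fun ω => if y ∈ cu (gends G) ω x then (1 : ℝ) else 0)]
  apply Ex_congr
  intro ω
  apply if_congr _ rfl rfl
  exact (cu_map G φ ω x y).symm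

lemma sqd_map (φ : G ≃g G) (p : ℝ) (x : V) : sqd (gends G) p (φ x) = sqd (gends G) p x := by
  unfold sqd
  rw [← Equiv.sum_comp φ.toEquiv]
  refine Finset.sum_congr rfl fun u _ => ?_
  congr 1
  rw [← Equiv.sum_comp φ.toEquiv]
  refine Finset.sum_congr rfl fun z _ => ?_
  have h1 := ta_map G φ p x z
  have h2 := ta_map G φ p z u
  change ta (gends G) p (φ x) (φ z) * ta (gends G) p (φ z) (φ u) = _
  rw [h1, h2]

lemma nb_eq (x y : V) [DecidableRel G.Adj] : nb (gends G) x y = if G.Adj x y then 1 else 0 := by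
  unfold nb gends
  by_cases h : G.Adj x y
  · rw [if_pos h, Finset.sum_eq_single (⟨s(x, y), h⟩ : G.edgeSet)]
    · simp
    · intro e _ he
      rw [if_neg]
      intro h2
      exact he (Subtype.ext h2)
    · intro h2
      exact absurd (Finset.mem_univ _) h2
  · rw [if_neg h]
    apply Finset.sum_eq_zero
    intro e _
    rw [if_neg]
    intro h2
    apply h
    have : s(x, y) ∈ G.edgeSet := h2 ▸ e.2
    exact this

lemma nb_deg (x : V) (D : ℕ) (hD : Nat.card (G.neighborSet x) = D) :
    ∑ y, nb (gends G) x y ≤ (D : ℝ) := by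
  classical
  rw [Finset.sum_congr rfl fun y _ => nb_eq G x y]
  have h1 : ∑ y, (if G.Adj x y then (1 : ℝ) else 0) = (Nat.card (G.neighborSet x) : ℝ) := by
    rw [Nat.card_eq_fintype_card]
    have : Fintype.card (G.neighborSet x) = (Finset.univ.filter (fun y => G.Adj x y)).card := by
      rw [← Fintype.card_subtype]
      rfl
    rw [this]
    simp
  rw [h1, hD]

/-- The main theorem, for graphs. -/
theorem main_graph {C η : ℝ} (hC : 1 ≤ C) (hη : 0 < η) (D : ℕ) (hD1 : 1 ≤ D) (o : V) (p q : ℝ)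
    (htrans : ∀ x y : V, ∃ φ : G ≃g G, φ x = y)
    (hD : ∀ x, Nat.card (G.neighborSet x) = D) (h0 : 0 < p) (h1 : p < q) (hq : q < 1)
    (hqD : q * D ≤ C)
    (hT : ∀ r, p ≤ r → r ≤ q → ∀ k : ℕ, 1 ≤ k →
      prob G r (fun ω => k ≤ clusterSize G ω o) ≤ C * (1 / Real.sqrt k + D * (r - p)))
    (hQ : square G p o ≤ C * chi G p o ^ 4 / (Fintype.card V))
    (hV : chi G p o ^ 3 ≤ kf C η * (Fintype.card V))
    (hpq : p + 1 / (kf C η * D * chi G p o) ≤ q) :
    1 - η ≤ prob G q (fun ω => kf C η * (Fintype.card V) / chi G p o ≤ (maxCluster G ω : ℝ)) := by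
  classical
  have hne : Nonempty V := ⟨o⟩
  have hF : ∀ (r : ℝ) (F : ℝ → ℝ) (x y : V),
      Ex r (fun ω : G.edgeSet → Bool => F (cz (gends G) ω x)) =
      Ex r (fun ω => F (cz (gends G) ω y)) := by
    intro r F x y
    obtain ⟨φ, hφ⟩ := htrans y x
    rw [← hφ]
    exact Ex_cz_map G φ r F y
  have hmain : 1 - η ≤ Ex q (fm (gends G) (kf C η * (Fintype.card V) / chi G p o)) := by
    apply fin_prob (W := (D : ℝ)) hC hη h0 h1 hq (by exact_mod_cast hD1) hqD
      (fun x => nb_deg G x D (hD x))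
    · intro x
      rw [chi_eq]
      exact hF p (fun c => c) x o
    · intro x y a
      exact hF p (fun c => if a ≤ c then 1 else 0) x y
    · intro r hpr hrq x k hk
      have h2 := hT r hpr hrq k hk
      rw [tail_eq] at h2
      refine le_trans (le_of_eq ?_) h2
      exact hF r (fun c => if (k : ℝ) ≤ c then 1 else 0) x o
    · intro x
      obtain ⟨φ, hφ⟩ := htrans o x
      rw [← hφ, sqd_map, ← square_eq]
      exact hQ
    · exact hV
    · exact hpq
  refine hmain.trans ?_
  unfold prob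
  rw [expect_eq]
  apply Ex_mono (h0.trans h1).le hq.le
  intro ω
  unfold fm
  by_cases hx : ∃ x, kf C η * (Fintype.card V) / chi G p o ≤ cz (gends G) ω x
  · obtain ⟨x, hx⟩ := hx
    have h3 : kf C η * (Fintype.card V) / chi G p o ≤ (maxCluster G ω : ℝ) := by
      rw [maxCluster_eq]
      exact hx.trans (cz_le_mxc ω x)
    rw [if_pos ⟨x, hx⟩, if_pos h3]
  · rw [if_neg hx]
    split_ifs <;> norm_num

end Pool.Agent.PERC29
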