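import Mathlib

set_option autoImplicit false

namespace Pool.Agent.PERC29

variable {V : Type*} {E : Type*} (ends : E → Sym2 V)

/-- `a` and `b` lie in `S` and are the ends of an open edge. -/
def Step (ω : E → Bool) (S : Set V) (a b : V) : Prop :=
  a ∈ S ∧ b ∈ S ∧ ∃ e, ω e = true ∧ ends e = s(a, b)

/-- `b` can be reached from `a` through open edges inside `S`. -/
def Rch (ω : E → Bool) (S : Set V) : V → V → Prop := Relation.ReflTransGen (Step ends ω S)

variable {ends}

lemma Step.symm {ω : E → Bool} {S : Set V} {a b : V} (h : Step ends ω S a b) :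
    Step ends ω S b a := by
  obtain ⟨h1, h2, e, h3, h4⟩ := h
  exact ⟨h2, h1, e, h3, by rw [h4, Sym2.eq_swap]⟩

lemma Rch.symm {ω : E → Bool} {S : Set V} {a b : V} (h : Rch ends ω S a b) :
    Rch ends ω S b a := by
  induction h with
  | refl => exact Relation.ReflTransGen.refl
  | tail _ hbc ih => exact Relation.ReflTransGen.head hbc.symm ih

lemma Rch.refl {ω : E → Bool} {S : Set V} (a : V) : Rch ends ω S a a :=
  Relation.ReflTransGen.refl

lemma Rch.trans {ω : E → Bool} {S : Set V} {a b c : V} (h : Rch ends ω S a b)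
    (h' : Rch ends ω S b c) : Rch ends ω S a c := Relation.ReflTransGen.trans h h'

lemma Rch.mono {ω ω' : E → Bool} {S S' : Set V} {a b : V} (hω : ∀ e, ω e = true → ω' e = true)
    (hS : S ⊆ S') (h : Rch ends ω S a b) : Rch ends ω' S' a b := by
  induction h with
  | refl => exact Relation.ReflTransGen.refl
  | tail _ hbc ih =>
    obtain ⟨h1, h2, e, h3, h4⟩ := hbc
    exact Relation.ReflTransGen.tail ih ⟨hS h1, hS h2, e, hω e h3, h4⟩

lemma Rch.mem {ω : E → Bool} {S : Set V} {a b : V} (h : Rch ends ω S a b) : a = b ∨ b ∈ S := by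
  induction h with
  | refl => exact Or.inl rfl
  | tail _ hbc _ => exact Or.inr hbc.2.1

lemma Rch.mem' {ω : E → Bool} {S : Set V} {a b : V} (ha : a ∈ S) (h : Rch ends ω S a b) :
    b ∈ S := by
  rcases h.mem with h | h
  · exact h ▸ ha
  · exact h

/-- The set reached from `B` inside `S` is determined by the edges inside `S` which touch it. -/
lemma reach_dep {ω ω' : E → Bool} {S B A : Set V}
    (hA : ∀ z, (∃ b ∈ B, Rch ends ω S b z) ↔ z ∈ A)
    (hω : ∀ e a b, ends e = s(a, b) → a ∈ S → b ∈ S → a ∈ A → ω e = ω' e) :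
    ∀ z, (∃ b ∈ B, Rch ends ω' S b z) ↔ z ∈ A := by
  intro z
  constructor
  · rintro ⟨b, hb, h⟩
    induction h with
    | refl => exact (hA b).1 ⟨b, hb, Rch.refl b⟩
    | tail _ hcd ih =>
      obtain ⟨h1, h2, e, h3, h4⟩ := hcd
      obtain ⟨b', hb', h'⟩ := (hA _).2 ih
      refine (hA _).1 ⟨b', hb', Relation.ReflTransGen.tail h' ⟨h1, h2, e, ?_, h4⟩⟩
      rw [hω e _ _ h4 h1 h2 ih]
      exact h3
  · intro hz
    obtain ⟨b, hb, h⟩ := (hA z).2 hz
    refine ⟨b, hb, ?_⟩
    clear hz
    induction h with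
    | refl => exact Rch.refl b
    | tail hbc hcd ih =>
      obtain ⟨h1, h2, e, h3, h4⟩ := hcd
      refine Relation.ReflTransGen.tail ih ⟨h1, h2, e, ?_, h4⟩
      rw [← hω e _ _ h4 h1 h2 ((hA _).1 ⟨b, hb, hbc⟩)]
      exact h3

/-- First exit decomposition. -/
lemma exit_decomp {ω : E → Bool} {S : Set V} {o z : V} (ho : o ∈ S)
    (h : Rch ends ω Set.univ o z) :
    Rch ends ω S o z ∨ ∃ e x y, ends e = s(x, y) ∧ Rch ends ω S o x ∧ y ∉ S ∧ ω e = true ∧
      Rch ends ω {w | ¬ Rch ends ω S o w} y z := by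
  induction h with
  | refl => exact Or.inl (Rch.refl o)
  | @tail c d _ hcd ih =>
    obtain ⟨-, -, e, h3, h4⟩ := hcd
    by_cases hd : Rch ends ω S o d
    · exact Or.inl hd
    right
    rcases ih with ih | ⟨e', x, y, h5, h6, h7, h8, h9⟩
    · have hcS : c ∈ S := ih.mem' ho
      have hdS : d ∉ S := by
        intro hdS
        exact hd (Relation.ReflTransGen.tail ih ⟨hcS, hdS, e, h3, h4⟩)
      exact ⟨e, c, d, h4, ih, hdS, h3, Rch.refl d⟩
    · by_cases hc : Rch ends ω S o c
      · have hcS : c ∈ S := hc.mem' ho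
        have hdS : d ∉ S := by
          intro hdS
          exact hd (Relation.ReflTransGen.tail hc ⟨hcS, hdS, e, h3, h4⟩)
        exact ⟨e, c, d, h4, hc, hdS, h3, Rch.refl d⟩
      · exact ⟨e', x, y, h5, h6, h7, h8, Relation.ReflTransGen.tail h9 ⟨hc, hd, e, h3, h4⟩⟩

/-- Inside the set of vertices not joined to `B`, the cluster of `o` is the whole cluster. -/
lemma inside {ω : E → Bool} {B S : Set V} {o z : V}
    (hS : ∀ w, w ∈ S ↔ ¬ ∃ b ∈ B, Rch ends ω Set.univ b w) (ho : o ∈ S) :
    Rch ends ω Set.univ o z ↔ Rch ends ω S o z := by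
  constructor
  · intro h
    induction h with
    | refl => exact Rch.refl o
    | @tail c d hoc hcd ih =>
      have hod : Rch ends ω Set.univ o d := Relation.ReflTransGen.tail hoc hcd
      have key : ∀ w, Rch ends ω Set.univ o w → w ∈ S := by
        intro w hw
        rw [hS]
        rintro ⟨b, hb, hbw⟩
        exact (hS o).1 ho ⟨b, hb, hbw.trans hw.symm⟩
      obtain ⟨-, -, e, h3, h4⟩ := hcd
      exact Relation.ReflTransGen.tail ih ⟨key c hoc, key d hod, e, h3, h4⟩
  · intro h
    exact h.mono (fun _ h => h) (Set.subset_univ _)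

end Pool.Agent.PERC29
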