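import Mathlib

set_option autoImplicit false
set_option linter.unusedSectionVars false

open Finset

namespace Pool.Agent.PERC29

variable {ι : Type*} [DecidableEq ι]

/-- Weighted number of walks of length `n` from `B` to `C`; all vertices but the first and the last lie in `S`. -/
noncomputable def UU (M : ι → ι → ℝ) (S : Finset ι) : ℕ → ι → ι → ℝ
  | 0, B, C => if B = C then 1 else 0
  | n + 1, B, C => ∑ D ∈ S, UU M S n B D * M D C

/-- Weighted number of paths from `A` through `n` distinct vertices of `S` and then to `B`. -/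
noncomputable def pth (M : ι → ι → ℝ) : ℕ → Finset ι → ι → ι → ℝ
  | 0, _, A, B => M A B
  | n + 1, S, A, B => ∑ D ∈ S, M A D * pth M n (S.erase D) D B

/-- The combinatorial constants. -/
noncomputable def kk : ℕ → ℝ
  | 0 => 1
  | n + 1 => 2 * (n + 1) * kk n ^ 2

lemma one_le_kk (n : ℕ) : 1 ≤ kk n := by
  induction n with
  | zero => simp [kk]
  | succ n ih =>
    unfold kk
    have h1 : (1 : ℝ) ≤ kk n ^ 2 := by nlinarith
    have h2 : (0 : ℝ) ≤ n := Nat.cast_nonneg n
    nlinarith

lemma kk_mono {m n : ℕ} (h : m ≤ n) : kk m ≤ kk n := by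
  induction n, h using Nat.le_induction with
  | base => exact le_rfl
  | succ n _ ih =>
    refine ih.trans ?_
    have h1 := one_le_kk n
    have h2 : (0 : ℝ) ≤ n := Nat.cast_nonneg n
    change kk n ≤ 2 * (n + 1) * kk n ^ 2
    nlinarith [mul_nonneg h2 (sq_nonneg (kk n))]

lemma UU_nonneg {M : ι → ι → ℝ} (hM : ∀ A B, 0 ≤ M A B) (S : Finset ι) (n : ℕ) (B C : ι) :
    0 ≤ UU M S n B C := by
  induction n generalizing C with
  | zero => unfold UU; split_ifs <;> norm_num
  | succ n ih =>
    unfold UU
    exact Finset.sum_nonneg fun D _ => mul_nonneg (ih D) (hM D C)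

lemma pth_nonneg {M : ι → ι → ℝ} (hM : ∀ A B, 0 ≤ M A B) (n : ℕ) (S : Finset ι) (A B : ι) :
    0 ≤ pth M n S A B := by
  induction n generalizing S A with
  | zero => exact hM A B
  | succ n ih =>
    unfold pth
    exact Finset.sum_nonneg fun D _ => mul_nonneg (hM A D) (ih _ D)

lemma pth_mono {M M' : ι → ι → ℝ} (hM : ∀ A B, 0 ≤ M A B) (hMM : ∀ A B, M A B ≤ M' A B) (n : ℕ)
    {S S' : Finset ι} (hS : S ⊆ S') (A B : ι) : pth M n S A B ≤ pth M' n S' A B := by
  have hM' : ∀ A B, 0 ≤ M' A B := fun A B => (hM A B).trans (hMM A B)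
  induction n generalizing S S' A with
  | zero => exact hMM A B
  | succ n ih =>
    unfold pth
    calc _ ≤ ∑ D ∈ S, M' A D * pth M' n (S'.erase D) D B :=
          Finset.sum_le_sum fun D _ => mul_le_mul (hMM A D) (ih (Finset.erase_subset_erase D hS) D)
            (pth_nonneg hM n _ D B) (hM' A D)
      _ ≤ _ := Finset.sum_le_sum_of_subset_of_nonneg hS fun D _ _ =>
          mul_nonneg (hM' A D) (pth_nonneg hM' n _ D B)

/-- Last exit decomposition. -/
lemma last_exit (M : ι → ι → ℝ) (S : Finset ι) {B C : ι} (hB : B ∈ S) (hC : C ∈ S) (hBC : B ≠ C)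
    (n : ℕ) : UU M S (n + 1) B C = ∑ l ∈ Finset.range (n + 1), UU M S l B B *
      ∑ D ∈ S.erase B, M B D * UU M (S.erase B) (n - l) D C := by
  induction n generalizing C with
  | zero =>
    have h1 : UU M S (0 + 1) B C = M B C := by
      change ∑ D ∈ S, (if B = D then (1 : ℝ) else 0) * M D C = M B C
      rw [Finset.sum_eq_single B]
      · simp
      · intro D _ hD
        rw [if_neg (Ne.symm hD), zero_mul]
      · intro h; exact absurd hB h
    rw [h1]
    simp only [zero_add, Finset.range_one, Finset.sum_singleton, Nat.sub_zero]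
    change M B C = (if B = B then (1 : ℝ) else 0) *
      ∑ D ∈ S.erase B, M B D * (if D = C then (1 : ℝ) else 0)
    rw [if_pos rfl, one_mul, Finset.sum_eq_single C]
    · simp
    · intro D _ hD
      rw [if_neg hD, mul_zero]
    · intro h
      exact absurd (Finset.mem_erase.2 ⟨Ne.symm hBC, hC⟩) h
  | succ n ih =>
    have h1 : UU M S (n + 1 + 1) B C = ∑ D ∈ S, UU M S (n + 1) B D * M D C := rfl
    rw [h1, ← Finset.add_sum_erase S _ hB]
    have h2 : ∑ D ∈ S.erase B, UU M S (n + 1) B D * M D C =
        ∑ l ∈ Finset.range (n + 1), UU M S l B B *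
          ∑ D' ∈ S.erase B, M B D' * UU M (S.erase B) (n + 1 - l) D' C := by
      have e1 : ∀ D ∈ S.erase B, UU M S (n + 1) B D * M D C =
          ∑ l ∈ Finset.range (n + 1), UU M S l B B *
            ∑ D' ∈ S.erase B, M B D' * (UU M (S.erase B) (n - l) D' D * M D C) := by
        intro D hD
        obtain ⟨hD1, hD2⟩ := Finset.mem_erase.1 hD
        rw [ih hD2 (Ne.symm hD1), Finset.sum_mul]
        refine Finset.sum_congr rfl fun l _ => ?_
        rw [mul_assoc, Finset.sum_mul]
        congr 1
        exact Finset.sum_congr rfl fun D' _ => by ring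
      rw [Finset.sum_congr rfl e1, Finset.sum_comm]
      refine Finset.sum_congr rfl fun l hl => ?_
      rw [← Finset.mul_sum, Finset.sum_comm]
      congr 1
      refine Finset.sum_congr rfl fun D' _ => ?_
      rw [← Finset.mul_sum]
      congr 1
      have e2 : n + 1 - l = (n - l) + 1 := by
        have := Finset.mem_range.1 hl
        omega
      rw [e2]
      rfl
    rw [h2, Finset.sum_range_succ _ (n + 1), add_comm]
    congr 1
    have h3 : n + 1 - (n + 1) = 0 := Nat.sub_self _
    rw [h3]
    congr 1
    change M B C = ∑ D ∈ S.erase B, M B D * (if D = C then (1 : ℝ) else 0)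
    rw [Finset.sum_eq_single C]
    · simp
    · intro D _ hD
      rw [if_neg hD, mul_zero]
    · intro h
      exact absurd (Finset.mem_erase.2 ⟨Ne.symm hBC, hC⟩) h

/-- The closed walks and the open walks are controlled by the cycles. -/
lemma walks_aux (M : ι → ι → ℝ) (hM : ∀ A B, 0 ≤ M A B) (s : Finset ι) (u : ℕ → ℝ) (hu0 : u 0 = 1)
    (hu : ∀ n, 0 ≤ u n) (hmul : ∀ l m, u l * u m ≤ u (l + m)) (n : ℕ)
    (hc : ∀ m < n, ∀ A ∈ s, pth M m (s.erase A) A A ≤ u (m + 1)) :
    (∀ S ⊆ s, ∀ A ∈ S, UU M S n A A ≤ kk n * u n) ∧
    (∀ S ⊆ s, ∀ B ∈ S, ∀ A, ∑ C ∈ S, UU M S n B C * M C A ≤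
      kk n ^ 2 * ∑ m ∈ Finset.range (n + 1), u (n - m) * pth M m (S.erase B) B A) := by
  induction n using Nat.strong_induction_on with
  | _ n ih =>
    -- closed walks
    have hW : ∀ S ⊆ s, ∀ A ∈ S, UU M S n A A ≤ kk n * u n := by
      intro S hS A hA
      rcases n with _ | n
      · change (if A = A then (1 : ℝ) else 0) ≤ kk 0 * u 0
        rw [if_pos rfl, hu0]
        simp [kk]
      · have h1 := (ih n (Nat.lt_succ_self n) (fun m hm A hA => hc m (by omega) A hA)).2 S hS A hA A
        have h2 : UU M S (n + 1) A A = ∑ C ∈ S, UU M S n A C * M C A := rfl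
        rw [h2]
        refine h1.trans ?_
        have h3 : ∑ m ∈ Finset.range (n + 1), u (n - m) * pth M m (S.erase A) A A ≤
            ∑ _m ∈ Finset.range (n + 1), u (n + 1) := by
          refine Finset.sum_le_sum fun m hm => ?_
          have hm' := Finset.mem_range.1 hm
          have h4 : pth M m (S.erase A) A A ≤ u (m + 1) :=
            (pth_mono hM (fun _ _ => le_rfl) m (Finset.erase_subset_erase A hS) A A).trans
              (hc m hm' A (hS hA))
          calc _ ≤ u (n - m) * u (m + 1) := mul_le_mul_of_nonneg_left h4 (hu _)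
            _ ≤ u ((n - m) + (m + 1)) := hmul _ _
            _ = u (n + 1) := by congr 1; omega
        rw [Finset.sum_const, Finset.card_range, nsmul_eq_mul] at h3
        have h5 := one_le_kk n
        calc _ ≤ kk n ^ 2 * (((n + 1 : ℕ) : ℝ) * u (n + 1)) :=
              mul_le_mul_of_nonneg_left h3 (sq_nonneg _)
          _ ≤ 2 * (n + 1) * kk n ^ 2 * u (n + 1) := by
              push_cast
              have : 0 ≤ kk n ^ 2 * (((n : ℝ) + 1) * u (n + 1)) :=
                mul_nonneg (sq_nonneg _) (mul_nonneg (by positivity) (hu _))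
              nlinarith
    refine ⟨hW, ?_⟩
    intro S hS B hB A
    have hkn := one_le_kk n
    rcases n with _ | m
    · have h1 : ∑ C ∈ S, UU M S 0 B C * M C A = M B A := by
        change ∑ C ∈ S, (if B = C then (1 : ℝ) else 0) * M C A = M B A
        rw [Finset.sum_eq_single B]
        · simp
        · intro D _ hD
          rw [if_neg (Ne.symm hD), zero_mul]
        · intro h; exact absurd hB h
      rw [h1]
      simp only [zero_add, Finset.range_one, Finset.sum_singleton, Nat.sub_zero, hu0]
      simp [kk, pth]
    · rw [← Finset.add_sum_erase S _ hB]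
      set Z' : ℝ := ∑ j ∈ Finset.range (m + 1), u (m - j) * pth M (j + 1) (S.erase B) B A with hZ'
      have hZ : ∑ j ∈ Finset.range (m + 1 + 1), u (m + 1 - j) * pth M j (S.erase B) B A =
          Z' + u (m + 1) * M B A := by
        rw [Finset.sum_range_succ' _ (m + 1)]
        congr 1
        refine Finset.sum_congr rfl fun j _ => ?_
        congr 2
        omega
      have hZ0 : 0 ≤ Z' := Finset.sum_nonneg fun j _ => mul_nonneg (hu _) (pth_nonneg hM _ _ _ _)
      rw [hZ]
      have hE : S.erase B ⊆ s := (Finset.erase_subset B S).trans hS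
      have h1 : ∑ C ∈ S.erase B, UU M S (m + 1) B C * M C A ≤
          ∑ l ∈ Finset.range (m + 1), (kk l * kk (m - l) ^ 2) * Z' := by
        have e1 : ∑ C ∈ S.erase B, UU M S (m + 1) B C * M C A =
            ∑ l ∈ Finset.range (m + 1), UU M S l B B * ∑ D ∈ S.erase B, M B D *
              ∑ C ∈ S.erase B, UU M (S.erase B) (m - l) D C * M C A := by
          have e2 : ∀ C ∈ S.erase B, UU M S (m + 1) B C * M C A =
              ∑ l ∈ Finset.range (m + 1), UU M S l B B * ∑ D ∈ S.erase B, M B D *
                (UU M (S.erase B) (m - l) D C * M C A) := by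
            intro C hC
            obtain ⟨hC1, hC2⟩ := Finset.mem_erase.1 hC
            rw [last_exit M S hB hC2 (Ne.symm hC1) m, Finset.sum_mul]
            refine Finset.sum_congr rfl fun l _ => ?_
            rw [mul_assoc, Finset.sum_mul]
            congr 1
            exact Finset.sum_congr rfl fun D _ => by ring
          rw [Finset.sum_congr rfl e2, Finset.sum_comm]
          refine Finset.sum_congr rfl fun l _ => ?_
          rw [← Finset.mul_sum, Finset.sum_comm]
          congr 1
          refine Finset.sum_congr rfl fun D _ => ?_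
          rw [← Finset.mul_sum]
        rw [e1]
        refine Finset.sum_le_sum fun l hl => ?_
        have hl' := Finset.mem_range.1 hl
        have hWl := (ih l (by omega) (fun m' hm' A hA => hc m' (by omega) A hA)).1 S hS B hB
        have hQl := (ih (m - l) (by omega) (fun m' hm' A hA => hc m' (by omega) A hA)).2
          (S.erase B) hE
        have e3 : ∑ D ∈ S.erase B, M B D *
              ∑ C ∈ S.erase B, UU M (S.erase B) (m - l) D C * M C A ≤
            kk (m - l) ^ 2 * ∑ j ∈ Finset.range (m - l + 1), u (m - l - j) *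
              pth M (j + 1) (S.erase B) B A := by
          calc _ ≤ ∑ D ∈ S.erase B, M B D * (kk (m - l) ^ 2 * ∑ j ∈ Finset.range (m - l + 1),
                u (m - l - j) * pth M j ((S.erase B).erase D) D A) :=
                Finset.sum_le_sum fun D hD => mul_le_mul_of_nonneg_left (hQl D hD A) (hM B D)
            _ = _ := by
                have e4 : ∀ D, M B D * (kk (m - l) ^ 2 * ∑ j ∈ Finset.range (m - l + 1),
                    u (m - l - j) * pth M j ((S.erase B).erase D) D A) =
                    kk (m - l) ^ 2 * ∑ j ∈ Finset.range (m - l + 1),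
                    u (m - l - j) * (M B D * pth M j ((S.erase B).erase D) D A) := by
                  intro D
                  rw [← mul_assoc, mul_comm (M B D), mul_assoc, Finset.mul_sum]
                  congr 1
                  exact Finset.sum_congr rfl fun j _ => by ring
                rw [Finset.sum_congr rfl fun D _ => e4 D, ← Finset.mul_sum, Finset.sum_comm]
                congr 1
                refine Finset.sum_congr rfl fun j _ => ?_
                rw [← Finset.mul_sum]
                rfl
        have e5 : u l * ∑ j ∈ Finset.range (m - l + 1), u (m - l - j) *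
              pth M (j + 1) (S.erase B) B A ≤ Z' := by
          rw [Finset.mul_sum]
          calc _ ≤ ∑ j ∈ Finset.range (m - l + 1), u (m - j) * pth M (j + 1) (S.erase B) B A := by
                refine Finset.sum_le_sum fun j hj => ?_
                have hj' := Finset.mem_range.1 hj
                rw [← mul_assoc]
                apply mul_le_mul_of_nonneg_right _ (pth_nonneg hM _ _ _ _)
                refine (hmul _ _).trans (le_of_eq ?_)
                congr 1
                omega
            _ ≤ _ := Finset.sum_le_sum_of_subset_of_nonneg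
                (Finset.range_subset_range.2 (by omega))
                fun j _ _ => mul_nonneg (hu _) (pth_nonneg hM _ _ _ _)
        have hkl := one_le_kk l
        have hS0 : 0 ≤ ∑ j ∈ Finset.range (m - l + 1), u (m - l - j) *
              pth M (j + 1) (S.erase B) B A :=
          Finset.sum_nonneg fun j _ => mul_nonneg (hu _) (pth_nonneg hM _ _ _ _)
        calc _ ≤ (kk l * u l) * (kk (m - l) ^ 2 * ∑ j ∈ Finset.range (m - l + 1),
              u (m - l - j) * pth M (j + 1) (S.erase B) B A) := by
              apply mul_le_mul hWl e3 _ (mul_nonneg (by linarith) (hu _))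
              exact Finset.sum_nonneg fun D _ => mul_nonneg (hM B D)
                (Finset.sum_nonneg fun C _ => mul_nonneg (UU_nonneg hM _ _ _ _) (hM C A))
          _ = (kk l * kk (m - l) ^ 2) * (u l * ∑ j ∈ Finset.range (m - l + 1),
              u (m - l - j) * pth M (j + 1) (S.erase B) B A) := by ring
          _ ≤ _ := mul_le_mul_of_nonneg_left e5 (mul_nonneg (by linarith) (sq_nonneg _))
      have h2 : ∑ l ∈ Finset.range (m + 1), (kk l * kk (m - l) ^ 2) * Z' ≤ kk (m + 1) ^ 2 * Z' := by
        rw [← Finset.sum_mul]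
        apply mul_le_mul_of_nonneg_right _ hZ0
        have hkm := one_le_kk m
        calc ∑ l ∈ Finset.range (m + 1), kk l * kk (m - l) ^ 2 ≤
            ∑ _l ∈ Finset.range (m + 1), kk m * kk m ^ 2 := by
              refine Finset.sum_le_sum fun l hl => ?_
              have hl' := Finset.mem_range.1 hl
              have a1 := one_le_kk l
              have a2 := one_le_kk (m - l)
              exact mul_le_mul (kk_mono (by omega))
                (pow_le_pow_left₀ (by linarith) (kk_mono (by omega)) 2) (sq_nonneg _) (by linarith)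
          _ = (m + 1) * kk m ^ 2 * kk m := by
              rw [Finset.sum_const, Finset.card_range, nsmul_eq_mul]
              push_cast
              ring
          _ ≤ kk (m + 1) * kk (m + 1) := by
              have hmm : (0 : ℝ) ≤ m := Nat.cast_nonneg m
              have a3 : (m + 1) * kk m ^ 2 ≤ kk (m + 1) := by
                change (m + 1) * kk m ^ 2 ≤ 2 * (m + 1) * kk m ^ 2
                nlinarith [mul_nonneg hmm (sq_nonneg (kk m)), sq_nonneg (kk m)]
              exact mul_le_mul a3 (kk_mono (Nat.le_succ m)) (by linarith) (by linarith)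
          _ = _ := by ring
      have h3 : UU M S (m + 1) B B * M B A ≤ kk (m + 1) ^ 2 * (u (m + 1) * M B A) := by
        have h4 := mul_le_mul_of_nonneg_right (hW S hS B hB) (hM B A)
        refine h4.trans ?_
        rw [mul_assoc]
        apply mul_le_mul_of_nonneg_right _ (mul_nonneg (hu _) (hM B A))
        nlinarith
      calc _ ≤ kk (m + 1) ^ 2 * (u (m + 1) * M B A) + kk (m + 1) ^ 2 * Z' :=
            add_le_add h3 (h1.trans h2)
        _ = _ := by ring

/-- Closed walks. -/
theorem closed_walks (M : ι → ι → ℝ) (hM : ∀ A B, 0 ≤ M A B) (s : Finset ι) (u : ℕ → ℝ)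
    (hu0 : u 0 = 1) (hu : ∀ n, 0 ≤ u n) (hmul : ∀ l m, u l * u m ≤ u (l + m)) (n : ℕ)
    (hc : ∀ m < n, ∀ A ∈ s, pth M m (s.erase A) A A ≤ u (m + 1)) :
    ∀ A ∈ s, UU M s n A A ≤ kk n * u n :=
  (walks_aux M hM s u hu0 hu hmul n hc).1 s (Finset.Subset.refl s)

end Pool.Agent.PERC29
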