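import Mathlib
import Pool.Agent.Lib.MP_29e17e_pr.Wk

set_option autoImplicit false
set_option linter.unusedSectionVars false

open Finset

namespace Pool.Agent.PERC29

/-- The susceptibility is large. -/
lemma chi_big {C χ N h c : ℝ} {K : ℕ} (hC : 1 ≤ C) (hh0 : 0 < h) (hχ1 : 1 ≤ χ) (hN : 0 < N)
    (hVK : N ≤ C * χ ^ (K + 3)) (hV : χ ^ 3 ≤ c * N) (hc : c ≤ h ^ (K + 3) / (2 * C)) :
    1 ≤ h * χ := by
  by_contra hcon
  push Not at hcon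
  have hC0 : 0 < C := by linarith
  have h1 : (1 : ℝ) ≤ χ ^ 3 := one_le_pow₀ hχ1
  have h2 : c * N ≤ h ^ (K + 3) / (2 * C) * N := mul_le_mul_of_nonneg_right hc hN.le
  have h3 : h ^ (K + 3) / (2 * C) * N ≤ h ^ (K + 3) / (2 * C) * (C * χ ^ (K + 3)) :=
    mul_le_mul_of_nonneg_left hVK (by positivity)
  have h4 : h ^ (K + 3) / (2 * C) * (C * χ ^ (K + 3)) = (h * χ) ^ (K + 3) / 2 := by
    rw [mul_pow]
    field_simp
  have h5 : (h * χ) ^ (K + 3) ≤ 1 := pow_le_one₀ (by positivity) hcon.le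
  linarith

/-- The typical number of cycles of length `2j` through a cluster (without the factor). -/
noncomputable def gg (χ N : ℝ) (j : ℕ) : ℝ := χ ^ j + χ ^ (2 * j + 3) / N

lemma gg_pos {χ N : ℝ} (hχ : 0 < χ) (hN : 0 < N) (j : ℕ) : 0 < gg χ N j := by
  unfold gg; positivity

lemma gg_mul {χ N : ℝ} (hχ : 4 ≤ χ) (hN : 0 < N) (hV : 2 * χ ^ 3 ≤ N) {j l : ℕ} (hj : 1 ≤ j)
    (hl : 1 ≤ l) : gg χ N j * gg χ N l ≤ gg χ N (j + l) := by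
  have hχ0 : 0 < χ := by linarith
  obtain ⟨j, rfl⟩ : ∃ m, j = m + 1 := ⟨j - 1, by omega⟩
  obtain ⟨l, rfl⟩ : ∃ m, l = m + 1 := ⟨l - 1, by omega⟩
  unfold gg
  set X : ℝ := χ ^ j with hX
  set Z : ℝ := χ ^ l with hZ
  have hX1 : 1 ≤ X := one_le_pow₀ (by linarith)
  have hZ1 : 1 ≤ Z := one_le_pow₀ (by linarith)
  have e1 : χ ^ (j + 1) = X * χ := by rw [pow_succ]
  have e2 : χ ^ (l + 1) = Z * χ := by rw [pow_succ]
  have e3 : χ ^ (2 * (j + 1) + 3) = X ^ 2 * χ ^ 5 := by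
    rw [hX, ← pow_mul, ← pow_add]; congr 1; ring
  have e4 : χ ^ (2 * (l + 1) + 3) = Z ^ 2 * χ ^ 5 := by
    rw [hZ, ← pow_mul, ← pow_add]; congr 1; ring
  have e5 : χ ^ (j + 1 + (l + 1)) = X * Z * χ ^ 2 := by
    rw [hX, hZ, ← pow_add, ← pow_add]; congr 1; ring
  have e6 : χ ^ (2 * (j + 1 + (l + 1)) + 3) = X ^ 2 * Z ^ 2 * χ ^ 7 := by
    rw [hX, hZ, ← pow_mul, ← pow_mul, ← pow_add, ← pow_add]; congr 1; ring
  rw [e1, e2, e3, e4, e5, e6]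
  have f1 : X * χ * (Z ^ 2 * χ ^ 5 / N) ≤ (1 / 4) * (X ^ 2 * Z ^ 2 * χ ^ 7 / N) := by
    rw [mul_div_assoc', mul_div_assoc', div_le_div_iff_of_pos_right hN]
    have : X * χ * (Z ^ 2 * χ ^ 5) * 4 ≤ X ^ 2 * Z ^ 2 * χ ^ 7 := by
      have g1 : 0 < X * (Z ^ 2 * χ ^ 6) := by positivity
      have g2 : X * (Z ^ 2 * χ ^ 6) * 4 ≤ X * (Z ^ 2 * χ ^ 6) * (X * χ) := by
        apply mul_le_mul_of_nonneg_left _ g1.le
        nlinarith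
      calc _ = X * (Z ^ 2 * χ ^ 6) * 4 := by ring
        _ ≤ _ := g2
        _ = _ := by ring
    linarith
  have f2 : (X ^ 2 * χ ^ 5 / N) * (Z * χ) ≤ (1 / 4) * (X ^ 2 * Z ^ 2 * χ ^ 7 / N) := by
    rw [div_mul_eq_mul_div, mul_div_assoc', div_le_div_iff_of_pos_right hN]
    have : X ^ 2 * χ ^ 5 * (Z * χ) * 4 ≤ X ^ 2 * Z ^ 2 * χ ^ 7 := by
      have g1 : 0 < Z * (X ^ 2 * χ ^ 6) := by positivity
      have g2 : Z * (X ^ 2 * χ ^ 6) * 4 ≤ Z * (X ^ 2 * χ ^ 6) * (Z * χ) := by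
        apply mul_le_mul_of_nonneg_left _ g1.le
        nlinarith
      calc _ = Z * (X ^ 2 * χ ^ 6) * 4 := by ring
        _ ≤ _ := g2
        _ = _ := by ring
    linarith
  have f3 : (X ^ 2 * χ ^ 5 / N) * (Z ^ 2 * χ ^ 5 / N) ≤ (1 / 2) * (X ^ 2 * Z ^ 2 * χ ^ 7 / N) := by
    have g1 : (X ^ 2 * χ ^ 5 / N) * (Z ^ 2 * χ ^ 5 / N) =
        (χ ^ 3 / N) * (X ^ 2 * Z ^ 2 * χ ^ 7 / N) := by
      field_simp
    rw [g1]
    apply mul_le_mul_of_nonneg_right _ (by positivity)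
    rw [div_le_iff₀ hN]
    linarith
  calc _ = X * Z * χ ^ 2 + X * χ * (Z ^ 2 * χ ^ 5 / N) + (X ^ 2 * χ ^ 5 / N) * (Z * χ) +
        (X ^ 2 * χ ^ 5 / N) * (Z ^ 2 * χ ^ 5 / N) := by ring
    _ ≤ _ := by linarith

/-- The bound for the number of cycles through a cluster. -/
noncomputable def vv (Λ χ N : ℝ) (j : ℕ) : ℝ := if j = 0 then 1 else Λ ^ (2 * j) * gg χ N j

lemma vv_zero (Λ χ N : ℝ) : vv Λ χ N 0 = 1 := by simp [vv]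

lemma vv_pos {Λ χ N : ℝ} (hΛ : 0 < Λ) (hχ : 0 < χ) (hN : 0 < N) (j : ℕ) : 0 < vv Λ χ N j := by
  unfold vv
  split_ifs
  · norm_num
  · have := gg_pos hχ hN j
    positivity

lemma vv_mul {Λ χ N : ℝ} (hΛ : 0 < Λ) (hχ : 4 ≤ χ) (hN : 0 < N) (hV : 2 * χ ^ 3 ≤ N) (j l : ℕ) :
    vv Λ χ N j * vv Λ χ N l ≤ vv Λ χ N (j + l) := by
  rcases Nat.eq_zero_or_pos j with rfl | hj
  · rw [vv_zero, one_mul, zero_add]
  rcases Nat.eq_zero_or_pos l with rfl | hl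
  · rw [vv_zero, mul_one, add_zero]
  have h1 : vv Λ χ N j = Λ ^ (2 * j) * gg χ N j := if_neg (by omega)
  have h2 : vv Λ χ N l = Λ ^ (2 * l) * gg χ N l := if_neg (by omega)
  have h3 : vv Λ χ N (j + l) = Λ ^ (2 * (j + l)) * gg χ N (j + l) := if_neg (by omega)
  rw [h1, h2, h3]
  calc _ = Λ ^ (2 * (j + l)) * (gg χ N j * gg χ N l) := by
        rw [mul_add, pow_add]; ring
    _ ≤ _ := mul_le_mul_of_nonneg_left (gg_mul hχ hN hV hj hl) (by positivity)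

/-- The arithmetic of the mean number of cycles. -/
lemma cyc_arith {β b W χ N C : ℝ} (hβ0 : 0 ≤ β) (hβ : β ≤ b * W / χ) (hχ : 0 < χ) (hN : 0 < N)
    (hC : 0 ≤ C) {j : ℕ} (hj : 1 ≤ j) :
    β ^ (2 * j) * (N * (C * (χ ^ (3 * (j - 1)) + χ ^ (4 * j) / N))) ≤
      C * (b * W) ^ (2 * j) * (N / χ ^ 3) * gg χ N j := by
  obtain ⟨j, rfl⟩ : ∃ m, j = m + 1 := ⟨j - 1, by omega⟩
  have h1 : β ^ (2 * (j + 1)) ≤ (b * W / χ) ^ (2 * (j + 1)) := pow_le_pow_left₀ hβ0 hβ _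
  have h2 : 0 ≤ N * (C * (χ ^ (3 * (j + 1 - 1)) + χ ^ (4 * (j + 1)) / N)) := by positivity
  refine (mul_le_mul_of_nonneg_right h1 h2).trans (le_of_eq ?_)
  unfold gg
  have e0 : j + 1 - 1 = j := Nat.add_sub_cancel _ _
  rw [e0, div_pow]
  have e1 : χ ^ (2 * (j + 1)) = (χ ^ j) ^ 2 * χ ^ 2 := by
    rw [← pow_mul, ← pow_add]; congr 1; ring
  have e2 : χ ^ (3 * j) = (χ ^ j) ^ 3 := by rw [← pow_mul]; congr 1; ring
  have e3 : χ ^ (4 * (j + 1)) = (χ ^ j) ^ 4 * χ ^ 4 := by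
    rw [← pow_mul, ← pow_add]; congr 1; ring
  have e4 : χ ^ (2 * (j + 1) + 3) = (χ ^ j) ^ 2 * χ ^ 5 := by
    rw [← pow_mul, ← pow_add]; congr 1; ring
  rw [e1, e2, e3, e4, pow_succ χ j]
  have hX : 0 < χ ^ j := by positivity
  field_simp

end Pool.Agent.PERC29
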