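import Pool.Agent.Lib.MP_29e17e_pr.Sec
import Pool.Agent.Lib.MP_29e17e_pr.Amp

set_option autoImplicit false
set_option linter.unusedSectionVars false

open Finset

namespace Pool.Agent.PERC29

section abstract

variable {ι : Type*} [DecidableEq ι]

/-- (The skeleton had no hypothesis on `C`; for `n = 0` it is needed that `C ∈ S`.) -/
lemma UU_add (M : ι → ι → ℝ) (S : Finset ι) (m n : ℕ) {B C : ι} (_hB : B ∈ S) (hC : C ∈ S) :
    UU M S (m + n) B C = ∑ D ∈ S, UU M S m B D * UU M S n D C := by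
  induction n generalizing C with
  | zero =>
    change UU M S m B C = ∑ D ∈ S, UU M S m B D * (if D = C then (1 : ℝ) else 0)
    rw [Finset.sum_eq_single C]
    · simp
    · intro D _ hD
      rw [if_neg hD, mul_zero]
    · intro h
      exact absurd hC h
  | succ n ih =>
    have h1 : UU M S (m + (n + 1)) B C = ∑ F ∈ S, UU M S (m + n) B F * M F C := rfl
    have h2 : ∀ D, UU M S (n + 1) D C = ∑ F ∈ S, UU M S n D F * M F C := fun D => rfl
    rw [h1]
    simp only [h2, Finset.mul_sum]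
    rw [Finset.sum_comm]
    refine Finset.sum_congr rfl fun F hF => ?_
    rw [ih hF, Finset.sum_mul]
    exact Finset.sum_congr rfl fun D _ => by ring

private lemma C1_one (M : ι → ι → ℝ) (S : Finset ι) {B : ι} (hB : B ∈ S) (C : ι) :
    UU M S 1 B C = M B C := by
  change ∑ D ∈ S, (if B = D then (1 : ℝ) else 0) * M D C = M B C
  rw [Finset.sum_eq_single B]
  · simp
  · intro D _ hD
    rw [if_neg (Ne.symm hD), zero_mul]
  · intro h
    exact absurd hB h

lemma UU_symm (M : ι → ι → ℝ) (hsym : ∀ A B, M A B = M B A) (S : Finset ι) (n : ℕ) {B C : ι}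
    (hB : B ∈ S) (hC : C ∈ S) : UU M S n B C = UU M S n C B := by
  induction n generalizing B C with
  | zero =>
    change (if B = C then (1 : ℝ) else 0) = if C = B then (1 : ℝ) else 0
    by_cases h : B = C
    · rw [if_pos h, if_pos h.symm]
    · rw [if_neg h, if_neg (Ne.symm h)]
  | succ n ih =>
    have h1 : UU M S (n + 1) B C = ∑ D ∈ S, UU M S n B D * M D C := rfl
    have h2 : UU M S (n + 1) C B = ∑ D ∈ S, UU M S 1 C D * UU M S n D B := by
      rw [add_comm]
      exact UU_add M S 1 n hC hB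
    rw [h1, h2]
    refine Finset.sum_congr rfl fun D hD => ?_
    rw [ih hB hD, C1_one M S hC, hsym D C]
    ring

private lemma C1_double (M : ι → ι → ℝ) (hsym : ∀ A B, M A B = M B A) (S : Finset ι) (n : ℕ) :
    (∑ A ∈ S, ∑ B ∈ S, UU M S n A B) ^ 2 ≤
      (S.card : ℝ) * ∑ A ∈ S, ∑ B ∈ S, UU M S (2 * n) A B := by
  have h1 : ∑ A ∈ S, ∑ B ∈ S, UU M S (2 * n) A B = ∑ D ∈ S, (∑ A ∈ S, UU M S n A D) ^ 2 := by
    have e1 : ∀ A ∈ S, ∀ B ∈ S, UU M S (2 * n) A B =
        ∑ D ∈ S, UU M S n A D * UU M S n B D := by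
      intro A hA B hB
      rw [two_mul, UU_add M S n n hA hB]
      refine Finset.sum_congr rfl fun D hD => ?_
      rw [UU_symm M hsym S n hD hB]
    rw [Finset.sum_congr rfl fun A hA => Finset.sum_congr rfl fun B hB => e1 A hA B hB]
    have e2 : ∀ A ∈ S, ∑ B ∈ S, ∑ D ∈ S, UU M S n A D * UU M S n B D =
        ∑ D ∈ S, ∑ B ∈ S, UU M S n A D * UU M S n B D := fun A _ => Finset.sum_comm
    rw [Finset.sum_congr rfl e2, Finset.sum_comm]
    refine Finset.sum_congr rfl fun D _ => ?_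
    rw [pow_two, Finset.sum_mul_sum]
  have h2 : ∑ A ∈ S, ∑ B ∈ S, UU M S n A B = ∑ D ∈ S, ∑ A ∈ S, UU M S n A D := Finset.sum_comm
  rw [h1, h2]
  exact sq_sum_le_card_mul_sum_sq

/-- The number of walks whose length is a power of two. -/
lemma UU_pow2 (M : ι → ι → ℝ) (hM : ∀ A B, 0 ≤ M A B) (hsym : ∀ A B, M A B = M B A)
    (S : Finset ι) (i : ℕ) :
    (∑ A ∈ S, ∑ B ∈ S, M A B) ^ (2 ^ i) * S.card ≤
      (S.card : ℝ) ^ (2 ^ i) * ∑ A ∈ S, ∑ B ∈ S, UU M S (2 ^ i) A B := by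
  have hT : 0 ≤ ∑ A ∈ S, ∑ B ∈ S, M A B :=
    Finset.sum_nonneg fun A _ => Finset.sum_nonneg fun B _ => hM A B
  rcases S.eq_empty_or_nonempty with hS | hS
  · subst hS
    simp
  have hc : (0 : ℝ) < S.card := by exact_mod_cast hS.card_pos
  induction i with
  | zero =>
    rw [pow_zero, pow_one, pow_one, mul_comm]
    refine mul_le_mul_of_nonneg_left (le_of_eq ?_) hc.le
    exact Finset.sum_congr rfl fun A hA => Finset.sum_congr rfl fun B _ => (C1_one M S hA B).symm
  | succ i ih =>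
    have hd := C1_double M hsym S (2 ^ i)
    set T : ℝ := ∑ A ∈ S, ∑ B ∈ S, M A B with hTdef
    set w : ℝ := ∑ A ∈ S, ∑ B ∈ S, UU M S (2 ^ i) A B with hw
    have e2 : 2 * 2 ^ i = 2 ^ (i + 1) := by ring
    rw [e2] at hd
    set w2 : ℝ := ∑ A ∈ S, ∑ B ∈ S, UU M S (2 ^ (i + 1)) A B with hw2
    have h1 : (T ^ (2 ^ i) * S.card) ^ 2 ≤ ((S.card : ℝ) ^ (2 ^ i) * w) ^ 2 :=
      pow_le_pow_left₀ (mul_nonneg (pow_nonneg hT _) hc.le) ih 2
    have h2 : ((S.card : ℝ) ^ (2 ^ i) * w) ^ 2 ≤ (S.card : ℝ) ^ (2 ^ (i + 1)) * (S.card * w2) := by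
      rw [mul_pow, ← pow_mul, ← pow_succ]
      exact mul_le_mul_of_nonneg_left hd (pow_nonneg hc.le _)
    have h3 : T ^ (2 ^ (i + 1)) * S.card * S.card ≤ (S.card : ℝ) ^ (2 ^ (i + 1)) * w2 * S.card := by
      have e3 : T ^ (2 ^ (i + 1)) * S.card * S.card = (T ^ (2 ^ i) * S.card) ^ 2 := by
        rw [mul_pow, ← pow_mul, ← pow_succ]
        ring
      rw [e3]
      refine (h1.trans h2).trans (le_of_eq ?_)
      ring
    exact le_of_mul_le_mul_right h3 hc

/-- The number of edges inside the classes of a partition with small classes. -/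
lemma inside_bound (M : ι → ι → ℝ) (hM : ∀ A B, 0 ≤ M A B) (hsym : ∀ A B, M A B = M B A)
    (s : Finset ι) (u : ℕ → ℝ) (hu0 : u 0 = 1) (hu : ∀ n, 0 ≤ u n)
    (hmul : ∀ l m, u l * u m ≤ u (l + m)) (i : ℕ)
    (hc : ∀ m < 2 * 2 ^ i, ∀ A ∈ s, pth M m (s.erase A) A A ≤ u (m + 1))
    {L : Type*} [DecidableEq L] (l : ι → L) (hl : ∀ A ∈ s, ∀ B ∈ s, l A ≠ l B → M A B = 0)
    {κ : ℝ} (hκ : ∀ A ∈ s, ((s.filter (fun B => l A = l B)).card : ℝ) ≤ κ) :
    (∑ A ∈ s, ∑ B ∈ s, M A B) ^ (2 * 2 ^ i) ≤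
      (s.card : ℝ) ^ (2 * 2 ^ i) * (κ * (kk (2 * 2 ^ i) * u (2 * 2 ^ i))) := by
  have hT : 0 ≤ ∑ A ∈ s, ∑ B ∈ s, M A B :=
    Finset.sum_nonneg fun A _ => Finset.sum_nonneg fun B _ => hM A B
  rcases s.eq_empty_or_nonempty with hs | hs
  · subst hs
    have h0 : 2 * 2 ^ i ≠ 0 := by positivity
    simp [h0]
  have hcs : (0 : ℝ) < s.card := by exact_mod_cast hs.card_pos
  have hcl := closed_walks M hM s u hu0 hu hmul (2 * 2 ^ i) hc
  -- walks between different classes
  have hz : ∀ n, ∀ A ∈ s, ∀ B ∈ s, l A ≠ l B → UU M s n A B = 0 := by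
    intro n
    induction n with
    | zero =>
      intro A _ B _ hAB
      change (if A = B then (1 : ℝ) else 0) = 0
      rw [if_neg]
      rintro rfl
      exact hAB rfl
    | succ n ih =>
      intro A hA B hB hAB
      change ∑ D ∈ s, UU M s n A D * M D B = 0
      refine Finset.sum_eq_zero fun D hD => ?_
      by_cases h1 : l A = l D
      · rw [hl D hD B hB (fun h2 => hAB (h1.trans h2)), mul_zero]
      · rw [ih A hA D hD h1, zero_mul]
  have hp := UU_pow2 M hM hsym s i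
  set n : ℕ := 2 ^ i with hn
  set T : ℝ := ∑ A ∈ s, ∑ B ∈ s, M A B with hTdef
  set c : ℝ := (s.card : ℝ) with hcdef
  -- the sum of the squares
  have hsq : ∑ A ∈ s, ∑ B ∈ s, UU M s n A B ^ 2 ≤ c * (kk (2 * n) * u (2 * n)) := by
    have h1 : ∀ A ∈ s, ∑ B ∈ s, UU M s n A B ^ 2 ≤ kk (2 * n) * u (2 * n) := by
      intro A hA
      refine le_trans (le_of_eq ?_) (hcl A hA)
      rw [two_mul, UU_add M s n n hA hA]
      refine Finset.sum_congr rfl fun B hB => ?_
      rw [UU_symm M hsym s n hB hA, pow_two]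
    refine (Finset.sum_le_sum h1).trans (le_of_eq ?_)
    rw [Finset.sum_const, nsmul_eq_mul]
  -- Cauchy-Schwarz over the pairs with the same label
  have hw : (∑ A ∈ s, ∑ B ∈ s, UU M s n A B) ^ 2 ≤
      (c * κ) * ∑ A ∈ s, ∑ B ∈ s, UU M s n A B ^ 2 := by
    set P : Finset (ι × ι) := (s ×ˢ s).filter fun z => l z.1 = l z.2 with hP
    have h1 : ∑ A ∈ s, ∑ B ∈ s, UU M s n A B = ∑ z ∈ P, UU M s n z.1 z.2 := by
      rw [← Finset.sum_product', hP, Finset.sum_filter]
      refine Finset.sum_congr rfl fun z hz' => ?_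
      obtain ⟨ha, hb⟩ := Finset.mem_product.1 hz'
      by_cases h2 : l z.1 = l z.2
      · rw [if_pos h2]
      · rw [if_neg h2, hz n z.1 ha z.2 hb h2]
    have h2 : ∑ z ∈ P, UU M s n z.1 z.2 ^ 2 ≤ ∑ A ∈ s, ∑ B ∈ s, UU M s n A B ^ 2 := by
      rw [← Finset.sum_product' (f := fun A B => UU M s n A B ^ 2)]
      exact Finset.sum_le_sum_of_subset_of_nonneg (Finset.filter_subset _ _)
        fun z _ _ => sq_nonneg _
    have h3 : (P.card : ℝ) ≤ c * κ := by
      have h4 : P.card = ∑ A ∈ s, (s.filter fun B => l A = l B).card := by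
        rw [hP, Finset.card_filter, Finset.sum_product]
        refine Finset.sum_congr rfl fun A _ => ?_
        rw [Finset.card_filter]
      rw [h4]
      push_cast
      refine (Finset.sum_le_sum hκ).trans (le_of_eq ?_)
      rw [Finset.sum_const, nsmul_eq_mul]
    rw [h1]
    calc (∑ z ∈ P, UU M s n z.1 z.2) ^ 2 ≤ (P.card : ℝ) * ∑ z ∈ P, UU M s n z.1 z.2 ^ 2 :=
          sq_sum_le_card_mul_sum_sq
      _ ≤ (c * κ) * ∑ z ∈ P, UU M s n z.1 z.2 ^ 2 :=
          mul_le_mul_of_nonneg_right h3 (Finset.sum_nonneg fun z _ => sq_nonneg _)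
      _ ≤ _ := mul_le_mul_of_nonneg_left h2 ((Nat.cast_nonneg _).trans h3)
  have hκ0 : 0 ≤ κ := by
    obtain ⟨A, hA⟩ := hs
    exact (Nat.cast_nonneg _).trans (hκ A hA)
  have h1 : (T ^ n * c) ^ 2 ≤ (c ^ n * ∑ A ∈ s, ∑ B ∈ s, UU M s n A B) ^ 2 :=
    pow_le_pow_left₀ (mul_nonneg (pow_nonneg hT _) hcs.le) hp 2
  have h2 : (c ^ n * ∑ A ∈ s, ∑ B ∈ s, UU M s n A B) ^ 2 ≤
      c ^ (2 * n) * ((c * κ) * (c * (kk (2 * n) * u (2 * n)))) := by
    rw [mul_pow, ← pow_mul, mul_comm n 2]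
    refine mul_le_mul_of_nonneg_left (hw.trans ?_) (pow_nonneg hcs.le _)
    exact mul_le_mul_of_nonneg_left hsq (mul_nonneg hcs.le hκ0)
  have h3 : T ^ (2 * n) * (c * c) ≤ c ^ (2 * n) * (κ * (kk (2 * n) * u (2 * n))) * (c * c) := by
    have e3 : T ^ (2 * n) * (c * c) = (T ^ n * c) ^ 2 := by
      rw [mul_pow, ← pow_mul, mul_comm n 2]
      ring
    rw [e3]
    refine (h1.trans h2).trans (le_of_eq ?_)
    ring
  exact le_of_mul_le_mul_right h3 (mul_pos hcs hcs)

private lemma pth_par (M : ι → ι → ℝ) (f : ι → Bool) (hf : ∀ A B, f A = f B → M A B = 0) (n : ℕ) :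
    ∀ (S : Finset ι) (A B : ι), ((Even n ∧ f A = f B) ∨ (¬ Even n ∧ f A ≠ f B)) →
      pth M n S A B = 0 := by
  induction n with
  | zero =>
    intro S A B h
    rcases h with ⟨-, h⟩ | ⟨h, -⟩
    · exact hf A B h
    · exact absurd (by simp : Even 0) h
  | succ n ih =>
    intro S A B h
    change ∑ D ∈ S, M A D * pth M n (S.erase D) D B = 0
    refine Finset.sum_eq_zero fun D _ => ?_
    by_cases hD : f A = f D
    · rw [hf A D hD, zero_mul]
    · rw [ih (S.erase D) D B, mul_zero]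
      rw [Nat.even_add_one, not_not] at h
      rcases h with ⟨h1, h2⟩ | ⟨h1, h2⟩
      · right
        exact ⟨h1, fun h3 => hD (h2.trans h3.symm)⟩
      · left
        refine ⟨h1, ?_⟩
        revert hD h2
        cases f A <;> cases f B <;> cases f D <;> simp

/-- No closed paths of odd length in a bipartite kernel. -/
lemma pth_odd (M : ι → ι → ℝ) (f : ι → Bool) (hf : ∀ A B, f A = f B → M A B = 0) (n : ℕ)
    (S : Finset ι) (A : ι) (hn : Even n) : pth M n S A A = 0 :=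
  pth_par M f hf n S A A (Or.inl ⟨hn, rfl⟩)

/-- The same for a general kernel, by a maximal cut. -/
lemma det_inside [Fintype ι] (N : ι → ι → ℝ) (hN : ∀ A B, 0 ≤ N A B) (hsym : ∀ A B, N A B = N B A)
    (G s : Finset ι) (hs : s ⊆ G) {L : Type*} [DecidableEq L] (l : ι → L) {κ ng : ℝ}
    (hκ : ∀ A ∈ s, ((s.filter (fun B => l A = l B)).card : ℝ) ≤ κ) (hκ0 : 0 ≤ κ)
    (hng : (s.card : ℝ) ≤ ng)
    (v : ℕ → ℝ) (hv0 : v 0 = 1) (hv : ∀ n, 0 ≤ v n) (hvm : ∀ a b, v a * v b ≤ v (a + b)) (i : ℕ)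
    (hc : ∀ j, 1 ≤ j → j ≤ 2 ^ i → ∀ A ∈ s, pth N (2 * j - 1) (G.erase A) A A ≤ v j) :
    ((1 / 2) * ∑ A ∈ s, ∑ B ∈ s, (if A = B then 0 else if l A = l B then N A B else 0)) ^
      (2 * 2 ^ i) ≤ ng ^ (2 * 2 ^ i) * (κ * (kk (2 * 2 ^ i) * v (2 ^ i))) := by
  obtain ⟨f, hf⟩ := maxcut (L := ι) s (fun A => A)
    (fun A B => if l A = l B then N A B else 0)
  have hW : ∀ A B, 0 ≤ (if l A = l B then N A B else 0) := by
    intro A B
    split_ifs
    · exact hN A B
    · exact le_rfl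
  set M : ι → ι → ℝ := fun A B => if f A = f B then 0 else if l A = l B then N A B else 0 with hMd
  set u : ℕ → ℝ := fun n => if Even n then v (n / 2) else 0 with hud
  have hM : ∀ A B, 0 ≤ M A B := by
    intro A B
    change 0 ≤ if f A = f B then 0 else if l A = l B then N A B else 0
    split_ifs
    · exact le_rfl
    · exact hN A B
    · exact le_rfl
  have hMN : ∀ A B, M A B ≤ N A B := by
    intro A B
    change (if f A = f B then 0 else if l A = l B then N A B else 0) ≤ N A B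
    split_ifs
    · exact hN A B
    · exact le_rfl
    · exact hN A B
  have hMs : ∀ A B, M A B = M B A := by
    intro A B
    change (if f A = f B then 0 else if l A = l B then N A B else 0) =
      if f B = f A then 0 else if l B = l A then N B A else 0
    rw [hsym A B]
    simp only [eq_comm]
  have hu : ∀ n, 0 ≤ u n := by
    intro n
    change 0 ≤ if Even n then v (n / 2) else 0
    split_ifs
    · exact hv _
    · exact le_rfl
  have hu0 : u 0 = 1 := by
    change (if Even 0 then v (0 / 2) else 0) = 1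
    rw [if_pos (by simp), Nat.zero_div, hv0]
  have hmul : ∀ a b, u a * u b ≤ u (a + b) := by
    intro a b
    by_cases ha : Even a
    · by_cases hb : Even b
      · change (if Even a then v (a / 2) else 0) * (if Even b then v (b / 2) else 0) ≤
          if Even (a + b) then v ((a + b) / 2) else 0
        rw [if_pos ha, if_pos hb, if_pos (ha.add hb)]
        obtain ⟨a', rfl⟩ := ha
        obtain ⟨b', rfl⟩ := hb
        have e1 : (a' + a') / 2 = a' := by omega
        have e2 : (b' + b') / 2 = b' := by omega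
        have e3 : (a' + a' + (b' + b')) / 2 = a' + b' := by omega
        rw [e1, e2, e3]
        exact hvm a' b'
      · have e1 : u b = 0 := if_neg hb
        rw [e1, mul_zero]
        exact hu _
    · have e1 : u a = 0 := if_neg ha
      rw [e1, zero_mul]
      exact hu _
  have hfM : ∀ A B, f A = f B → M A B = 0 := fun A B h => if_pos h
  have hcM : ∀ m < 2 * 2 ^ i, ∀ A ∈ s, pth M m (s.erase A) A A ≤ u (m + 1) := by
    intro m hm A hA
    by_cases hme : Even m
    · rw [pth_odd M f hfM m (s.erase A) A hme]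
      exact hu _
    · obtain ⟨k, hk⟩ := Nat.not_even_iff_odd.1 hme
      have e1 : m = 2 * (k + 1) - 1 := by omega
      have e2 : u (m + 1) = v (k + 1) := by
        change (if Even (m + 1) then v ((m + 1) / 2) else 0) = v (k + 1)
        rw [if_pos ⟨k + 1, by omega⟩]
        congr 1
        omega
      rw [e2]
      refine (pth_mono hM hMN m (Finset.erase_subset_erase A hs) A A).trans ?_
      rw [e1]
      exact hc (k + 1) (by omega) (by omega) A hA
  have hl : ∀ A ∈ s, ∀ B ∈ s, l A ≠ l B → M A B = 0 := by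
    intro A _ B _ h
    change (if f A = f B then 0 else if l A = l B then N A B else 0) = 0
    rw [if_neg h, ite_self]
  have key := inside_bound M hM hMs s u hu0 hu hmul i hcM l hl hκ
  have e3 : u (2 * 2 ^ i) = v (2 ^ i) := by
    change (if Even (2 * 2 ^ i) then v (2 * 2 ^ i / 2) else 0) = v (2 ^ i)
    rw [if_pos (even_two_mul _), Nat.mul_div_cancel_left _ (by norm_num)]
  rw [e3] at key
  have h0 : 0 ≤ (1 / 2) * ∑ A ∈ s, ∑ B ∈ s,
      (if A = B then 0 else if l A = l B then N A B else 0) := by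
    refine mul_nonneg (by norm_num) (Finset.sum_nonneg fun A _ => Finset.sum_nonneg fun B _ => ?_)
    split_ifs
    · exact le_rfl
    · exact hN A B
    · exact le_rfl
  have h1 := one_le_kk (2 * 2 ^ i)
  calc _ ≤ (∑ A ∈ s, ∑ B ∈ s, M A B) ^ (2 * 2 ^ i) := pow_le_pow_left₀ h0 hf _
    _ ≤ _ := key
    _ ≤ _ := mul_le_mul_of_nonneg_right (pow_le_pow_left₀ (Nat.cast_nonneg _) hng _)
        (mul_nonneg hκ0 (mul_nonneg (by linarith) (hv _)))

end abstract

variable {V : Type*} [Fintype V] [DecidableEq V] {E : Type*} [Fintype E] [DecidableEq E]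
  {ends : E → Sym2 V}

open scoped Classical in
/-- The good configurations. -/
def Gd (ends : E → Sym2 V) (a τ ng S2 : ℝ) (i : ℕ) (Y : ℕ → ℝ) (ω : E → Bool) : Prop :=
  τ ≤ TT ends ω a ∧ ((GC ends ω a).card : ℝ) ≤ ng ∧ ∑ A ∈ GC ends ω a, dg ends ω a A ^ 2 ≤ S2 ∧
    ∀ j, 1 ≤ j → j ≤ 2 ^ i → cc ends ω a (2 * j - 1) ≤ Y j

/-- If after sprinkling all clusters are small, some union of clusters is not joined to the rest
although there are many edges between them. -/
lemma cut_exists2 (ω ω' : E → Bool) {a m τ ng S2 : ℝ} {i : ℕ} {Y v : ℕ → ℝ} (ha : 0 < a)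
    (hτ0 : 0 ≤ τ)
    (hm : ∀ x, cz ends (orc ω ω') x < m) (hm0 : 0 ≤ m)
    (hv0 : v 0 = 1) (hv : ∀ n, 0 < v n) (hvm : ∀ a b, v a * v b ≤ v (a + b))
    (hG : Gd ends a τ ng S2 i Y ω)
    (h1 : 64 * ((∑ j ∈ Finset.Icc 1 (2 ^ i), Y j / v j) * S2) ≤ τ ^ 2)
    (h2 : (8 * ng) ^ (2 * 2 ^ i) * ((m / a) * (kk (2 * 2 ^ i) * v (2 ^ i))) ≤ τ ^ (2 * 2 ^ i)) :
    ∃ 𝒮 ∈ (GC ends ω a).powerset, τ / 8 ≤ ((XX ends ω a 𝒮).card : ℝ) ∧
      ∀ e ∈ XX ends ω a 𝒮, ω' e = false := by
  classical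
  obtain ⟨hTT, hng, hS2, hcc⟩ := hG
  set η := orc ω ω' with hη
  set G := GC ends ω a with hGdef
  set l := lab ends η with hl
  set W : Finset V → Finset V → ℝ := fun A B => if A = B then 0 else NN ends A B with hW
  have hW0 : ∀ A B, 0 ≤ W A B := by
    intro A B
    simp only [hW]
    split_ifs
    · exact le_rfl
    · exact NN_nonneg A B
  have hWN : ∀ A B, W A B ≤ NN ends A B := by
    intro A B
    simp only [hW]
    split_ifs
    · exact NN_nonneg A B
    · exact le_rfl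
  have hWs : ∀ A B, W A B = W B A := by
    intro A B
    simp only [hW]
    rw [NN_symm A B]
    exact if_congr eq_comm rfl rfl
  have hTt : TT ends ω a = ∑ A ∈ G, ∑ B ∈ G, W A B := rfl
  have hdg : ∀ A, dg ends ω a A = ∑ B ∈ G, W A B := fun A => rfl
  have hsplit : ∑ A ∈ G, ∑ B ∈ G, W A B =
      ∑ A ∈ G, ∑ B ∈ G, (if l A = l B then W A B else 0) +
      ∑ A ∈ G, ∑ B ∈ G, (if l A = l B then 0 else W A B) := by
    rw [← Finset.sum_add_distrib]
    refine Finset.sum_congr rfl fun A _ => ?_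
    rw [← Finset.sum_add_distrib]
    refine Finset.sum_congr rfl fun B _ => ?_
    split_ifs <;> simp
  -- the clusters with few cycles
  set s := G.filter (fun A => ∀ j, 1 ≤ j → j ≤ 2 ^ i →
    pth (NN ends) (2 * j - 1) (G.erase A) A A ≤ v j) with hs
  have hsG : s ⊆ G := Finset.filter_subset _ _
  set Q : ℝ := ∑ j ∈ Finset.Icc 1 (2 ^ i), Y j / v j with hQ
  have hb : ((G \ s).card : ℝ) ≤ Q := by
    have e1 : ∀ A ∈ G \ s, (1 : ℝ) ≤ ∑ j ∈ Finset.Icc 1 (2 ^ i),
        pth (NN ends) (2 * j - 1) (G.erase A) A A / v j := by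
      intro A hA
      obtain ⟨hA1, hA2⟩ := Finset.mem_sdiff.1 hA
      rw [hs, Finset.mem_filter] at hA2
      push Not at hA2
      obtain ⟨j, hj1, hj2, hj3⟩ := hA2 hA1
      have h3 : (1 : ℝ) ≤ pth (NN ends) (2 * j - 1) (G.erase A) A A / v j := by
        rw [le_div_iff₀ (hv j), one_mul]
        exact hj3.le
      refine h3.trans (Finset.single_le_sum (f := fun j =>
        pth (NN ends) (2 * j - 1) (G.erase A) A A / v j) (fun j _ => ?_)
        (Finset.mem_Icc.2 ⟨hj1, hj2⟩))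
      exact div_nonneg (pth_nonneg NN_nonneg _ _ _ _) (hv j).le
    calc ((G \ s).card : ℝ) = ∑ _A ∈ G \ s, (1 : ℝ) := by simp
      _ ≤ ∑ A ∈ G \ s, ∑ j ∈ Finset.Icc 1 (2 ^ i),
          pth (NN ends) (2 * j - 1) (G.erase A) A A / v j := Finset.sum_le_sum e1
      _ ≤ ∑ A ∈ G, ∑ j ∈ Finset.Icc 1 (2 ^ i),
          pth (NN ends) (2 * j - 1) (G.erase A) A A / v j :=
          Finset.sum_le_sum_of_subset_of_nonneg Finset.sdiff_subset fun A _ _ =>
            Finset.sum_nonneg fun j _ => div_nonneg (pth_nonneg NN_nonneg _ _ _ _) (hv j).le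
      _ = ∑ j ∈ Finset.Icc 1 (2 ^ i), cc ends ω a (2 * j - 1) / v j := by
          rw [Finset.sum_comm]
          refine Finset.sum_congr rfl fun j _ => ?_
          rw [← Finset.sum_div]
          rfl
      _ ≤ Q := by
          refine Finset.sum_le_sum fun j hj => ?_
          obtain ⟨hj1, hj2⟩ := Finset.mem_Icc.1 hj
          exact div_le_div_of_nonneg_right (hcc j hj1 hj2) (hv j).le
  -- the edges at the other clusters
  set D : ℝ := ∑ A ∈ G \ s, dg ends ω a A with hD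
  have hdg0 : ∀ A, 0 ≤ dg ends ω a A := fun A => by
    rw [hdg]
    exact Finset.sum_nonneg fun B _ => hW0 A B
  have hD0 : 0 ≤ D := Finset.sum_nonneg fun A _ => hdg0 A
  have hDle : D ≤ τ / 8 := by
    have e1 : D ^ 2 ≤ ((G \ s).card : ℝ) * ∑ A ∈ G \ s, dg ends ω a A ^ 2 := by
      have := sum_mul_sq_le_sq_mul_sq (G \ s) (fun _ => (1 : ℝ)) (fun A => dg ends ω a A)
      simpa using this
    have e2 : ∑ A ∈ G \ s, dg ends ω a A ^ 2 ≤ S2 :=
      (Finset.sum_le_sum_of_subset_of_nonneg Finset.sdiff_subset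
        fun A _ _ => sq_nonneg _).trans hS2
    have e3 : 0 ≤ ∑ A ∈ G \ s, dg ends ω a A ^ 2 := Finset.sum_nonneg fun A _ => sq_nonneg _
    have e4 : ((G \ s).card : ℝ) * ∑ A ∈ G \ s, dg ends ω a A ^ 2 ≤ Q * S2 :=
      mul_le_mul hb e2 e3 ((Nat.cast_nonneg _).trans hb)
    have e5 : D ^ 2 ≤ (τ / 8) ^ 2 := by
      have : (τ / 8) ^ 2 = τ ^ 2 / 64 := by ring
      rw [this]
      linarith
    exact (pow_le_pow_iff_left₀ hD0 (by positivity) two_ne_zero).1 e5
  -- the edges inside the labels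
  set I : ℝ := ∑ A ∈ s, ∑ B ∈ s, (if A = B then 0 else if l A = l B then NN ends A B else 0)
    with hI
  have hI0 : 0 ≤ I := by
    refine Finset.sum_nonneg fun A _ => Finset.sum_nonneg fun B _ => ?_
    split_ifs
    · exact le_rfl
    · exact NN_nonneg A B
    · exact le_rfl
  have hκ0 : 0 ≤ m / a := div_nonneg hm0 ha.le
  have hIle : I ≤ τ / 4 := by
    have e1 := det_inside (NN ends) NN_nonneg NN_symm G s hsG l (κ := m / a) (ng := ng)
      (fun A hA => by
        refine le_trans ?_ (same_label (orc_left ω ω') ha hm (hsG hA))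
        exact_mod_cast Finset.card_le_card (Finset.filter_subset_filter _ hsG))
      hκ0 (le_trans (by exact_mod_cast Finset.card_le_card hsG) hng)
      v hv0 (fun n => (hv n).le) hvm i (fun j hj1 hj2 A hA => (Finset.mem_filter.1 hA).2 j hj1 hj2)
    rw [← hI] at e1
    have e2 : (4 * I) ^ (2 * 2 ^ i) ≤ τ ^ (2 * 2 ^ i) := by
      calc (4 * I) ^ (2 * 2 ^ i) = 8 ^ (2 * 2 ^ i) * ((1 / 2) * I) ^ (2 * 2 ^ i) := by
            rw [← mul_pow]
            congr 1
            ring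
        _ ≤ 8 ^ (2 * 2 ^ i) * (ng ^ (2 * 2 ^ i) * ((m / a) * (kk (2 * 2 ^ i) * v (2 ^ i)))) :=
            mul_le_mul_of_nonneg_left e1 (by positivity)
        _ = (8 * ng) ^ (2 * 2 ^ i) * ((m / a) * (kk (2 * 2 ^ i) * v (2 ^ i))) := by
            rw [mul_pow]
            ring
        _ ≤ _ := h2
    have e3 := (pow_le_pow_iff_left₀ (by positivity) hτ0 (by positivity)).1 e2
    linarith
  have hsame : ∑ A ∈ G, ∑ B ∈ G, (if l A = l B then W A B else 0) ≤ τ / 2 := by
    have hZ : ∀ A B, (if l A = l B then W A B else 0) ≤ W A B := by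
      intro A B
      split_ifs
      · exact le_rfl
      · exact hW0 A B
    rw [← Finset.sum_sdiff hsG]
    have e1 : ∑ A ∈ G \ s, ∑ B ∈ G, (if l A = l B then W A B else 0) ≤ D := by
      refine Finset.sum_le_sum fun A _ => ?_
      rw [hdg]
      exact Finset.sum_le_sum fun B _ => hZ A B
    have e2 : ∑ A ∈ s, ∑ B ∈ G, (if l A = l B then W A B else 0) ≤ D + I := by
      have e3 : ∀ A, ∑ B ∈ G, (if l A = l B then W A B else 0) =
          ∑ B ∈ G \ s, (if l A = l B then W A B else 0) +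
          ∑ B ∈ s, (if l A = l B then W A B else 0) := fun A =>
        (Finset.sum_sdiff hsG).symm
      rw [Finset.sum_congr rfl fun A _ => e3 A, Finset.sum_add_distrib]
      refine add_le_add ?_ (le_of_eq ?_)
      · rw [Finset.sum_comm]
        refine Finset.sum_le_sum fun B _ => ?_
        rw [hdg]
        calc ∑ A ∈ s, (if l A = l B then W A B else 0) ≤ ∑ A ∈ s, W B A := by
              refine Finset.sum_le_sum fun A _ => ?_
              rw [hWs B A]
              exact hZ A B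
          _ ≤ ∑ A ∈ G, W B A :=
              Finset.sum_le_sum_of_subset_of_nonneg hsG fun A _ _ => hW0 B A
      · rw [hI]
        refine Finset.sum_congr rfl fun A _ => Finset.sum_congr rfl fun B _ => ?_
        simp only [hW]
        split_ifs <;> rfl
    linarith
  obtain ⟨f, hf⟩ := maxcut G l W
  set 𝒮 := G.filter (fun A => f (l A) = true) with h𝒮
  have h𝒮G : 𝒮 ⊆ G := Finset.filter_subset _ _
  have hsd : G \ 𝒮 = G.filter (fun A => ¬ f (l A) = true) := by
    rw [h𝒮]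
    ext B
    rw [Finset.mem_sdiff, Finset.mem_filter, Finset.mem_filter]
    tauto
  have hcut : ∑ A ∈ G, ∑ B ∈ G, (if f (l A) = f (l B) then 0 else W A B) =
      2 * ∑ A ∈ 𝒮, ∑ B ∈ G \ 𝒮, W A B := by
    have e1 : ∀ A B, (if f (l A) = f (l B) then 0 else W A B) =
        (if f (l A) = true then (if ¬ f (l B) = true then W A B else 0) else 0) +
        (if f (l B) = true then (if ¬ f (l A) = true then W B A else 0) else 0) := by
      intro A B
      rw [hWs B A]
      cases f (l A) <;> cases f (l B) <;> simp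
    simp_rw [e1, Finset.sum_add_distrib]
    have e2 : ∑ A ∈ G, ∑ B ∈ G, (if f (l A) = true then (if ¬ f (l B) = true then W A B else 0)
        else 0) = ∑ A ∈ 𝒮, ∑ B ∈ G \ 𝒮, W A B := by
      rw [hsd, h𝒮, Finset.sum_filter]
      refine Finset.sum_congr rfl fun A _ => ?_
      by_cases hA : f (l A) = true
      · simp only [if_pos hA]
        rw [Finset.sum_filter]
      · simp only [if_neg hA]
        simp
    have e3 : ∑ A ∈ G, ∑ B ∈ G, (if f (l B) = true then (if ¬ f (l A) = true then W B A else 0)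
        else 0) = ∑ A ∈ 𝒮, ∑ B ∈ G \ 𝒮, W A B := by
      rw [Finset.sum_comm, ← e2]
    rw [e2, e3]
    ring
  refine ⟨𝒮, Finset.mem_powerset.2 h𝒮G, ?_, ?_⟩
  · have h5 := XX_card (ends := ends) ω a 𝒮 h𝒮G
    have h6 : ∑ A ∈ 𝒮, ∑ B ∈ G \ 𝒮, W A B ≤ ∑ A ∈ 𝒮, ∑ B ∈ G \ 𝒮, NN ends A B :=
      Finset.sum_le_sum fun A _ => Finset.sum_le_sum fun B _ => hWN A B
    rw [hcut] at hf
    linarith
  · intro e he
    unfold XX at he
    rw [Finset.mem_filter] at he
    obtain ⟨-, A, hA, B, hB, x, hx, y, hy, hxy⟩ := he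
    by_contra hcon
    have hopen : ω' e = true := by simpa using hcon
    have h7 : y ∈ cu ends η x := by
      rw [mem_cu]
      exact Relation.ReflTransGen.single ⟨trivial, trivial, e, orc_right ω ω' e hopen, hxy⟩
    have hBG := (Finset.mem_sdiff.1 hB).1
    have h8 : l A = l B := by
      rw [hl, lab_eq (orc_left ω ω') (h𝒮G hA) hx, lab_eq (orc_left ω ω') hBG hy]
      exact (cu_eq h7).symm
    rw [hsd, Finset.mem_filter] at hB
    rw [h𝒮, Finset.mem_filter] at hA
    exact hB.2 (h8 ▸ hA.2)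

open scoped Classical in
lemma union_bound2 {s : ℝ} (hs0 : 0 ≤ s) (hs1 : s ≤ 1) (ω : E → Bool) {a m τ ng S2 : ℝ} {i : ℕ}
    {Y v : ℕ → ℝ} (ha : 0 < a) (hτ0 : 0 ≤ τ) (hm0 : 0 ≤ m)
    (hv0 : v 0 = 1) (hv : ∀ n, 0 < v n) (hvm : ∀ a b, v a * v b ≤ v (a + b))
    (hG : Gd ends a τ ng S2 i Y ω)
    (h1 : 64 * ((∑ j ∈ Finset.Icc 1 (2 ^ i), Y j / v j) * S2) ≤ τ ^ 2)
    (h2 : (8 * ng) ^ (2 * 2 ^ i) * ((m / a) * (kk (2 * 2 ^ i) * v (2 ^ i))) ≤ τ ^ (2 * 2 ^ i))
    (hs : ng + 1 ≤ s * τ / 8) :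
    Ex s (fun ω' => if ∀ x, cz ends (orc ω ω') x < m then (1 : ℝ) else 0) ≤ 1 / 2 := by
  have hng := hG.2.1
  have hpt : ∀ ω' : E → Bool, (if ∀ x, cz ends (orc ω ω') x < m then (1 : ℝ) else 0) ≤
      ∑ 𝒮 ∈ (GC ends ω a).powerset, (if τ / 8 ≤ ((XX ends ω a 𝒮).card : ℝ) then (1 : ℝ) else 0) *
        (if ∀ e ∈ XX ends ω a 𝒮, ω' e = false then (1 : ℝ) else 0) := by
    intro ω'
    have hnn : ∀ 𝒮 ∈ (GC ends ω a).powerset,
        0 ≤ (if τ / 8 ≤ ((XX ends ω a 𝒮).card : ℝ) then (1 : ℝ) else 0) *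
        (if ∀ e ∈ XX ends ω a 𝒮, ω' e = false then (1 : ℝ) else 0) := by
      intro 𝒮 _
      split_ifs <;> norm_num
    by_cases h : ∀ x, cz ends (orc ω ω') x < m
    · rw [if_pos h]
      obtain ⟨𝒮, h3, h4, h5⟩ := cut_exists2 ω ω' ha hτ0 h hm0 hv0 hv hvm hG h1 h2
      calc (1 : ℝ) = (if τ / 8 ≤ ((XX ends ω a 𝒮).card : ℝ) then (1 : ℝ) else 0) *
          (if ∀ e ∈ XX ends ω a 𝒮, ω' e = false then (1 : ℝ) else 0) := by
            rw [if_pos h4, if_pos h5, one_mul]
        _ ≤ _ := Finset.single_le_sum (f := fun 𝒮 =>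
            (if τ / 8 ≤ ((XX ends ω a 𝒮).card : ℝ) then (1 : ℝ) else 0) *
            (if ∀ e ∈ XX ends ω a 𝒮, ω' e = false then (1 : ℝ) else 0)) hnn h3
    · rw [if_neg h]
      exact Finset.sum_nonneg hnn
  have hE := Ex_mono hs0 hs1 hpt
  rw [Ex_sum] at hE
  refine hE.trans ?_
  have hterm : ∀ 𝒮 ∈ (GC ends ω a).powerset,
      Ex s (fun ω' : E → Bool => (if τ / 8 ≤ ((XX ends ω a 𝒮).card : ℝ) then (1 : ℝ) else 0) *
        (if ∀ e ∈ XX ends ω a 𝒮, ω' e = false then (1 : ℝ) else 0)) ≤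
        Real.exp (-(s * τ / 8)) := by
    intro 𝒮 _
    rw [Ex_mul_left, Ex_closed]
    by_cases h : τ / 8 ≤ ((XX ends ω a 𝒮).card : ℝ)
    · rw [if_pos h, one_mul]
      calc (1 - s) ^ (XX ends ω a 𝒮).card ≤ (Real.exp (-s)) ^ (XX ends ω a 𝒮).card := by
            apply pow_le_pow_left₀ (by linarith)
            have := Real.add_one_le_exp (-s)
            linarith
        _ = Real.exp (-(s * (XX ends ω a 𝒮).card)) := by
            rw [← Real.exp_nat_mul]
            congr 1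
            ring
        _ ≤ _ := by
            apply Real.exp_le_exp.2
            have := mul_le_mul_of_nonneg_left h hs0
            linarith
    · rw [if_neg h, zero_mul]
      exact (Real.exp_pos _).le
  calc _ ≤ ∑ _𝒮 ∈ (GC ends ω a).powerset, Real.exp (-(s * τ / 8)) := Finset.sum_le_sum hterm
    _ = (2 : ℝ) ^ (GC ends ω a).card * Real.exp (-(s * τ / 8)) := by
        rw [Finset.sum_const, Finset.card_powerset, nsmul_eq_mul]
        push_cast
        ring
    _ ≤ Real.exp ng * Real.exp (-(s * τ / 8)) := by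
        apply mul_le_mul_of_nonneg_right _ (Real.exp_pos _).le
        have h2 : (2 : ℝ) ≤ Real.exp 1 := by
          have := Real.exp_one_gt_d9
          linarith
        calc (2 : ℝ) ^ (GC ends ω a).card ≤ (Real.exp 1) ^ (GC ends ω a).card :=
              pow_le_pow_left₀ (by norm_num) h2 _
          _ = Real.exp ((GC ends ω a).card : ℝ) := by
              rw [← Real.exp_nat_mul]
              congr 1
              ring
          _ ≤ _ := Real.exp_le_exp.2 hng
    _ = Real.exp (ng - s * τ / 8) := by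
        rw [← Real.exp_add]
        congr 1
    _ ≤ Real.exp (-1) := Real.exp_le_exp.2 (by linarith)
    _ ≤ 1 / 2 := by
        have := Real.exp_one_gt_d9
        have h2 : Real.exp (-1) * Real.exp 1 = 1 := by rw [← Real.exp_add]; norm_num
        have h3 := Real.exp_pos (-1)
        nlinarith

open scoped Classical in
/-- The sprinkling bound, for probabilities. -/
lemma sprinkle_prob2 {p s : ℝ} (h0 : 0 ≤ p) (h1 : p ≤ 1) (hs0 : 0 ≤ s) (hs1 : s ≤ 1)
    {a m τ ng S2 : ℝ} {i : ℕ} {Y v : ℕ → ℝ} (ha : 0 < a) (hτ0 : 0 ≤ τ) (hm0 : 0 ≤ m)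
    (hv0 : v 0 = 1) (hv : ∀ n, 0 < v n) (hvm : ∀ a b, v a * v b ≤ v (a + b))
    (c1 : 64 * ((∑ j ∈ Finset.Icc 1 (2 ^ i), Y j / v j) * S2) ≤ τ ^ 2)
    (c2 : (8 * ng) ^ (2 * 2 ^ i) * ((m / a) * (kk (2 * 2 ^ i) * v (2 ^ i))) ≤ τ ^ (2 * 2 ^ i))
    (hs : ng + 1 ≤ s * τ / 8) :
    1 / 2 * Ex p (fun ω => if Gd ends a τ ng S2 i Y ω then (1 : ℝ) else 0) ≤
      Ex (1 - (1 - p) * (1 - s)) (fm ends m) := by
  rw [Ex_orc, ← Ex_mul_left]
  apply Ex_mono h0 h1
  intro ω
  by_cases h : Gd ends a τ ng S2 i Y ω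
  · rw [if_pos h, mul_one]
    have hub := union_bound2 hs0 hs1 ω ha hτ0 hm0 hv0 hv hvm h c1 c2 hs
    have hpt : ∀ ω' : E → Bool, 1 + (-1) * (if ∀ x, cz ends (orc ω ω') x < m then (1 : ℝ) else 0) ≤
        fm ends m (orc ω ω') := by
      intro ω'
      by_cases h2 : ∀ x, cz ends (orc ω ω') x < m
      · rw [if_pos h2]
        have := fm_nonneg (ends := ends) m (orc ω ω')
        linarith
      · rw [if_neg h2]
        push Not at h2
        unfold fm
        rw [if_pos h2]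
        linarith
    have hE := Ex_mono hs0 hs1 hpt
    rw [Ex_add, Ex_const, Ex_mul_left] at hE
    linarith
  · rw [if_neg h, mul_zero]
    exact Ex_nonneg hs0 hs1 fun ω' => fm_nonneg _ _

end Pool.Agent.PERC29
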