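import Pool.Agent.Lib.MP_29e17e_pr.Mom

set_option autoImplicit false
set_option linter.unusedSectionVars false

open Finset

namespace Pool.Agent.PERC29

variable {V : Type*} [Fintype V] [DecidableEq V] {E : Type*} [Fintype E] [DecidableEq E]
  {ends : E → Sym2 V}

lemma sum_inv_sqrt (m : ℕ) : ∑ k ∈ Finset.Icc 1 m, 1 / Real.sqrt (k : ℝ) ≤ 2 * Real.sqrt m := by
  induction m with
  | zero => simp
  | succ m ih =>
    rw [Finset.sum_Icc_succ_top (by omega)]
    have h1 : 0 < Real.sqrt ((m + 1 : ℕ) : ℝ) := Real.sqrt_pos.2 (by positivity)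
    have h2 : Real.sqrt (m : ℝ) ≤ Real.sqrt ((m + 1 : ℕ) : ℝ) :=
      Real.sqrt_le_sqrt (by push_cast; linarith)
    have h3 : Real.sqrt ((m + 1 : ℕ) : ℝ) ^ 2 = (m : ℝ) + 1 := by
      rw [Real.sq_sqrt (by positivity)]; push_cast; ring
    have h4 : Real.sqrt (m : ℝ) ^ 2 = (m : ℝ) := Real.sq_sqrt (by positivity)
    have h5 : 0 ≤ Real.sqrt (m : ℝ) := Real.sqrt_nonneg _
    have h6 : 1 / Real.sqrt ((m + 1 : ℕ) : ℝ) ≤
        2 * (Real.sqrt ((m + 1 : ℕ) : ℝ) - Real.sqrt (m : ℝ)) := by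
      rw [div_le_iff₀ h1]
      nlinarith
    linarith

open scoped Classical in
/-- The truncated mean from the tail bound. -/
lemma min_tail {p C : ℝ} (h0 : 0 ≤ p) (h1 : p ≤ 1) (hC : 0 ≤ C) (x : V)
    (hT : ∀ k : ℕ, 1 ≤ k → Ex p (fun ω => if (k : ℝ) ≤ cz ends ω x then (1 : ℝ) else 0) ≤
      C / Real.sqrt k) {a : ℝ} (ha : 1 ≤ a) :
    Ex p (fun ω => min (cz ends ω x) a) ≤ 3 * C * Real.sqrt a := by
  set m : ℕ := ⌈a⌉₊ with hm
  have ham : a ≤ m := Nat.le_ceil a
  have hma : (m : ℝ) ≤ 2 * a := by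
    have := (Nat.ceil_lt_add_one (by linarith : 0 ≤ a)).le
    linarith
  have hpt : ∀ ω : E → Bool, min (cz ends ω x) a ≤
      ∑ k ∈ Finset.Icc 1 m, (if (k : ℝ) ≤ cz ends ω x then (1 : ℝ) else 0) := by
    intro ω
    unfold cz
    set c := (cu ends ω x).card with hc
    have h2 : ∑ k ∈ Finset.Icc 1 m, (if (k : ℝ) ≤ (c : ℝ) then (1 : ℝ) else 0) =
        ((min c m : ℕ) : ℝ) := by
      rw [← Finset.sum_filter, Finset.sum_const, nsmul_eq_mul, mul_one]
      congr 1
      have : (Finset.Icc 1 m).filter (fun k : ℕ => (k : ℝ) ≤ (c : ℝ)) = Finset.Icc 1 (min c m) := by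
        ext k
        simp only [Finset.mem_filter, Finset.mem_Icc, Nat.cast_le, le_min_iff]
        tauto
      rw [this, Nat.card_Icc]
      simp
    rw [h2]
    push_cast
    exact min_le_min le_rfl ham
  have hE := Ex_mono h0 h1 hpt
  rw [Ex_sum] at hE
  calc _ ≤ _ := hE
    _ ≤ ∑ k ∈ Finset.Icc 1 m, C / Real.sqrt (k : ℝ) :=
        Finset.sum_le_sum fun k hk => hT k (Finset.mem_Icc.1 hk).1
    _ = C * ∑ k ∈ Finset.Icc 1 m, 1 / Real.sqrt (k : ℝ) := by
        rw [Finset.mul_sum]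
        exact Finset.sum_congr rfl fun k _ => by ring
    _ ≤ C * (2 * Real.sqrt m) := mul_le_mul_of_nonneg_left (sum_inv_sqrt m) hC
    _ ≤ C * (2 * (3 / 2 * Real.sqrt a)) := by
        apply mul_le_mul_of_nonneg_left _ hC
        apply mul_le_mul_of_nonneg_left _ (by norm_num)
        apply Real.sqrt_le_iff.2
        refine ⟨by positivity, ?_⟩
        rw [mul_pow, Real.sq_sqrt (by linarith)]
        linarith
    _ = _ := by ring

open scoped Classical in
/-- The number of large clusters is not too large in mean square. -/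
lemma GC_tail {p χ P a ng : ℝ} (h0 : 0 ≤ p) (h1 : p ≤ 1) (ha : 0 < a)
    (hχ : ∀ x, Ex p (fun ω => cz ends ω x) = χ)
    (hP : ∀ x, Ex p (fun ω => if a ≤ cz ends ω x then (1 : ℝ) else 0) = P)
    (hng : 2 * (Fintype.card V) * P ≤ a * ng) :
    Ex p (fun ω => if ((GC ends ω a).card : ℝ) ≤ ng then (0 : ℝ) else
      ((GC ends ω a).card : ℝ) ^ 2) ≤ 4 * (Fintype.card V) * χ / a ^ 2 := by
  set N : ℝ := (Fintype.card V : ℝ) with hN
  set Z : (E → Bool) → ℝ := fun ω => ∑ x, (if a ≤ cz ends ω x then (1 : ℝ) else 0) with hZ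
  have hEZ : Ex p Z = N * P := by
    simp only [hZ]
    rw [Ex_sum, Finset.sum_congr rfl fun x _ => hP x]
    simp [hN]
  have hP0 : 0 ≤ N * P := by
    rw [← hEZ]
    exact Ex_nonneg h0 h1 fun ω => Finset.sum_nonneg fun x _ => by split_ifs <;> norm_num
  have hZ2 : Ex p (fun ω => Z ω ^ 2) ≤ N * χ + (N * P) ^ 2 := by
    have hpt : ∀ ω : E → Bool, Z ω ^ 2 ≤ ∑ x, cz ends ω x +
        ∑ x, ∑ y, (if y ∈ cu ends ω x then 0 else 1) * ((if a ≤ cz ends ω x then (1 : ℝ) else 0) *
          (if a ≤ cz ends ω y then 1 else 0)) := by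
      intro ω
      simp only [hZ]
      rw [sq, Finset.sum_mul_sum, ← Finset.sum_add_distrib]
      refine Finset.sum_le_sum fun x _ => ?_
      have e1 : cz ends ω x = ∑ y, (if y ∈ cu ends ω x then (1 : ℝ) else 0) := by
        unfold cz; simp
      have e3 : ∑ y, (if a ≤ cz ends ω x then (1 : ℝ) else 0) *
          (if a ≤ cz ends ω y then (1 : ℝ) else 0) ≤
          ∑ y, (if y ∈ cu ends ω x then (1 : ℝ) else 0) +
          ∑ y, (if y ∈ cu ends ω x then 0 else 1) * ((if a ≤ cz ends ω x then (1 : ℝ) else 0) *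
          (if a ≤ cz ends ω y then 1 else 0)) := by
        rw [← Finset.sum_add_distrib]
        refine Finset.sum_le_sum fun y _ => ?_
        split_ifs <;> norm_num
      rw [← e1] at e3
      exact e3
    refine (Ex_mono h0 h1 hpt).trans ?_
    rw [Ex_add, Ex_sum, Finset.sum_congr rfl fun x _ => hχ x, Ex_sum]
    have e2 : ∑ x : V, χ = N * χ := by simp [hN]
    rw [e2]
    refine add_le_add le_rfl ?_
    calc _ ≤ ∑ _x : V, ∑ _y : V, P * P := by
          refine Finset.sum_le_sum fun x _ => ?_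
          rw [Ex_sum]
          refine Finset.sum_le_sum fun y _ => ?_
          have h2 := two (ends := ends) h0 h1 x y
            (fun A : Finset V => if a ≤ (A.card : ℝ) then (1 : ℝ) else 0)
            (fun A => by split_ifs <;> norm_num)
            (fun A : Finset V => if a ≤ (A.card : ℝ) then (1 : ℝ) else 0)
            (fun A => by split_ifs <;> norm_num)
            (by
              intro A B hAB
              have : (A.card : ℝ) ≤ B.card := by exact_mod_cast Finset.card_le_card hAB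
              by_cases h : a ≤ (A.card : ℝ)
              · rw [if_pos h, if_pos (h.trans this)]
              · rw [if_neg h]; split_ifs <;> norm_num)
          refine h2.trans (le_of_eq ?_)
          exact congrArg₂ (· * ·) (hP x) (hP y)
      _ = (N * P) ^ 2 := by
          simp [hN]
          ring
  have hvar : Ex p (fun ω => (Z ω - N * P) ^ 2) ≤ N * χ := by
    have e1 : ∀ ω, (Z ω - N * P) ^ 2 = (Z ω ^ 2 + (-(2 * (N * P))) * Z ω) + (N * P) ^ 2 := by
      intro ω; ring
    rw [Ex_congr e1, Ex_add, Ex_add, Ex_mul_left, Ex_const, hEZ]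
    linarith
  have hpt : ∀ ω : E → Bool, (if ((GC ends ω a).card : ℝ) ≤ ng then (0 : ℝ) else
      ((GC ends ω a).card : ℝ) ^ 2) ≤ (4 / a ^ 2) * (Z ω - N * P) ^ 2 := by
    intro ω
    split_ifs with h
    · positivity
    · push Not at h
      have hcZ : a * ((GC ends ω a).card : ℝ) ≤ Z ω := by
        have e1 := GC_sum (ends := ends) ω a (fun _ _ => 1)
        simp only [Finset.sum_const, nsmul_eq_mul, mul_one] at e1
        simp only [hZ]
        rw [← e1, mul_comm, ← nsmul_eq_mul]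
        apply Finset.card_nsmul_le_sum
        intro A hA
        exact (mem_GC.1 hA).2
      set k := ((GC ends ω a).card : ℝ) with hk
      have hk0 : 0 ≤ k := Nat.cast_nonneg _
      have h3 : 2 * (N * P) ≤ Z ω := by
        have : a * ng ≤ a * k := mul_le_mul_of_nonneg_left h.le ha.le
        linarith
      have h4 : a * k ≤ 2 * (Z ω - N * P) := by linarith
      have h5 : (a * k) ^ 2 ≤ (2 * (Z ω - N * P)) ^ 2 :=
        pow_le_pow_left₀ (mul_nonneg ha.le hk0) h4 2
      have h6 : (4 / a ^ 2) * (Z ω - N * P) ^ 2 = (2 * (Z ω - N * P)) ^ 2 / a ^ 2 := by ring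
      rw [h6, le_div_iff₀ (by positivity)]
      linarith
  refine (Ex_mono h0 h1 hpt).trans ?_
  rw [Ex_mul_left]
  have h7 : 0 ≤ 4 / a ^ 2 := by positivity
  calc _ ≤ 4 / a ^ 2 * (N * χ) := mul_le_mul_of_nonneg_left hvar h7
    _ = _ := by ring

open scoped Classical in
/-- The probability of the good event. -/
lemma good_prob {p a t τ ng : ℝ} (h0 : 0 ≤ p) (h1 : p ≤ 1) (ht : 0 ≤ t) (hτ : 0 ≤ τ)
    (hmean : 4 * τ ≤ Ex p (fun ω => Tt ends ω a t))
    (htail : t * Ex p (fun ω => if ((GC ends ω a).card : ℝ) ≤ ng then (0 : ℝ) else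
      ((GC ends ω a).card : ℝ) ^ 2) ≤ τ) :
    τ ≤ t * ng ^ 2 * Ex p (fun ω => if 2 * τ ≤ Tt ends ω a t ∧ ((GC ends ω a).card : ℝ) ≤ ng
      then (1 : ℝ) else 0) := by
  have hpt : ∀ ω : E → Bool, Tt ends ω a t ≤ 2 * τ +
      (t * (if ((GC ends ω a).card : ℝ) ≤ ng then (0 : ℝ) else ((GC ends ω a).card : ℝ) ^ 2) +
      t * ng ^ 2 * (if 2 * τ ≤ Tt ends ω a t ∧ ((GC ends ω a).card : ℝ) ≤ ng
      then (1 : ℝ) else 0)) := by
    intro ω
    have hTk : Tt ends ω a t ≤ t * ((GC ends ω a).card : ℝ) ^ 2 := by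
      unfold Tt
      calc _ ≤ ∑ _A ∈ GC ends ω a, ∑ _B ∈ GC ends ω a, t := by
            refine Finset.sum_le_sum fun A _ => Finset.sum_le_sum fun B _ => ?_
            split_ifs
            · exact ht
            · exact min_le_right _ _
        _ = _ := by
            simp only [Finset.sum_const, nsmul_eq_mul]
            ring
    by_cases h : ((GC ends ω a).card : ℝ) ≤ ng
    · by_cases h2 : 2 * τ ≤ Tt ends ω a t
      · rw [if_pos h, if_pos ⟨h2, h⟩]
        have : ((GC ends ω a).card : ℝ) ^ 2 ≤ ng ^ 2 := pow_le_pow_left₀ (Nat.cast_nonneg _) h 2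
        have := mul_le_mul_of_nonneg_left this ht
        linarith
      · push Not at h2
        rw [if_pos h, if_neg (fun hh => absurd hh.1 (not_le.2 h2))]
        linarith
    · rw [if_neg h, if_neg (fun hh => h hh.2)]
      linarith
  have hE := Ex_mono h0 h1 hpt
  rw [Ex_add, Ex_const, Ex_add, Ex_mul_left, Ex_mul_left] at hE
  linarith

end Pool.Agent.PERC29
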