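import Pool.Agent.Lib.MP_29e17e_pr.Uni

set_option autoImplicit false
set_option linter.unusedSectionVars false

open Finset

namespace Pool.Agent.PERC29

variable {V : Type*} [Fintype V] [DecidableEq V] {E : Type*} [Fintype E] [DecidableEq E]
  {ends : E → Sym2 V}

open scoped Classical in
/-- The expected cluster size of `x` on the event `x ↔ u`. -/
noncomputable def Gf (ends : E → Sym2 V) (p : ℝ) (x u : V) : ℝ :=
  Ex p (fun ω => cz ends ω x * (if u ∈ cu ends ω x then 1 else 0))

open scoped Classical in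
lemma GC_sum (ω : E → Bool) (a : ℝ) (Φ : Finset V → V → ℝ) :
    ∑ A ∈ GC ends ω a, ∑ x ∈ A, Φ A x =
      ∑ x, if a ≤ cz ends ω x then Φ (cu ends ω x) x else 0 := by
  rw [← Finset.sum_filter]
  have hmaps : ∀ x ∈ Finset.univ.filter (fun x => a ≤ cz ends ω x), cu ends ω x ∈ GC ends ω a := by
    intro x hx
    rw [Finset.mem_filter] at hx
    exact mem_GC.2 ⟨⟨x, rfl⟩, hx.2⟩
  rw [← Finset.sum_fiberwise_of_maps_to hmaps]
  refine Finset.sum_congr rfl fun A hA => ?_
  have hset : (Finset.univ.filter (fun x => a ≤ cz ends ω x)).filter (fun x => cu ends ω x = A) =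
      A := by
    ext z
    rw [Finset.mem_filter, Finset.mem_filter]
    obtain ⟨⟨x0, hx0⟩, hA2⟩ := mem_GC.1 hA
    constructor
    · rintro ⟨-, h⟩
      rw [← h]
      exact self_mem_cu ω z
    · intro hz
      have h3 : cu ends ω z = A := by
        rw [← hx0] at hz ⊢
        exact cu_eq hz
      refine ⟨⟨Finset.mem_univ _, ?_⟩, h3⟩
      unfold cz
      rw [h3]
      exact hA2
  rw [hset]
  refine Finset.sum_congr rfl fun x hx => ?_
  obtain ⟨⟨x0, hx0⟩, hA2⟩ := mem_GC.1 hA
  have h3 : cu ends ω x = A := by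
    rw [← hx0] at hx ⊢
    exact cu_eq hx
  rw [h3]

open scoped Classical in
lemma GC_sum2 (ω : E → Bool) (a : ℝ) (ψ : V → V → ℝ) :
    ∑ A ∈ GC ends ω a, ∑ B ∈ GC ends ω a, (if A = B then 0 else ∑ u ∈ A, ∑ v ∈ B, ψ u v) =
      ∑ u, ∑ v, (if v ∈ cu ends ω u then 0 else 1) * ((if a ≤ cz ends ω u then 1 else 0) *
        (if a ≤ cz ends ω v then 1 else 0)) * ψ u v := by
  have e1 : ∀ A, ∑ B ∈ GC ends ω a, (if A = B then 0 else ∑ u ∈ A, ∑ v ∈ B, ψ u v) =
      ∑ u ∈ A, ∑ B ∈ GC ends ω a, ∑ v ∈ B, (if A = B then 0 else ψ u v) := by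
    intro A
    rw [Finset.sum_comm]
    refine Finset.sum_congr rfl fun B _ => ?_
    by_cases h : A = B
    · simp [h]
    · simp [h]
  rw [Finset.sum_congr rfl fun A _ => e1 A,
    GC_sum ω a (fun A u => ∑ B ∈ GC ends ω a, ∑ v ∈ B, (if A = B then 0 else ψ u v))]
  refine Finset.sum_congr rfl fun u _ => ?_
  by_cases hu : a ≤ cz ends ω u
  · rw [if_pos hu, GC_sum ω a (fun B v => if cu ends ω u = B then 0 else ψ u v)]
    refine Finset.sum_congr rfl fun v _ => ?_
    by_cases hv : a ≤ cz ends ω v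
    · rw [if_pos hv]
      have : cu ends ω u = cu ends ω v ↔ v ∈ cu ends ω u := by
        constructor
        · intro h; rw [h]; exact self_mem_cu ω v
        · intro h; exact (cu_eq h).symm
      by_cases h : v ∈ cu ends ω u
      · rw [if_pos (this.2 h), if_pos h]; ring
      · rw [if_neg (fun h2 => h (this.1 h2)), if_neg h, if_pos hu, if_pos hv]; ring
    · rw [if_neg hv, if_neg hv]; ring
  · rw [if_neg hu]
    symm
    apply Finset.sum_eq_zero
    intro v _
    rw [if_neg hu]; ring

open scoped Classical in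
/-- Pointwise lower bound for the truncated edge count. -/
lemma Tt_pt (ω : E → Bool) {a t : ℝ} (ha : 0 < a) (ht : 0 < t) :
    (∑ u, ∑ v, (if v ∈ cu ends ω u then 0 else 1) * ((if a ≤ cz ends ω u then 1 else 0) *
        (if a ≤ cz ends ω v then 1 else 0)) * nb ends u v) -
      (1 / (t * a ^ 2)) * (∑ u, ∑ v, ∑ u', ∑ v', nb ends u v * nb ends u' v' *
        ((if v ∈ cu ends ω u then 0 else 1) * ((cz ends ω u * (if u' ∈ cu ends ω u then 1 else 0)) *
          (cz ends ω v * (if v' ∈ cu ends ω v then 1 else 0))))) ≤ Tt ends ω a t := by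
  have h1 : Tt ends ω a t ≥ ∑ A ∈ GC ends ω a, ∑ B ∈ GC ends ω a,
      (if A = B then 0 else NN ends A B) - (1 / (t * a ^ 2)) *
      ∑ A ∈ GC ends ω a, ∑ B ∈ GC ends ω a, (if A = B then 0 else
        (A.card : ℝ) * (B.card : ℝ) * NN ends A B ^ 2) := by
    unfold Tt
    rw [Finset.mul_sum, ← Finset.sum_sub_distrib]
    refine Finset.sum_le_sum fun A hA => ?_
    rw [Finset.mul_sum, ← Finset.sum_sub_distrib]
    refine Finset.sum_le_sum fun B hB => ?_
    by_cases h : A = B
    · simp [h]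
    · rw [if_neg h, if_neg h, if_neg h]
      have hAa := (mem_GC.1 hA).2
      have hBa := (mem_GC.1 hB).2
      set N := NN ends A B with hN
      have hN0 : 0 ≤ N := NN_nonneg A B
      have h2 : a ^ 2 ≤ (A.card : ℝ) * (B.card : ℝ) := by nlinarith
      have h3 : N ^ 2 / t ≤ (1 / (t * a ^ 2)) * ((A.card : ℝ) * (B.card : ℝ) * N ^ 2) := by
        have h4 : (1 / (t * a ^ 2)) * ((A.card : ℝ) * (B.card : ℝ) * N ^ 2) =
            (N ^ 2 / t) * (((A.card : ℝ) * (B.card : ℝ)) / a ^ 2) := by
          field_simp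
        rw [h4]
        have h5 : 1 ≤ ((A.card : ℝ) * (B.card : ℝ)) / a ^ 2 := by
          rw [le_div_iff₀ (by positivity)]
          linarith
        have h6 : 0 ≤ N ^ 2 / t := by positivity
        nlinarith
      rcases le_total N t with h7 | h7
      · rw [min_eq_left h7]
        have : 0 ≤ N ^ 2 / t := by positivity
        linarith
      · rw [min_eq_right h7]
        have h8 : N - N ^ 2 / t ≤ t := by
          rw [sub_le_iff_le_add, ← sub_le_iff_le_add', le_div_iff₀ ht]
          nlinarith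
        linarith
  have h2 : ∑ A ∈ GC ends ω a, ∑ B ∈ GC ends ω a, (if A = B then 0 else NN ends A B) =
      ∑ u, ∑ v, (if v ∈ cu ends ω u then 0 else 1) * ((if a ≤ cz ends ω u then 1 else 0) *
        (if a ≤ cz ends ω v then 1 else 0)) * nb ends u v := by
    unfold NN
    exact GC_sum2 ω a (nb ends)
  have h3 : ∑ A ∈ GC ends ω a, ∑ B ∈ GC ends ω a, (if A = B then 0 else
        (A.card : ℝ) * (B.card : ℝ) * NN ends A B ^ 2) ≤
      ∑ u, ∑ v, ∑ u', ∑ v', nb ends u v * nb ends u' v' *
        ((if v ∈ cu ends ω u then 0 else 1) * ((cz ends ω u * (if u' ∈ cu ends ω u then 1 else 0)) *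
          (cz ends ω v * (if v' ∈ cu ends ω v then 1 else 0)))) := by
    set ψ : V → V → ℝ := fun u v => nb ends u v * (cz ends ω u * cz ends ω v *
      ∑ u' ∈ cu ends ω u, ∑ v' ∈ cu ends ω v, nb ends u' v') with hψ
    have e1 : ∀ A ∈ GC ends ω a, ∀ B ∈ GC ends ω a, (A.card : ℝ) * (B.card : ℝ) *
        NN ends A B ^ 2 = ∑ u ∈ A, ∑ v ∈ B, ψ u v := by
      intro A hA B hB
      have hcA : ∀ u ∈ A, cu ends ω u = A := by
        intro u hu
        obtain ⟨⟨x0, hx0⟩, -⟩ := mem_GC.1 hA
        rw [← hx0] at hu ⊢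
        exact cu_eq hu
      have hcB : ∀ u ∈ B, cu ends ω u = B := by
        intro u hu
        obtain ⟨⟨x0, hx0⟩, -⟩ := mem_GC.1 hB
        rw [← hx0] at hu ⊢
        exact cu_eq hu
      have e2 : ∀ u ∈ A, ∀ v ∈ B, ψ u v = nb ends u v * ((A.card : ℝ) * (B.card : ℝ) *
          NN ends A B) := by
        intro u hu v hv
        simp only [hψ]
        unfold cz NN
        rw [hcA u hu, hcB v hv]
      have e3 : ∑ u ∈ A, ∑ v ∈ B, ψ u v = NN ends A B * ((A.card : ℝ) * (B.card : ℝ) *
          NN ends A B) := by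
        rw [Finset.sum_congr rfl fun u hu => Finset.sum_congr rfl fun v hv => e2 u hu v hv]
        generalize (A.card : ℝ) * (B.card : ℝ) * NN ends A B = c
        unfold NN
        rw [Finset.sum_mul]
        refine Finset.sum_congr rfl fun u _ => ?_
        rw [Finset.sum_mul]
      rw [e3]
      ring
    have e4 : ∑ A ∈ GC ends ω a, ∑ B ∈ GC ends ω a, (if A = B then 0 else
        (A.card : ℝ) * (B.card : ℝ) * NN ends A B ^ 2) =
        ∑ A ∈ GC ends ω a, ∑ B ∈ GC ends ω a, (if A = B then 0 else ∑ u ∈ A, ∑ v ∈ B, ψ u v) :=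
      Finset.sum_congr rfl fun A hA => Finset.sum_congr rfl fun B hB => by rw [e1 A hA B hB]
    rw [e4, GC_sum2]
    refine Finset.sum_le_sum fun u _ => Finset.sum_le_sum fun v _ => ?_
    have e5 : ∑ u', ∑ v', nb ends u v * nb ends u' v' *
        ((if v ∈ cu ends ω u then 0 else 1) * ((cz ends ω u * (if u' ∈ cu ends ω u then 1 else 0)) *
          (cz ends ω v * (if v' ∈ cu ends ω v then 1 else 0)))) =
        (if v ∈ cu ends ω u then 0 else 1) * ψ u v := by
      have e6 : ∑ u' ∈ cu ends ω u, ∑ v' ∈ cu ends ω v, nb ends u' v' =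
          ∑ u', ∑ v', (if u' ∈ cu ends ω u then 1 else 0) *
            ((if v' ∈ cu ends ω v then 1 else 0) * nb ends u' v') := by
        rw [← Finset.sum_filter_add_sum_filter_not Finset.univ (fun u' => u' ∈ cu ends ω u)
          (fun u' => ∑ v', (if u' ∈ cu ends ω u then (1 : ℝ) else 0) *
            ((if v' ∈ cu ends ω v then 1 else 0) * nb ends u' v'))]
        have e7 : ∑ u' ∈ Finset.univ.filter (fun u' => ¬ u' ∈ cu ends ω u),
            ∑ v', (if u' ∈ cu ends ω u then (1 : ℝ) else 0) *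
            ((if v' ∈ cu ends ω v then 1 else 0) * nb ends u' v') = 0 := by
          apply Finset.sum_eq_zero
          intro u' hu'
          apply Finset.sum_eq_zero
          intro v' _
          rw [if_neg (Finset.mem_filter.1 hu').2, zero_mul]
        rw [e7, add_zero]
        have e8 : Finset.univ.filter (fun u' => u' ∈ cu ends ω u) = cu ends ω u := by
          ext z; simp
        rw [e8]
        refine Finset.sum_congr rfl fun u' hu' => ?_
        have e9 : ∀ v', (if u' ∈ cu ends ω u then (1 : ℝ) else 0) *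
            ((if v' ∈ cu ends ω v then 1 else 0) * nb ends u' v') =
            if v' ∈ cu ends ω v then nb ends u' v' else 0 := by
          intro v'
          rw [if_pos hu']
          split_ifs <;> simp
        rw [Finset.sum_congr rfl fun v' _ => e9 v', Finset.sum_ite_mem, Finset.univ_inter]
      simp only [hψ]
      rw [e6, Finset.mul_sum, Finset.mul_sum, Finset.mul_sum]
      refine Finset.sum_congr rfl fun u' _ => ?_
      rw [Finset.mul_sum, Finset.mul_sum, Finset.mul_sum]
      refine Finset.sum_congr rfl fun v' _ => ?_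
      ring
    rw [e5]
    have hψ0 : 0 ≤ ψ u v := by
      simp only [hψ]
      apply mul_nonneg (nb_nonneg u v)
      apply mul_nonneg (mul_nonneg (cz_nonneg ω u) (cz_nonneg ω v))
      exact Finset.sum_nonneg fun u' _ => Finset.sum_nonneg fun v' _ => nb_nonneg u' v'
    split_ifs <;> simp [hψ0]
  have h4 : 0 ≤ 1 / (t * a ^ 2) := by positivity
  have h5 := mul_le_mul_of_nonneg_left h3 h4
  rw [h2] at h1
  linarith

/-- The mean of the truncated edge count. -/
lemma Tt_mean {p a t W Γ : ℝ} (h0 : 0 ≤ p) (h1 : p ≤ 1) (ha : 0 < a) (ht : 0 < t)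
    (hdeg : ∀ x, ∑ y, nb ends x y ≤ W) (hΓ : ∑ x, ∑ u, Gf ends p x u ^ 2 ≤ Γ) :
    ET ends p a - (1 / (t * a ^ 2)) * (W ^ 2 * Γ) ≤ Ex p (fun ω => Tt ends ω a t) := by
  classical
  rcases isEmpty_or_nonempty V with hV | hV
  · have e0 : ∀ ω : E → Bool, Tt ends ω a t = 0 := by
      intro ω
      unfold Tt
      apply Finset.sum_eq_zero
      intro A hA
      obtain ⟨x, _⟩ := GC_nonempty hA
      exact (hV.false x).elim
    rw [Ex_zero_of e0]
    unfold ET
    simp only [Finset.univ_eq_empty, Finset.sum_empty] at hΓ ⊢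
    have : 0 ≤ (1 / (t * a ^ 2)) * (W ^ 2 * Γ) := by positivity
    linarith
  obtain ⟨o⟩ := hV
  have hW0 : 0 ≤ W := le_trans (Finset.sum_nonneg fun y _ => nb_nonneg o y) (hdeg o)
  have hE := Ex_mono h0 h1 (fun ω => Tt_pt (ends := ends) ω ha ht)
  have hsub : ∀ (f g : (E → Bool) → ℝ) (c : ℝ), Ex p (fun ω => f ω - c * g ω) =
      Ex p f - c * Ex p g := by
    intro f g c
    have : ∀ ω, f ω - c * g ω = f ω + (-c) * g ω := by intro ω; ring
    rw [Ex_congr this, Ex_add, Ex_mul_left]
    ring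
  rw [hsub] at hE
  refine le_trans ?_ hE
  have e1 : Ex p (fun ω => ∑ u, ∑ v, (if v ∈ cu ends ω u then 0 else 1) *
      ((if a ≤ cz ends ω u then 1 else 0) *
        (if a ≤ cz ends ω v then 1 else 0)) * nb ends u v) = ET ends p a := by
    unfold ET
    rw [Ex_sum]
    refine Finset.sum_congr rfl fun u _ => ?_
    rw [Ex_sum]
    refine Finset.sum_congr rfl fun v _ => ?_
    rw [← Ex_mul_left]
    apply Ex_congr
    intro ω
    ring
  have hG0 : ∀ x u, 0 ≤ Gf ends p x u := by
    intro x u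
    apply Ex_nonneg h0 h1
    intro ω
    exact mul_nonneg (cz_nonneg ω x) (by split_ifs <;> norm_num)
  have e2 : Ex p (fun ω => ∑ u, ∑ v, ∑ u', ∑ v', nb ends u v * nb ends u' v' *
        ((if v ∈ cu ends ω u then 0 else 1) * ((cz ends ω u * (if u' ∈ cu ends ω u then 1 else 0)) *
          (cz ends ω v * (if v' ∈ cu ends ω v then 1 else 0))))) ≤
      ∑ u, ∑ v, ∑ u', ∑ v', nb ends u v * nb ends u' v' * (Gf ends p u u' * Gf ends p v v') := by
    rw [Ex_sum]
    refine Finset.sum_le_sum fun u _ => ?_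
    rw [Ex_sum]
    refine Finset.sum_le_sum fun v _ => ?_
    rw [Ex_sum]
    refine Finset.sum_le_sum fun u' _ => ?_
    rw [Ex_sum]
    refine Finset.sum_le_sum fun v' _ => ?_
    rw [Ex_mul_left]
    apply mul_le_mul_of_nonneg_left _ (mul_nonneg (nb_nonneg u v) (nb_nonneg u' v'))
    have k1 : ∀ (w : V) (A : Finset V), (0 : ℝ) ≤ (A.card : ℝ) * (if w ∈ A then 1 else 0) := by
      intro w A
      apply mul_nonneg (Nat.cast_nonneg _)
      split_ifs <;> norm_num
    have k2 : ∀ (A B : Finset V), A ⊆ B → (A.card : ℝ) * (if v' ∈ A then 1 else 0) ≤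
        (B.card : ℝ) * (if v' ∈ B then 1 else 0) := by
      intro A B hAB
      by_cases h : v' ∈ A
      · rw [if_pos h, if_pos (hAB h), mul_one, mul_one]
        exact_mod_cast Finset.card_le_card hAB
      · rw [if_neg h, mul_zero]
        exact k1 v' B
    have h2 := two (ends := ends) h0 h1 u v
      (fun A : Finset V => (A.card : ℝ) * (if u' ∈ A then 1 else 0)) (k1 u')
      (fun A : Finset V => (A.card : ℝ) * (if v' ∈ A then 1 else 0)) (k1 v') k2
    exact h2
  have e3 : ∑ u, ∑ v, ∑ u', ∑ v', nb ends u v * nb ends u' v' * (Gf ends p u u' * Gf ends p v v') ≤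
      W ^ 2 * Γ := by
    have f1 : ∀ u v u' v', nb ends u v * nb ends u' v' * (Gf ends p u u' * Gf ends p v v') ≤
        (1 / 2) * (nb ends u v * nb ends u' v' * Gf ends p u u' ^ 2) +
        (1 / 2) * (nb ends u v * nb ends u' v' * Gf ends p v v' ^ 2) := by
      intro u v u' v'
      have h3 : Gf ends p u u' * Gf ends p v v' ≤
          (1 / 2) * Gf ends p u u' ^ 2 + (1 / 2) * Gf ends p v v' ^ 2 := by
        nlinarith [sq_nonneg (Gf ends p u u' - Gf ends p v v')]
      have h4 := mul_le_mul_of_nonneg_left h3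
        (mul_nonneg (nb_nonneg (ends := ends) u v) (nb_nonneg (ends := ends) u' v'))
      linarith
    have f2 : ∑ u, ∑ v, ∑ u', ∑ v', nb ends u v * nb ends u' v' * Gf ends p u u' ^ 2 ≤
        W ^ 2 * Γ := by
      calc ∑ u, ∑ v, ∑ u', ∑ v', nb ends u v * nb ends u' v' * Gf ends p u u' ^ 2 =
          ∑ u, (∑ v, nb ends u v) * ∑ u', (∑ v', nb ends u' v') * Gf ends p u u' ^ 2 := by
            refine Finset.sum_congr rfl fun u _ => ?_
            rw [Finset.sum_mul]
            refine Finset.sum_congr rfl fun v _ => ?_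
            rw [Finset.mul_sum]
            refine Finset.sum_congr rfl fun u' _ => ?_
            rw [Finset.sum_mul, Finset.mul_sum]
            exact Finset.sum_congr rfl fun v' _ => by ring
        _ ≤ ∑ u, W * ∑ u', W * Gf ends p u u' ^ 2 := by
            refine Finset.sum_le_sum fun u _ => ?_
            apply mul_le_mul (hdeg u) _ _ hW0
            · exact Finset.sum_le_sum fun u' _ => mul_le_mul_of_nonneg_right (hdeg u') (sq_nonneg _)
            · exact Finset.sum_nonneg fun u' _ => mul_nonneg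
                (Finset.sum_nonneg fun v' _ => nb_nonneg u' v') (sq_nonneg _)
        _ = W ^ 2 * ∑ u, ∑ u', Gf ends p u u' ^ 2 := by
            rw [Finset.mul_sum]
            refine Finset.sum_congr rfl fun u _ => ?_
            rw [← Finset.mul_sum]
            ring
        _ ≤ _ := mul_le_mul_of_nonneg_left hΓ (sq_nonneg _)
    have f3 : ∑ u, ∑ v, ∑ u', ∑ v', nb ends u v * nb ends u' v' * Gf ends p v v' ^ 2 =
        ∑ u, ∑ v, ∑ u', ∑ v', nb ends u v * nb ends u' v' * Gf ends p u u' ^ 2 := by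
      calc ∑ u, ∑ v, ∑ u', ∑ v', nb ends u v * nb ends u' v' * Gf ends p v v' ^ 2 =
          ∑ v, ∑ u, ∑ u', ∑ v', nb ends u v * nb ends u' v' * Gf ends p v v' ^ 2 :=
            Finset.sum_comm
        _ = ∑ v, ∑ u, ∑ v', ∑ u', nb ends u v * nb ends u' v' * Gf ends p v v' ^ 2 :=
            Finset.sum_congr rfl fun v _ => Finset.sum_congr rfl fun u _ => Finset.sum_comm
        _ = _ := by
            refine Finset.sum_congr rfl fun v _ => Finset.sum_congr rfl fun u _ =>
              Finset.sum_congr rfl fun v' _ => Finset.sum_congr rfl fun u' _ => ?_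
            rw [nb_symm u v, nb_symm u' v']
    calc _ ≤ ∑ u, ∑ v, ∑ u', ∑ v', ((1 / 2) * (nb ends u v * nb ends u' v' *
          Gf ends p u u' ^ 2) + (1 / 2) * (nb ends u v * nb ends u' v' * Gf ends p v v' ^ 2)) :=
          Finset.sum_le_sum fun u _ => Finset.sum_le_sum fun v _ =>
            Finset.sum_le_sum fun u' _ => Finset.sum_le_sum fun v' _ => f1 u v u' v'
      _ = (1 / 2) * (∑ u, ∑ v, ∑ u', ∑ v', nb ends u v * nb ends u' v' * Gf ends p u u' ^ 2) +
          (1 / 2) * ∑ u, ∑ v, ∑ u', ∑ v', nb ends u v * nb ends u' v' * Gf ends p v v' ^ 2 := by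
          simp_rw [Finset.sum_add_distrib, Finset.mul_sum]
      _ ≤ _ := by rw [f3]; linarith
  rw [e1]
  have h4 : 0 ≤ 1 / (t * a ^ 2) := by positivity
  have h5 := mul_le_mul_of_nonneg_left (e2.trans e3) h4
  linarith

end Pool.Agent.PERC29
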