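import Pool.Agent.Lib.MP_29e17e_pr.Clus

set_option autoImplicit false
set_option linter.unusedSectionVars false

open Finset

namespace Pool.Agent.PERC29

variable {V : Type*} [Fintype V] [DecidableEq V] {E : Type*} [Fintype E] [DecidableEq E]
  {ends : E → Sym2 V}

/-- The edge sets which join `x` to `y`. -/
def Pth (ends : E → Sym2 V) (x y : V) : Set (Finset E) :=
  {F | Rch ends (fun e => decide (e ∈ F)) Set.univ x y}

/-- The simple graph of the open edges. -/
def openG (ends : E → Sym2 V) (ω : E → Bool) : SimpleGraph V where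
  Adj a b := a ≠ b ∧ ∃ e, ω e = true ∧ ends e = s(a, b)
  symm := ⟨by
    rintro a b ⟨h, e, h1, h2⟩
    exact ⟨h.symm, e, h1, by rw [h2, Sym2.eq_swap]⟩⟩
  loopless := ⟨fun a h => h.1 rfl⟩

/-- The open edges whose pair of ends is in the list `L`. -/
noncomputable def opL (ends : E → Sym2 V) (ω : E → Bool) (L : List (Sym2 V)) : Finset E :=
  Finset.univ.filter (fun e => ω e = true ∧ ends e ∈ L)

lemma exists_walk {ω : E → Bool} {x u : V} (h : Rch ends ω Set.univ x u) :
    Nonempty ((openG ends ω).Walk x u) := by
  induction h with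
  | refl => exact ⟨SimpleGraph.Walk.nil⟩
  | @tail c d _ hcd ih =>
    obtain ⟨p⟩ := ih
    obtain ⟨-, -, e, h3, h4⟩ := hcd
    by_cases hne : c = d
    · subst hne
      exact ⟨p⟩
    · exact ⟨p.concat ⟨hne, e, h3, h4⟩⟩

lemma walk_mem_Pth {ω : E → Bool} {a b : V} (p : (openG ends ω).Walk a b) (L : List (Sym2 V))
    (hL : ∀ s ∈ p.edges, s ∈ L) : opL ends ω L ∈ Pth ends a b := by
  induction p with
  | nil => exact Rch.refl _
  | @cons a c b hadj p ih =>
    have hadj' := hadj
    obtain ⟨-, e, h3, h4⟩ := hadj'
    refine Relation.ReflTransGen.head ⟨trivial, trivial, e, ?_, h4⟩ (ih (fun s hs => hL s ?_))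
    · have : e ∈ opL ends ω L := by
        refine Finset.mem_filter.2 ⟨Finset.mem_univ _, h3, ?_⟩
        rw [h4]
        refine hL _ ?_
        simp
      simpa using this
    · rw [SimpleGraph.Walk.edges_cons]
      exact List.mem_cons_of_mem _ hs

lemma opL_disjoint {ω : E → Bool} {L L' : List (Sym2 V)} (h : ∀ s ∈ L, s ∉ L') :
    Disjoint (opL ends ω L) (opL ends ω L') := by
  rw [Finset.disjoint_left]
  intro e he he'
  exact h _ (Finset.mem_filter.1 he).2.2 (Finset.mem_filter.1 he').2.2

/-- A walk ending in the set `P` has an initial piece which meets `P` only at its end. -/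
lemma first_hit {G : SimpleGraph V} (P : Set V) {v y : V} (q : G.Walk v y) (hy : y ∈ P) :
    ∃ z ∈ P, ∃ q' : G.Walk v z, ∀ w ∈ q'.support, w ∈ P → w = z := by
  classical
  induction q with
  | @nil a => exact ⟨a, hy, SimpleGraph.Walk.nil, fun w hw _ => by simpa using hw⟩
  | @cons a c b hadj p ih =>
    by_cases ha : a ∈ P
    · exact ⟨a, ha, SimpleGraph.Walk.nil, fun w hw _ => by simpa using hw⟩
    · obtain ⟨z, hz, q', hq'⟩ := ih hy
      refine ⟨z, hz, SimpleGraph.Walk.cons hadj q', fun w hw hwP => ?_⟩
      rw [SimpleGraph.Walk.support_cons, List.mem_cons] at hw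
      rcases hw with rfl | hw
      · exact absurd hwP ha
      · exact hq' w hw hwP

/-- ROW 29e-TG. If `x ↔ u` and `x ↔ v` in `ω` then there are a vertex `z` and pairwise disjoint
sets `F`, `G`, `H` of open edges joining `x` to `z`, `z` to `u` and `z` to `v`.
(Take a simple open path from `x` to `u`, `P` its vertex set; take an open path from `v` to `x`
and let `z` be its first vertex in `P`: the edges used before `z` have an end outside `P`,
so they are not edges of the first path; and `z` cuts the first path into two edge-disjoint parts.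
Induction on `Rch`, or Mathlib's walks: `SimpleGraph.Walk.takeUntil`, `dropUntil`.)
`ends` is injective: every pair of vertices carries at most one edge; loops are allowed but may be
ignored. -/
theorem tripod (ω : E → Bool) (x u v : V)
    (hu : Rch ends ω Set.univ x u) (hv : Rch ends ω Set.univ x v) :
    ∃ z, ∃ F ∈ Pth ends x z, ∃ G ∈ Pth ends z u, ∃ H ∈ Pth ends z v,
      Disjoint F G ∧ Disjoint (F ∪ G) H ∧ ∀ e ∈ F ∪ G ∪ H, ω e = true := by
  obtain ⟨p0⟩ := exists_walk hu
  obtain ⟨q⟩ := exists_walk hv.symm
  obtain ⟨p, hp⟩ : ∃ p : (openG ends ω).Walk x u, p.IsPath := ⟨_, p0.bypass_isPath⟩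
  obtain ⟨z, hz, q', hq'⟩ := first_hit {w | w ∈ p.support} q (p.start_mem_support)
  have hz' : z ∈ p.support := hz
  have hnd : (p.takeUntil z hz').edges.Disjoint (p.dropUntil z hz').edges := by
    have h1 : p.edges.Nodup := hp.isTrail.edges_nodup
    rw [← p.take_spec hz', SimpleGraph.Walk.edges_append] at h1
    exact (List.nodup_append'.1 h1).2.2
  have hqp : ∀ s ∈ q'.edges, s ∉ p.edges := by
    intro s hs hs'
    induction s using Sym2.ind with
    | _ a b =>
      have ha : a = z := hq' a (q'.fst_mem_support_of_mem_edges hs)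
        (p.fst_mem_support_of_mem_edges hs')
      have hb : b = z := hq' b (q'.snd_mem_support_of_mem_edges hs)
        (p.snd_mem_support_of_mem_edges hs')
      have hadj := q'.adj_of_mem_edges hs
      exact hadj.ne (ha.trans hb.symm)
  have hsubT : ∀ s ∈ (p.takeUntil z hz').edges, s ∈ p.edges :=
    fun s hs => p.edges_takeUntil_subset_edges hz' hs
  have hsubD : ∀ s ∈ (p.dropUntil z hz').edges, s ∈ p.edges :=
    fun s hs => p.edges_dropUntil_subset_edges hz' hs
  refine ⟨z, opL ends ω (p.takeUntil z hz').edges, walk_mem_Pth _ _ (fun s hs => hs),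
    opL ends ω (p.dropUntil z hz').edges, walk_mem_Pth _ _ (fun s hs => hs),
    opL ends ω q'.edges, walk_mem_Pth q'.reverse _ (fun s hs => by simpa using hs), ?_, ?_, ?_⟩
  · exact opL_disjoint (fun s hs hs' => hnd hs hs')
  · rw [Finset.disjoint_union_left]
    exact ⟨opL_disjoint (fun s hs hs' => hqp s hs' (hsubT s hs)),
      opL_disjoint (fun s hs hs' => hqp s hs' (hsubD s hs))⟩
  · intro e he
    simp only [Finset.mem_union, opL, Finset.mem_filter] at he
    tauto

end Pool.Agent.PERC29
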