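import Pool.Agent.Lib.MP_29e17e_pr.BK
import Pool.Agent.Lib.MP_29e17e_pr.Tripod
import Pool.Agent.Lib.MP_29e17e_pr.Mom

set_option autoImplicit false
set_option linter.unusedSectionVars false

open Finset

namespace Pool.Agent.PERC29

variable {V : Type*} [Fintype V] [DecidableEq V] {E : Type*} [Fintype E] [DecidableEq E]
  {ends : E → Sym2 V}

/-- The two-point function. -/
noncomputable def ta (ends : E → Sym2 V) (p : ℝ) (x y : V) : ℝ :=
  Ex p (fun ω => if y ∈ cu ends ω x then 1 else 0)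

lemma ta_nonneg {p : ℝ} (h0 : 0 ≤ p) (h1 : p ≤ 1) (x y : V) : 0 ≤ ta ends p x y :=
  Ex_nonneg h0 h1 fun ω => by split_ifs <;> norm_num

lemma ta_self (p : ℝ) (x : V) : ta ends p x x = 1 := by
  unfold ta
  have : ∀ ω : E → Bool, (if x ∈ cu ends ω x then (1 : ℝ) else 0) = 1 := fun ω =>
    if_pos (self_mem_cu ω x)
  rw [Ex_congr this, Ex_const]

lemma ta_sum (p : ℝ) (x : V) : ∑ y, ta ends p x y = Ex p (fun ω => cz ends ω x) := by
  unfold ta
  rw [← Ex_sum]
  apply Ex_congr
  intro ω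
  unfold cz
  simp

lemma opn_Pth (x z : V) (ω : E → Bool) :
    opn (Pth ends x z) ω = if z ∈ cu ends ω x then 1 else 0 := by
  classical
  unfold opn
  apply if_congr _ rfl rfl
  rw [mem_cu]
  constructor
  · rintro ⟨F, hF, hop⟩
    have hF' : Rch ends (fun e => decide (e ∈ F)) Set.univ x z := hF
    exact hF'.mono (fun e he => hop e (of_decide_eq_true he)) le_rfl
  · intro h
    refine ⟨Finset.univ.filter (fun e => ω e = true), ?_, ?_⟩
    · change Rch ends (fun e => decide (e ∈ Finset.univ.filter (fun e => ω e = true)))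
        Set.univ x z
      exact h.mono (fun e he => by simp [he]) le_rfl
    · intro e he
      exact (Finset.mem_filter.1 he).2

/-- The tree-graph inequality. -/
theorem tree_graph {p : ℝ} (h0 : 0 ≤ p) (h1 : p ≤ 1)
    (x u v : V) :
    Ex p (fun ω => (if u ∈ cu ends ω x then (1 : ℝ) else 0) *
      (if v ∈ cu ends ω x then 1 else 0)) ≤
      ∑ z, ta ends p x z * (ta ends p z u * ta ends p z v) := by
  classical
  have hpt : ∀ ω : E → Bool, (if u ∈ cu ends ω x then (1 : ℝ) else 0) *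
      (if v ∈ cu ends ω x then 1 else 0) ≤
      ∑ z, opn (dsj (dsj (Pth ends x z) (Pth ends z u)) (Pth ends z v)) ω := by
    intro ω
    have hnn : ∀ z, 0 ≤ opn (dsj (dsj (Pth ends x z) (Pth ends z u)) (Pth ends z v)) ω := by
      intro z
      unfold opn
      split_ifs <;> norm_num
    by_cases hu : u ∈ cu ends ω x
    · by_cases hv : v ∈ cu ends ω x
      · rw [if_pos hu, if_pos hv, one_mul]
        obtain ⟨z, F, hF, G, hG, H, hH, h3, h4, h5⟩ :=
          tripod ω x u v (mem_cu.1 hu) (mem_cu.1 hv)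
        have h6 : opn (dsj (dsj (Pth ends x z) (Pth ends z u)) (Pth ends z v)) ω = 1 := by
          unfold opn
          rw [if_pos]
          exact ⟨F ∪ G ∪ H, ⟨F ∪ G, ⟨F, hF, G, hG, h3, rfl⟩, H, hH, h4, rfl⟩, h5⟩
        calc (1 : ℝ) = opn (dsj (dsj (Pth ends x z) (Pth ends z u)) (Pth ends z v)) ω := h6.symm
          _ ≤ _ := Finset.single_le_sum (f := fun z =>
            opn (dsj (dsj (Pth ends x z) (Pth ends z u)) (Pth ends z v)) ω)
            (fun z _ => hnn z) (Finset.mem_univ z)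
      · rw [if_neg hv, mul_zero]
        exact Finset.sum_nonneg fun z _ => hnn z
    · rw [if_neg hu, zero_mul]
      exact Finset.sum_nonneg fun z _ => hnn z
  refine (Ex_mono h0 h1 hpt).trans ?_
  rw [Ex_sum]
  refine Finset.sum_le_sum fun z _ => ?_
  have e1 : ∀ a b : V, Ex p (opn (Pth ends a b)) = ta ends p a b := by
    intro a b
    unfold ta
    exact Ex_congr fun ω => opn_Pth a b ω
  have h2 := bk h0 h1 (dsj (Pth ends x z) (Pth ends z u)) (Pth ends z v)
  have h3 := bk h0 h1 (Pth ends x z) (Pth ends z u)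
  rw [e1] at h2
  rw [e1, e1] at h3
  calc Ex p (fun ω => opn (dsj (dsj (Pth ends x z) (Pth ends z u)) (Pth ends z v)) ω) ≤
      Ex p (opn (dsj (Pth ends x z) (Pth ends z u))) * ta ends p z v := h2
    _ ≤ (ta ends p x z * ta ends p z u) * ta ends p z v :=
        mul_le_mul_of_nonneg_right h3 (ta_nonneg h0 h1 z v)
    _ = _ := by ring

/-- The square diagram at `x`. -/
noncomputable def sqd (ends : E → Sym2 V) (p : ℝ) (x : V) : ℝ :=
  ∑ u, (∑ z, ta ends p x z * ta ends p z u) ^ 2

lemma Gf_le {p χ : ℝ} (h0 : 0 ≤ p) (h1 : p ≤ 1)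
    (hχ : ∀ x, Ex p (fun ω => cz ends ω x) = χ) (x u : V) :
    Gf ends p x u ≤ χ * ∑ z, ta ends p x z * ta ends p z u := by
  classical
  have e1 : Gf ends p x u = ∑ w, Ex p (fun ω => (if u ∈ cu ends ω x then (1 : ℝ) else 0) *
      (if w ∈ cu ends ω x then 1 else 0)) := by
    unfold Gf
    rw [← Ex_sum]
    apply Ex_congr
    intro ω
    rw [← Finset.mul_sum]
    have : ∑ w, (if w ∈ cu ends ω x then (1 : ℝ) else 0) = cz ends ω x := by
      unfold cz
      simp
    rw [this, mul_comm]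
  rw [e1]
  calc _ ≤ ∑ w, ∑ z, ta ends p x z * (ta ends p z u * ta ends p z w) :=
        Finset.sum_le_sum fun w _ => tree_graph h0 h1 x u w
    _ = ∑ z, ta ends p x z * ta ends p z u * ∑ w, ta ends p z w := by
        rw [Finset.sum_comm]
        refine Finset.sum_congr rfl fun z _ => ?_
        rw [Finset.mul_sum]
        exact Finset.sum_congr rfl fun w _ => by ring
    _ = χ * ∑ z, ta ends p x z * ta ends p z u := by
        rw [Finset.mul_sum]
        refine Finset.sum_congr rfl fun z _ => ?_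
        rw [ta_sum, hχ z]
        ring

lemma Gf_nonneg {p : ℝ} (h0 : 0 ≤ p) (h1 : p ≤ 1) (x u : V) : 0 ≤ Gf ends p x u := by
  classical
  exact Ex_nonneg h0 h1 fun ω => mul_nonneg (cz_nonneg ω x) (by split_ifs <;> norm_num)

lemma Gf_sq {p χ : ℝ} (h0 : 0 ≤ p) (h1 : p ≤ 1)
    (hχ : ∀ x, Ex p (fun ω => cz ends ω x) = χ) (x : V) :
    ∑ u, Gf ends p x u ^ 2 ≤ χ ^ 2 * sqd ends p x := by
  unfold sqd
  rw [Finset.mul_sum]
  refine Finset.sum_le_sum fun u _ => ?_
  calc Gf ends p x u ^ 2 ≤ (χ * ∑ z, ta ends p x z * ta ends p z u) ^ 2 :=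
        pow_le_pow_left₀ (Gf_nonneg h0 h1 x u) (Gf_le h0 h1 hχ x u) 2
    _ = _ := by ring

/-- The second moment of the cluster size. -/
lemma second_moment {p χ : ℝ} (h0 : 0 ≤ p) (h1 : p ≤ 1)
    (hχ : ∀ x, Ex p (fun ω => cz ends ω x) = χ) (x : V) :
    Ex p (fun ω => cz ends ω x ^ 2) ≤ χ ^ 3 := by
  classical
  have e1 : Ex p (fun ω => cz ends ω x ^ 2) = ∑ u, Gf ends p x u := by
    unfold Gf
    rw [← Ex_sum]
    apply Ex_congr
    intro ω
    rw [← Finset.mul_sum]
    have : ∑ w, (if w ∈ cu ends ω x then (1 : ℝ) else 0) = cz ends ω x := by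
      unfold cz
      simp
    rw [this]
    ring
  rw [e1]
  calc _ ≤ ∑ u, χ * ∑ z, ta ends p x z * ta ends p z u :=
        Finset.sum_le_sum fun u _ => Gf_le h0 h1 hχ x u
    _ = χ * ∑ z, ta ends p x z * ∑ u, ta ends p z u := by
        rw [← Finset.mul_sum, Finset.sum_comm]
        congr 1
        exact Finset.sum_congr rfl fun z _ => by rw [Finset.mul_sum]
    _ = χ ^ 3 := by
        have : ∀ z, ta ends p x z * ∑ u, ta ends p z u = ta ends p x z * χ := by
          intro z
          rw [ta_sum, hχ z]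
        rw [Finset.sum_congr rfl fun z _ => this z, ← Finset.sum_mul, ta_sum, hχ x]
        ring

/-- The square diagram is at least one. -/
lemma one_le_sqd {p : ℝ} (h0 : 0 ≤ p) (h1 : p ≤ 1) (x : V) : 1 ≤ sqd ends p x := by
  unfold sqd
  have h2 : 1 ≤ ∑ z, ta ends p x z * ta ends p z x := by
    calc (1 : ℝ) = ta ends p x x * ta ends p x x := by rw [ta_self]; norm_num
      _ ≤ _ := Finset.single_le_sum (f := fun z => ta ends p x z * ta ends p z x)
          (fun z _ => mul_nonneg (ta_nonneg h0 h1 x z) (ta_nonneg h0 h1 z x)) (Finset.mem_univ x)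
  calc (1 : ℝ) ≤ (∑ z, ta ends p x z * ta ends p z x) ^ 2 := by nlinarith
    _ ≤ _ := Finset.single_le_sum (f := fun u => (∑ z, ta ends p x z * ta ends p z u) ^ 2)
        (fun u _ => sq_nonneg _) (Finset.mem_univ x)

end Pool.Agent.PERC29
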