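import Pool.Agent.Lib.MP_29e17e_pr.Amp
import Pool.Agent.Lib.MP_29e17e_pr.Prb
import Pool.Agent.Lib.MP_29e17e_pr.Tree

set_option autoImplicit false
set_option linter.unusedSectionVars false

open Finset

namespace Pool.Agent.PERC29

variable {V : Type*} [Fintype V] [DecidableEq V] {E : Type*} [Fintype E] [DecidableEq E]
  {ends : E → Sym2 V}

open scoped Classical in
/-- The lower bound for the mean number of edges between distinct large clusters. -/
lemma ET_low0 {p χ W C h : ℝ} (h0 : 0 < p) (h1 : p < 1) (hW : 0 < W) (hC : 1 ≤ C)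
    (hh : 4608 * C ^ 4 * h = 1) (hχh : 1 ≤ h * χ) (hpW : p * W ≤ C)
    (hdeg : ∀ x, ∑ y, nb ends x y ≤ W)
    (hχ : ∀ x, Ex p (fun ω => cz ends ω x) = χ)
    (hmin : ∀ x, ∀ a : ℝ, 1 ≤ a → Ex p (fun ω => min (cz ends ω x) a) ≤ 3 * C * Real.sqrt a) :
    (Fintype.card V) * h ^ 2 ≤ 576 * C ^ 2 * p * χ ^ 2 * ET ends p ((h * χ) ^ 2) := by
  have hh0 : 0 < h := by
    by_contra hcon
    push Not at hcon
    have : 4608 * C ^ 4 * h ≤ 0 := mul_nonpos_of_nonneg_of_nonpos (by positivity) hcon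
    linarith
  have hχ0 : 0 < χ := by
    by_contra hcon
    push Not at hcon
    have : h * χ ≤ 0 := mul_nonpos_of_nonneg_of_nonpos hh0.le hcon
    linarith
  have hC4 : 1 ≤ C ^ 4 := one_le_pow₀ hC
  have hC2 : C ≤ C ^ 4 := by nlinarith [sq_nonneg (C ^ 2), sq_nonneg C, mul_self_nonneg (C ^ 2 - 1)]
  have hCC : C ^ 2 ≤ C ^ 4 := pow_le_pow_right₀ hC (by norm_num)
  have hχbig : 4608 * C ^ 4 ≤ χ := by
    have e : 4608 * C ^ 4 * (h * χ) = χ := by
      rw [← mul_assoc, hh, one_mul]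
    have : 4608 * C ^ 4 * 1 ≤ 4608 * C ^ 4 * (h * χ) :=
      mul_le_mul_of_nonneg_left hχh (by positivity)
    linarith
  set N : ℝ := (Fintype.card V : ℝ) with hN
  have hN0 : 0 ≤ N := Nat.cast_nonneg _
  set n : ℝ := (χ / (6 * C)) ^ 2 with hn
  set M : ℝ := 18 * C ^ 2 / χ with hM
  have hC0 : 0 < C := by linarith
  have hMn : M * n = χ / 2 := by
    rw [hM, hn]
    field_simp
    ring
  have hsn : Real.sqrt n = χ / (6 * C) := by
    rw [hn]
    exact Real.sqrt_sq (by positivity)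
  have hn1 : 1 ≤ n := by
    rw [hn]
    have : 1 ≤ χ / (6 * C) := by
      rw [le_div_iff₀ (by positivity)]
      nlinarith
    nlinarith
  have hM1 : M ≤ 1 / 10 := by
    rw [hM, div_le_iff₀ hχ0]
    nlinarith
  have hM0 : 0 < M := by rw [hM]; positivity
  have k0 : ∀ x, Ex p (fun ω => min (cz ends ω x) n) ≤ M * n := by
    intro x
    refine (hmin x n hn1).trans (le_of_eq ?_)
    rw [hsn, hMn]
    field_simp
    ring
  have k1 : N * χ ≤ 16 * p * M * Stwo ends p := by
    have e1 : ∑ o : V, χ ≤ ∑ o : V, 16 * p * M * Ex p (fun ω => ∑ e, if ω e = true then 0 else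
        Fn n (cz ends (Function.update ω e true) o) - Fn n (cz ends ω o)) :=
      Finset.sum_le_sum fun o _ => D_low h0.le h1.le hn1 o k0 hM1 (hχ o) hMn.le
    rw [← Finset.mul_sum] at e1
    have e2 : ∑ _o : V, χ = N * χ := by simp [hN]
    rw [e2] at e1
    refine e1.trans ?_
    apply mul_le_mul_of_nonneg_left (D_le h0.le h1.le n)
    positivity
  set a : ℝ := (h * χ) ^ 2 with ha
  have ha1 : 1 ≤ a := by rw [ha]; nlinarith
  have hsa : Real.sqrt a = h * χ := by
    rw [ha]
    exact Real.sqrt_sq (by positivity)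
  set b : ℝ := χ ^ 2 / h with hb
  have hb0 : 0 < b := by positivity
  have k2 := S_le (ends := ends) (a := a) (b := b) (μ := 3 * C * (h * χ)) (ν := χ ^ 3) h0.le h1.le
    (by linarith) hb0 hdeg hχ (fun x => by rw [← hsa]; exact hmin x a ha1)
    (fun x => second_moment h0.le h1.le hχ x)
  have hET0 : 0 ≤ ET ends p a := by
    unfold ET
    refine Finset.sum_nonneg fun x _ => Finset.sum_nonneg fun y _ => ?_
    apply mul_nonneg (nb_nonneg x y)
    apply Ex_nonneg h0.le h1.le
    intro ω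
    split_ifs <;> norm_num
  have k3 : χ ^ 3 / b = h * χ := by
    rw [hb]
    field_simp
  rw [k3] at k2
  -- the remainder
  have k4 : 16 * p * M * (N * (W * (2 * χ * (3 * C * (h * χ) + h * χ)))) ≤ N * χ / 2 := by
    have e1 : 16 * p * M * (N * (W * (2 * χ * (3 * C * (h * χ) + h * χ)))) =
        (576 * C ^ 2 * h * (3 * C + 1)) * (p * W) * (N * χ) := by
      rw [hM]
      field_simp
      ring
    rw [e1]
    have e2 : 576 * C ^ 2 * h * (3 * C + 1) * (p * W) ≤ 1 / 2 := by
      have f1 : 0 ≤ 576 * C ^ 2 * h * (3 * C + 1) := by positivity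
      calc 576 * C ^ 2 * h * (3 * C + 1) * (p * W) ≤ 576 * C ^ 2 * h * (3 * C + 1) * C :=
            mul_le_mul_of_nonneg_left hpW f1
        _ ≤ 576 * C ^ 2 * h * (4 * C) * C := by
            apply mul_le_mul_of_nonneg_right _ hC0.le
            apply mul_le_mul_of_nonneg_left _ (by positivity)
            linarith
        _ = (4608 * C ^ 4 * h) / 2 := by ring
        _ = 1 / 2 := by rw [hh]
    have e3 : 0 ≤ N * χ := by positivity
    nlinarith
  have k5 : N * χ ≤ 2 * (16 * p * M * (b ^ 2 * ET ends p a)) := by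
    have f1 : 16 * p * M * Stwo ends p ≤ 16 * p * M * (b ^ 2 * ET ends p a +
        N * (W * (2 * χ * (3 * C * (h * χ) + h * χ)))) :=
      mul_le_mul_of_nonneg_left k2 (by positivity)
    rw [mul_add] at f1
    linarith
  have k6 : 2 * (16 * p * M * (b ^ 2 * ET ends p a)) * h ^ 2 =
      576 * C ^ 2 * p * χ ^ 3 * ET ends p a := by
    rw [hM, hb]
    field_simp
    ring
  have k7 : N * h ^ 2 ≤ 576 * C ^ 2 * p * χ ^ 2 * ET ends p a := by
    have f1 : N * χ * h ^ 2 ≤ 576 * C ^ 2 * p * χ ^ 3 * ET ends p a := by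
      rw [← k6]
      exact mul_le_mul_of_nonneg_right k5 (by positivity)
    have f2 : χ * (N * h ^ 2) ≤ χ * (576 * C ^ 2 * p * χ ^ 2 * ET ends p a) := by
      calc _ = N * χ * h ^ 2 := by ring
        _ ≤ _ := f1
        _ = _ := by ring
    exact le_of_mul_le_mul_left f2 hχ0
  exact k7

open scoped Classical in
/-- The trivial upper bound. -/
lemma ET_up {p a P W : ℝ} (h0 : 0 ≤ p) (h1 : p ≤ 1) (hP0 : 0 ≤ P)
    (hdeg : ∀ x, ∑ y, nb ends x y ≤ W)
    (hP : ∀ x, Ex p (fun ω => if a ≤ cz ends ω x then (1 : ℝ) else 0) ≤ P) :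
    ET ends p a ≤ (Fintype.card V) * (W * P ^ 2) := by
  unfold ET
  calc _ ≤ ∑ x, ∑ y, nb ends x y * (P * P) := by
        refine Finset.sum_le_sum fun x _ => Finset.sum_le_sum fun y _ => ?_
        apply mul_le_mul_of_nonneg_left _ (nb_nonneg x y)
        have h2 := two (ends := ends) h0 h1 x y
          (fun A : Finset V => if a ≤ (A.card : ℝ) then (1 : ℝ) else 0)
          (fun A => by split_ifs <;> norm_num)
          (fun A : Finset V => if a ≤ (A.card : ℝ) then (1 : ℝ) else 0)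
          (fun A => by split_ifs <;> norm_num)
          (by
            intro A B hAB
            have : (A.card : ℝ) ≤ B.card := by exact_mod_cast Finset.card_le_card hAB
            by_cases h : a ≤ (A.card : ℝ)
            · rw [if_pos h, if_pos (h.trans this)]
            · rw [if_neg h]; split_ifs <;> norm_num)
        refine h2.trans ?_
        exact mul_le_mul (hP x) (hP y) (Ex_nonneg h0 h1 fun ω => by split_ifs <;> norm_num) hP0
    _ = ∑ x, (∑ y, nb ends x y) * (P * P) := by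
        exact Finset.sum_congr rfl fun x _ => by rw [Finset.sum_mul]
    _ ≤ ∑ _x : V, W * (P * P) := Finset.sum_le_sum fun x _ =>
        mul_le_mul_of_nonneg_right (hdeg x) (mul_nonneg hP0 hP0)
    _ = _ := by
        rw [Finset.sum_const, Finset.card_univ, nsmul_eq_mul]
        ring

open scoped Classical in
/-- The probability to be in a large cluster. -/
lemma P_up {p C h χ : ℝ} (h0 : 0 ≤ p) (h1 : p ≤ 1) (hh0 : 0 < h) (hχ0 : 0 < χ)
    (hχh : 1 ≤ h * χ)
    (hmin : ∀ x, ∀ a : ℝ, 1 ≤ a → Ex p (fun ω => min (cz ends ω x) a) ≤ 3 * C * Real.sqrt a)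
    (x : V) : Ex p (fun ω => if (h * χ) ^ 2 ≤ cz ends ω x then (1 : ℝ) else 0) ≤
      3 * C / (h * χ) := by
  set a : ℝ := (h * χ) ^ 2 with ha
  have ha1 : 1 ≤ a := by rw [ha]; nlinarith
  have ha0 : 0 < a := by linarith
  have hsa : Real.sqrt a = h * χ := by
    rw [ha]
    exact Real.sqrt_sq (by positivity)
  set P := Ex p (fun ω => if a ≤ cz ends ω x then (1 : ℝ) else 0) with hPdef
  have f1 : a * P ≤ Ex p (fun ω => min (cz ends ω x) a) := by
    rw [hPdef, ← Ex_mul_left]
    apply Ex_mono h0 h1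
    intro ω
    split_ifs with hif
    · rw [mul_one]
      exact le_min hif le_rfl
    · rw [mul_zero]
      exact le_min (cz_nonneg ω x) ha0.le
  have f2 := f1.trans (hmin x a ha1)
  rw [hsa] at f2
  rw [le_div_iff₀ (by positivity)]
  have f3 : (h * χ) * (P * (h * χ)) ≤ (h * χ) * (3 * C) := by
    calc (h * χ) * (P * (h * χ)) = a * P := by rw [ha]; ring
      _ ≤ _ := f2
      _ = _ := by ring
  exact le_of_mul_le_mul_left f3 (by positivity)

/-- The mean number of large clusters. -/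
lemma GC_mean {p a P : ℝ} (h0 : 0 ≤ p) (h1 : p ≤ 1) (ha : 0 < a)
    (hP : ∀ x, Ex p (fun ω => if a ≤ cz ends ω x then (1 : ℝ) else 0) ≤ P) :
    Ex p (fun ω => ((GC ends ω a).card : ℝ)) ≤ (Fintype.card V) * P / a := by
  rw [le_div_iff₀ ha]
  have hpt : ∀ ω : E → Bool, a * ((GC ends ω a).card : ℝ) ≤
      ∑ x, (if a ≤ cz ends ω x then (1 : ℝ) else 0) := by
    intro ω
    have e1 := GC_sum (ends := ends) ω a (fun _ _ => 1)
    simp only [Finset.sum_const, nsmul_eq_mul, mul_one] at e1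
    have e2 : ∑ x, (if a ≤ cz ends ω x then (1 : ℝ) else 0) = ∑ A ∈ GC ends ω a, (A.card : ℝ) := by
      rw [e1]
    rw [e2, mul_comm, ← nsmul_eq_mul]
    apply Finset.card_nsmul_le_sum
    intro A hA
    exact (mem_GC.1 hA).2
  have hE := Ex_mono h0 h1 hpt
  rw [Ex_mul_left, Ex_sum] at hE
  have e3 : ∑ x, Ex p (fun ω => if a ≤ cz ends ω x then (1 : ℝ) else 0) ≤ ∑ _x : V, P :=
    Finset.sum_le_sum fun x _ => hP x
  rw [Finset.sum_const, Finset.card_univ, nsmul_eq_mul] at e3
  linarith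

end Pool.Agent.PERC29
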