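import Pool.Agent.Lib.MP_29e17e_pr.Har
import Pool.Agent.Lib.MP_29e17e_pr.Wk

set_option autoImplicit false
set_option linter.unusedSectionVars false

open Finset

namespace Pool.Agent.PERC29

variable {V : Type*} [Fintype V] [DecidableEq V] {E : Type*} [Fintype E] [DecidableEq E]
  {ends : E → Sym2 V}

open scoped Classical in
/-- Weighted number of ways to go from `y` through `n` distinct clusters inside `S` and then to `x0`. -/
noncomputable def RR (ends : E → Sym2 V) (a : ℝ) (ω : E → Bool) (x0 : V) : ℕ → Set V → V → ℝ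
  | 0, _, y => nb ends y x0
  | n + 1, S, y => ∑ x', nb ends y x' * (if x' ∈ S then (((cl ends ω S x').card : ℝ) / a) *
      ∑ y' ∈ cl ends ω S x', RR ends a ω x0 n (S \ (cl ends ω S x' : Set V)) y' else 0)

/-- The bound for its mean. -/
noncomputable def HH (ends : E → Sym2 V) (p a : ℝ) (x0 : V) : ℕ → V → ℝ
  | 0, y => nb ends y x0
  | n + 1, y => ∑ x', nb ends y x' * ∑ y', (Gf ends p x' y' / a) * HH ends p a x0 n y'

/-- Powers of the two-point function. -/
noncomputable def cv (ends : E → Sym2 V) (p : ℝ) : ℕ → V → V → ℝ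
  | 0, x, y => if x = y then 1 else 0
  | n + 1, x, y => ∑ z, cv ends p n x z * ta ends p z y

lemma RR_nonneg {a : ℝ} (ha : 0 < a) (ω : E → Bool) (x0 : V) (n : ℕ) (S : Set V) (y : V) :
    0 ≤ RR ends a ω x0 n S y := by
  induction n generalizing S y with
  | zero => exact nb_nonneg y x0
  | succ n ih =>
    unfold RR
    refine Finset.sum_nonneg fun x' _ => mul_nonneg (nb_nonneg _ _) ?_
    split_ifs
    · exact mul_nonneg (div_nonneg (Nat.cast_nonneg _) ha.le)
        (Finset.sum_nonneg fun y' _ => ih _ _)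
    · exact le_rfl

/-- It only depends on the edges inside `S`. -/
lemma RR_dep {ω ω' : E → Bool} (a : ℝ) (x0 : V) (n : ℕ) (S : Set V) (y : V)
    (h : ∀ e a b, ends e = s(a, b) → a ∈ S → b ∈ S → ω e = ω' e) :
    RR ends a ω x0 n S y = RR ends a ω' x0 n S y := by
  induction n generalizing S y with
  | zero => rfl
  | succ n ih =>
    unfold RR
    refine Finset.sum_congr rfl fun x' _ => ?_
    have e1 : cl ends ω S x' = cl ends ω' S x' := cl_dep h
    rw [e1]
    by_cases hx : x' ∈ S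
    · rw [if_pos hx, if_pos hx]
      congr 2
      refine Finset.sum_congr rfl fun y' _ => ?_
      exact ih _ _ (fun e a b he ha hb => h e a b he ha.1 hb.1)
    · rw [if_neg hx, if_neg hx]

/-- One step of the mean bound. -/
lemma RR_step {p a : ℝ} (h0 : 0 ≤ p) (h1 : p ≤ 1) (ha : 0 < a) (x0 : V) (n : ℕ)
    (g : V → ℝ) (hg : ∀ S y, Ex p (fun ω => RR ends a ω x0 n S y) ≤ g y) (S : Set V) (x' : V) :
    Ex p (fun ω => (((cl ends ω S x').card : ℝ) / a) *
      ∑ y' ∈ cl ends ω S x', RR ends a ω x0 n (S \ (cl ends ω S x' : Set V)) y') ≤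
      ∑ y', (Gf ends p x' y' / a) * g y' := by
  classical
  have hg0 : ∀ y, 0 ≤ g y := fun y =>
    (Ex_nonneg h0 h1 fun ω => RR_nonneg ha ω x0 n Set.univ y).trans (hg Set.univ y)
  have hdec : ∀ ω : E → Bool, (((cl ends ω S x').card : ℝ) / a) *
      ∑ y' ∈ cl ends ω S x', RR ends a ω x0 n (S \ (cl ends ω S x' : Set V)) y' =
      ∑ A : Finset V, ∑ y' ∈ A, ((if cl ends ω S x' = A then (1 : ℝ) else 0) *
        ((A.card : ℝ) / a)) * RR ends a ω x0 n (S \ (A : Set V)) y' := by
    intro ω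
    rw [Finset.sum_eq_single (cl ends ω S x')]
    · rw [Finset.mul_sum]
      refine Finset.sum_congr rfl fun y' _ => ?_
      rw [if_pos rfl, one_mul]
    · intro A _ hA
      refine Finset.sum_eq_zero fun y' _ => ?_
      rw [if_neg (Ne.symm hA), zero_mul, zero_mul]
    · intro hh
      exact absurd (Finset.mem_univ _) hh
  have hstep : ∀ (A : Finset V) (y' : V),
      Ex p (fun ω => ((if cl ends ω S x' = A then (1 : ℝ) else 0) *
        ((A.card : ℝ) / a)) * RR ends a ω x0 n (S \ (A : Set V)) y') ≤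
      Ex p (fun ω => ((if cl ends ω S x' = A then (1 : ℝ) else 0) *
        ((A.card : ℝ) / a)) * g y') := by
    intro A y'
    set D : Set E := {e | ∃ a b, ends e = s(a, b) ∧ a ∈ A} with hD
    rw [Ex_indep p D]
    · have hI : 0 ≤ Ex p (fun ω : E → Bool => (if cl ends ω S x' = A then (1 : ℝ) else 0) *
          ((A.card : ℝ) / a)) :=
        Ex_nonneg h0 h1 fun ω => mul_nonneg (by split_ifs <;> norm_num)
          (div_nonneg (Nat.cast_nonneg _) ha.le)
      refine (mul_le_mul_of_nonneg_left (hg _ y') hI).trans (le_of_eq ?_)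
      rw [mul_comm, ← Ex_mul_left]
      exact Ex_congr fun ω => mul_comm _ _
    · intro ω ω' hh
      have key : ∀ ω ω' : E → Bool, (∀ e ∈ D, ω e = ω' e) → cl ends ω S x' = A →
          cl ends ω' S x' = A := by
        intro ω ω' hh hA
        exact cl_eq_dep (fun e' a b h2 _ _ h5 => hh e' ⟨a, b, h2, h5⟩) hA
      by_cases hc : cl ends ω S x' = A
      · rw [if_pos hc, if_pos (key ω ω' hh hc)]
      · rw [if_neg hc, if_neg]
        intro hc'
        exact hc (key ω' ω (fun e he => (hh e he).symm) hc')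
    · intro ω ω' hh
      apply RR_dep
      intro e' a b h2 h3 h4
      apply hh
      rintro ⟨a', b', h5, h8⟩
      rw [h2] at h5
      rcases Sym2.eq_iff.1 h5 with ⟨rfl, rfl⟩ | ⟨rfl, rfl⟩
      · exact h3.2 h8
      · exact h4.2 h8
  have hdec2 : ∀ ω : E → Bool, ∑ A : Finset V, ∑ y' ∈ A,
      ((if cl ends ω S x' = A then (1 : ℝ) else 0) * ((A.card : ℝ) / a)) * g y' =
      ∑ y' ∈ cl ends ω S x', (((cl ends ω S x').card : ℝ) / a) * g y' := by
    intro ω
    rw [Finset.sum_eq_single (cl ends ω S x')]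
    · refine Finset.sum_congr rfl fun y' _ => ?_
      rw [if_pos rfl, one_mul]
    · intro A _ hA
      refine Finset.sum_eq_zero fun y' _ => ?_
      rw [if_neg (Ne.symm hA), zero_mul, zero_mul]
    · intro hh
      exact absurd (Finset.mem_univ _) hh
  have hfin : ∀ ω : E → Bool, ∑ y' ∈ cl ends ω S x', (((cl ends ω S x').card : ℝ) / a) * g y' ≤
      ∑ y', (g y' / a) * (cz ends ω x' * (if y' ∈ cu ends ω x' then (1 : ℝ) else 0)) := by
    intro ω
    have hsub : cl ends ω S x' ⊆ cu ends ω x' := cl_mono (fun _ h => h) (Set.subset_univ _)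
    have hcard : ((cl ends ω S x').card : ℝ) ≤ cz ends ω x' := by
      unfold cz
      exact_mod_cast Finset.card_le_card hsub
    have e1 : ∑ y', (g y' / a) * (cz ends ω x' * (if y' ∈ cu ends ω x' then (1 : ℝ) else 0)) =
        ∑ y' ∈ cu ends ω x', (cz ends ω x' / a) * g y' := by
      rw [← Finset.sum_subset (Finset.subset_univ (cu ends ω x'))]
      · refine Finset.sum_congr rfl fun y' hy' => ?_
        rw [if_pos hy']
        ring
      · intro y' _ hy'
        rw [if_neg hy']
        ring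
    rw [e1]
    calc _ ≤ ∑ y' ∈ cl ends ω S x', (cz ends ω x' / a) * g y' := by
          refine Finset.sum_le_sum fun y' _ => mul_le_mul_of_nonneg_right ?_ (hg0 y')
          exact div_le_div_of_nonneg_right hcard ha.le
      _ ≤ _ := by
          refine Finset.sum_le_sum_of_subset_of_nonneg hsub fun y' _ _ => ?_
          exact mul_nonneg (div_nonneg (cz_nonneg ω x') ha.le) (hg0 y')
  calc Ex p (fun ω => (((cl ends ω S x').card : ℝ) / a) *
      ∑ y' ∈ cl ends ω S x', RR ends a ω x0 n (S \ (cl ends ω S x' : Set V)) y')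
      = ∑ A : Finset V, ∑ y' ∈ A, Ex p (fun ω =>
          ((if cl ends ω S x' = A then (1 : ℝ) else 0) *
          ((A.card : ℝ) / a)) * RR ends a ω x0 n (S \ (A : Set V)) y') := by
        rw [Ex_congr hdec, Ex_sum]
        exact Finset.sum_congr rfl fun A _ => Ex_sum _ _ _
    _ ≤ ∑ A : Finset V, ∑ y' ∈ A, Ex p (fun ω =>
          ((if cl ends ω S x' = A then (1 : ℝ) else 0) * ((A.card : ℝ) / a)) * g y') :=
        Finset.sum_le_sum fun A _ => Finset.sum_le_sum fun y' _ => hstep A y'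
    _ = Ex p (fun ω => ∑ A : Finset V, ∑ y' ∈ A,
          ((if cl ends ω S x' = A then (1 : ℝ) else 0) * ((A.card : ℝ) / a)) * g y') := by
        rw [Ex_sum]
        exact Finset.sum_congr rfl fun A _ => (Ex_sum _ _ _).symm
    _ ≤ Ex p (fun ω => ∑ y', (g y' / a) *
          (cz ends ω x' * (if y' ∈ cu ends ω x' then (1 : ℝ) else 0))) := by
        apply Ex_mono h0 h1
        intro ω
        rw [hdec2 ω]
        exact hfin ω
    _ = ∑ y', (Gf ends p x' y' / a) * g y' := by
        rw [Ex_sum]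
        refine Finset.sum_congr rfl fun y' _ => ?_
        rw [Ex_mul_left]
        have : Ex p (fun ω => cz ends ω x' * (if y' ∈ cu ends ω x' then (1 : ℝ) else 0)) =
            Gf ends p x' y' := by
          unfold Gf
          apply Ex_congr
          intro ω
          congr
        rw [this]
        ring

/-- The mean bound. -/
lemma RR_mean {p a : ℝ} (h0 : 0 ≤ p) (h1 : p ≤ 1) (ha : 0 < a) (x0 : V) (n : ℕ) (S : Set V) (y : V) :
    Ex p (fun ω => RR ends a ω x0 n S y) ≤ HH ends p a x0 n y := by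
  classical
  induction n generalizing S y with
  | zero =>
    unfold RR HH
    rw [Ex_const]
  | succ n ih =>
    have hH : ∀ y, 0 ≤ HH ends p a x0 n y := fun y =>
      (Ex_nonneg h0 h1 fun ω => RR_nonneg ha ω x0 n Set.univ y).trans (ih Set.univ y)
    unfold RR HH
    rw [Ex_sum]
    refine Finset.sum_le_sum fun x' _ => ?_
    rw [Ex_mul_left]
    apply mul_le_mul_of_nonneg_left _ (nb_nonneg _ _)
    by_cases hx : x' ∈ S
    · have e1 : ∀ ω : E → Bool, (if x' ∈ S then (((cl ends ω S x').card : ℝ) / a) *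
          ∑ y' ∈ cl ends ω S x', RR ends a ω x0 n (S \ (cl ends ω S x' : Set V)) y' else 0) =
          (((cl ends ω S x').card : ℝ) / a) *
          ∑ y' ∈ cl ends ω S x', RR ends a ω x0 n (S \ (cl ends ω S x' : Set V)) y' := by
        intro ω
        rw [if_pos hx]
      rw [Ex_congr e1]
      exact RR_step h0 h1 ha x0 n _ ih S x'
    · have e1 : ∀ ω : E → Bool, (if x' ∈ S then (((cl ends ω S x').card : ℝ) / a) *
          ∑ y' ∈ cl ends ω S x', RR ends a ω x0 n (S \ (cl ends ω S x' : Set V)) y' else 0) =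
          0 := by
        intro ω
        rw [if_neg hx]
      rw [Ex_zero_of e1]
      exact Finset.sum_nonneg fun y' _ =>
        mul_nonneg (div_nonneg (Gf_nonneg h0 h1 x' y') ha.le) (hH y')

private lemma R2_nonneg {a : ℝ} (ha : 0 < a) (ω : E → Bool) (x0 : V) (n : ℕ) :
    ∀ (S : Set V) (y : V), 0 ≤ RR ends a ω x0 n S y := by
  classical
  induction n with
  | zero => intro S y; exact nb_nonneg y x0
  | succ n ih =>
    intro S y
    unfold RR
    refine Finset.sum_nonneg fun x' _ => mul_nonneg (nb_nonneg _ _) ?_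
    split_ifs
    · exact mul_nonneg (div_nonneg (Nat.cast_nonneg _) ha.le)
        (Finset.sum_nonneg fun y' _ => ih _ y')
    · exact le_rfl

/-- The number of ways to go from `y` through `n` distinct members of `T` and then to `x0`. -/
private noncomputable def R2_pv (ends : E → Sym2 V) : ℕ → Finset (Finset V) → V → V → ℝ
  | 0, _, y, x0 => nb ends y x0
  | n + 1, T, y, x0 => ∑ D ∈ T, (∑ x' ∈ D, nb ends y x') *
      ∑ y' ∈ D, R2_pv ends n (T.erase D) y' x0

private lemma R2_pth (n : ℕ) : ∀ (T : Finset (Finset V)) (A B : Finset V),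
    pth (NN ends) n T A B = ∑ y ∈ A, ∑ x0 ∈ B, R2_pv ends n T y x0 := by
  induction n with
  | zero => intro T A B; rfl
  | succ n ih =>
    intro T A B
    have h1 : pth (NN ends) (n + 1) T A B =
        ∑ D ∈ T, NN ends A D * pth (NN ends) n (T.erase D) D B := rfl
    have h2 : ∀ y x0, R2_pv ends (n + 1) T y x0 = ∑ D ∈ T, (∑ x' ∈ D, nb ends y x') *
      ∑ y' ∈ D, R2_pv ends n (T.erase D) y' x0 := fun y x0 => rfl
    rw [h1]
    have h3 : ∀ y, ∑ x0 ∈ B, R2_pv ends (n + 1) T y x0 = ∑ D ∈ T, ∑ x0 ∈ B,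
        (∑ x' ∈ D, nb ends y x') * ∑ y' ∈ D, R2_pv ends n (T.erase D) y' x0 := by
      intro y
      rw [Finset.sum_congr rfl fun x0 _ => h2 y x0, Finset.sum_comm]
    rw [Finset.sum_congr rfl fun y _ => h3 y, Finset.sum_comm]
    refine Finset.sum_congr rfl fun D _ => ?_
    rw [ih, Finset.sum_comm (s := D) (t := B), NN, Finset.sum_mul_sum]

private lemma R2_cl {ω : E → Bool} {S : Set V} (hS : ∀ u ∈ S, ∀ v, Rch ends ω Set.univ u v → v ∈ S)
    {x : V} (hx : x ∈ S) : cl ends ω S x = cu ends ω x := by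
  ext z
  rw [mem_cl, mem_cu]
  refine (inside (B := Sᶜ) (fun w => ?_) hx).symm
  constructor
  · rintro hw ⟨b, hb, hbw⟩
    exact hb (hS w hw b hbw.symm)
  · intro h
    by_contra hw
    exact h ⟨w, hw, Rch.refl w⟩

private lemma R2_GC {ω : E → Bool} {a : ℝ} {D : Finset V} (hD : D ∈ GC ends ω a) {x : V}
    (hx : x ∈ D) : cu ends ω x = D := by
  obtain ⟨⟨z, rfl⟩, -⟩ := mem_GC.1 hD
  exact cu_eq hx

private lemma R2_le (ω : E → Bool) {a : ℝ} (ha : 0 < a) (x0 : V) (n : ℕ) :
    ∀ (T : Finset (Finset V)) (S : Set V) (y : V), T ⊆ GC ends ω a → (∀ A ∈ T, ∀ v ∈ A, v ∈ S) →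
      (∀ u ∈ S, ∀ v, Rch ends ω Set.univ u v → v ∈ S) →
      R2_pv ends n T y x0 ≤ RR ends a ω x0 n S y := by
  classical
  induction n with
  | zero => intro T S y _ _ _; exact le_rfl
  | succ n ih =>
    intro T S y hT hTS hS
    have h1 : R2_pv ends (n + 1) T y x0 = ∑ D ∈ T, ∑ x' ∈ D, nb ends y x' *
        ∑ y' ∈ D, R2_pv ends n (T.erase D) y' x0 := by
      have : R2_pv ends (n + 1) T y x0 = ∑ D ∈ T, (∑ x' ∈ D, nb ends y x') *
        ∑ y' ∈ D, R2_pv ends n (T.erase D) y' x0 := rfl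
      rw [this]
      exact Finset.sum_congr rfl fun D _ => Finset.sum_mul _ _ _
    set g : V → ℝ := fun x' => nb ends y x' * (if x' ∈ S then (((cl ends ω S x').card : ℝ) / a) *
      ∑ y' ∈ cl ends ω S x', RR ends a ω x0 n (S \ (cl ends ω S x' : Set V)) y' else 0) with hg
    have hg0 : ∀ x', 0 ≤ g x' := by
      intro x'
      rw [hg]
      refine mul_nonneg (nb_nonneg _ _) ?_
      split_ifs
      · exact mul_nonneg (div_nonneg (Nat.cast_nonneg _) ha.le)
          (Finset.sum_nonneg fun y' _ => R2_nonneg ha ω x0 n _ y')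
      · exact le_rfl
    have h2 : RR ends a ω x0 (n + 1) S y = ∑ x', g x' := rfl
    have hterm : ∀ D ∈ T, ∀ x' ∈ D, nb ends y x' *
        ∑ y' ∈ D, R2_pv ends n (T.erase D) y' x0 ≤ g x' := by
      intro D hD x' hx'
      have hDG := hT hD
      have hxS : x' ∈ S := hTS D hD x' hx'
      have hcl : cl ends ω S x' = D := by
        rw [R2_cl hS hxS, R2_GC hDG hx']
      have hle : ∑ y' ∈ D, R2_pv ends n (T.erase D) y' x0 ≤
          ∑ y' ∈ D, RR ends a ω x0 n (S \ (D : Set V)) y' := by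
        refine Finset.sum_le_sum fun y' _ => ih (T.erase D) (S \ (D : Set V)) y' ?_ ?_ ?_
        · exact (Finset.erase_subset _ _).trans hT
        · intro A hA v hv
          have hA' := Finset.mem_erase.1 hA
          refine ⟨hTS A hA'.2 v hv, fun hvD => ?_⟩
          exact (Finset.disjoint_left.1 (GC_disj (hT hA'.2) hDG hA'.1)) hv hvD
        · rintro u ⟨hu, huD⟩ v huv
          refine ⟨hS u hu v huv, fun hvD => huD ?_⟩
          have h3 : cu ends ω v = D := R2_GC hDG hvD
          have h4 : u ∈ cu ends ω v := mem_cu.2 huv.symm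
          rw [h3] at h4
          exact h4
      have hpos : 0 ≤ ∑ y' ∈ D, RR ends a ω x0 n (S \ (D : Set V)) y' :=
        Finset.sum_nonneg fun y' _ => R2_nonneg ha ω x0 n _ y'
      have h1a : 1 ≤ (D.card : ℝ) / a := by
        rw [le_div_iff₀ ha, one_mul]
        exact (mem_GC.1 hDG).2
      rw [hg]
      simp only
      rw [if_pos hxS, hcl]
      refine mul_le_mul_of_nonneg_left ?_ (nb_nonneg _ _)
      refine hle.trans ?_
      calc ∑ y' ∈ D, RR ends a ω x0 n (S \ (D : Set V)) y'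
          = 1 * ∑ y' ∈ D, RR ends a ω x0 n (S \ (D : Set V)) y' := (one_mul _).symm
        _ ≤ _ := mul_le_mul_of_nonneg_right h1a hpos
    have hdisj : Set.PairwiseDisjoint (T : Set (Finset V)) id := by
      intro A hA B hB hAB
      exact GC_disj (hT hA) (hT hB) hAB
    rw [h1, h2]
    calc ∑ D ∈ T, ∑ x' ∈ D, nb ends y x' * ∑ y' ∈ D, R2_pv ends n (T.erase D) y' x0
        ≤ ∑ D ∈ T, ∑ x' ∈ id D, g x' :=
          Finset.sum_le_sum fun D hD => Finset.sum_le_sum fun x' hx' => hterm D hD x' hx'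
      _ = ∑ x' ∈ T.biUnion id, g x' := (Finset.sum_biUnion hdisj).symm
      _ ≤ ∑ x', g x' := Finset.sum_le_sum_of_subset_of_nonneg (Finset.subset_univ _)
          fun x' _ _ => hg0 x'

open scoped Classical in
/-- Cycles of large clusters, pointwise. -/
lemma cyc_le (ω : E → Bool) {a : ℝ} (ha : 0 < a) (n : ℕ) :
    ∑ A ∈ GC ends ω a, pth (NN ends) n ((GC ends ω a).erase A) A A ≤
      ∑ x0, (((cl ends ω Set.univ x0).card : ℝ) / a) * ∑ y ∈ cl ends ω Set.univ x0,
        RR ends a ω x0 n (Set.univ \ (cl ends ω Set.univ x0 : Set V)) y := by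
  set g : V → ℝ := fun x0 => (((cl ends ω Set.univ x0).card : ℝ) / a) *
    ∑ y ∈ cl ends ω Set.univ x0,
      RR ends a ω x0 n (Set.univ \ (cl ends ω Set.univ x0 : Set V)) y with hg
  have hg0 : ∀ x', 0 ≤ g x' := by
    intro x'
    rw [hg]
    exact mul_nonneg (div_nonneg (Nat.cast_nonneg _) ha.le)
      (Finset.sum_nonneg fun y' _ => R2_nonneg ha ω x' n _ y')
  have hterm : ∀ A ∈ GC ends ω a, ∀ x0 ∈ A,
      ∑ y ∈ A, R2_pv ends n ((GC ends ω a).erase A) y x0 ≤ g x0 := by
    intro A hA x0 hx0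
    have hcl : cl ends ω Set.univ x0 = A := R2_GC hA hx0
    have hle : ∑ y ∈ A, R2_pv ends n ((GC ends ω a).erase A) y x0 ≤
        ∑ y ∈ A, RR ends a ω x0 n (Set.univ \ (A : Set V)) y := by
      refine Finset.sum_le_sum fun y _ => R2_le ω ha x0 n _ _ y (Finset.erase_subset _ _) ?_ ?_
      · intro B hB v hv
        have hB' := Finset.mem_erase.1 hB
        refine ⟨Set.mem_univ _, fun hvA => ?_⟩
        exact (Finset.disjoint_left.1 (GC_disj hB'.2 hA hB'.1)) hv hvA
      · rintro u ⟨-, huA⟩ v huv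
        refine ⟨Set.mem_univ _, fun hvA => huA ?_⟩
        have h3 : cu ends ω v = A := R2_GC hA hvA
        have h4 : u ∈ cu ends ω v := mem_cu.2 huv.symm
        rw [h3] at h4
        exact h4
    have hpos : 0 ≤ ∑ y ∈ A, RR ends a ω x0 n (Set.univ \ (A : Set V)) y :=
      Finset.sum_nonneg fun y' _ => R2_nonneg ha ω x0 n _ y'
    have h1a : 1 ≤ (A.card : ℝ) / a := by
      rw [le_div_iff₀ ha, one_mul]
      exact (mem_GC.1 hA).2
    rw [hg]
    simp only
    rw [hcl]
    refine hle.trans ?_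
    calc ∑ y ∈ A, RR ends a ω x0 n (Set.univ \ (A : Set V)) y
        = 1 * ∑ y ∈ A, RR ends a ω x0 n (Set.univ \ (A : Set V)) y := (one_mul _).symm
      _ ≤ _ := mul_le_mul_of_nonneg_right h1a hpos
  have hdisj : Set.PairwiseDisjoint (GC ends ω a : Set (Finset V)) id := by
    intro A hA B hB hAB
    exact GC_disj hA hB hAB
  calc ∑ A ∈ GC ends ω a, pth (NN ends) n ((GC ends ω a).erase A) A A
      = ∑ A ∈ GC ends ω a, ∑ x0 ∈ A, ∑ y ∈ A, R2_pv ends n ((GC ends ω a).erase A) y x0 := by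
        refine Finset.sum_congr rfl fun A _ => ?_
        rw [R2_pth, Finset.sum_comm]
    _ ≤ ∑ A ∈ GC ends ω a, ∑ x0 ∈ id A, g x0 :=
        Finset.sum_le_sum fun A hA => Finset.sum_le_sum fun x0 hx0 => hterm A hA x0 hx0
    _ = ∑ x0 ∈ (GC ends ω a).biUnion id, g x0 := (Finset.sum_biUnion hdisj).symm
    _ ≤ ∑ x0, g x0 := Finset.sum_le_sum_of_subset_of_nonneg (Finset.subset_univ _)
        fun x0 _ _ => hg0 x0

-- end 29k-R2

/-- The mean number of cycles. -/
lemma cyc_mean {p a : ℝ} (h0 : 0 ≤ p) (h1 : p ≤ 1) (ha : 0 < a) (n : ℕ) :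
    Ex p (fun ω => ∑ A ∈ GC ends ω a, pth (NN ends) n ((GC ends ω a).erase A) A A) ≤
      ∑ x0, ∑ y, (Gf ends p x0 y / a) * HH ends p a x0 n y := by
  refine (Ex_mono h0 h1 (fun ω => cyc_le (ends := ends) ω ha n)).trans ?_
  rw [Ex_sum]
  refine Finset.sum_le_sum fun x0 _ => ?_
  exact RR_step h0 h1 ha x0 n (HH ends p a x0 n) (fun S y => RR_mean h0 h1 ha x0 n S y) Set.univ x0

private lemma R3_cv_nonneg {p : ℝ} (h0 : 0 ≤ p) (h1 : p ≤ 1) (n : ℕ) (x y : V) :
    0 ≤ cv ends p n x y := by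
  induction n generalizing y with
  | zero => unfold cv; split_ifs <;> norm_num
  | succ n ih =>
    unfold cv
    exact Finset.sum_nonneg fun z _ => mul_nonneg (ih z) (ta_nonneg h0 h1 z y)

private lemma R3_cv_add (p : ℝ) (m n : ℕ) (x y : V) :
    ∑ z, cv ends p m x z * cv ends p n z y = cv ends p (m + n) x y := by
  induction n generalizing y with
  | zero => simp [cv]
  | succ n ih =>
    change ∑ z, cv ends p m x z * ∑ w, cv ends p n z w * ta ends p w y =
      ∑ w, cv ends p (m + n) x w * ta ends p w y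
    simp_rw [Finset.mul_sum]
    rw [Finset.sum_comm]
    refine Finset.sum_congr rfl fun w _ => ?_
    rw [← ih w, Finset.sum_mul]
    exact Finset.sum_congr rfl fun z _ => by ring

private lemma R3_cv_two (p : ℝ) (x y : V) :
    cv ends p 2 x y = ∑ z, ta ends p x z * ta ends p z y := by
  have h : ∀ z, cv ends p 1 x z = ta ends p x z := by
    intro z
    change ∑ w, (if x = w then (1 : ℝ) else 0) * ta ends p w z = ta ends p x z
    simp
  change ∑ z, cv ends p 1 x z * ta ends p z y = _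
  exact Finset.sum_congr rfl fun z _ => by rw [h z]

/-- the cluster sizes at the neighbours -/
private lemma R3_nb {p a χ W C : ℝ} (h0 : 0 < p) (h1 : p ≤ 1) (ha : 0 < a) (hC : 0 ≤ C)
    (hχ : ∀ x, Ex p (fun ω => cz ends ω x) = χ)
    (hdeg : ∀ x, ∑ y, nb ends x y ≤ W) (hpW : p * W ≤ C) (y y' : V) :
    ∑ x', nb ends y x' * (Gf ends p x' y' / a) ≤ (χ * (1 + 2 * C) / (a * p)) * cv ends p 2 y y' := by
  have hχ0 : 0 ≤ χ := by
    rw [← hχ y]
    exact Ex_nonneg h0.le h1 fun ω => cz_nonneg ω y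
  have e1 : ∀ x', nb ends y x' * (Gf ends p x' y' / a) ≤
      (χ / a) * ∑ z, (nb ends y x' * ta ends p x' z) * ta ends p z y' := by
    intro x'
    have k1 := Gf_le h0.le h1 hχ x' y'
    have k2 : nb ends y x' * (Gf ends p x' y' / a) ≤
        nb ends y x' * ((χ * ∑ z, ta ends p x' z * ta ends p z y') / a) :=
      mul_le_mul_of_nonneg_left (div_le_div_of_nonneg_right k1 ha.le) (nb_nonneg y x')
    refine k2.trans (le_of_eq ?_)
    have k3 : ∑ z, (nb ends y x' * ta ends p x' z) * ta ends p z y' =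
        nb ends y x' * ∑ z, ta ends p x' z * ta ends p z y' := by
      rw [Finset.mul_sum]
      exact Finset.sum_congr rfl fun z _ => by ring
    rw [k3]
    ring
  have e2 : ∀ z, ∑ x', nb ends y x' * ta ends p x' z ≤ ((1 + 2 * C) / p) * ta ends p y z := by
    intro z
    have k1 := harnack h0.le h1 hC hdeg hpW y z
    rw [div_mul_eq_mul_div, le_div_iff₀ h0, mul_comm]
    exact k1
  calc ∑ x', nb ends y x' * (Gf ends p x' y' / a)
      ≤ ∑ x', (χ / a) * ∑ z, (nb ends y x' * ta ends p x' z) * ta ends p z y' :=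
        Finset.sum_le_sum fun x' _ => e1 x'
    _ = (χ / a) * ∑ z, (∑ x', nb ends y x' * ta ends p x' z) * ta ends p z y' := by
        rw [← Finset.mul_sum, Finset.sum_comm]
        congr 1
        exact Finset.sum_congr rfl fun z _ => (Finset.sum_mul _ _ _).symm
    _ ≤ (χ / a) * ∑ z, (((1 + 2 * C) / p) * ta ends p y z) * ta ends p z y' := by
        refine mul_le_mul_of_nonneg_left ?_ (div_nonneg hχ0 ha.le)
        exact Finset.sum_le_sum fun z _ =>
          mul_le_mul_of_nonneg_right (e2 z) (ta_nonneg h0.le h1 z y')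
    _ = (χ * (1 + 2 * C) / (a * p)) * cv ends p 2 y y' := by
        rw [R3_cv_two]
        have k3 : ∑ z, (((1 + 2 * C) / p) * ta ends p y z) * ta ends p z y' =
            ((1 + 2 * C) / p) * ∑ z, ta ends p y z * ta ends p z y' := by
          rw [Finset.mul_sum]
          exact Finset.sum_congr rfl fun z _ => by ring
        rw [k3, ← mul_assoc]
        congr 1
        field_simp

private lemma R3_HH {p a χ W C : ℝ} (h0 : 0 < p) (h1 : p ≤ 1) (ha : 0 < a) (hC : 0 ≤ C)
    (hχ : ∀ x, Ex p (fun ω => cz ends ω x) = χ)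
    (hdeg : ∀ x, ∑ y, nb ends x y ≤ W) (hpW : p * W ≤ C) (x0 : V) (n : ℕ) (y : V) :
    HH ends p a x0 n y ≤ (χ * (1 + 2 * C) / (a * p)) ^ n *
      ∑ y', cv ends p (2 * n) y y' * nb ends y' x0 := by
  have hχ0 : 0 ≤ χ := by
    rw [← hχ y]
    exact Ex_nonneg h0.le h1 fun ω => cz_nonneg ω y
  have hβ : 0 ≤ χ * (1 + 2 * C) / (a * p) := by positivity
  induction n generalizing y with
  | zero => simp [HH, cv]
  | succ n ih =>
    have hs0 : ∀ y, 0 ≤ (χ * (1 + 2 * C) / (a * p)) ^ n *
        ∑ y', cv ends p (2 * n) y y' * nb ends y' x0 := fun y =>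
      mul_nonneg (pow_nonneg hβ n) (Finset.sum_nonneg fun y' _ =>
        mul_nonneg (R3_cv_nonneg h0.le h1 _ _ _) (nb_nonneg _ _))
    calc HH ends p a x0 (n + 1) y
        = ∑ x', nb ends y x' * ∑ y', (Gf ends p x' y' / a) * HH ends p a x0 n y' := rfl
      _ = ∑ y', (∑ x', nb ends y x' * (Gf ends p x' y' / a)) * HH ends p a x0 n y' := by
          simp_rw [Finset.mul_sum]
          rw [Finset.sum_comm]
          refine Finset.sum_congr rfl fun y' _ => ?_
          rw [Finset.sum_mul]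
          exact Finset.sum_congr rfl fun x' _ => by ring
      _ ≤ ∑ y', ((χ * (1 + 2 * C) / (a * p)) * cv ends p 2 y y') *
            ((χ * (1 + 2 * C) / (a * p)) ^ n * ∑ y'', cv ends p (2 * n) y' y'' * nb ends y'' x0) := by
          refine Finset.sum_le_sum fun y' _ => ?_
          have k1 := R3_nb h0 h1 ha hC hχ hdeg hpW y y'
          have k2 : 0 ≤ ∑ x', nb ends y x' * (Gf ends p x' y' / a) :=
            Finset.sum_nonneg fun x' _ => mul_nonneg (nb_nonneg _ _)
              (div_nonneg (Gf_nonneg h0.le h1 x' y') ha.le)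
          exact (mul_le_mul_of_nonneg_left (ih y') k2).trans
            (mul_le_mul_of_nonneg_right k1 (hs0 y'))
      _ = (χ * (1 + 2 * C) / (a * p)) ^ (n + 1) *
            ∑ y'', cv ends p (2 * (n + 1)) y y'' * nb ends y'' x0 := by
          have k3 : 2 * (n + 1) = 2 + 2 * n := by ring
          have k4 : ∀ y'', cv ends p (2 * (n + 1)) y y'' * nb ends y'' x0 =
              ∑ y', cv ends p 2 y y' * (cv ends p (2 * n) y' y'' * nb ends y'' x0) := by
            intro y''
            rw [k3, ← R3_cv_add, Finset.sum_mul]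
            exact Finset.sum_congr rfl fun z _ => by ring
          simp_rw [k4]
          rw [Finset.sum_comm, Finset.mul_sum]
          refine Finset.sum_congr rfl fun y' _ => ?_
          rw [← Finset.mul_sum, pow_succ]
          ring

/-- The mean number of cycles and the powers of the two-point function. -/
lemma cyc_conv {p a χ W C : ℝ} (h0 : 0 < p) (h1 : p ≤ 1) (ha : 0 < a) (hC : 0 ≤ C)
    (hχ : ∀ x, Ex p (fun ω => cz ends ω x) = χ)
    (hdeg : ∀ x, ∑ y, nb ends x y ≤ W) (hpW : p * W ≤ C) (n : ℕ) :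
    Ex p (fun ω => ∑ A ∈ GC ends ω a, pth (NN ends) n ((GC ends ω a).erase A) A A) ≤
      (χ * (1 + 2 * C) / (a * p)) ^ (n + 1) * ∑ y, cv ends p (2 * (n + 1)) y y := by
  refine (cyc_mean h0.le h1 ha n).trans ?_
  rcases isEmpty_or_nonempty V with hV | ⟨⟨v0⟩⟩
  · simp
  have hχ0 : 0 ≤ χ := by
    rw [← hχ v0]
    exact Ex_nonneg h0.le h1 fun ω => cz_nonneg ω v0
  have hβ : 0 ≤ χ * (1 + 2 * C) / (a * p) := by positivity
  calc ∑ x0, ∑ y, (Gf ends p x0 y / a) * HH ends p a x0 n y
      ≤ ∑ x0, ∑ y, (Gf ends p x0 y / a) * ((χ * (1 + 2 * C) / (a * p)) ^ n *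
          ∑ y', cv ends p (2 * n) y y' * nb ends y' x0) :=
        Finset.sum_le_sum fun x0 _ => Finset.sum_le_sum fun y _ =>
          mul_le_mul_of_nonneg_left (R3_HH h0 h1 ha hC hχ hdeg hpW x0 n y)
            (div_nonneg (Gf_nonneg h0.le h1 x0 y) ha.le)
    _ = (χ * (1 + 2 * C) / (a * p)) ^ n * ∑ y, ∑ y', cv ends p (2 * n) y y' *
          ∑ x0, nb ends y' x0 * (Gf ends p x0 y / a) := by
        rw [Finset.sum_comm, Finset.mul_sum]
        refine Finset.sum_congr rfl fun y _ => ?_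
        simp_rw [Finset.mul_sum]
        rw [Finset.sum_comm]
        refine Finset.sum_congr rfl fun y' _ => Finset.sum_congr rfl fun x0 _ => ?_
        ring
    _ ≤ (χ * (1 + 2 * C) / (a * p)) ^ n * ∑ y, ∑ y', cv ends p (2 * n) y y' *
          ((χ * (1 + 2 * C) / (a * p)) * cv ends p 2 y' y) := by
        refine mul_le_mul_of_nonneg_left ?_ (pow_nonneg hβ n)
        exact Finset.sum_le_sum fun y _ => Finset.sum_le_sum fun y' _ =>
          mul_le_mul_of_nonneg_left (R3_nb h0 h1 ha hC hχ hdeg hpW y' y)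
            (R3_cv_nonneg h0.le h1 _ _ _)
    _ = (χ * (1 + 2 * C) / (a * p)) ^ (n + 1) * ∑ y, cv ends p (2 * (n + 1)) y y := by
        rw [pow_succ, mul_assoc, Finset.mul_sum (a := χ * (1 + 2 * C) / (a * p))]
        congr 1
        refine Finset.sum_congr rfl fun y _ => ?_
        have k3 : 2 * (n + 1) = 2 * n + 2 := by ring
        rw [k3, ← R3_cv_add, Finset.mul_sum]
        exact Finset.sum_congr rfl fun z _ => by ring

end Pool.Agent.PERC29
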