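import Pool.Agent.Lib.MP_29e17e_pr.Pro
import Pool.Agent.Lib.MP_29e17e_pr.Rec
import Pool.Agent.Lib.MP_29e17e_pr.Cutb
import Pool.Agent.Lib.MP_29e17e_pr.Lowb
import Pool.Agent.Lib.MP_29e17e_pr.Cora

set_option autoImplicit false
set_option linter.unusedSectionVars false

open Finset

namespace Pool.Agent.PERC29

variable {V : Type*} [Fintype V] [DecidableEq V] {E : Type*} [Fintype E] [DecidableEq E]
  {ends : E → Sym2 V}

lemma TT_nonneg (ω : E → Bool) (a : ℝ) : 0 ≤ TT ends ω a := by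
  unfold TT
  refine Finset.sum_nonneg fun A _ => Finset.sum_nonneg fun B _ => ?_
  split_ifs
  · exact le_rfl
  · exact NN_nonneg A B

lemma dg_nonneg (ω : E → Bool) (a : ℝ) (A : Finset V) : 0 ≤ dg ends ω a A := by
  unfold dg
  refine Finset.sum_nonneg fun B _ => ?_
  split_ifs
  · exact le_rfl
  · exact NN_nonneg A B

lemma cc_nonneg (ω : E → Bool) (a : ℝ) (n : ℕ) : 0 ≤ cc ends ω a n := by
  unfold cc
  exact Finset.sum_nonneg fun A _ => pth_nonneg (fun A B => NN_nonneg A B) _ _ _ _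

open scoped Classical in
/-- Second moment method. -/
lemma pz {p a τ θ : ℝ} (h0 : 0 ≤ p) (h1 : p ≤ 1) (hτ : 0 < τ) (hθ : 0 < θ)
    (hm : 2 * τ ≤ Ex p (fun ω => TT ends ω a)) (hs : Ex p (fun ω => TT ends ω a ^ 2) ≤ θ) :
    τ ^ 2 / θ ≤ Ex p (fun ω => if τ ≤ TT ends ω a then (1 : ℝ) else 0) := by
  set lam : ℝ := τ / (2 * θ) with hlam
  have hlam0 : 0 < lam := by positivity
  have hpt : ∀ ω : E → Bool, TT ends ω a ≤ τ + (lam * TT ends ω a ^ 2 +
      (1 / (4 * lam)) * (if τ ≤ TT ends ω a then (1 : ℝ) else 0)) := by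
    intro ω
    have hT0 := TT_nonneg (ends := ends) ω a
    set T := TT ends ω a
    by_cases h : τ ≤ T
    · rw [if_pos h, mul_one]
      have h2 : T ≤ lam * T ^ 2 + 1 / (4 * lam) := by
        have h3 : lam * T ^ 2 + 1 / (4 * lam) - T = (2 * lam * T - 1) ^ 2 / (4 * lam) := by
          field_simp
          ring
        have h4 : 0 ≤ (2 * lam * T - 1) ^ 2 / (4 * lam) := by positivity
        linarith
      linarith
    · rw [if_neg h, mul_zero]
      push Not at h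
      have : 0 ≤ lam * T ^ 2 := by positivity
      linarith
  have hE := Ex_mono h0 h1 hpt
  rw [Ex_add, Ex_const, Ex_add, Ex_mul_left, Ex_mul_left] at hE
  set P := Ex p (fun ω => if τ ≤ TT ends ω a then (1 : ℝ) else 0)
  have h2 : lam * Ex p (fun ω => TT ends ω a ^ 2) ≤ lam * θ := mul_le_mul_of_nonneg_left hs hlam0.le
  have h3 : lam * θ = τ / 2 := by
    rw [hlam]; field_simp
  have h4 : τ / 2 ≤ 1 / (4 * lam) * P := by linarith
  have h5 : 1 / (4 * lam) = θ / (2 * τ) := by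
    rw [hlam]; field_simp; ring
  rw [h5] at h4
  rw [div_le_iff₀ hθ]
  have h6 : τ / 2 * (2 * τ) ≤ θ / (2 * τ) * P * (2 * τ) := mul_le_mul_of_nonneg_right h4 (by positivity)
  have h7 : θ / (2 * τ) * P * (2 * τ) = P * θ := by field_simp
  nlinarith

open scoped Classical in
/-- The good event has positive probability. -/
lemma good_prob2 {p a τ ng S2 π y : ℝ} {i : ℕ} {Y : ℕ → ℝ} (h0 : 0 ≤ p) (h1 : p ≤ 1)
    (hy : 0 < y) (hng : 0 < ng) (hS2 : 0 < S2) (hY : ∀ j, 0 < Y j)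
    (hT : π ≤ Ex p (fun ω => if τ ≤ TT ends ω a then (1 : ℝ) else 0))
    (e1 : y * Ex p (fun ω => ((GC ends ω a).card : ℝ)) ≤ ng)
    (e2 : y * Ex p (fun ω => ∑ A ∈ GC ends ω a, dg ends ω a A ^ 2) ≤ S2)
    (e3 : ∀ j, 1 ≤ j → j ≤ 2 ^ i → y * Ex p (fun ω => cc ends ω a (2 * j - 1)) ≤ Y j)
    (hyπ : 2 * (2 ^ i + 2) ≤ π * y) :
    π / 2 ≤ Ex p (fun ω => if Gd ends a τ ng S2 i Y ω then (1 : ℝ) else 0) := by
  have hpt : ∀ ω : E → Bool, (if τ ≤ TT ends ω a then (1 : ℝ) else 0) ≤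
      (if Gd ends a τ ng S2 i Y ω then (1 : ℝ) else 0) + ((1 / ng) * ((GC ends ω a).card : ℝ) +
      ((1 / S2) * (∑ A ∈ GC ends ω a, dg ends ω a A ^ 2) +
      ∑ j ∈ Finset.Icc 1 (2 ^ i), (1 / Y j) * cc ends ω a (2 * j - 1))) := by
    intro ω
    have n1 : 0 ≤ (1 / ng) * ((GC ends ω a).card : ℝ) := by positivity
    have n2 : 0 ≤ (1 / S2) * (∑ A ∈ GC ends ω a, dg ends ω a A ^ 2) :=
      mul_nonneg (by positivity) (Finset.sum_nonneg fun A _ => sq_nonneg _)
    have n3 : ∀ j ∈ Finset.Icc 1 (2 ^ i), 0 ≤ (1 / Y j) * cc ends ω a (2 * j - 1) := fun j _ =>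
      mul_nonneg (by have := hY j; positivity) (cc_nonneg ω a _)
    have n4 := Finset.sum_nonneg n3
    have n5 : (0 : ℝ) ≤ (if Gd ends a τ ng S2 i Y ω then (1 : ℝ) else 0) := by
      split_ifs <;> norm_num
    by_cases h : τ ≤ TT ends ω a
    · rw [if_pos h]
      by_cases h2 : ((GC ends ω a).card : ℝ) ≤ ng
      · by_cases h3 : ∑ A ∈ GC ends ω a, dg ends ω a A ^ 2 ≤ S2
        · by_cases h4 : ∀ j, 1 ≤ j → j ≤ 2 ^ i → cc ends ω a (2 * j - 1) ≤ Y j
          · have hg : Gd ends a τ ng S2 i Y ω := ⟨h, h2, h3, h4⟩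
            rw [if_pos hg]
            linarith
          · push Not at h4
            obtain ⟨j, hj1, hj2, hj3⟩ := h4
            have h5 : 1 ≤ (1 / Y j) * cc ends ω a (2 * j - 1) := by
              rw [div_mul_eq_mul_div, one_mul, le_div_iff₀ (hY j)]
              linarith
            have h6 := Finset.single_le_sum n3 (Finset.mem_Icc.2 ⟨hj1, hj2⟩)
            linarith
        · push Not at h3
          have h5 : 1 ≤ (1 / S2) * (∑ A ∈ GC ends ω a, dg ends ω a A ^ 2) := by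
            rw [div_mul_eq_mul_div, one_mul, le_div_iff₀ hS2]
            linarith
          linarith
      · push Not at h2
        have h5 : 1 ≤ (1 / ng) * ((GC ends ω a).card : ℝ) := by
          rw [div_mul_eq_mul_div, one_mul, le_div_iff₀ hng]
          linarith
        linarith
    · rw [if_neg h]
      linarith
  have hE := Ex_mono h0 h1 hpt
  rw [Ex_add, Ex_add, Ex_mul_left, Ex_add, Ex_mul_left, Ex_sum] at hE
  have f1 : (1 / ng) * Ex p (fun ω => ((GC ends ω a).card : ℝ)) ≤ 1 / y := by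
    rw [div_mul_eq_mul_div, one_mul, div_le_div_iff₀ hng hy]
    linarith
  have f2 : (1 / S2) * Ex p (fun ω => ∑ A ∈ GC ends ω a, dg ends ω a A ^ 2) ≤ 1 / y := by
    rw [div_mul_eq_mul_div, one_mul, div_le_div_iff₀ hS2 hy]
    linarith
  have f3 : ∑ j ∈ Finset.Icc 1 (2 ^ i), Ex p (fun ω => (1 / Y j) * cc ends ω a (2 * j - 1)) ≤
      2 ^ i * (1 / y) := by
    calc _ ≤ ∑ _j ∈ Finset.Icc 1 (2 ^ i), 1 / y := by
          refine Finset.sum_le_sum fun j hj => ?_
          obtain ⟨hj1, hj2⟩ := Finset.mem_Icc.1 hj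
          rw [Ex_mul_left, div_mul_eq_mul_div, one_mul, div_le_div_iff₀ (hY j) hy]
          have := e3 j hj1 hj2
          linarith
      _ = _ := by
          rw [Finset.sum_const, Nat.card_Icc, nsmul_eq_mul]
          simp
  have f4 : (2 ^ i + 2) * (1 / y) ≤ π / 2 := by
    rw [mul_one_div, div_le_div_iff₀ hy (by norm_num)]
    linarith
  have f5 : (2 ^ i + 2) * (1 / y) = 2 ^ i * (1 / y) + 1 / y + 1 / y := by ring
  linarith

end Pool.Agent.PERC29
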