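import Pool.Agent.Lib.MP_29e17e_pr.Cora

set_option autoImplicit false
set_option linter.unusedSectionVars false

open Finset

namespace Pool.Agent.PERC29

lemma num_pl {N W C h χ p : ℝ} (hN : 0 < N) (hC : 0 < C) (hh : 0 < h) (hχ : 0 < χ)
    (f2 : N * h ^ 2 ≤ 576 * C ^ 2 * p * χ ^ 2 * (N * (W * (3 * C / (h * χ)) ^ 2))) :
    h ^ 4 / (5184 * C ^ 4) ≤ p * W := by
  have f3 : 576 * C ^ 2 * p * χ ^ 2 * (N * (W * (3 * C / (h * χ)) ^ 2)) =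
      N * (5184 * C ^ 4 * (p * W) / h ^ 2) := by
    field_simp
    ring
  rw [f3] at f2
  have f4 : h ^ 2 ≤ 5184 * C ^ 4 * (p * W) / h ^ 2 := le_of_mul_le_mul_left f2 hN
  rw [le_div_iff₀ (by positivity)] at f4
  rw [div_le_iff₀ (by positivity)]
  calc h ^ 4 = h ^ 2 * h ^ 2 := by ring
    _ ≤ _ := f4
    _ = _ := by ring

lemma num_beta {W C h χ p b c1 : ℝ} (hh : 0 < h) (hχ : 0 < χ) (hp : 0 < p) (hb : 0 < b)
    (f1 : b * (h ^ 2 * c1) = 1 + 2 * C) (hpl : c1 ≤ p * W) :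
    χ * (1 + 2 * C) / ((h * χ) ^ 2 * p) ≤ b * W / χ := by
  rw [← f1, div_le_div_iff₀ (by positivity) hχ]
  have f2 : χ * (b * (h ^ 2 * c1)) * χ = (b * h ^ 2 * χ ^ 2) * c1 := by ring
  have f3 : b * W * ((h * χ) ^ 2 * p) = (b * h ^ 2 * χ ^ 2) * (p * W) := by ring
  rw [f2, f3]
  exact mul_le_mul_of_nonneg_left hpl (by positivity)

lemma num_T4 {N W C h χ : ℝ} (hh : 0 < h) (hχ : 0 < χ) :
    W ^ 2 * N ^ 2 * (3 * C / (h * χ)) ^ 4 = (81 * C ^ 4 / h ^ 4) * (W * N / χ ^ 2) ^ 2 := by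
  field_simp
  ring

lemma num_T3 {N W C h χ : ℝ} (hh : 0 < h) (hχ : 0 < χ) (hN : 0 < N) (hW : 0 < W) (hC : 0 < C)
    (hr1 : χ ^ 3 / N ≤ 1) :
    4 * (W ^ 2 * (3 * C / (h * χ)) ^ 2 * N * χ) ≤ (36 * C ^ 2 / h ^ 2) * (W * N / χ ^ 2) ^ 2 := by
  have g1 : 4 * (W ^ 2 * (3 * C / (h * χ)) ^ 2 * N * χ) =
      (36 * C ^ 2 / h ^ 2) * (W * N / χ ^ 2) ^ 2 * (χ ^ 3 / N) := by
    field_simp
    ring
  rw [g1]
  calc _ ≤ (36 * C ^ 2 / h ^ 2) * (W * N / χ ^ 2) ^ 2 * 1 :=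
        mul_le_mul_of_nonneg_left hr1 (by positivity)
    _ = _ := mul_one _

lemma num_cc {N W C b χ : ℝ} (hχ : 0 < χ) (hχ1 : 1 ≤ χ) (hN : 0 < N) (hW : 0 < W) (hC : 0 < C)
    (hb : 0 < b) (hr1 : χ ^ 3 / N ≤ 1) :
    2 * (C * (b * W) ^ 2 * (N / χ ^ 3) * (χ + χ ^ 5 / N)) ≤
      (4 * C * b ^ 2) * (W * N / χ ^ 2) ^ 2 := by
  have hr0 : 0 < χ ^ 3 / N := by positivity
  have hxi : 1 / χ ≤ 1 := by rw [div_le_one hχ]; exact hχ1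
  have g1 : 2 * (C * (b * W) ^ 2 * (N / χ ^ 3) * (χ + χ ^ 5 / N)) =
      (2 * C * b ^ 2) * (W * N / χ ^ 2) ^ 2 * ((1 / χ) * (χ ^ 3 / N) + (χ ^ 3 / N) ^ 2) := by
    field_simp
  have g2 : (1 / χ) * (χ ^ 3 / N) + (χ ^ 3 / N) ^ 2 ≤ 2 := by
    have : (1 / χ) * (χ ^ 3 / N) ≤ 1 * 1 := mul_le_mul hxi hr1 hr0.le (by norm_num)
    have : (χ ^ 3 / N) ^ 2 ≤ 1 := pow_le_one₀ hr0.le hr1
    linarith
  rw [g1]
  calc _ ≤ (2 * C * b ^ 2) * (W * N / χ ^ 2) ^ 2 * 2 :=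
        mul_le_mul_of_nonneg_left g2 (by positivity)
    _ = _ := by ring

lemma num_tau {N W C h χ e : ℝ} (hχ : 0 < χ) (he : e * (576 * C ^ 3) = h ^ 2) :
    (576 * C ^ 3 * χ ^ 2) * (2 * (e * N * W / (2 * χ ^ 2))) = h ^ 2 * N * W := by
  rw [← he]
  field_simp

lemma num_pz {N W χ e th : ℝ} (hχ : 0 < χ) (hN : 0 < N) (hW : 0 < W) (hth : 0 < th) :
    (e * N * W / (2 * χ ^ 2)) ^ 2 / (th * (W * N / χ ^ 2) ^ 2) = e ^ 2 / (4 * th) := by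
  field_simp
  ring

lemma num_ng {N C h χ : ℝ} (hχ : 0 < χ) (hh : 0 < h) :
    N * (3 * C / (h * χ)) / (h * χ) ^ 2 = 3 * C * N / (h ^ 3 * χ ^ 3) := by
  field_simp

lemma num_S2 {N W C h b χ sg : ℝ} (hχ : 0 < χ) (hχ1 : 1 ≤ χ) (hN : 0 < N) (hW : 0 < W) (hC : 0 < C)
    (hb : 0 < b) (hh : 0 < h) (hr1 : χ ^ 3 / N ≤ 1)
    (hsg : sg = 9 * C ^ 2 / h ^ 2 + 2 * C * b ^ 2) :
    W ^ 2 * (3 * C / (h * χ)) ^ 2 * N * χ + C * (b * W) ^ 2 * (N / χ ^ 3) * (χ + χ ^ 5 / N) ≤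
      sg * W ^ 2 * N / χ := by
  have hxi : 1 / χ ≤ 1 := by rw [div_le_one hχ]; exact hχ1
  have g1 : W ^ 2 * (3 * C / (h * χ)) ^ 2 * N * χ = (9 * C ^ 2 / h ^ 2) * (W ^ 2 * N / χ) := by
    field_simp
    ring
  have g2 : C * (b * W) ^ 2 * (N / χ ^ 3) * (χ + χ ^ 5 / N) =
      (C * b ^ 2) * (W ^ 2 * N / χ) * (1 / χ + χ ^ 3 / N) := by
    field_simp
  have g3 : (C * b ^ 2) * (W ^ 2 * N / χ) * (1 / χ + χ ^ 3 / N) ≤
      (C * b ^ 2) * (W ^ 2 * N / χ) * 2 :=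
    mul_le_mul_of_nonneg_left (by linarith) (by positivity)
  rw [g1, g2, hsg]
  calc _ ≤ (9 * C ^ 2 / h ^ 2) * (W ^ 2 * N / χ) + (C * b ^ 2) * (W ^ 2 * N / χ) * 2 := by
        linarith
    _ = _ := by ring

lemma num_c1 {N W C b χ sg e y Q ell : ℝ} {i : ℕ} (hχ : 0 < χ) (hN : 0 < N) (hW : 0 < W)
    (hC : 0 < C) (hb : 0 < b) (hy : 0 < y) (hsg : 0 < sg) (he : 0 < e) (hQ : 0 < Q)
    (hell : ell = b * (1 + Q)) (hQe : Q * e ^ 2 = 256 * y ^ 2 * C * 2 ^ i * sg) (Y v : ℕ → ℝ)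
    (hY : ∀ j, 1 ≤ j → Y j = y * (C * (b * W) ^ (2 * j) * (N / χ ^ 3) * gg χ N j))
    (hv : ∀ j, 1 ≤ j → v j = (ell * W) ^ (2 * j) * gg χ N j) :
    64 * ((∑ j ∈ Finset.Icc 1 (2 ^ i), Y j / v j) * (y * (sg * W ^ 2 * N / χ))) ≤
      (e * N * W / (2 * χ ^ 2)) ^ 2 := by
  have hell0 : 0 < ell := by rw [hell]; positivity
  have hellb : b ≤ ell := by rw [hell]; nlinarith
  have f1 : ∀ j ∈ Finset.Icc 1 (2 ^ i), Y j / v j ≤ y * C * (N / χ ^ 3) * (b / ell) ^ 2 := by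
    intro j hj
    obtain ⟨hj1, hj2⟩ := Finset.mem_Icc.1 hj
    have e2 : Y j / v j = y * C * (N / χ ^ 3) * (b / ell) ^ (2 * j) := by
      rw [hY j hj1, hv j hj1]
      have := gg_pos hχ hN j
      rw [mul_pow, mul_pow, div_pow]
      field_simp
    rw [e2]
    apply mul_le_mul_of_nonneg_left _ (by positivity)
    apply pow_le_pow_of_le_one (by positivity)
    · rw [div_le_one hell0]; exact hellb
    · omega
  have f2 : ∑ j ∈ Finset.Icc 1 (2 ^ i), Y j / v j ≤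
      2 ^ i * (y * C * (N / χ ^ 3) * (b / ell) ^ 2) := by
    calc _ ≤ ∑ _j ∈ Finset.Icc 1 (2 ^ i), y * C * (N / χ ^ 3) * (b / ell) ^ 2 :=
          Finset.sum_le_sum f1
      _ = _ := by
          rw [Finset.sum_const, Nat.card_Icc, nsmul_eq_mul]
          simp
  have f3 : 64 * ((∑ j ∈ Finset.Icc 1 (2 ^ i), Y j / v j) * (y * (sg * W ^ 2 * N / χ))) ≤
      64 * ((2 ^ i * (y * C * (N / χ ^ 3) * (b / ell) ^ 2)) * (y * (sg * W ^ 2 * N / χ))) :=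
    mul_le_mul_of_nonneg_left (mul_le_mul_of_nonneg_right f2 (by positivity)) (by norm_num)
  refine f3.trans ?_
  have f5 : 64 * ((2 ^ i * (y * C * (N / χ ^ 3) * (b / ell) ^ 2)) * (y * (sg * W ^ 2 * N / χ))) =
      (256 * y ^ 2 * C * 2 ^ i * sg) * (b / ell) ^ 2 * (N * W / (2 * χ ^ 2)) ^ 2 := by
    field_simp
    ring
  have f6 : (e * N * W / (2 * χ ^ 2)) ^ 2 = e ^ 2 * (N * W / (2 * χ ^ 2)) ^ 2 := by
    field_simp
  rw [f5, f6, ← hQe]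
  apply mul_le_mul_of_nonneg_right _ (by positivity)
  have f7 : Q * (b / ell) ^ 2 ≤ 1 := by
    rw [hell, div_pow, mul_pow, mul_div_assoc', div_le_one (by positivity)]
    have : 0 < b ^ 2 := by positivity
    nlinarith
  calc Q * e ^ 2 * (b / ell) ^ 2 = e ^ 2 * (Q * (b / ell) ^ 2) := by ring
    _ ≤ e ^ 2 * 1 := mul_le_mul_of_nonneg_left f7 (by positivity)
    _ = _ := mul_one _

lemma num_c2 {N W C h χ e y ell mu k2 : ℝ} {K : ℕ} (hχ : 0 < χ) (hN : 0 < N) (hW : 0 < W)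
    (hC : 0 < C) (hh : 0 < h) (hy : 0 < y) (hell : 0 < ell) (hmu : 0 < mu) (hk2 : 0 < k2)
    (hVK : N ≤ C * χ ^ (K + 3))
    (hmue : mu * ((1 + C) * k2 / h ^ 2) = (e * h ^ 3 / (48 * C * y * ell)) ^ (2 * K)) :
    (8 * (y * (3 * C * N / (h ^ 3 * χ ^ 3)))) ^ (2 * K) *
      ((mu * N / χ / (h * χ) ^ 2) * (k2 * ((ell * W) ^ (2 * K) * gg χ N K))) ≤
      (e * N * W / (2 * χ ^ 2)) ^ (2 * K) := by
  have e2 : gg χ N K ≤ (1 + C) * (χ ^ (2 * K + 3) / N) := by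
    unfold gg
    have f1 : χ ^ K ≤ C * (χ ^ (2 * K + 3) / N) := by
      rw [mul_div_assoc', le_div_iff₀ hN]
      calc χ ^ K * N ≤ χ ^ K * (C * χ ^ (K + 3)) :=
            mul_le_mul_of_nonneg_left hVK (by positivity)
        _ = C * χ ^ (2 * K + 3) := by
            rw [show 2 * K + 3 = K + (K + 3) by ring, pow_add χ K (K + 3)]
            ring
    linarith
  have e3 : (mu * N / χ / (h * χ) ^ 2) * (k2 * ((ell * W) ^ (2 * K) * gg χ N K)) ≤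
      (mu * N / χ / (h * χ) ^ 2) * (k2 * ((ell * W) ^ (2 * K) *
        ((1 + C) * (χ ^ (2 * K + 3) / N)))) := by
    apply mul_le_mul_of_nonneg_left _ (by positivity)
    apply mul_le_mul_of_nonneg_left _ hk2.le
    exact mul_le_mul_of_nonneg_left e2 (by positivity)
  have e4 : (mu * N / χ / (h * χ) ^ 2) * (k2 * ((ell * W) ^ (2 * K) *
        ((1 + C) * (χ ^ (2 * K + 3) / N)))) =
      mu * ((1 + C) * k2 / h ^ 2) * (ell * W * χ) ^ (2 * K) := by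
    rw [pow_add χ (2 * K) 3, mul_pow (ell * W) χ]
    generalize (ell * W) ^ (2 * K) = X
    generalize χ ^ (2 * K) = Z
    field_simp
  have key : ∀ (X Y Z : ℝ) (n : ℕ), X ^ n * (Y ^ n * Z ^ n) = (X * (Y * Z)) ^ n := by
    intro X Y Z n
    rw [mul_pow, mul_pow]
  calc _ ≤ (8 * (y * (3 * C * N / (h ^ 3 * χ ^ 3)))) ^ (2 * K) *
        ((e * h ^ 3 / (48 * C * y * ell)) ^ (2 * K) * (ell * W * χ) ^ (2 * K)) := by
        rw [← hmue, ← e4]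
        exact mul_le_mul_of_nonneg_left e3 (by positivity)
    _ = ((8 * (y * (3 * C * N / (h ^ 3 * χ ^ 3)))) *
        ((e * h ^ 3 / (48 * C * y * ell)) * (ell * W * χ))) ^ (2 * K) := key _ _ _ _
    _ = _ := by
        congr 1
        field_simp
        ring

lemma num_s {N W C h χ e y B : ℝ} (hχ : 0 < χ) (hN : 0 < N) (hW : 0 < W) (hC : 1 ≤ C)
    (hh : 0 < h) (hh1 : h ≤ 1) (hy : 1 ≤ y) (hV : χ ^ 3 ≤ N) (hB : B * (h ^ 3 * e) = 96 * C * y) :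
    y * (3 * C * N / (h ^ 3 * χ ^ 3)) + 1 ≤ B / (W * χ) * (e * N * W / (2 * χ ^ 2)) / 8 := by
  have hng1 : 1 ≤ y * (3 * C * N / (h ^ 3 * χ ^ 3)) := by
    have f1 : 1 ≤ 3 * C * N / (h ^ 3 * χ ^ 3) := by
      rw [le_div_iff₀ (by positivity), one_mul]
      have g1 : h ^ 3 ≤ 1 := pow_le_one₀ hh.le hh1
      have g3 : h ^ 3 * χ ^ 3 ≤ 1 * χ ^ 3 := mul_le_mul_of_nonneg_right g1 (by positivity)
      have g4 : N ≤ 3 * C * N := by nlinarith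
      linarith
    nlinarith
  have f1 : B / (W * χ) * (e * N * W / (2 * χ ^ 2)) / 8 =
      2 * (y * (3 * C * N / (h ^ 3 * χ ^ 3))) := by
    have g1 : B / (W * χ) * (e * N * W / (2 * χ ^ 2)) / 8 =
        (B * (h ^ 3 * e)) * N / (16 * h ^ 3 * χ ^ 3) := by
      field_simp
      ring
    rw [g1, hB]
    field_simp
    ring
  rw [f1]
  linarith

end Pool.Agent.PERC29
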