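import Pool.Agent.Lib.MP_29e17e_pr.Corb
import Pool.Agent.Lib.MP_29e17e_pr.Cord

set_option autoImplicit false
set_option linter.unusedSectionVars false

open Finset

namespace Pool.Agent.PERC29

variable {V : Type*} [Fintype V] [DecidableEq V] {E : Type*} [Fintype E] [DecidableEq E]
  {ends : E → Sym2 V}

/-- The constants. -/
noncomputable def lp (C : ℝ) : ℝ := kh C ^ 4 / (5184 * C ^ 4)
noncomputable def lb (C : ℝ) : ℝ := (1 + 2 * C) / (kh C ^ 2 * lp C)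
noncomputable def lsg (C : ℝ) : ℝ := 9 * C ^ 2 / kh C ^ 2 + 2 * C * lb C ^ 2
noncomputable def lth (C : ℝ) : ℝ :=
  81 * C ^ 4 / kh C ^ 4 + 36 * C ^ 2 / kh C ^ 2 + 4 * C * lb C ^ 2
noncomputable def lpi (C : ℝ) : ℝ := ke C ^ 2 / (4 * lth C)
noncomputable def ly (C : ℝ) (i : ℕ) : ℝ := 2 * (2 ^ i + 2) / lpi C + 1
noncomputable def lQ (C : ℝ) (i : ℕ) : ℝ := 256 * ly C i ^ 2 * C * 2 ^ i * lsg C / ke C ^ 2
noncomputable def ll (C : ℝ) (i : ℕ) : ℝ := lb C * (1 + lQ C i)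
noncomputable def lm (C : ℝ) (i : ℕ) : ℝ :=
  kh C ^ 2 / ((1 + C) * kk (2 * 2 ^ i)) *
    (ke C * kh C ^ 3 / (48 * C * ly C i * ll C i)) ^ (2 * 2 ^ i)
noncomputable def lB (C : ℝ) (i : ℕ) : ℝ := 96 * C * ly C i / (kh C ^ 3 * ke C)
noncomputable def lc (C : ℝ) (i : ℕ) : ℝ :=
  min (min (kh C ^ (2 ^ i + 3) / (2 * C)) (1 / 2)) (min (1 / lB C i) (lm C i))

lemma lp_pos {C : ℝ} (hC : 1 ≤ C) : 0 < lp C := by
  have := kh_pos hC
  unfold lp; positivity
lemma lb_pos {C : ℝ} (hC : 1 ≤ C) : 0 < lb C := by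
  have := kh_pos hC
  have := lp_pos hC
  unfold lb; positivity
lemma lsg_pos {C : ℝ} (hC : 1 ≤ C) : 0 < lsg C := by
  have := kh_pos hC
  have := lb_pos hC
  unfold lsg; positivity
lemma lth_pos {C : ℝ} (hC : 1 ≤ C) : 0 < lth C := by
  have := kh_pos hC
  have := lb_pos hC
  unfold lth; positivity
lemma lpi_pos {C : ℝ} (hC : 1 ≤ C) : 0 < lpi C := by
  have := ke_pos hC
  have := lth_pos hC
  unfold lpi; positivity
lemma ly_one {C : ℝ} (hC : 1 ≤ C) (i : ℕ) : 1 ≤ ly C i := by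
  have := lpi_pos hC
  unfold ly
  have : 0 ≤ 2 * (2 ^ i + 2) / lpi C := by positivity
  linarith
lemma lQ_pos {C : ℝ} (hC : 1 ≤ C) (i : ℕ) : 0 < lQ C i := by
  have := ly_one hC i
  have := lsg_pos hC
  have := ke_pos hC
  unfold lQ; positivity
lemma ll_pos {C : ℝ} (hC : 1 ≤ C) (i : ℕ) : 0 < ll C i := by
  have := lb_pos hC
  have := lQ_pos hC i
  unfold ll; positivity
lemma lm_pos {C : ℝ} (hC : 1 ≤ C) (i : ℕ) : 0 < lm C i := by
  have := kh_pos hC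
  have := ke_pos hC
  have h1 := ly_one hC i
  have := ll_pos hC i
  have h2 := one_le_kk (2 * 2 ^ i)
  unfold lm
  have h3 : 0 < ly C i := by linarith
  have h4 : 0 < kk (2 * 2 ^ i) := by linarith
  positivity
lemma lB_pos {C : ℝ} (hC : 1 ≤ C) (i : ℕ) : 0 < lB C i := by
  have := kh_pos hC
  have := ke_pos hC
  have h1 := ly_one hC i
  have h3 : 0 < ly C i := by linarith
  unfold lB; positivity
lemma lc_pos {C : ℝ} (hC : 1 ≤ C) (i : ℕ) : 0 < lc C i := by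
  have := kh_pos hC
  have := lB_pos hC i
  have := lm_pos hC i
  unfold lc
  apply lt_min
  · apply lt_min <;> positivity
  · apply lt_min <;> positivity

open scoped Classical in
/-- With probability bounded below there is a large cluster after sprinkling. -/
theorem core2 {p χ W C : ℝ} (i : ℕ) (hC : 1 ≤ C) (h0 : 0 < p) (h1 : p < 1) (hW : 0 < W)
    [Nonempty V]
    (hpW : p * W ≤ C) (hdeg : ∀ x, ∑ y, nb ends x y ≤ W)
    (hχ : ∀ x, Ex p (fun ω => cz ends ω x) = χ)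
    (hT : ∀ x, ∀ k : ℕ, 1 ≤ k → Ex p (fun ω => if (k : ℝ) ≤ cz ends ω x then (1 : ℝ) else 0) ≤
      C / Real.sqrt k)
    (hQ : ∀ x, ∀ j : ℕ, 1 ≤ j → j ≤ 2 ^ i → cv ends p (4 * j) x x ≤
      C * (χ ^ (3 * (j - 1)) + χ ^ (4 * j) / (Fintype.card V)))
    (hVK : (Fintype.card V) ≤ C * χ ^ (2 ^ i + 3))
    (hV : χ ^ 3 ≤ lc C i * (Fintype.card V))
    (hs1 : lB C i / (W * χ) ≤ 1) :
    lpi C / 4 ≤ Ex (1 - (1 - p) * (1 - lB C i / (W * χ)))
      (fm ends (lm C i * (Fintype.card V) / χ)) := by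
  obtain ⟨o⟩ := ‹Nonempty V›
  have hC0 : 0 < C := by linarith
  generalize hN : (Fintype.card V : ℝ) = N at hQ hVK hV ⊢
  have hN0 : 0 < N := by
    rw [← hN]
    have : 0 < Fintype.card V := Fintype.card_pos_iff.2 ⟨o⟩
    exact_mod_cast this
  have hχ1 : 1 ≤ χ := by
    rw [← hχ o]
    have := Ex_mono h0.le h1.le (f := fun _ : E → Bool => (1 : ℝ))
      (g := fun ω => cz ends ω o) (fun ω => one_le_cz ω o)
    rwa [Ex_const] at this
  have hχ0 : 0 < χ := by linarith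
  have hh0 := kh_pos hC
  have he0 := ke_pos hC
  have hb0 := lb_pos hC
  have hsg0 := lsg_pos hC
  have hth0 := lth_pos hC
  have hpi00 := lpi_pos hC
  have hy1 := ly_one hC i
  have hQ0 := lQ_pos hC i
  have hell0 := ll_pos hC i
  have hB0 := lB_pos hC i
  have hmu0 := lm_pos hC i
  have hkk := one_le_kk (2 * 2 ^ i)
  have hcA : lc C i ≤ kh C ^ (2 ^ i + 3) / (2 * C) := (min_le_left _ _).trans (min_le_left _ _)
  have hcB : lc C i ≤ 1 / 2 := (min_le_left _ _).trans (min_le_right _ _)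
  have hhC : 4608 * C ^ 4 * kh C = 1 := by
    unfold kh
    field_simp
  have he0C : ke C * (576 * C ^ 3) = kh C ^ 2 := by
    unfold ke
    field_simp
  have hbC : lb C * (kh C ^ 2 * lp C) = 1 + 2 * C := by
    have := lp_pos hC
    unfold lb
    field_simp
  have hpiC : ke C ^ 2 / (4 * lth C) = lpi C := rfl
  have hyC : 2 * (2 ^ i + 2) ≤ lpi C * ly C i := by
    unfold ly
    have e1 : lpi C * (2 * (2 ^ i + 2) / lpi C + 1) = 2 * (2 ^ i + 2) + lpi C := by field_simp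
    rw [e1]
    linarith
  have hQC : lQ C i * ke C ^ 2 = 256 * ly C i ^ 2 * C * 2 ^ i * lsg C := by
    unfold lQ
    field_simp
  have hBC : lB C i * (kh C ^ 3 * ke C) = 96 * C * ly C i := by
    unfold lB
    field_simp
  have hmC : lm C i * ((1 + C) * kk (2 * 2 ^ i) / kh C ^ 2) =
      (ke C * kh C ^ 3 / (48 * C * ly C i * ll C i)) ^ (2 * 2 ^ i) := by
    have h2 : 0 < kk (2 * 2 ^ i) := by linarith
    unfold lm
    generalize (ke C * kh C ^ 3 / (48 * C * ly C i * ll C i)) ^ (2 * 2 ^ i) = X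
    field_simp
  have hlC : ll C i = lb C * (1 + lQ C i) := rfl
  have hlp : lp C = kh C ^ 4 / (5184 * C ^ 4) := rfl
  have hsgC : lsg C = 9 * C ^ 2 / kh C ^ 2 + 2 * C * lb C ^ 2 := rfl
  have hthC : lth C = 81 * C ^ 4 / kh C ^ 4 + 36 * C ^ 2 / kh C ^ 2 + 4 * C * lb C ^ 2 := rfl
  generalize hk2 : kk (2 * 2 ^ i) = k2 at hkk hmC
  generalize kh C = h at *
  generalize ke C = e0 at *
  generalize lb C = b0 at *
  generalize lp C = c1 at *
  generalize lsg C = sg at *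
  generalize lth C = th at *
  generalize lpi C = pi0 at *
  generalize ly C i = y at *
  generalize lQ C i = Q at *
  generalize ll C i = ell at *
  generalize lB C i = B at *
  generalize lm C i = mu at *
  generalize lc C i = c at *
  have hy0 : 0 < y := by linarith
  have hC4 : 1 ≤ C ^ 4 := one_le_pow₀ hC
  have hh1 : h ≤ 1 / 4608 := by nlinarith
  -- the susceptibility is large
  have hχh : 1 ≤ h * χ := chi_big hC hh0 hχ1 hN0 hVK hV hcA
  have hχ4 : 4 ≤ χ := by nlinarith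
  have h2V : 2 * χ ^ 3 ≤ N := by
    have : c * N ≤ 1 / 2 * N := mul_le_mul_of_nonneg_right hcB hN0.le
    linarith
  have hχ30 : 0 ≤ χ ^ 3 := by positivity
  have hVN : χ ^ 3 ≤ N := by linarith
  have hr1 : χ ^ 3 / N ≤ 1 := by rw [div_le_one hN0]; exact hVN
  have hmin : ∀ x, ∀ a : ℝ, 1 ≤ a →
      Ex p (fun ω => min (cz ends ω x) a) ≤ 3 * C * Real.sqrt a :=
    fun x a ha => min_tail h0.le h1.le hC0.le x (hT x) ha
  have hET0 := ET_low0 (ends := ends) h0 h1 hW hC hhC hχh hpW hdeg hχ hmin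
  have hET := ET_low (ends := ends) h0 h1 hW hC hhC hχh hpW hdeg hχ hmin
  have ha0 : 0 < (h * χ) ^ 2 := by positivity
  have hP0 : 0 < 3 * C / (h * χ) := by positivity
  have hPle : ∀ x, Ex p (fun ω => if (h * χ) ^ 2 ≤ cz ends ω x then (1 : ℝ) else 0) ≤
      3 * C / (h * χ) :=
    fun x => P_up h0.le h1.le hh0 hχ0 hχh hmin x
  -- lower bound for `p`
  have hpl : c1 ≤ p * W := by
    have f1 := ET_up (ends := ends) h0.le h1.le hP0.le hdeg hPle
    rw [hlp]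
    apply num_pl hN0 hC0 hh0 hχ0
    rw [hN] at f1 hET0
    exact hET0.trans (mul_le_mul_of_nonneg_left f1 (by positivity))
  -- the factor of the cycles
  have hβ0 : 0 ≤ χ * (1 + 2 * C) / ((h * χ) ^ 2 * p) := by positivity
  have hβle : χ * (1 + 2 * C) / ((h * χ) ^ 2 * p) ≤ b0 * W / χ :=
    num_beta hh0 hχ0 h0 hb0 hbC hpl
  have hcyc : ∀ j, 1 ≤ j → j ≤ 2 ^ i → Ex p (fun ω => cc ends ω ((h * χ) ^ 2) (2 * j - 1)) ≤
      C * (b0 * W) ^ (2 * j) * (N / χ ^ 3) * gg χ N j := by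
    intro j hj1 hj2
    have f1 := cyc_conv (ends := ends) h0 h1.le ha0 hC0.le hχ hdeg hpW (2 * j - 1)
    have e1 : 2 * j - 1 + 1 = 2 * j := by omega
    have e2 : 2 * (2 * j) = 4 * j := by ring
    rw [e1, e2] at f1
    refine f1.trans ?_
    have f2 : ∑ y, cv ends p (4 * j) y y ≤ N * (C * (χ ^ (3 * (j - 1)) + χ ^ (4 * j) / N)) := by
      calc _ ≤ ∑ _y : V, C * (χ ^ (3 * (j - 1)) + χ ^ (4 * j) / N) :=
            Finset.sum_le_sum fun x _ => hQ x j hj1 hj2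
        _ = _ := by rw [Finset.sum_const, Finset.card_univ, nsmul_eq_mul, hN]
    exact (mul_le_mul_of_nonneg_left f2 (by positivity)).trans
      (cyc_arith hβ0 hβle hχ0 hN0 hC0.le hj1)
  have hcc1 : Ex p (fun ω => cc ends ω ((h * χ) ^ 2) 1) ≤
      C * (b0 * W) ^ 2 * (N / χ ^ 3) * (χ + χ ^ 5 / N) := by
    have f1 := hcyc 1 le_rfl Nat.one_le_two_pow
    have e1 : gg χ N 1 = χ + χ ^ 5 / N := by unfold gg; norm_num
    rw [e1] at f1
    exact f1
  have hT3 := T3_mean (ends := ends) (a := (h * χ) ^ 2) h0.le h1.le hdeg hχ hPle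
  have hT4 := T4_mean (ends := ends) (a := (h * χ) ^ 2) h0.le h1.le hdeg hPle
  rw [hN] at hT3 hT4
  -- second moment of the number of edges
  have hθ : Ex p (fun ω => TT ends ω ((h * χ) ^ 2) ^ 2) ≤ th * (W * N / χ ^ 2) ^ 2 := by
    have f1 : Ex p (fun ω => TT ends ω ((h * χ) ^ 2) ^ 2) ≤
        Ex p (fun ω => T4 ends ω ((h * χ) ^ 2)) +
        4 * Ex p (fun ω => T3 ends ω ((h * χ) ^ 2)) +
        2 * Ex p (fun ω => cc ends ω ((h * χ) ^ 2) 1) := by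
      rw [← Ex_mul_left, ← Ex_mul_left, ← Ex_add, ← Ex_add]
      exact Ex_mono h0.le h1.le fun ω => TT_sq ω
    have f2 := num_T4 (N := N) (W := W) (C := C) hh0 hχ0
    have f3 := num_T3 hh0 hχ0 hN0 hW hC0 hr1
    have f4 := num_cc hχ0 hχ1 hN0 hW hC0 hb0 hr1
    rw [hthC]
    have f5 : 4 * Ex p (fun ω => T3 ends ω ((h * χ) ^ 2)) ≤
        4 * (W ^ 2 * (3 * C / (h * χ)) ^ 2 * N * χ) := mul_le_mul_of_nonneg_left hT3 (by norm_num)
    have f6 : 2 * Ex p (fun ω => cc ends ω ((h * χ) ^ 2) 1) ≤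
        2 * (C * (b0 * W) ^ 2 * (N / χ ^ 3) * (χ + χ ^ 5 / N)) :=
      mul_le_mul_of_nonneg_left hcc1 (by norm_num)
    rw [f2] at hT4
    linarith
  have hτ0 : 0 < e0 * N * W / (2 * χ ^ 2) := by positivity
  have hmean : 2 * (e0 * N * W / (2 * χ ^ 2)) ≤ Ex p (fun ω => TT ends ω ((h * χ) ^ 2)) := by
    rw [TT_mean]
    rw [hN, ← num_tau hχ0 he0C] at hET
    exact le_of_mul_le_mul_left hET (by positivity)
  have hpz := pz (ends := ends) h0.le h1.le hτ0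
    (by positivity : 0 < th * (W * N / χ ^ 2) ^ 2) hmean hθ
  rw [num_pz hχ0 hN0 hW hth0, hpiC] at hpz
  -- the bounds of the good event
  have hng0 : 0 < y * (3 * C * N / (h ^ 3 * χ ^ 3)) := by positivity
  have hS20 : 0 < y * (sg * W ^ 2 * N / χ) := by positivity
  have hgg : ∀ j, 0 < gg χ N j := gg_pos hχ0 hN0
  have hY0 : ∀ j : ℕ, 0 < y * (C * (b0 * W) ^ (2 * j) * (N / χ ^ 3) * gg χ N j) := by
    intro j
    have := hgg j
    positivity
  have hE1 : y * Ex p (fun ω => ((GC ends ω ((h * χ) ^ 2)).card : ℝ)) ≤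
      y * (3 * C * N / (h ^ 3 * χ ^ 3)) := by
    apply mul_le_mul_of_nonneg_left _ hy0.le
    refine (GC_mean h0.le h1.le ha0 hPle).trans (le_of_eq ?_)
    rw [hN]
    exact num_ng hχ0 hh0
  have hE2 : y * Ex p (fun ω => ∑ A ∈ GC ends ω ((h * χ) ^ 2),
      dg ends ω ((h * χ) ^ 2) A ^ 2) ≤ y * (sg * W ^ 2 * N / χ) := by
    apply mul_le_mul_of_nonneg_left _ hy0.le
    have f1 : Ex p (fun ω => ∑ A ∈ GC ends ω ((h * χ) ^ 2), dg ends ω ((h * χ) ^ 2) A ^ 2) ≤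
        Ex p (fun ω => T3 ends ω ((h * χ) ^ 2)) + Ex p (fun ω => cc ends ω ((h * χ) ^ 2) 1) := by
      rw [← Ex_add]
      exact Ex_mono h0.le h1.le fun ω => dg_sq ω
    exact f1.trans ((add_le_add hT3 hcc1).trans (num_S2 hχ0 hχ1 hN0 hW hC0 hb0 hh0 hr1 hsgC))
  have hE3 : ∀ j, 1 ≤ j → j ≤ 2 ^ i → y * Ex p (fun ω => cc ends ω ((h * χ) ^ 2) (2 * j - 1)) ≤
      y * (C * (b0 * W) ^ (2 * j) * (N / χ ^ 3) * gg χ N j) := by
    intro j hj1 hj2
    exact mul_le_mul_of_nonneg_left (hcyc j hj1 hj2) hy0.le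
  have hgood := good_prob2 (ends := ends)
    (Y := fun j => y * (C * (b0 * W) ^ (2 * j) * (N / χ ^ 3) * gg χ N j))
    h0.le h1.le hy0 hng0 hS20 hY0 hpz hE1 hE2 hE3 hyC
  -- sprinkling
  have hs0 : 0 < B / (W * χ) := by positivity
  have hm0 : 0 ≤ mu * N / χ := by positivity
  have hΛ0 : 0 < ell * W := by positivity
  have hpos : 2 ^ i ≠ 0 := by positivity
  have hvv : ∀ j, 1 ≤ j → vv (ell * W) χ N j = (ell * W) ^ (2 * j) * gg χ N j :=
    fun j hj => if_neg (by omega)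
  have hc1' := num_c1 (i := i) hχ0 hN0 hW hC0 hb0 hy0 hsg0 he0 hQ0 hlC hQC
    (fun j => y * (C * (b0 * W) ^ (2 * j) * (N / χ ^ 3) * gg χ N j)) (vv (ell * W) χ N)
    (fun j _ => rfl) hvv
  have hc2' := num_c2 (K := 2 ^ i) hχ0 hN0 hW hC0 hh0 hy0 hell0 hmu0 (by linarith : 0 < k2) hVK hmC
  rw [← hvv (2 ^ i) Nat.one_le_two_pow, ← hk2] at hc2'
  have hsτ := num_s hχ0 hN0 hW hC hh0 (by linarith) hy1 hVN hBC
  have hspr := sprinkle_prob2 (ends := ends) (v := vv (ell * W) χ N) h0.le h1.le hs0.le hs1 ha0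
    hτ0.le hm0 (vv_zero _ _ _) (vv_pos hΛ0 hχ0 hN0) (vv_mul hΛ0 hχ4 hN0 h2V) hc1' hc2' hsτ
  refine le_trans ?_ hspr
  linarith

end Pool.Agent.PERC29
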