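import Mathlib

set_option autoImplicit false
set_option linter.unusedSectionVars false

open Finset

namespace Pool.Agent.PERC29

/-- Comparison for `p (1 - p) M' ≥ 1 - κ M`. -/
lemma ode (M M' : ℝ → ℝ) (κ a b : ℝ) (hκ : 0 < κ) (ha : 0 < a) (hab : a < b) (hb : b < 1)
    (hd : ∀ p, 0 < p → p < 1 → HasDerivAt M (M' p) p) (hM0 : 0 ≤ M a)
    (h : ∀ p, a ≤ p → p ≤ b → 1 - κ * M p ≤ p * (1 - p) * M' p) :
    1 - Real.exp (-(κ * ((b - a) / b))) ≤ κ * M b := by
  set v : ℝ → ℝ := fun p => (1 - κ * M p) * Real.exp (κ * (Real.log p - Real.log (1 - p))) with hv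
  have hdv : ∀ p, 0 < p → p < 1 → HasDerivAt v
      ((-(κ * M' p)) * Real.exp (κ * (Real.log p - Real.log (1 - p))) +
        (1 - κ * M p) * (Real.exp (κ * (Real.log p - Real.log (1 - p))) *
          (κ * (p⁻¹ - (-1) / (1 - p))))) p := by
    intro p hp0 hp1
    have h1 : HasDerivAt (fun p => 1 - κ * M p) (-(κ * M' p)) p := by
      simpa using ((hd p hp0 hp1).const_mul κ).const_sub 1
    have h2 : HasDerivAt (fun p : ℝ => Real.log p) p⁻¹ p := Real.hasDerivAt_log hp0.ne'
    have h3 : HasDerivAt (fun p : ℝ => Real.log (1 - p)) ((-1) / (1 - p)) p := by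
      have h4 : HasDerivAt (fun p : ℝ => 1 - p) (-1) p := by
        simpa using (hasDerivAt_id p).const_sub 1
      exact h4.log (by linarith)
    exact h1.mul ((((h2.sub h3).const_mul κ)).exp)
  have hanti : AntitoneOn v (Set.Icc a b) := by
    apply antitoneOn_of_deriv_nonpos (convex_Icc a b)
    · intro p hp
      exact (hdv p (lt_of_lt_of_le ha hp.1) (lt_of_le_of_lt hp.2 hb)).continuousAt.continuousWithinAt
    · intro p hp
      rw [interior_Icc] at hp
      exact (hdv p (ha.trans hp.1) (hp.2.trans hb)).differentiableAt.differentiableWithinAt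
    · intro p hp
      rw [interior_Icc] at hp
      have hp0 : 0 < p := ha.trans hp.1
      have hp1 : p < 1 := hp.2.trans hb
      rw [(hdv p hp0 hp1).deriv]
      have h5 := h p hp.1.le hp.2.le
      have h6 : 0 < 1 - p := by linarith
      have h7 : p⁻¹ - (-1) / (1 - p) = (p * (1 - p))⁻¹ := by
        field_simp
        ring
      rw [h7]
      have h8 : (1 - κ * M p) * (p * (1 - p))⁻¹ ≤ M' p := by
        rw [← div_eq_mul_inv, div_le_iff₀ (mul_pos hp0 h6)]
        linarith
      have h9 : 0 < Real.exp (κ * (Real.log p - Real.log (1 - p))) := Real.exp_pos _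
      have h10 : (-(κ * M' p)) * Real.exp (κ * (Real.log p - Real.log (1 - p))) +
        (1 - κ * M p) * (Real.exp (κ * (Real.log p - Real.log (1 - p))) *
          (κ * (p * (1 - p))⁻¹)) = κ * Real.exp (κ * (Real.log p - Real.log (1 - p))) *
          ((1 - κ * M p) * (p * (1 - p))⁻¹ - M' p) := by ring
      rw [h10]
      exact mul_nonpos_of_nonneg_of_nonpos (mul_nonneg hκ.le h9.le) (by linarith)
  have h1 := hanti (Set.left_mem_Icc.2 hab.le) (Set.right_mem_Icc.2 hab.le) hab.le
  simp only [hv] at h1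
  have hb0 : 0 < b := ha.trans hab
  have h2 : (1 - κ * M b) ≤ Real.exp (κ * (Real.log a - Real.log (1 - a))) *
      Real.exp (-(κ * (Real.log b - Real.log (1 - b)))) := by
    have h3 : (1 - κ * M a) * Real.exp (κ * (Real.log a - Real.log (1 - a))) ≤
        Real.exp (κ * (Real.log a - Real.log (1 - a))) := by
      apply mul_le_of_le_one_left (Real.exp_pos _).le
      have := mul_nonneg hκ.le hM0
      linarith
    have h4 := h1.trans h3
    rw [Real.exp_neg, ← div_eq_mul_inv, le_div_iff₀ (Real.exp_pos _)]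
    exact h4
  have h3 : Real.exp (κ * (Real.log a - Real.log (1 - a))) *
      Real.exp (-(κ * (Real.log b - Real.log (1 - b)))) ≤ Real.exp (-(κ * ((b - a) / b))) := by
    rw [← Real.exp_add]
    apply Real.exp_le_exp.2
    have h4 : Real.log (1 - b) ≤ Real.log (1 - a) :=
      Real.log_le_log (by linarith) (by linarith)
    have h5 : Real.log a - Real.log b ≤ -((b - a) / b) := by
      rw [← Real.log_div ha.ne' hb0.ne']
      have h6 := Real.log_le_sub_one_of_pos (div_pos ha hb0)
      have h7 : a / b - 1 = -((b - a) / b) := by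
        field_simp
        ring
      linarith
    nlinarith
  linarith

/-- `1 - e^{-x} ≥ (1 - 1/e) min (1, x)`. -/
lemma exp_min {x : ℝ} (hx : 0 ≤ x) :
    (1 - Real.exp (-1)) * min 1 x ≤ 1 - Real.exp (-x) := by
  have he : Real.exp (-1) ≤ 1 := by
    rw [← Real.exp_zero]
    exact Real.exp_le_exp.2 (by norm_num)
  rcases le_total x 1 with h | h
  · rw [min_eq_right h]
    have hc := convexOn_exp.2 (Set.mem_univ (0 : ℝ)) (Set.mem_univ (-1 : ℝ))
      (show (0 : ℝ) ≤ 1 - x by linarith) hx (by ring)
    simp only [smul_eq_mul, mul_zero, Real.exp_zero, mul_one, zero_add] at hc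
    have h2 : x * (-1) = -x := by ring
    rw [h2] at hc
    linarith
  · rw [min_eq_left h, mul_one]
    have : Real.exp (-x) ≤ Real.exp (-1) := Real.exp_le_exp.2 (by linarith)
    linarith

end Pool.Agent.PERC29
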