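import Pool.Agent.Lib.MP_29e17e_pr.Ave
import Pool.Agent.Lib.MP_29e17e_pr.Ode

set_option autoImplicit false
set_option linter.unusedSectionVars false

open Finset

namespace Pool.Agent.PERC29

variable {V : Type*} [Fintype V] [DecidableEq V] {E : Type*} [Fintype E] [DecidableEq E]
  {ends : E → Sym2 V}

/-- Expectations of increasing functions are increasing in `p`. -/
lemma Ex_param_mono {f : (E → Bool) → ℝ} (hf : ∀ ω e, f ω ≤ f (Function.update ω e true))
    {a b : ℝ} (ha : 0 < a) (hab : a ≤ b) (hb : b < 1) : Ex a f ≤ Ex b f := by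
  have hd : ∀ x, x < 1 → HasDerivAt (fun p => Ex p f) ((1 - x)⁻¹ * Ex x (fun ω => ∑ e,
      (if ω e = true then 0 else f (Function.update ω e true) - f ω))) x :=
    fun x hx => Ex_hasDerivAt x f (ne_of_lt hx)
  have hm : MonotoneOn (fun p => Ex p f) (Set.Icc a b) := by
    apply monotoneOn_of_deriv_nonneg (convex_Icc a b)
    · intro x hx
      exact (hd x (lt_of_le_of_lt hx.2 hb)).continuousAt.continuousWithinAt
    · intro x hx
      rw [interior_Icc] at hx
      exact (hd x (hx.2.trans hb)).differentiableAt.differentiableWithinAt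
    · intro x hx
      rw [interior_Icc] at hx
      have hx1 : x < 1 := hx.2.trans hb
      rw [(hd x hx1).deriv]
      apply mul_nonneg (inv_nonneg.2 (by linarith))
      apply Ex_nonneg (ha.trans hx.1).le hx1.le
      intro ω
      apply Finset.sum_nonneg
      intro e _
      split_ifs
      · exact le_rfl
      · have := hf ω e; linarith
  exact hm (Set.left_mem_Icc.2 hab) (Set.right_mem_Icc.2 hab) hab

lemma update_mono (ω : E → Bool) (e : E) : ∀ e', ω e' = true → Function.update ω e true e' = true := by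
  intro e' he'
  by_cases h1 : e' = e
  · subst h1; simp
  · rw [Function.update_of_ne h1]; exact he'

lemma one_le_cs (ω : E → Bool) (o : V) : 1 ≤ cs ends ω Set.univ o := by
  unfold cs
  have : 0 < (cl ends ω Set.univ o).card := by
    rw [Finset.card_pos]
    exact ⟨o, mem_cl.2 (Rch.refl o)⟩
  exact_mod_cast this

theorem main_gen (o : V) (p q K : ℝ) (hp : 0 < p) (hpq : p < q) (hq : q < 1) (hK : 1 ≤ K)
    (hsym : ∀ r, p ≤ r → r ≤ q → ∀ y, Ex r (fun ω => cs ends ω Set.univ y) =
      Ex r (fun ω => cs ends ω Set.univ o)) :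
    (1 - Real.exp (-1)) * K * min (Ex p (fun ω => cs ends ω Set.univ o) /
      (Ex p (fun ω => cs ends ω Set.univ o) + K)) ((q - p) / q) ≤
      Ex q (fun ω => min (cs ends ω Set.univ o) K) := by
  have hK0 : 0 < K := by linarith
  set γ : ℝ := 1 / K with hγ
  have hγ0 : 0 < γ := by positivity
  have hγ1 : γ ≤ 1 := by rw [hγ, div_le_one hK0]; exact hK
  set χ : ℝ → ℝ := fun r => Ex r (fun ω => cs ends ω Set.univ o) with hχdef
  have hχ1 : ∀ r, 0 ≤ r → r ≤ 1 → 1 ≤ χ r := by
    intro r h0 h1
    have := Ex_mono h0 h1 (f := fun _ : E → Bool => (1 : ℝ))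
      (g := fun ω => cs ends ω Set.univ o) (fun ω => one_le_cs ω o)
    rwa [Ex_const] at this
  have hχp : 1 ≤ χ p := hχ1 p hp.le (hpq.trans hq).le
  have hχp0 : 0 < χ p := by linarith
  set M : ℝ → ℝ := fun r => Ex r (mg ends γ o) with hM
  set R : ℝ → ℝ := fun r => Ex r (fun ω => ∑ e, (if ω e = true then 0 else
        mg ends γ o (Function.update ω e true) - mg ends γ o ω)) with hR
  set κ : ℝ := 1 + K / χ p with hκ
  have hκ0 : 0 < κ := by positivity
  have hmg0 : ∀ ω, 0 ≤ mg ends γ o ω := by
    intro ω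
    unfold mg
    have : (1 - γ) ^ (cl ends ω Set.univ o).card ≤ 1 :=
      pow_le_one₀ (by linarith) (by linarith)
    linarith
  have hM0 : ∀ r, 0 ≤ r → r ≤ 1 → 0 ≤ M r := fun r h0 h1 => Ex_nonneg h0 h1 hmg0
  have hode := ode M (fun r => (1 - r)⁻¹ * R r) κ p q hκ0 hp hpq hq
    (fun r _ hr1 => Ex_hasDerivAt r (mg ends γ o) (ne_of_lt hr1))
    (hM0 p hp.le (hpq.trans hq).le)
    (by
      intro r hpr hrq
      have hr0 : 0 < r := lt_of_lt_of_le hp hpr
      have hr1 : r < 1 := lt_of_le_of_lt hrq hq
      have hav := ave (ends := ends) r (χ r) γ hr0.le hr1.le hγ0.le hγ1 o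
        (fun y => (hsym r hpr hrq y).le) le_rfl
      have hχr : χ p ≤ χ r := by
        apply Ex_param_mono _ hp hpr hr1
        intro ω e
        exact cs_mono (update_mono ω e) le_rfl
      have hχr0 : 0 < χ r := lt_of_lt_of_le hχp0 hχr
      have hN : γ * Ex r (fun ω => (1 - γ) ^ (cl ends ω Set.univ o).card * cs ends ω Set.univ o) ≤
          M r := by
        rw [← Ex_mul_left]
        apply Ex_mono hr0.le hr1.le
        intro ω
        exact pow_ineq hγ0 hγ1 _
      have h1 : (1 - r) ≠ 0 := by linarith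
      have h2 : r * (1 - r) * ((1 - r)⁻¹ * R r) = r * R r := by field_simp
      rw [h2]
      have h3 : γ * (χ r * (1 - M r)) ≤ M r + γ * (r * χ r * R r) := by
        have := mul_le_mul_of_nonneg_left hav hγ0.le
        calc _ ≤ _ := this
          _ ≤ _ := by rw [mul_add]; exact add_le_add hN le_rfl
      have hMr := hM0 r hr0.le hr1.le
      -- divide by `γ χ r`
      have h4 : 1 - M r ≤ M r * (K / χ r) + r * R r := by
        have h5 : γ * K = 1 := by rw [hγ]; field_simp
        have h6 : 0 < γ * χ r := mul_pos hγ0 hχr0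
        have h7 : (γ * χ r) * (1 - M r) ≤ (γ * χ r) * (M r * (K / χ r) + r * R r) := by
          have h8 : (γ * χ r) * (M r * (K / χ r) + r * R r) =
              (γ * K) * M r + γ * (r * χ r * R r) := by
            field_simp
          rw [h8, h5, one_mul]
          linarith
        exact le_of_mul_le_mul_left h7 h6
      have h5 : M r * (K / χ r) ≤ M r * (K / χ p) := by
        apply mul_le_mul_of_nonneg_left _ hMr
        exact div_le_div_of_nonneg_left hK0.le hχp0 hχr
      rw [hκ]
      nlinarith)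
  have hη0 : 0 ≤ (q - p) / q := div_nonneg (by linarith) (by linarith)
  have hem := exp_min (x := κ * ((q - p) / q)) (mul_nonneg hκ0.le hη0)
  have h1 : (1 - Real.exp (-1)) * min 1 (κ * ((q - p) / q)) ≤ κ * M q := hem.trans hode
  have hMq : M q ≤ γ * Ex q (fun ω => min (cs ends ω Set.univ o) K) := by
    rw [← Ex_mul_left]
    apply Ex_mono (hp.trans hpq).le hq.le
    intro ω
    unfold mg cs
    rw [mul_min_of_nonneg _ _ hγ0.le]
    apply le_min
    · have := one_add_mul_le_pow (a := -γ) (by linarith) (cl ends ω Set.univ o).card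
      have h2 : (1 + -γ) = 1 - γ := by ring
      rw [h2] at this
      linarith
    · have h5 : γ * K = 1 := by rw [hγ]; field_simp
      rw [h5]
      have : 0 ≤ (1 - γ) ^ (cl ends ω Set.univ o).card := pow_nonneg (by linarith) _
      linarith
  have h2 : min (χ p / (χ p + K)) ((q - p) / q) = min 1 (κ * ((q - p) / q)) / κ := by
    rw [← min_div_div_right hκ0.le]
    congr 1
    · rw [hκ]
      field_simp
    · field_simp
  change (1 - Real.exp (-1)) * K * min (χ p / (χ p + K)) ((q - p) / q) ≤ _
  rw [h2]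
  have h3 : (1 - Real.exp (-1)) * K * (min 1 (κ * ((q - p) / q)) / κ) =
      K * (((1 - Real.exp (-1)) * min 1 (κ * ((q - p) / q))) / κ) := by ring
  rw [h3]
  have h4 : ((1 - Real.exp (-1)) * min 1 (κ * ((q - p) / q))) / κ ≤ M q := by
    rw [div_le_iff₀ hκ0]
    linarith
  have h5 : K * M q ≤ Ex q (fun ω => min (cs ends ω Set.univ o) K) := by
    have h6 := mul_le_mul_of_nonneg_left hMq hK0.le
    have h7 : K * γ = 1 := by rw [hγ]; field_simp
    calc K * M q ≤ K * (γ * Ex q (fun ω => min (cs ends ω Set.univ o) K)) := h6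
      _ = _ := by rw [← mul_assoc, h7, one_mul]
  exact (mul_le_mul_of_nonneg_left h4 hK0.le).trans h5

end Pool.Agent.PERC29
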