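import Pool.Agent.Lib.MP_29e17e_pr.Two
import Pool.Agent.Lib.MP_29e17e_pr.Main

set_option autoImplicit false
set_option linter.unusedSectionVars false

open Finset

namespace Pool.Agent.PERC29

variable {V : Type*} [Fintype V] [DecidableEq V] {E : Type*} [Fintype E] [DecidableEq E]
  {ends : E → Sym2 V}

/-- The number of edges joining `x` and `y`. -/
noncomputable def nb (ends : E → Sym2 V) (x y : V) : ℝ := ∑ e, if ends e = s(x, y) then 1 else 0

lemma nb_nonneg (x y : V) : 0 ≤ nb ends x y :=
  Finset.sum_nonneg fun e _ => by split_ifs <;> norm_num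

lemma nb_symm (x y : V) : nb ends x y = nb ends y x := by
  unfold nb
  rw [Sym2.eq_swap]

lemma cu_mono {ω ω' : E → Bool} {x : V} (h : ∀ e, ω e = true → ω' e = true) :
    cu ends ω x ⊆ cu ends ω' x := cl_mono h le_rfl

lemma cz_mono {ω ω' : E → Bool} {x : V} (h : ∀ e, ω e = true → ω' e = true) :
    cz ends ω x ≤ cz ends ω' x := by
  unfold cz
  exact_mod_cast Finset.card_le_card (cu_mono (ends := ends) (x := x) h)

lemma upd_cl_one {ω : E → Bool} {e : E} {o x y : V} (he : ends e = s(x, y))
    (hx : x ∈ cu ends ω o) :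
    cu ends (Function.update ω e true) o ⊆ cu ends ω o ∪ cu ends ω y := by
  intro z hz
  rw [mem_cu] at hz
  induction hz with
  | refl => exact Finset.mem_union_left _ (self_mem_cu ω o)
  | @tail c d _ hcd ih =>
    obtain ⟨-, -, e', h3, h4⟩ := hcd
    by_cases hee : e' = e
    · subst hee
      rw [he] at h4
      rcases Sym2.eq_iff.1 h4 with ⟨_, h5⟩ | ⟨h5, _⟩
      · rw [← h5]; exact Finset.mem_union_right _ (self_mem_cu ω y)
      · rw [← h5]; exact Finset.mem_union_left _ hx
    · rw [Function.update_of_ne hee] at h3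
      rw [Finset.mem_union] at ih ⊢
      rcases ih with ih | ih
      · left
        rw [mem_cu] at ih ⊢
        exact Relation.ReflTransGen.tail ih ⟨trivial, trivial, e', h3, h4⟩
      · right
        rw [mem_cu] at ih ⊢
        exact Relation.ReflTransGen.tail ih ⟨trivial, trivial, e', h3, h4⟩

lemma upd_cl_two {ω : E → Bool} {e : E} {o : V}
    (he : ¬ ∃ x y, ends e = s(x, y) ∧ x ∈ cu ends ω o ∧ y ∉ cu ends ω o) :
    cu ends (Function.update ω e true) o ⊆ cu ends ω o := by
  intro z hz
  rw [mem_cu] at hz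
  induction hz with
  | refl => exact self_mem_cu ω o
  | @tail c d _ hcd ih =>
    obtain ⟨-, -, e', h3, h4⟩ := hcd
    by_cases hee : e' = e
    · subst hee
      by_contra hcon
      exact he ⟨c, d, h4, ih, hcon⟩
    · rw [Function.update_of_ne hee] at h3
      rw [mem_cu] at ih ⊢
      exact Relation.ReflTransGen.tail ih ⟨trivial, trivial, e', h3, h4⟩

/-- The truncated function. -/
noncomputable def Fn (n k : ℝ) : ℝ := max (k - n) 0

lemma Fn_nonneg (n k : ℝ) : 0 ≤ Fn n k := le_max_right _ _

lemma Fn_mono (n : ℝ) {k l : ℝ} (h : k ≤ l) : Fn n k ≤ Fn n l := by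
  unfold Fn
  exact max_le_max (by linarith) le_rfl

lemma Fn_add (n : ℝ) {k l : ℝ} (h : 0 ≤ l) : Fn n (k + l) - Fn n k ≤ l := by
  unfold Fn
  rcases le_total (k + l - n) 0 with h1 | h1
  · rw [max_eq_right h1]
    have := le_max_right (k - n) 0
    linarith
  · rw [max_eq_left h1]
    have := le_max_left (k - n) 0
    linarith

open scoped Classical in
lemma upd_pt (n : ℝ) (ω : E → Bool) (e : E) (o : V) :
    Fn n (cz ends (Function.update ω e true) o) - Fn n (cz ends ω o) ≤
      ∑ x, ∑ y, (if ends e = s(x, y) then (1 : ℝ) else 0) *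
        ((if x ∈ cu ends ω o then 1 else 0) * ((if y ∈ cu ends ω o then 0 else 1) *
          cz ends ω y)) := by
  have hnn : ∀ x y, 0 ≤ (if ends e = s(x, y) then (1 : ℝ) else 0) *
        ((if x ∈ cu ends ω o then 1 else 0) * ((if y ∈ cu ends ω o then 0 else 1) *
          cz ends ω y)) := by
    intro x y
    have := cz_nonneg (ends := ends) ω y
    split_ifs <;> simp [this]
  by_cases he : ∃ x y, ends e = s(x, y) ∧ x ∈ cu ends ω o ∧ y ∉ cu ends ω o
  · obtain ⟨x, y, h1, h2, h3⟩ := he
    have h4 : cz ends (Function.update ω e true) o ≤ cz ends ω o + cz ends ω y := by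
      unfold cz
      have := (Finset.card_le_card (upd_cl_one h1 h2)).trans (Finset.card_union_le _ _)
      exact_mod_cast this
    calc _ ≤ Fn n (cz ends ω o + cz ends ω y) - Fn n (cz ends ω o) := by
          have := Fn_mono n h4
          linarith
      _ ≤ cz ends ω y := Fn_add n (cz_nonneg ω y)
      _ = (if ends e = s(x, y) then (1 : ℝ) else 0) *
        ((if x ∈ cu ends ω o then 1 else 0) * ((if y ∈ cu ends ω o then 0 else 1) *
          cz ends ω y)) := by
          rw [if_pos h1, if_pos h2, if_neg h3]; ring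
      _ ≤ ∑ y, (if ends e = s(x, y) then (1 : ℝ) else 0) *
        ((if x ∈ cu ends ω o then 1 else 0) * ((if y ∈ cu ends ω o then 0 else 1) *
          cz ends ω y)) :=
          Finset.single_le_sum (f := fun y => (if ends e = s(x, y) then (1 : ℝ) else 0) *
            ((if x ∈ cu ends ω o then 1 else 0) * ((if y ∈ cu ends ω o then 0 else 1) *
            cz ends ω y))) (fun y _ => hnn x y) (Finset.mem_univ y)
      _ ≤ _ := Finset.single_le_sum (f := fun x => ∑ y, (if ends e = s(x, y) then (1 : ℝ) else 0) *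
            ((if x ∈ cu ends ω o then 1 else 0) * ((if y ∈ cu ends ω o then 0 else 1) *
            cz ends ω y))) (fun x _ => Finset.sum_nonneg fun y _ => hnn x y) (Finset.mem_univ x)
  · have h4 : cz ends (Function.update ω e true) o ≤ cz ends ω o := by
      unfold cz
      exact_mod_cast Finset.card_le_card (upd_cl_two he)
    have h5 := Fn_mono n h4
    have h6 : 0 ≤ ∑ x, ∑ y, (if ends e = s(x, y) then (1 : ℝ) else 0) *
        ((if x ∈ cu ends ω o then 1 else 0) * ((if y ∈ cu ends ω o then 0 else 1) *
          cz ends ω y)) := Finset.sum_nonneg fun x _ => Finset.sum_nonneg fun y _ => hnn x y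
    linarith

open scoped Classical in
lemma sum_o (ω : E → Bool) (x y : V) :
    ∑ o, ((if x ∈ cu ends ω o then (1 : ℝ) else 0) * ((if y ∈ cu ends ω o then 0 else 1) *
      cz ends ω y)) = (if y ∈ cu ends ω x then 0 else 1) * (cz ends ω x * cz ends ω y) := by
  have h1 : ∀ o, ((if x ∈ cu ends ω o then (1 : ℝ) else 0) *
      ((if y ∈ cu ends ω o then 0 else 1) * cz ends ω y)) =
      (if o ∈ cu ends ω x then (1 : ℝ) else 0) * ((if y ∈ cu ends ω x then 0 else 1) *
        cz ends ω y) := by
    intro o
    by_cases h : x ∈ cu ends ω o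
    · rw [if_pos h, if_pos (cu_symm.1 h), cu_eq h]
    · rw [if_neg h, if_neg (fun h2 => h (cu_symm.1 h2))]
      ring
  rw [Finset.sum_congr rfl fun o _ => h1 o, ← Finset.sum_mul]
  have h2 : ∑ o, (if o ∈ cu ends ω x then (1 : ℝ) else 0) = cz ends ω x := by
    unfold cz
    simp
  rw [h2]
  ring

/-- The expected number of pairs of vertices which can be joined by one edge. -/
noncomputable def Stwo (ends : E → Sym2 V) (p : ℝ) : ℝ := ∑ x, ∑ y, nb ends x y *
  Ex p (fun ω => (if y ∈ cu ends ω x then 0 else 1) * (cz ends ω x * cz ends ω y))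

lemma D_le {p : ℝ} (h0 : 0 ≤ p) (h1 : p ≤ 1) (n : ℝ) :
    ∑ o, Ex p (fun ω => ∑ e, if ω e = true then 0 else
      Fn n (cz ends (Function.update ω e true) o) - Fn n (cz ends ω o)) ≤ Stwo ends p := by
  classical
  have hS : Stwo ends p = Ex p (fun ω => ∑ x, ∑ y, nb ends x y *
      ((if y ∈ cu ends ω x then 0 else 1) * (cz ends ω x * cz ends ω y))) := by
    unfold Stwo
    rw [Ex_sum]
    refine Finset.sum_congr rfl fun x _ => ?_
    rw [Ex_sum]
    exact Finset.sum_congr rfl fun y _ => by rw [Ex_mul_left]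
  rw [hS, ← Ex_sum]
  apply Ex_mono h0 h1
  intro ω
  calc ∑ o, ∑ e, (if ω e = true then 0 else
      Fn n (cz ends (Function.update ω e true) o) - Fn n (cz ends ω o)) ≤
      ∑ o, ∑ e, ∑ x, ∑ y, (if ends e = s(x, y) then (1 : ℝ) else 0) *
        ((if x ∈ cu ends ω o then 1 else 0) * ((if y ∈ cu ends ω o then 0 else 1) *
          cz ends ω y)) := by
        refine Finset.sum_le_sum fun o _ => Finset.sum_le_sum fun e _ => ?_
        by_cases h : ω e = true
        · rw [if_pos h]
          apply Finset.sum_nonneg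
          intro x _
          apply Finset.sum_nonneg
          intro y _
          have := cz_nonneg (ends := ends) ω y
          split_ifs <;> simp [this]
        · rw [if_neg h]
          exact upd_pt n ω e o
    _ = ∑ x, ∑ y, nb ends x y * ∑ o, ((if x ∈ cu ends ω o then (1 : ℝ) else 0) *
          ((if y ∈ cu ends ω o then 0 else 1) * cz ends ω y)) := by
        have e1 : ∀ x y, nb ends x y * ∑ o, ((if x ∈ cu ends ω o then (1 : ℝ) else 0) *
          ((if y ∈ cu ends ω o then 0 else 1) * cz ends ω y)) =
          ∑ o, ∑ e, (if ends e = s(x, y) then (1 : ℝ) else 0) *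
          ((if x ∈ cu ends ω o then (1 : ℝ) else 0) *
          ((if y ∈ cu ends ω o then 0 else 1) * cz ends ω y)) := by
          intro x y
          rw [Finset.mul_sum]
          refine Finset.sum_congr rfl fun o _ => ?_
          unfold nb
          rw [Finset.sum_mul]
        simp_rw [e1]
        have e2 : ∀ (g : V → E → V → V → ℝ), ∑ o, ∑ e, ∑ x, ∑ y, g o e x y =
            ∑ x, ∑ y, ∑ o, ∑ e, g o e x y := by
          intro g
          calc ∑ o, ∑ e, ∑ x, ∑ y, g o e x y = ∑ o, ∑ x, ∑ e, ∑ y, g o e x y :=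
                Finset.sum_congr rfl fun o _ => Finset.sum_comm
            _ = ∑ x, ∑ o, ∑ e, ∑ y, g o e x y := Finset.sum_comm
            _ = ∑ x, ∑ o, ∑ y, ∑ e, g o e x y :=
                Finset.sum_congr rfl fun x _ => Finset.sum_congr rfl fun o _ => Finset.sum_comm
            _ = ∑ x, ∑ y, ∑ o, ∑ e, g o e x y :=
                Finset.sum_congr rfl fun x _ => Finset.sum_comm
        exact e2 _
    _ = _ := by
        refine Finset.sum_congr rfl fun x _ => Finset.sum_congr rfl fun y _ => ?_
        rw [sum_o]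

/-- The lower bound for the derivative-like quantity. -/
lemma D_low {p n M χ : ℝ} (h0 : 0 ≤ p) (h1 : p ≤ 1) (hn : 1 ≤ n) (o : V)
    (hμ : ∀ x, Ex p (fun ω => min (cz ends ω x) n) ≤ M * n) (hM : M ≤ 1 / 10)
    (hχ : Ex p (fun ω => cz ends ω o) = χ) (hχ2 : M * n ≤ χ / 2) :
    χ ≤ 16 * p * M * Ex p (fun ω => ∑ e, if ω e = true then 0 else
      Fn n (cz ends (Function.update ω e true) o) - Fn n (cz ends ω o)) := by
  have hn0 : 0 < n := by linarith
  set γ : ℝ := 1 / n with hγ
  have hγ0 : 0 < γ := by positivity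
  have hγ1 : γ ≤ 1 := by rw [hγ, div_le_one hn0]; exact hn
  have hMx : ∀ x, Ex p (mg ends γ x) ≤ M := by
    intro x
    have h2 : Ex p (mg ends γ x) ≤ γ * Ex p (fun ω => min (cz ends ω x) n) := by
      rw [← Ex_mul_left]
      apply Ex_mono h0 h1
      intro ω
      unfold mg cz cu
      rw [mul_min_of_nonneg _ _ hγ0.le]
      apply le_min
      · have := one_add_mul_le_pow (a := -γ) (by linarith) (cl ends ω Set.univ x).card
        have h2 : (1 + -γ) = 1 - γ := by ring
        rw [h2] at this
        linarith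
      · have h5 : γ * n = 1 := by rw [hγ]; field_simp
        rw [h5]
        have : 0 ≤ (1 - γ) ^ (cl ends ω Set.univ x).card := pow_nonneg (by linarith) _
        linarith
    calc _ ≤ γ * (M * n) := h2.trans (mul_le_mul_of_nonneg_left (hμ x) hγ0.le)
      _ = M := by rw [hγ]; field_simp
  set f : (E → Bool) → ℝ := fun ω => Fn n (cz ends ω o) with hf
  have hfm : ∀ e ω, f ω ≤ f (Function.update ω e true) := by
    intro e ω
    exact Fn_mono n (cz_mono (update_mono ω e))
  have hos := osss_mono (ends := ends) h0 h1 hγ0.le hγ1 o hMx f hfm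
  have hEf : χ / 2 ≤ Ex p f := by
    have h2 : Ex p (fun ω => cz ends ω o) = Ex p f + Ex p (fun ω => min (cz ends ω o) n) := by
      rw [← Ex_add]
      apply Ex_congr
      intro ω
      simp only [hf]
      unfold Fn
      rcases le_total (cz ends ω o) n with h3 | h3
      · rw [max_eq_right (by linarith), min_eq_left h3]; ring
      · rw [max_eq_left (by linarith), min_eq_right h3]; ring
    have h3 := hμ o
    linarith
  have hEf0 : 0 ≤ Ex p f := Ex_nonneg h0 h1 fun ω => Fn_nonneg _ _
  have he1 : Real.exp (-1) ≤ 0.37 := by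
    have := Real.exp_one_gt_d9
    have h2 : Real.exp (-1) * Real.exp 1 = 1 := by rw [← Real.exp_add]; norm_num
    have h3 := Real.exp_pos (-1)
    nlinarith
  have hprod : (1 - Real.exp (-1)) * Ex p f ≤ Ex p (fun ω => f ω * mg ends γ o ω) := by
    rw [← Ex_mul_left]
    apply Ex_mono h0 h1
    intro ω
    rcases le_total (cz ends ω o) n with h3 | h3
    · have : f ω = 0 := by
        simp only [hf]
        unfold Fn
        exact max_eq_right (by linarith)
      rw [this]; simp
    · rw [mul_comm]
      apply mul_le_mul_of_nonneg_left _ (Fn_nonneg _ _)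
      unfold mg
      have h4 : (1 - γ) ^ (cl ends ω Set.univ o).card ≤ Real.exp (-1) := by
        have h5 : 1 - γ ≤ Real.exp (-γ) := by
          have := Real.add_one_le_exp (-γ)
          linarith
        calc (1 - γ) ^ (cl ends ω Set.univ o).card ≤
            (Real.exp (-γ)) ^ (cl ends ω Set.univ o).card :=
              pow_le_pow_left₀ (by linarith) h5 _
          _ = Real.exp (-(γ * (cl ends ω Set.univ o).card)) := by
              rw [← Real.exp_nat_mul]
              congr 1
              ring
          _ ≤ Real.exp (-1) := by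
              apply Real.exp_le_exp.2
              have h6 : n ≤ ((cl ends ω Set.univ o).card : ℝ) := h3
              have h7 : γ * n = 1 := by rw [hγ]; field_simp
              have := mul_le_mul_of_nonneg_left h6 hγ0.le
              linarith
      linarith
  have hMM : Ex p f * Ex p (mg ends γ o) ≤ Ex p f * M :=
    mul_le_mul_of_nonneg_left (hMx o) hEf0
  have h8 : (1 / 2) * Ex p f ≤ 4 * p * M * Ex p (fun ω => ∑ e, if ω e = true then 0 else
      f (Function.update ω e true) - f ω) := by
    nlinarith
  have h9 : χ ≤ 4 * (4 * p * M * Ex p (fun ω => ∑ e, if ω e = true then 0 else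
      f (Function.update ω e true) - f ω)) := by linarith
  calc χ ≤ _ := h9
    _ = _ := by ring

open scoped Classical in
/-- The expected number of (ordered) edges between distinct clusters of size at least `a`. -/
noncomputable def ET (ends : E → Sym2 V) (p a : ℝ) : ℝ := ∑ x, ∑ y, nb ends x y *
  Ex p (fun ω => (if y ∈ cu ends ω x then 0 else 1) *
    ((if a ≤ cz ends ω x then 1 else 0) * (if a ≤ cz ends ω y then 1 else 0)))

lemma S_le {p χ a b μ ν W : ℝ} (h0 : 0 ≤ p) (h1 : p ≤ 1) (ha : 0 < a) (hb : 0 < b)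
    (hdeg : ∀ x, ∑ y, nb ends x y ≤ W)
    (hχ : ∀ x, Ex p (fun ω => cz ends ω x) = χ)
    (hμ : ∀ x, Ex p (fun ω => min (cz ends ω x) a) ≤ μ)
    (hν : ∀ x, Ex p (fun ω => cz ends ω x ^ 2) ≤ ν) :
    Stwo ends p ≤ b ^ 2 * ET ends p a + (Fintype.card V) * (W * (2 * χ * (μ + ν / b))) := by
  classical
  rcases isEmpty_or_nonempty V with hV | hV
  · unfold Stwo ET
    simp
  obtain ⟨o⟩ := hV
  have hχ0 : 0 ≤ χ := by
    rw [← hχ o]; exact Ex_nonneg h0 h1 fun ω => cz_nonneg _ _
  have hμ0 : 0 ≤ μ := le_trans (Ex_nonneg h0 h1 fun ω => le_min (cz_nonneg _ _) ha.le) (hμ o)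
  have hν0 : 0 ≤ ν := le_trans (Ex_nonneg h0 h1 fun ω => sq_nonneg _) (hν o)
  have hterm : ∀ x y, Ex p (fun ω => (if y ∈ cu ends ω x then (0 : ℝ) else 1) *
      (cz ends ω x * cz ends ω y)) ≤ b ^ 2 * Ex p (fun ω => (if y ∈ cu ends ω x then 0 else 1) *
      ((if a ≤ cz ends ω x then 1 else 0) * (if a ≤ cz ends ω y then 1 else 0))) +
      2 * χ * (μ + ν / b) := by
    intro x y
    -- the four remainders
    have hcard : ∀ A B : Finset V, A ⊆ B → (A.card : ℝ) ≤ B.card := fun A B h => by
      exact_mod_cast Finset.card_le_card h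
    have r1 := two (ends := ends) h0 h1 x y (fun A => min (A.card : ℝ) a)
      (fun A => le_min (Nat.cast_nonneg _) ha.le) (fun A => (A.card : ℝ))
      (fun A => Nat.cast_nonneg _) hcard
    have r2 := two (ends := ends) h0 h1 x y (fun A => (A.card : ℝ))
      (fun A => Nat.cast_nonneg _) (fun A => min (A.card : ℝ) a)
      (fun A => le_min (Nat.cast_nonneg _) ha.le)
      (fun A B h => min_le_min (hcard A B h) le_rfl)
    have r3 := two (ends := ends) h0 h1 x y (fun A => (A.card : ℝ) ^ 2)
      (fun A => sq_nonneg _) (fun A => (A.card : ℝ))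
      (fun A => Nat.cast_nonneg _) hcard
    have r4 := two (ends := ends) h0 h1 x y (fun A => (A.card : ℝ))
      (fun A => Nat.cast_nonneg _) (fun A => (A.card : ℝ) ^ 2)
      (fun A => sq_nonneg _)
      (fun A B h => pow_le_pow_left₀ (Nat.cast_nonneg _) (hcard A B h) 2)
    have hpt : ∀ ω : E → Bool, (if y ∈ cu ends ω x then (0 : ℝ) else 1) *
        (cz ends ω x * cz ends ω y) ≤
        b ^ 2 * ((if y ∈ cu ends ω x then 0 else 1) *
          ((if a ≤ cz ends ω x then 1 else 0) * (if a ≤ cz ends ω y then 1 else 0))) +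
        ((if y ∈ cu ends ω x then (0 : ℝ) else 1) * (min (cz ends ω x) a * cz ends ω y) +
        (if y ∈ cu ends ω x then (0 : ℝ) else 1) * (cz ends ω x * min (cz ends ω y) a) +
        (1 / b) * ((if y ∈ cu ends ω x then (0 : ℝ) else 1) * (cz ends ω x ^ 2 * cz ends ω y)) +
        (1 / b) * ((if y ∈ cu ends ω x then (0 : ℝ) else 1) *
          (cz ends ω x * cz ends ω y ^ 2))) := by
      intro ω
      by_cases hy : y ∈ cu ends ω x
      · simp [hy]
      · rw [if_neg hy]
        have hx0 := cz_nonneg (ends := ends) ω x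
        have hy0 := cz_nonneg (ends := ends) ω y
        set X := cz ends ω x
        set Y := cz ends ω y
        have hXY : 0 ≤ X * Y := mul_nonneg hx0 hy0
        have hm1 : 0 ≤ min X a * Y := mul_nonneg (le_min hx0 ha.le) hy0
        have hm2 : 0 ≤ X * min Y a := mul_nonneg hx0 (le_min hy0 ha.le)
        have hq1 : 0 ≤ (1 / b) * (X ^ 2 * Y) := by positivity
        have hq2 : 0 ≤ (1 / b) * (X * Y ^ 2) := by positivity
        have hi : 0 ≤ b ^ 2 * ((if a ≤ X then (1 : ℝ) else 0) * (if a ≤ Y then 1 else 0)) := by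
          split_ifs <;> simp <;> positivity
        simp only [one_mul]
        by_cases hXa : a ≤ X
        · by_cases hYa : a ≤ Y
          · by_cases hXb : X ≤ b
            · by_cases hYb : Y ≤ b
              · have : X * Y ≤ b ^ 2 := by nlinarith
                rw [if_pos hXa, if_pos hYa]
                linarith
              · push Not at hYb
                have : X * Y ≤ (1 / b) * (X * Y ^ 2) := by
                  rw [div_mul_eq_mul_div, one_mul, le_div_iff₀ hb]
                  nlinarith
                linarith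
            · push Not at hXb
              have : X * Y ≤ (1 / b) * (X ^ 2 * Y) := by
                rw [div_mul_eq_mul_div, one_mul, le_div_iff₀ hb]
                nlinarith
              linarith
          · push Not at hYa
            have : min Y a = Y := min_eq_left hYa.le
            rw [this] at hm2 ⊢
            linarith
        · push Not at hXa
          have : min X a = X := min_eq_left hXa.le
          rw [this] at hm1 ⊢
          linarith
    have hE := Ex_mono h0 h1 hpt
    rw [Ex_add, Ex_mul_left, Ex_add, Ex_add, Ex_add, Ex_mul_left, Ex_mul_left] at hE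
    refine hE.trans (add_le_add le_rfl ?_)
    have e1 : Ex p (fun ω => (if y ∈ cu ends ω x then (0 : ℝ) else 1) *
        (min (cz ends ω x) a * cz ends ω y)) ≤ μ * χ :=
      r1.trans (mul_le_mul (hμ x) (hχ y).le (by
        exact Ex_nonneg h0 h1 fun ω => Nat.cast_nonneg _) hμ0)
    have e2 : Ex p (fun ω => (if y ∈ cu ends ω x then (0 : ℝ) else 1) *
        (cz ends ω x * min (cz ends ω y) a)) ≤ χ * μ :=
      r2.trans (mul_le_mul (hχ x).le (hμ y) (by
        exact Ex_nonneg h0 h1 fun ω => le_min (Nat.cast_nonneg _) ha.le) hχ0)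
    have e3 : Ex p (fun ω => (if y ∈ cu ends ω x then (0 : ℝ) else 1) *
        (cz ends ω x ^ 2 * cz ends ω y)) ≤ ν * χ :=
      r3.trans (mul_le_mul (hν x) (hχ y).le (by
        exact Ex_nonneg h0 h1 fun ω => Nat.cast_nonneg _) hν0)
    have e4 : Ex p (fun ω => (if y ∈ cu ends ω x then (0 : ℝ) else 1) *
        (cz ends ω x * cz ends ω y ^ 2)) ≤ χ * ν :=
      r4.trans (mul_le_mul (hχ x).le (hν y) (by
        exact Ex_nonneg h0 h1 fun ω => sq_nonneg _) hχ0)
    have hb' : 0 ≤ 1 / b := by positivity
    have e3' := mul_le_mul_of_nonneg_left e3 hb'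
    have e4' := mul_le_mul_of_nonneg_left e4 hb'
    calc _ ≤ μ * χ + χ * μ + 1 / b * (ν * χ) + 1 / b * (χ * ν) := by linarith
      _ = _ := by ring
  have hR0 : 0 ≤ 2 * χ * (μ + ν / b) := by positivity
  unfold Stwo ET
  calc _ ≤ ∑ x, ∑ y, nb ends x y * (b ^ 2 * Ex p (fun ω => (if y ∈ cu ends ω x then 0 else 1) *
      ((if a ≤ cz ends ω x then 1 else 0) * (if a ≤ cz ends ω y then 1 else 0))) +
      2 * χ * (μ + ν / b)) := by
        refine Finset.sum_le_sum fun x _ => Finset.sum_le_sum fun y _ => ?_
        exact mul_le_mul_of_nonneg_left (hterm x y) (nb_nonneg x y)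
    _ = b ^ 2 * (∑ x, ∑ y, nb ends x y * Ex p (fun ω => (if y ∈ cu ends ω x then 0 else 1) *
      ((if a ≤ cz ends ω x then 1 else 0) * (if a ≤ cz ends ω y then 1 else 0)))) +
      ∑ x, (∑ y, nb ends x y) * (2 * χ * (μ + ν / b)) := by
        rw [Finset.mul_sum, ← Finset.sum_add_distrib]
        refine Finset.sum_congr rfl fun x _ => ?_
        rw [Finset.mul_sum, Finset.sum_mul, ← Finset.sum_add_distrib]
        exact Finset.sum_congr rfl fun y _ => by ring
    _ ≤ _ := by
        refine add_le_add le_rfl ?_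
        calc ∑ x, (∑ y, nb ends x y) * (2 * χ * (μ + ν / b)) ≤
            ∑ _x : V, W * (2 * χ * (μ + ν / b)) :=
              Finset.sum_le_sum fun x _ => mul_le_mul_of_nonneg_right (hdeg x) hR0
          _ = _ := by simp

end Pool.Agent.PERC29
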