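import Pool.Agent.Lib.MP_29e17e_pr.Expc
import Pool.Agent.Lib.MP_29e17e_pr.Clus

set_option autoImplicit false
set_option linter.unusedSectionVars false

open Finset

namespace Pool.Agent.PERC29

variable {V : Type*} [Fintype V] [DecidableEq V] {E : Type*} [Fintype E] [DecidableEq E]
  (ends : E → Sym2 V)

open scoped Classical in
/-- The cluster of `x` inside `S`. -/
noncomputable def cl (ω : E → Bool) (S : Set V) (x : V) : Finset V :=
  Finset.univ.filter (fun y => Rch ends ω S x y)

variable {ends}

lemma mem_cl {ω : E → Bool} {S : Set V} {x y : V} : y ∈ cl ends ω S x ↔ Rch ends ω S x y := by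
  classical
  simp [cl]

lemma cl_mono {ω ω' : E → Bool} {S S' : Set V} {x : V} (hω : ∀ e, ω e = true → ω' e = true)
    (hS : S ⊆ S') : cl ends ω S x ⊆ cl ends ω' S' x := by
  intro y hy
  rw [mem_cl] at hy ⊢
  exact hy.mono hω hS

/-- The cluster inside `S` only depends on the edges inside `S`. -/
lemma cl_dep {ω ω' : E → Bool} {S : Set V} {x : V}
    (h : ∀ e a b, ends e = s(a, b) → a ∈ S → b ∈ S → ω e = ω' e) :
    cl ends ω S x = cl ends ω' S x := by
  ext z
  rw [mem_cl, mem_cl]
  have key : ∀ ω ω' : E → Bool, (∀ e a b, ends e = s(a, b) → a ∈ S → b ∈ S → ω e = ω' e) →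
      Rch ends ω S x z → Rch ends ω' S x z := by
    intro ω ω' h hz
    induction hz with
    | refl => exact Rch.refl x
    | tail _ hcd ih =>
      obtain ⟨h1, h2, e, h3, h4⟩ := hcd
      exact Relation.ReflTransGen.tail ih ⟨h1, h2, e, by rw [← h e _ _ h4 h1 h2]; exact h3, h4⟩
  exact ⟨key ω ω' h, key ω' ω fun e a b h1 h2 h3 => (h e a b h1 h2 h3).symm⟩

/-- The event that the cluster inside `S` is `A` only depends on the edges inside `S` touching `A`. -/
lemma cl_eq_dep {ω ω' : E → Bool} {S : Set V} {x : V} {A : Finset V}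
    (h : ∀ e a b, ends e = s(a, b) → a ∈ S → b ∈ S → a ∈ A → ω e = ω' e)
    (hA : cl ends ω S x = A) : cl ends ω' S x = A := by
  have h1 := reach_dep (ends := ends) (ω := ω) (ω' := ω') (S := S) (B := {x}) (A := (A : Set V))
    (by
      intro z
      simp only [Set.mem_singleton_iff, exists_eq_left, Finset.mem_coe]
      rw [← hA, mem_cl])
    (by
      intro e a b h1 h2 h3 h4
      exact h e a b h1 h2 h3 h4)
  ext z
  rw [mem_cl]
  have h2 := h1 z
  simpa using h2

/-- The indicator of the boundary edges (with respect to `S`) which touch `A`. -/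
noncomputable def Bd (ends : E → Sym2 V) (A : Set V) (S : Set V) (e : E) : Prop :=
  ∃ x y, ends e = s(x, y) ∧ x ∈ A ∧ y ∉ S

/-- If `e` joins `S` to its complement, the end outside `S`. -/
lemma exists_out (ends : E → Sym2 V) (o : V) (S : Set V) (e : E) :
    ∃ v : V, ∀ x y, ends e = s(x, y) → x ∈ S → y ∉ S → y = v := by
  by_cases h : ∃ x y, ends e = s(x, y) ∧ x ∈ S ∧ y ∉ S
  · obtain ⟨x, y, h1, h2, h3⟩ := h
    refine ⟨y, ?_⟩
    intro x' y' h1' h2' h3'
    rw [h1] at h1'
    rcases Sym2.eq_iff.1 h1' with ⟨rfl, rfl⟩ | ⟨rfl, rfl⟩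
    · rfl
    · exact absurd h2 h3'
  · exact ⟨o, fun x y h1 h2 h3 => absurd ⟨x, y, h1, h2, h3⟩ h⟩

open scoped Classical in
/-- The size of the cluster, as a real number. -/
noncomputable def cs (ends : E → Sym2 V) (ω : E → Bool) (S : Set V) (x : V) : ℝ :=
  ((cl ends ω S x).card : ℝ)

lemma cs_nonneg (ω : E → Bool) (S : Set V) (x : V) : 0 ≤ cs ends ω S x := Nat.cast_nonneg _

lemma cs_mono {ω ω' : E → Bool} {S S' : Set V} {x : V} (hω : ∀ e, ω e = true → ω' e = true)
    (hS : S ⊆ S') : cs ends ω S x ≤ cs ends ω' S' x := by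
  unfold cs
  exact_mod_cast Finset.card_le_card (cl_mono hω hS)

open scoped Classical in
/-- Pointwise form of the first exit inequality. -/
lemma exit_pointwise (ω : E → Bool) (S : Set V) (o : V) (ho : o ∈ S) (out : E → V)
    (hout : ∀ e x y, ends e = s(x, y) → x ∈ S → y ∉ S → y = out e) :
    cs ends ω Set.univ o ≤ cs ends ω S o + ∑ e, (if ω e = true then 1 else 0) *
      ((if Bd ends (cl ends ω S o) S e then 1 else 0) *
        cs ends ω ((cl ends ω S o : Finset V) : Set V)ᶜ (out e)) := by
  have hsub : cl ends ω Set.univ o ⊆ cl ends ω S o ∪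
      (Finset.univ.filter (fun e => ω e = true ∧ Bd ends (cl ends ω S o) S e)).biUnion
        (fun e => cl ends ω ((cl ends ω S o : Finset V) : Set V)ᶜ (out e)) := by
    intro z hz
    rw [mem_cl] at hz
    rw [Finset.mem_union, mem_cl, Finset.mem_biUnion]
    rcases exit_decomp ho hz with h | ⟨e, x, y, h1, h2, h3, h4, h5⟩
    · exact Or.inl h
    · right
      refine ⟨e, ?_, ?_⟩
      · rw [Finset.mem_filter]
        refine ⟨Finset.mem_univ _, h4, x, y, h1, ?_, h3⟩
        rw [Finset.mem_coe, mem_cl]
        exact h2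
      · rw [mem_cl]
        have : y = out e := hout e x y h1 (h2.mem' ho) h3
        rw [← this]
        have hset : {w | ¬ Rch ends ω S o w} = ((cl ends ω S o : Finset V) : Set V)ᶜ := by
          ext w
          simp only [Set.mem_compl_iff, Finset.mem_coe, mem_cl]
          rfl
        rw [← hset]
        exact h5
  have hc := Finset.card_le_card hsub
  have hc2 := hc.trans (Finset.card_union_le _ _)
  have hc3 := hc2.trans (Nat.add_le_add_left (Finset.card_biUnion_le) _)
  have hc4 : cs ends ω Set.univ o ≤ cs ends ω S o +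
      ∑ e ∈ Finset.univ.filter (fun e => ω e = true ∧ Bd ends (cl ends ω S o) S e),
        cs ends ω ((cl ends ω S o : Finset V) : Set V)ᶜ (out e) := by
    unfold cs
    exact_mod_cast hc3
  refine hc4.trans (add_le_add le_rfl ?_)
  rw [Finset.sum_filter]
  apply le_of_eq
  refine Finset.sum_congr rfl fun e _ => ?_
  by_cases h1 : ω e = true <;> by_cases h2 : Bd ends (cl ends ω S o) S e <;> simp [h1, h2]

open scoped Classical in
/-- The first exit inequality `χ ≤ χ_S + φ_p(S) χ`. -/
lemma exit_ineq (p χ : ℝ) (h0 : 0 ≤ p) (h1 : p ≤ 1) (S : Set V) (o : V) (ho : o ∈ S)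
    (hχ : ∀ y, Ex p (fun ω => cs ends ω Set.univ y) ≤ χ) :
    Ex p (fun ω => cs ends ω Set.univ o) ≤ Ex p (fun ω => cs ends ω S o) +
      p * χ * ∑ e, Ex p (fun ω => if Bd ends (cl ends ω S o) S e then 1 else 0) := by
  choose out hout using fun e => exists_out ends o S e
  have hχ0 : 0 ≤ χ := le_trans (Ex_nonneg h0 h1 fun ω => cs_nonneg ω _ _) (hχ o)
  refine (Ex_mono h0 h1 fun ω => exit_pointwise ω S o ho out hout).trans ?_
  rw [Ex_add, Ex_sum, Finset.mul_sum]
  refine add_le_add le_rfl (Finset.sum_le_sum fun e _ => ?_)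
  -- decompose according to the cluster inside `S`
  have hdec : ∀ ω : E → Bool, (if ω e = true then (1 : ℝ) else 0) *
      ((if Bd ends (cl ends ω S o) S e then 1 else 0) *
        cs ends ω ((cl ends ω S o : Finset V) : Set V)ᶜ (out e)) =
      ∑ A : Finset V, (if cl ends ω S o = A then 1 else 0) * ((if ω e = true then (1 : ℝ) else 0) *
        ((if Bd ends (A : Set V) S e then 1 else 0) * cs ends ω ((A : Set V))ᶜ (out e))) := by
    intro ω
    rw [Finset.sum_eq_single (cl ends ω S o)]
    · simp
    · intro A _ hA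
      rw [if_neg (Ne.symm hA), zero_mul]
    · intro h
      exact absurd (Finset.mem_univ _) h
  rw [Ex_congr hdec, Ex_sum]
  have hdec2 : ∀ ω : E → Bool, (if Bd ends (cl ends ω S o) S e then (1 : ℝ) else 0) =
      ∑ A : Finset V, (if cl ends ω S o = A then 1 else 0) *
        (if Bd ends (A : Set V) S e then 1 else 0) := by
    intro ω
    rw [Finset.sum_eq_single (cl ends ω S o)]
    · simp
    · intro A _ hA
      rw [if_neg (Ne.symm hA), zero_mul]
    · intro h
      exact absurd (Finset.mem_univ _) h
  rw [Ex_congr hdec2, Ex_sum, Finset.mul_sum]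
  refine Finset.sum_le_sum fun A _ => ?_
  by_cases hB : Bd ends (A : Set V) S e
  · by_cases hAS : (A : Set V) ⊆ S
    · obtain ⟨x, y, he, hx, hy⟩ := hB
      -- the edges inside `S` touching `A`
      set D : Set E := {e' | ∃ a b, ends e' = s(a, b) ∧ a ∈ S ∧ b ∈ S ∧ a ∈ A} with hD
      have heD : e ∉ D := by
        rintro ⟨a, b, h2, h3, h4, h5⟩
        rw [he] at h2
        rcases Sym2.eq_iff.1 h2 with ⟨rfl, rfl⟩ | ⟨rfl, rfl⟩
        · exact hy h4
        · exact hy h3
      have hBd : (if Bd ends (A : Set V) S e then (1 : ℝ) else 0) = 1 :=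
        if_pos ⟨x, y, he, hx, hy⟩
      rw [Ex_indep p D (fun ω => if cl ends ω S o = A then (1 : ℝ) else 0)]
      · have hsimp : ∀ ω : E → Bool, (if ω e = true then (1 : ℝ) else 0) *
            ((if Bd ends (A : Set V) S e then 1 else 0) * cs ends ω ((A : Set V))ᶜ (out e)) =
            (if ω e = true then (1 : ℝ) else 0) * cs ends ω ((A : Set V))ᶜ (out e) := by
          intro ω
          rw [hBd, one_mul]
        rw [Ex_congr hsimp, Ex_coord]
        · have h3 : Ex p (fun ω => cs ends ω ((A : Set V))ᶜ (out e)) ≤ χ :=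
            (Ex_mono h0 h1 fun ω => cs_mono (fun _ h => h) (Set.subset_univ _)).trans (hχ (out e))
          have h4 : Ex p (fun ω => (if cl ends ω S o = A then (1 : ℝ) else 0) *
              (if Bd ends (A : Set V) S e then 1 else 0)) =
              Ex p (fun ω => if cl ends ω S o = A then (1 : ℝ) else 0) := by
            apply Ex_congr
            intro ω
            rw [hBd, mul_one]
          rw [h4]
          have h5 : 0 ≤ Ex p (fun ω => if cl ends ω S o = A then (1 : ℝ) else 0) :=
            Ex_nonneg h0 h1 fun ω => by split_ifs <;> norm_num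
          calc _ ≤ Ex p (fun ω => if cl ends ω S o = A then (1 : ℝ) else 0) * (p * χ) :=
                mul_le_mul_of_nonneg_left (mul_le_mul_of_nonneg_left h3 h0) h5
            _ = _ := by ring
        · intro ω ω' h
          unfold cs
          rw [cl_dep (S := ((A : Set V))ᶜ) (ω' := ω')]
          intro e' a b h2 h3 h4
          apply h
          rintro rfl
          rw [he] at h2
          rcases Sym2.eq_iff.1 h2 with ⟨rfl, rfl⟩ | ⟨rfl, rfl⟩
          · exact h3 hx
          · exact h4 hx
      · intro ω ω' h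
        have key : ∀ ω ω' : E → Bool, (∀ e ∈ D, ω e = ω' e) → cl ends ω S o = A →
            cl ends ω' S o = A := by
          intro ω ω' h hA
          exact cl_eq_dep (fun e' a b h2 h3 h4 h5 => h e' ⟨a, b, h2, h3, h4, h5⟩) hA
        by_cases hc : cl ends ω S o = A
        · rw [if_pos hc, if_pos (key ω ω' h hc)]
        · rw [if_neg hc, if_neg]
          intro hc'
          exact hc (key ω' ω (fun e he => (h e he).symm) hc')
      · intro ω ω' h
        rw [h e heD]
        congr 2
        unfold cs
        rw [cl_dep (S := ((A : Set V))ᶜ) (ω' := ω')]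
        intro e' a b h2 h3 h4
        apply h
        rintro ⟨a', b', h5, _, _, h8⟩
        rw [h2] at h5
        rcases Sym2.eq_iff.1 h5 with ⟨rfl, rfl⟩ | ⟨rfl, rfl⟩
        · exact h3 h8
        · exact h4 h8
    · -- impossible cluster
      have hne : ∀ ω, cl ends ω S o ≠ A := by
        intro ω h
        apply hAS
        intro z hz
        rw [Finset.mem_coe, ← h, mem_cl] at hz
        exact hz.mem' ho
      have e1 : Ex p (fun ω => (if cl ends ω S o = A then (1 : ℝ) else 0) *
          ((if ω e = true then (1 : ℝ) else 0) *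
          ((if Bd ends (A : Set V) S e then 1 else 0) * cs ends ω ((A : Set V))ᶜ (out e)))) = 0 := by
        apply Ex_zero_of
        intro ω
        rw [if_neg (hne ω), zero_mul]
      rw [e1]
      apply mul_nonneg (mul_nonneg h0 hχ0)
      exact Ex_nonneg h0 h1 fun ω => by split_ifs <;> norm_num
  · have e1 : Ex p (fun ω => (if cl ends ω S o = A then (1 : ℝ) else 0) *
          ((if ω e = true then (1 : ℝ) else 0) *
          ((if Bd ends (A : Set V) S e then 1 else 0) * cs ends ω ((A : Set V))ᶜ (out e)))) = 0 := by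
      apply Ex_zero_of
      intro ω
      rw [if_neg hB, zero_mul, mul_zero, mul_zero]
    rw [e1]
    apply mul_nonneg (mul_nonneg h0 hχ0)
    exact Ex_nonneg h0 h1 fun ω => by split_ifs <;> norm_num

end Pool.Agent.PERC29
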