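import Mathlib

set_option autoImplicit false

namespace Pool.Agent.PERC29

open scoped Classical in
/-- Bond percolation on the finite graph `G`: the expectation of `X` when every edge is open
(`ω e = true`) independently with probability `p`. -/
noncomputable def expect {V : Type} [Fintype V] (G : SimpleGraph V) (p : ℝ)
    (X : (G.edgeSet → Bool) → ℝ) : ℝ :=
  ∑ ω : G.edgeSet → Bool, (∏ e, if ω e = true then p else 1 - p) * X ω

open scoped Classical in
/-- The probability of the event `A`. -/
noncomputable def prob {V : Type} [Fintype V] (G : SimpleGraph V) (p : ℝ)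
    (A : (G.edgeSet → Bool) → Prop) : ℝ :=
  expect G p (fun ω => if A ω then 1 else 0)

/-- The graph of the open edges. -/
def openGraph {V : Type} (G : SimpleGraph V) (ω : G.edgeSet → Bool) : SimpleGraph V :=
  SimpleGraph.fromEdgeSet {s | ∃ h : s ∈ G.edgeSet, ω ⟨s, h⟩ = true}

/-- The number of vertices of the open cluster of `x`. -/
noncomputable def clusterSize {V : Type} (G : SimpleGraph V) (ω : G.edgeSet → Bool) (x : V) : ℕ :=
  Nat.card {y : V // (openGraph G ω).Reachable x y}

/-- The number of vertices of the largest open cluster. -/
noncomputable def maxCluster {V : Type} [Fintype V] (G : SimpleGraph V)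
    (ω : G.edgeSet → Bool) : ℕ :=
  Finset.univ.sup (fun x => clusterSize G ω x)

/-- The susceptibility: the expected size of the cluster of `o`. -/
noncomputable def chi {V : Type} [Fintype V] (G : SimpleGraph V) (p : ℝ) (o : V) : ℝ :=
  expect G p (fun ω => (clusterSize G ω o : ℝ))

/-- The two-point function: the probability that `x` and `y` are joined by an open path. -/
noncomputable def tau {V : Type} [Fintype V] (G : SimpleGraph V) (p : ℝ) (x y : V) : ℝ :=
  prob G p (fun ω => (openGraph G ω).Reachable x y)

/-- The square diagram `∑_u (∑_z τ(o,z) τ(z,u))²`. -/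
noncomputable def square {V : Type} [Fintype V] (G : SimpleGraph V) (p : ℝ) (o : V) : ℝ :=
  ∑ u, (∑ z, tau G p o z * tau G p z u) ^ 2

open scoped Classical in
/-- The `n`-fold convolution of the two-point function: the entry at `x, y` of the `n`-th power of
the matrix `τ`. -/
noncomputable def conv {V : Type} [Fintype V] (G : SimpleGraph V) (p : ℝ) : ℕ → V → V → ℝ
  | 0, x, y => if x = y then 1 else 0
  | n + 1, x, y => ∑ z, conv G p n x z * tau G p z y

end Pool.Agent.PERC29
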