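import Mathlib

set_option autoImplicit false
set_option linter.unusedSectionVars false

open Finset

namespace Pool.Agent.PERC29

variable {E : Type*} [Fintype E] [DecidableEq E]

/-- The weight of a configuration. -/
noncomputable def wt (p : ℝ) (ω : E → Bool) : ℝ := ∏ e, (if ω e = true then p else 1 - p)

/-- The expectation of `f`, all coordinates independent and `true` with probability `p`. -/
noncomputable def Ex (p : ℝ) (f : (E → Bool) → ℝ) : ℝ := ∑ ω, wt p ω * f ω

lemma wt_nonneg {p : ℝ} (h0 : 0 ≤ p) (h1 : p ≤ 1) (ω : E → Bool) : 0 ≤ wt p ω := by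
  unfold wt
  apply Finset.prod_nonneg
  intro e _
  split_ifs
  · exact h0
  · linarith

lemma sum_wt_gen {ι : Type*} [Fintype ι] [DecidableEq ι] (p : ℝ) :
    ∑ a : ι → Bool, ∏ i, (if a i = true then p else 1 - p) = 1 := by
  have h := (Finset.prod_univ_sum (fun _ : ι => (Finset.univ : Finset Bool))
    (fun _ b => if b = true then p else 1 - p))
  rw [Fintype.piFinset_univ] at h
  rw [← h]
  simp

lemma Ex_const (p c : ℝ) : Ex (E := E) p (fun _ => c) = c := by
  unfold Ex wt
  rw [← Finset.sum_mul, sum_wt_gen, one_mul]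

lemma Ex_add (p : ℝ) (f g : (E → Bool) → ℝ) : Ex p (fun ω => f ω + g ω) = Ex p f + Ex p g := by
  unfold Ex
  rw [← Finset.sum_add_distrib]
  exact Finset.sum_congr rfl fun ω _ => by ring

lemma Ex_mul_left (p c : ℝ) (f : (E → Bool) → ℝ) : Ex p (fun ω => c * f ω) = c * Ex p f := by
  unfold Ex
  rw [Finset.mul_sum]
  exact Finset.sum_congr rfl fun ω _ => by ring

lemma Ex_sum {ι : Type*} (s : Finset ι) (p : ℝ) (f : ι → (E → Bool) → ℝ) :
    Ex p (fun ω => ∑ i ∈ s, f i ω) = ∑ i ∈ s, Ex p (f i) := by
  unfold Ex
  rw [Finset.sum_comm]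
  exact Finset.sum_congr rfl fun ω _ => by rw [Finset.mul_sum]

lemma Ex_mono {p : ℝ} (h0 : 0 ≤ p) (h1 : p ≤ 1) {f g : (E → Bool) → ℝ} (h : ∀ ω, f ω ≤ g ω) :
    Ex p f ≤ Ex p g := by
  unfold Ex
  exact Finset.sum_le_sum fun ω _ => mul_le_mul_of_nonneg_left (h ω) (wt_nonneg h0 h1 ω)

lemma Ex_congr {p : ℝ} {f g : (E → Bool) → ℝ} (h : ∀ ω, f ω = g ω) : Ex p f = Ex p g := by
  unfold Ex
  exact Finset.sum_congr rfl fun ω _ => by rw [h ω]

lemma Ex_zero_of {p : ℝ} {f : (E → Bool) → ℝ} (h : ∀ ω, f ω = 0) : Ex p f = 0 := by
  unfold Ex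
  exact Finset.sum_eq_zero fun ω _ => by rw [h ω, mul_zero]

lemma Ex_nonneg {p : ℝ} (h0 : 0 ≤ p) (h1 : p ≤ 1) {f : (E → Bool) → ℝ} (h : ∀ ω, 0 ≤ f ω) :
    0 ≤ Ex p f := by
  have := Ex_mono h0 h1 (f := fun _ => (0 : ℝ)) (g := f) h
  rwa [Ex_const] at this

/-- Independence of functions of disjoint sets of coordinates. -/
lemma Ex_indep (p : ℝ) (D : Set E) [DecidablePred (· ∈ D)] (f g : (E → Bool) → ℝ)
    (hf : ∀ ω ω' : E → Bool, (∀ e ∈ D, ω e = ω' e) → f ω = f ω')
    (hg : ∀ ω ω' : E → Bool, (∀ e ∉ D, ω e = ω' e) → g ω = g ω') :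
    Ex p (fun ω => f ω * g ω) = Ex p f * Ex p g := by
  classical
  set q : E → Prop := fun e => e ∈ D
  set eqv := (Equiv.piEquivPiSubtypeProd q (fun _ => Bool))
  set F : ({e // q e} → Bool) → ℝ := fun a => f (eqv.symm (a, fun _ => false)) with hF
  set G : ({e // ¬ q e} → Bool) → ℝ := fun b => g (eqv.symm (fun _ => false, b)) with hG
  have hf' : ∀ a b, f (eqv.symm (a, b)) = F a := by
    intro a b
    apply hf
    intro e he
    simp [eqv, Equiv.piEquivPiSubtypeProd, q, he]
  have hg' : ∀ a b, g (eqv.symm (a, b)) = G b := by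
    intro a b
    apply hg
    intro e he
    simp [eqv, Equiv.piEquivPiSubtypeProd, q, he]
  have hw : ∀ a b, wt p (eqv.symm (a, b)) =
      (∏ i, (if a i = true then p else 1 - p)) * ∏ i, (if b i = true then p else 1 - p) := by
    intro a b
    unfold wt
    rw [← Fintype.prod_subtype_mul_prod_subtype q]
    congr 1
    · apply Finset.prod_congr rfl
      intro i _
      have : eqv.symm (a, b) i.1 = a i := by
        simp [eqv, Equiv.piEquivPiSubtypeProd, i.2]
      rw [this]
    · apply Finset.prod_congr rfl
      intro i _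
      have : eqv.symm (a, b) i.1 = b i := by
        simp [eqv, Equiv.piEquivPiSubtypeProd, i.2]
      rw [this]
  have key : ∀ h : (E → Bool) → ℝ, Ex p h = ∑ a, ∑ b,
      ((∏ i, (if a i = true then p else 1 - p)) * ∏ i, (if b i = true then p else 1 - p)) *
        h (eqv.symm (a, b)) := by
    intro h
    unfold Ex
    rw [← Equiv.sum_comp eqv.symm, Fintype.sum_prod_type]
    exact Finset.sum_congr rfl fun a _ => Finset.sum_congr rfl fun b _ => by rw [hw]
  have h1 : Ex p f = ∑ a, (∏ i, (if a i = true then p else 1 - p)) * F a := by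
    rw [key]
    refine Finset.sum_congr rfl fun a _ => ?_
    calc _ = ((∏ i, (if a i = true then p else 1 - p)) * F a) *
          ∑ b : {e // ¬ q e} → Bool, ∏ i, (if b i = true then p else 1 - p) := by
          rw [Finset.mul_sum]
          exact Finset.sum_congr rfl fun b _ => by rw [hf']; ring
      _ = _ := by rw [sum_wt_gen, mul_one]
  have h2 : Ex p g = ∑ b, (∏ i, (if b i = true then p else 1 - p)) * G b := by
    rw [key, Finset.sum_comm]
    refine Finset.sum_congr rfl fun b _ => ?_
    calc _ = ((∏ i, (if b i = true then p else 1 - p)) * G b) *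
          ∑ a : {e // q e} → Bool, ∏ i, (if a i = true then p else 1 - p) := by
          rw [Finset.mul_sum]
          exact Finset.sum_congr rfl fun a _ => by rw [hg']; ring
      _ = _ := by rw [sum_wt_gen, mul_one]
  rw [key, h1, h2, Finset.sum_mul_sum]
  exact Finset.sum_congr rfl fun a _ => Finset.sum_congr rfl fun b _ => by
    rw [hf', hg']; ring

/-- A coordinate is independent of the others. -/
lemma Ex_coord (p : ℝ) (e : E) (g : (E → Bool) → ℝ)
    (hg : ∀ ω ω' : E → Bool, (∀ e' ≠ e, ω e' = ω' e') → g ω = g ω') :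
    Ex p (fun ω => (if ω e = true then 1 else 0) * g ω) = p * Ex p g := by
  classical
  rw [Ex_indep p {e} (fun ω => if ω e = true then 1 else 0) g]
  · congr 1
    have h := Ex_indep p ({e} : Set E) (fun ω => if ω e = true then (1 : ℝ) else 0) (fun _ => 1)
      (fun ω ω' h => by rw [h e rfl]) (fun _ _ _ => rfl)
    -- compute directly
    unfold Ex wt
    have h3 : ∀ ω : E → Bool, (∏ e', (if ω e' = true then p else 1 - p)) *
        (if ω e = true then (1 : ℝ) else 0) =
        ∏ e', (if e' = e then (if ω e' = true then p else 0) else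
          (if ω e' = true then p else 1 - p)) := by
      intro ω
      rw [← Finset.mul_prod_erase _ _ (Finset.mem_univ e),
        ← Finset.mul_prod_erase (Finset.univ : Finset E)
          (fun e' => (if e' = e then (if ω e' = true then p else 0) else
          (if ω e' = true then p else 1 - p))) (Finset.mem_univ e)]
      have : ∏ x ∈ Finset.univ.erase e, (if x = e then (if ω x = true then p else 0) else
          (if ω x = true then p else 1 - p)) =
          ∏ x ∈ Finset.univ.erase e, (if ω x = true then p else 1 - p) := by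
        apply Finset.prod_congr rfl
        intro x hx
        rw [if_neg (Finset.ne_of_mem_erase hx)]
      rw [this]
      simp only [if_true]
      by_cases h : ω e = true <;> simp [h]
    rw [Finset.sum_congr rfl (fun ω _ => h3 ω)]
    have h4 := (Finset.prod_univ_sum (fun _ : E => (Finset.univ : Finset Bool))
      (fun e' b => if e' = e then (if b = true then p else 0) else
          (if b = true then p else 1 - p)))
    rw [Fintype.piFinset_univ] at h4
    rw [← h4, ← Finset.mul_prod_erase _ _ (Finset.mem_univ e)]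
    have : ∏ x ∈ Finset.univ.erase e, ∑ j : Bool, (if x = e then (if j = true then p else 0) else
          (if j = true then p else 1 - p)) = 1 := by
      apply Finset.prod_eq_one
      intro x hx
      simp [Finset.ne_of_mem_erase hx]
    rw [this]
    simp
  · intro ω ω' h
    simp only [h e rfl]
  · intro ω ω' h
    apply hg
    intro e' he'
    exact h e' he'

/-- Russo's formula. -/
lemma Ex_hasDerivAt (p : ℝ) (f : (E → Bool) → ℝ) (hp1 : p ≠ 1) :
    HasDerivAt (fun p => Ex p f) ((1 - p)⁻¹ * Ex p (fun ω => ∑ e, (if ω e = true then 0 else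
      f (Function.update ω e true) - f ω))) p := by
  classical
  have hd : ∀ ω : E → Bool, HasDerivAt (fun p => wt p ω * f ω)
      ((∑ e, (∏ e' ∈ Finset.univ.erase e, (if ω e' = true then p else 1 - p)) *
        (if ω e = true then 1 else -1)) * f ω) p := by
    intro ω
    apply HasDerivAt.mul_const
    unfold wt
    have h := HasDerivAt.fun_finsetProd (u := (Finset.univ : Finset E))
      (f := fun e (p : ℝ) => if ω e = true then p else 1 - p)
      (f' := fun e => if ω e = true then (1 : ℝ) else -1) (x := p) (by
        intro e _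
        by_cases he : ω e = true
        · simp only [he, if_true]
          exact hasDerivAt_id p
        · simp only [he]
          simpa using (hasDerivAt_id p).const_sub 1)
    simpa [smul_eq_mul] using h
  have hs := HasDerivAt.fun_sum (u := (Finset.univ : Finset (E → Bool)))
    (A := fun ω (p : ℝ) => wt p ω * f ω) (x := p) (fun ω _ => hd ω)
  unfold Ex
  suffices hEq : (1 - p)⁻¹ * ∑ ω, wt p ω * ∑ e, (if ω e = true then 0 else
      f (Function.update ω e true) - f ω) =
      ∑ ω : E → Bool, (∑ e, (∏ e' ∈ Finset.univ.erase e, (if ω e' = true then p else 1 - p)) *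
        (if ω e = true then (1 : ℝ) else -1)) * f ω by
    rw [hEq]
    exact hs
  have h1p : (1 - p) ≠ 0 := sub_ne_zero.mpr (Ne.symm hp1)
  have hL : (1 - p)⁻¹ * ∑ ω, wt p ω * ∑ e, (if ω e = true then 0 else
      f (Function.update ω e true) - f ω) = ∑ e, ∑ ω, (1 - p)⁻¹ * (wt p ω *
      (if ω e = true then 0 else f (Function.update ω e true) - f ω)) := by
    rw [Finset.sum_comm, Finset.mul_sum]
    refine Finset.sum_congr rfl fun ω _ => ?_
    rw [Finset.mul_sum, Finset.mul_sum]
  have hR : ∑ ω : E → Bool, (∑ e, (∏ e' ∈ Finset.univ.erase e, (if ω e' = true then p else 1 - p)) *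
        (if ω e = true then (1 : ℝ) else -1)) * f ω = ∑ e, ∑ ω : E → Bool,
        (∏ e' ∈ Finset.univ.erase e, (if ω e' = true then p else 1 - p)) *
        (if ω e = true then (1 : ℝ) else -1) * f ω := by
    rw [Finset.sum_comm]
    refine Finset.sum_congr rfl fun ω _ => ?_
    rw [Finset.sum_mul]
  rw [hL, hR]
  refine Finset.sum_congr rfl fun e _ => ?_
  -- fixed edge e : pair ω with update
  set P : (E → Bool) → ℝ := fun ω => ∏ e' ∈ Finset.univ.erase e, (if ω e' = true then p else 1 - p)
    with hP
  have hPu : ∀ ω b, P (Function.update ω e b) = P ω := by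
    intro ω b
    apply Finset.prod_congr rfl
    intro x hx
    rw [Function.update_of_ne (Finset.ne_of_mem_erase hx)]
  have hwP : ∀ ω, wt p ω = (if ω e = true then p else 1 - p) * P ω := by
    intro ω
    unfold wt
    rw [← Finset.mul_prod_erase _ _ (Finset.mem_univ e)]
  have hsplit : ∀ h : (E → Bool) → ℝ, ∑ ω, h ω =
      ∑ ω ∈ Finset.univ.filter (fun ω : E → Bool => ω e = false),
        (h ω + h (Function.update ω e true)) := by
    intro h
    rw [Finset.sum_add_distrib]
    rw [← Finset.sum_filter_add_sum_filter_not Finset.univ (fun ω : E → Bool => ω e = false)]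
    congr 1
    refine Finset.sum_bij' (fun ω _ => Function.update ω e false)
      (fun ω _ => Function.update ω e true) ?_ ?_ ?_ ?_ ?_
    · intro ω hω
      simp
    · intro ω hω
      simp
    · intro ω hω
      have h9 : ω e = true := by
        have h10 := (Finset.mem_filter.mp hω).2
        revert h10
        cases ω e <;> simp
      funext x
      by_cases hx : x = e
      · subst hx; simp [h9]
      · simp [Function.update_of_ne hx]
    · intro ω hω
      have h9 : ω e = false := (Finset.mem_filter.mp hω).2
      funext x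
      by_cases hx : x = e
      · subst hx; simp [h9]
      · simp [Function.update_of_ne hx]
    · intro ω hω
      have h9 : ω e = true := by
        have h10 := (Finset.mem_filter.mp hω).2
        revert h10
        cases ω e <;> simp
      congr 1
      funext x
      by_cases hx : x = e
      · subst hx; simp [h9]
      · simp [Function.update_of_ne hx]
  rw [hsplit, hsplit]
  refine Finset.sum_congr rfl fun ω hω => ?_
  have hωe : ω e = false := by simpa using hω
  have e1 := hPu ω true
  simp only [hP] at e1
  simp only [hωe, Function.update_self, hwP, hP, e1, Bool.false_eq_true, if_false, if_true]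
  field_simp
  ring

end Pool.Agent.PERC29
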