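import Pool.Agent.Lib.MP_29e17e_pr.Amp
import Pool.Agent.Lib.MP_29e17e_pr.Prb
import Pool.Agent.Lib.MP_29e17e_pr.Tree

set_option autoImplicit false
set_option linter.unusedSectionVars false

open Finset

namespace Pool.Agent.PERC29

variable {V : Type*} [Fintype V] [DecidableEq V] {E : Type*} [Fintype E] [DecidableEq E]
  {ends : E → Sym2 V}

open scoped Classical in
/-- The lower bound for the mean number of edges between distinct large clusters. -/
lemma ET_low {p χ W C h : ℝ} (h0 : 0 < p) (h1 : p < 1) (hW : 0 < W) (hC : 1 ≤ C)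
    (hh : 4608 * C ^ 4 * h = 1) (hχh : 1 ≤ h * χ) (hpW : p * W ≤ C)
    (hdeg : ∀ x, ∑ y, nb ends x y ≤ W)
    (hχ : ∀ x, Ex p (fun ω => cz ends ω x) = χ)
    (hmin : ∀ x, ∀ a : ℝ, 1 ≤ a → Ex p (fun ω => min (cz ends ω x) a) ≤ 3 * C * Real.sqrt a) :
    h ^ 2 * (Fintype.card V) * W ≤ 576 * C ^ 3 * χ ^ 2 * ET ends p ((h * χ) ^ 2) := by
  have hh0 : 0 < h := by
    by_contra hcon
    push Not at hcon
    have : 4608 * C ^ 4 * h ≤ 0 := mul_nonpos_of_nonneg_of_nonpos (by positivity) hcon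
    linarith
  have hχ0 : 0 < χ := by
    by_contra hcon
    push Not at hcon
    have : h * χ ≤ 0 := mul_nonpos_of_nonneg_of_nonpos hh0.le hcon
    linarith
  have hC4 : 1 ≤ C ^ 4 := one_le_pow₀ hC
  have hC2 : C ≤ C ^ 4 := le_self_pow₀ hC (by norm_num)
  have hCC : C ^ 2 ≤ C ^ 4 := pow_le_pow_right₀ hC (by norm_num)
  have hχbig : 4608 * C ^ 4 ≤ χ := by
    have e : 4608 * C ^ 4 * (h * χ) = χ := by
      rw [← mul_assoc, hh, one_mul]
    have : 4608 * C ^ 4 * 1 ≤ 4608 * C ^ 4 * (h * χ) :=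
      mul_le_mul_of_nonneg_left hχh (by positivity)
    linarith
  set N : ℝ := (Fintype.card V : ℝ) with hN
  have hN0 : 0 ≤ N := Nat.cast_nonneg _
  set n : ℝ := (χ / (6 * C)) ^ 2 with hn
  set M : ℝ := 18 * C ^ 2 / χ with hM
  have hC0 : 0 < C := by linarith
  have hMn : M * n = χ / 2 := by
    rw [hM, hn]
    field_simp
    ring
  have hsn : Real.sqrt n = χ / (6 * C) := by
    rw [hn]
    exact Real.sqrt_sq (by positivity)
  have hn1 : 1 ≤ n := by
    rw [hn]
    have : 1 ≤ χ / (6 * C) := by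
      rw [le_div_iff₀ (by positivity)]
      linarith
    exact one_le_pow₀ this
  have hM1 : M ≤ 1 / 10 := by
    rw [hM, div_le_iff₀ hχ0]
    linarith
  have hM0 : 0 < M := by rw [hM]; positivity
  have k0 : ∀ x, Ex p (fun ω => min (cz ends ω x) n) ≤ M * n := by
    intro x
    refine (hmin x n hn1).trans (le_of_eq ?_)
    rw [hsn, hMn]
    field_simp
    ring
  have k1 : N * χ ≤ 16 * p * M * Stwo ends p := by
    have e1 : ∑ o : V, χ ≤ ∑ o : V, 16 * p * M * Ex p (fun ω => ∑ e, if ω e = true then 0 else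
        Fn n (cz ends (Function.update ω e true) o) - Fn n (cz ends ω o)) :=
      Finset.sum_le_sum fun o _ => D_low h0.le h1.le hn1 o k0 hM1 (hχ o) hMn.le
    rw [← Finset.mul_sum] at e1
    have e2 : ∑ _o : V, χ = N * χ := by simp [hN]
    rw [e2] at e1
    refine e1.trans ?_
    apply mul_le_mul_of_nonneg_left (D_le h0.le h1.le n)
    positivity
  set a : ℝ := (h * χ) ^ 2 with ha
  have ha1 : 1 ≤ a := by rw [ha]; exact one_le_pow₀ hχh
  have hsa : Real.sqrt a = h * χ := by
    rw [ha]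
    exact Real.sqrt_sq (by positivity)
  set b : ℝ := χ ^ 2 / h with hb
  have hb0 : 0 < b := by positivity
  have k2 := S_le (ends := ends) (a := a) (b := b) (μ := 3 * C * (h * χ)) (ν := χ ^ 3) h0.le h1.le
    (by linarith) hb0 hdeg hχ (fun x => by rw [← hsa]; exact hmin x a ha1)
    (fun x => second_moment h0.le h1.le hχ x)
  have hET0 : 0 ≤ ET ends p a := by
    unfold ET
    refine Finset.sum_nonneg fun x _ => Finset.sum_nonneg fun y _ => ?_
    apply mul_nonneg (nb_nonneg x y)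
    apply Ex_nonneg h0.le h1.le
    intro ω
    split_ifs <;> norm_num
  have k3 : χ ^ 3 / b = h * χ := by
    rw [hb]
    field_simp
  rw [k3] at k2
  -- the remainder
  have k4 : 16 * p * M * (N * (W * (2 * χ * (3 * C * (h * χ) + h * χ)))) ≤ N * χ / 2 := by
    have e1 : 16 * p * M * (N * (W * (2 * χ * (3 * C * (h * χ) + h * χ)))) =
        (576 * C ^ 2 * h * (3 * C + 1)) * (p * W) * (N * χ) := by
      rw [hM]
      field_simp
      ring
    rw [e1]
    have e2 : 576 * C ^ 2 * h * (3 * C + 1) * (p * W) ≤ 1 / 2 := by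
      have f1 : 0 ≤ 576 * C ^ 2 * h * (3 * C + 1) := by positivity
      calc 576 * C ^ 2 * h * (3 * C + 1) * (p * W) ≤ 576 * C ^ 2 * h * (3 * C + 1) * C :=
            mul_le_mul_of_nonneg_left hpW f1
        _ ≤ 576 * C ^ 2 * h * (4 * C) * C := by
            apply mul_le_mul_of_nonneg_right _ hC0.le
            apply mul_le_mul_of_nonneg_left _ (by positivity)
            linarith
        _ = (4608 * C ^ 4 * h) / 2 := by ring
        _ = 1 / 2 := by rw [hh]
    have e3 : 0 ≤ N * χ := by positivity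
    have e4 := mul_le_mul_of_nonneg_right e2 e3
    linarith
  have k5 : N * χ ≤ 2 * (16 * p * M * (b ^ 2 * ET ends p a)) := by
    have f1 : 16 * p * M * Stwo ends p ≤ 16 * p * M * (b ^ 2 * ET ends p a +
        N * (W * (2 * χ * (3 * C * (h * χ) + h * χ)))) :=
      mul_le_mul_of_nonneg_left k2 (by positivity)
    rw [mul_add] at f1
    linarith
  have k6 : 2 * (16 * p * M * (b ^ 2 * ET ends p a)) * h ^ 2 =
      576 * C ^ 2 * p * χ ^ 3 * ET ends p a := by
    rw [hM, hb]
    field_simp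
    ring
  have k7 : N * h ^ 2 ≤ 576 * C ^ 2 * p * χ ^ 2 * ET ends p a := by
    have f1 : N * χ * h ^ 2 ≤ 576 * C ^ 2 * p * χ ^ 3 * ET ends p a := by
      rw [← k6]
      exact mul_le_mul_of_nonneg_right k5 (by positivity)
    have f2 : χ * (N * h ^ 2) ≤ χ * (576 * C ^ 2 * p * χ ^ 2 * ET ends p a) := by
      calc _ = N * χ * h ^ 2 := by ring
        _ ≤ _ := f1
        _ = _ := by ring
    exact le_of_mul_le_mul_left f2 hχ0
  calc h ^ 2 * N * W = W * (N * h ^ 2) := by ring
    _ ≤ W * (576 * C ^ 2 * p * χ ^ 2 * ET ends p a) := mul_le_mul_of_nonneg_left k7 hW.le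
    _ = (576 * C ^ 2 * χ ^ 2 * ET ends p a) * (p * W) := by ring
    _ ≤ (576 * C ^ 2 * χ ^ 2 * ET ends p a) * C :=
        mul_le_mul_of_nonneg_left hpW (by positivity)
    _ = _ := by ring

/-- The constants. -/
noncomputable def kh (C : ℝ) : ℝ := 1 / (4608 * C ^ 4)
noncomputable def ke (C : ℝ) : ℝ := kh C ^ 2 / (576 * C ^ 3)
noncomputable def kA (C : ℝ) : ℝ := 2 * C / (ke C * kh C ^ 4)
noncomputable def kB (C : ℝ) : ℝ := 384 * C / (kh C ^ 3 * ke C)
noncomputable def km (C : ℝ) : ℝ := ke C * kh C ^ 5 / (48 * kA C * C)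
noncomputable def kp (C : ℝ) : ℝ := ke C * kh C ^ 6 / (576 * kA C * C ^ 2)
noncomputable def kc (C : ℝ) : ℝ :=
  min (min (kh C / C) (ke C * kh C ^ 4 / (32 * kA C))) (min (1 / kB C) (km C))

lemma kh_pos {C : ℝ} (hC : 1 ≤ C) : 0 < kh C := by unfold kh; positivity
lemma ke_pos {C : ℝ} (hC : 1 ≤ C) : 0 < ke C := by
  have := kh_pos hC
  unfold ke; positivity
lemma kA_pos {C : ℝ} (hC : 1 ≤ C) : 0 < kA C := by
  have := kh_pos hC
  have := ke_pos hC
  unfold kA; positivity
lemma kB_pos {C : ℝ} (hC : 1 ≤ C) : 0 < kB C := by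
  have := kh_pos hC
  have := ke_pos hC
  unfold kB; positivity
lemma km_pos {C : ℝ} (hC : 1 ≤ C) : 0 < km C := by
  have := kh_pos hC
  have := ke_pos hC
  have := kA_pos hC
  unfold km; positivity
lemma kp_pos {C : ℝ} (hC : 1 ≤ C) : 0 < kp C := by
  have := kh_pos hC
  have := ke_pos hC
  have := kA_pos hC
  unfold kp; positivity
lemma kc_pos {C : ℝ} (hC : 1 ≤ C) : 0 < kc C := by
  have h1 := kh_pos hC
  have h2 := ke_pos hC
  have h3 := kA_pos hC
  have h4 := kB_pos hC
  have h5 := km_pos hC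
  unfold kc
  apply lt_min
  · apply lt_min <;> positivity
  · apply lt_min <;> positivity

open scoped Classical in
/-- With probability bounded below there is a large cluster after sprinkling. -/
theorem core {p χ W C : ℝ} (hC : 1 ≤ C) (h0 : 0 < p) (h1 : p < 1) (hW : 0 < W)
    [Nonempty V]
    (hpW : p * W ≤ C) (hdeg : ∀ x, ∑ y, nb ends x y ≤ W)
    (hχ : ∀ x, Ex p (fun ω => cz ends ω x) = χ)
    (hP : ∀ x y, ∀ a : ℝ, Ex p (fun ω => if a ≤ cz ends ω x then (1 : ℝ) else 0) =
      Ex p (fun ω => if a ≤ cz ends ω y then (1 : ℝ) else 0))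
    (hT : ∀ x, ∀ k : ℕ, 1 ≤ k → Ex p (fun ω => if (k : ℝ) ≤ cz ends ω x then (1 : ℝ) else 0) ≤
      C / Real.sqrt k)
    (hQ : ∀ x, sqd ends p x ≤ C * χ ^ 4 / (Fintype.card V))
    (hV : χ ^ 3 ≤ kc C * (Fintype.card V))
    (hs1 : kB C / (W * χ) ≤ 1) :
    kp C ≤ Ex (1 - (1 - p) * (1 - kB C / (W * χ))) (fm ends (km C * (Fintype.card V) / χ)) := by
  obtain ⟨o⟩ := ‹Nonempty V›
  have hC0 : 0 < C := by linarith
  set N : ℝ := (Fintype.card V : ℝ) with hN
  have hN0 : 0 < N := by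
    rw [hN]
    have : 0 < Fintype.card V := Fintype.card_pos_iff.2 ⟨o⟩
    exact_mod_cast this
  have hχ1 : 1 ≤ χ := by
    rw [← hχ o]
    have := Ex_mono h0.le h1.le (f := fun _ : E → Bool => (1 : ℝ))
      (g := fun ω => cz ends ω o) (fun ω => one_le_cz ω o)
    rwa [Ex_const] at this
  have hχ0 : 0 < χ := by linarith
  set h := kh C with hhdef
  set e0 := ke C with he0def
  set A := kA C with hAdef
  set B := kB C with hBdef
  set c := kc C with hcdef
  have hh0 : 0 < h := kh_pos hC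
  have he0 : 0 < e0 := ke_pos hC
  have hA0 : 0 < A := kA_pos hC
  have hB0 : 0 < B := kB_pos hC
  have hc0 : 0 < c := kc_pos hC
  have hc1 : c ≤ h / C := (min_le_left _ _).trans (min_le_left _ _)
  have hc2 : c ≤ e0 * h ^ 4 / (32 * A) := (min_le_left _ _).trans (min_le_right _ _)
  have hhC : 4608 * C ^ 4 * h = 1 := by
    rw [hhdef]
    unfold kh
    field_simp
  have he0C : e0 * (576 * C ^ 3) = h ^ 2 := by
    rw [he0def]
    unfold ke
    rw [← hhdef]
    field_simp
  have hAe : A * (e0 * h ^ 4) = 2 * C := by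
    rw [hAdef]
    unfold kA
    rw [← hhdef, ← he0def]
    field_simp
  have hBe : B * (h ^ 3 * e0) = 384 * C := by
    rw [hBdef]
    unfold kB
    rw [← hhdef, ← he0def]
    field_simp
  have hh1 : h ≤ 1 := by
    have h2 : 1 ≤ C ^ 4 := one_le_pow₀ hC
    have h3 := mul_le_mul_of_nonneg_right h2 hh0.le
    linarith
  -- the susceptibility is large
  have hχh : 1 ≤ h * χ := by
    have f1 : 1 ≤ C * χ ^ 4 / N := (one_le_sqd h0.le h1.le o).trans (hQ o)
    have f2 : N ≤ C * χ ^ 4 := by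
      rw [le_div_iff₀ hN0] at f1
      linarith
    have f3 : χ ^ 3 * C ≤ h * N := by
      have : c * N ≤ h / C * N := mul_le_mul_of_nonneg_right hc1 hN0.le
      have f4 : χ ^ 3 ≤ h / C * N := hV.trans this
      calc χ ^ 3 * C ≤ (h / C * N) * C := mul_le_mul_of_nonneg_right f4 hC0.le
        _ = h * N := by field_simp
    have f5 : χ ^ 3 * C ≤ h * (C * χ ^ 4) := f3.trans (mul_le_mul_of_nonneg_left f2 hh0.le)
    have f6 : (C * χ ^ 3) * 1 ≤ (C * χ ^ 3) * (h * χ) := by
      calc _ = χ ^ 3 * C := by ring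
        _ ≤ _ := f5
        _ = _ := by ring
    exact le_of_mul_le_mul_left f6 (by positivity)
  have hmin : ∀ x, ∀ a : ℝ, 1 ≤ a →
      Ex p (fun ω => min (cz ends ω x) a) ≤ 3 * C * Real.sqrt a :=
    fun x a ha => min_tail h0.le h1.le hC0.le x (hT x) ha
  have hET := ET_low (ends := ends) h0 h1 hW hC hhC hχh hpW hdeg hχ hmin
  rw [← hN] at hET
  set a : ℝ := (h * χ) ^ 2 with ha
  have ha1 : 1 ≤ a := by rw [ha]; exact one_le_pow₀ hχh
  have ha0 : 0 < a := by linarith
  have hsa : Real.sqrt a = h * χ := by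
    rw [ha]
    exact Real.sqrt_sq (by positivity)
  set τ : ℝ := e0 * N * W / (8 * χ ^ 2) with hτ
  have hτ0 : 0 < τ := by positivity
  set t : ℝ := A * W * χ ^ 4 / N with ht
  have ht0 : 0 < t := by positivity
  set ng : ℝ := 6 * C * N / (h ^ 3 * χ ^ 3) with hng
  have hng0 : 0 < ng := by positivity
  -- mean of the truncated edge count
  have hET' : 8 * τ ≤ ET ends p a := by
    have f1 : (576 * C ^ 3 * χ ^ 2) * (8 * τ) = h ^ 2 * N * W := by
      rw [hτ, ← he0C]
      field_simp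
    have f2 : (576 * C ^ 3 * χ ^ 2) * (8 * τ) ≤ (576 * C ^ 3 * χ ^ 2) * ET ends p a := by
      rw [f1]; exact hET
    exact le_of_mul_le_mul_left f2 (by positivity)
  have hΓ : ∑ x, ∑ u, Gf ends p x u ^ 2 ≤ C * χ ^ 6 := by
    calc ∑ x, ∑ u, Gf ends p x u ^ 2 ≤ ∑ _x : V, χ ^ 2 * (C * χ ^ 4 / N) :=
          Finset.sum_le_sum fun x _ => (Gf_sq h0.le h1.le hχ x).trans
            (mul_le_mul_of_nonneg_left (hQ x) (sq_nonneg _))
      _ = N * (χ ^ 2 * (C * χ ^ 4 / N)) := by simp [hN]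
      _ = C * χ ^ 6 := by field_simp
  have hmean : 4 * τ ≤ Ex p (fun ω => Tt ends ω a t) := by
    have f1 := Tt_mean (ends := ends) h0.le h1.le ha0 ht0 hdeg hΓ
    have f2 : (1 / (t * a ^ 2)) * (W ^ 2 * (C * χ ^ 6)) = 4 * τ := by
      have g1 : 2 * C = A * (e0 * h ^ 4) := hAe.symm
      have g2 : (1 / (t * a ^ 2)) * (W ^ 2 * (C * χ ^ 6)) =
          (2 * C) * N * W / (2 * A * h ^ 4 * χ ^ 2) := by
        rw [ht, ha]
        field_simp
      rw [g2, g1, hτ]
      field_simp
      ring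
    linarith
  -- tail of the number of large clusters
  set P : ℝ := Ex p (fun ω => if a ≤ cz ends ω o then (1 : ℝ) else 0) with hPdef
  have hPle : P * (h * χ) ≤ 3 * C := by
    have f1 : a * P ≤ Ex p (fun ω => min (cz ends ω o) a) := by
      rw [hPdef, ← Ex_mul_left]
      apply Ex_mono h0.le h1.le
      intro ω
      split_ifs with hif
      · rw [mul_one]
        exact le_min hif le_rfl
      · rw [mul_zero]
        exact le_min (cz_nonneg ω o) ha0.le
    have f2 := f1.trans (hmin o a ha1)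
    rw [hsa] at f2
    have f3 : (h * χ) * (P * (h * χ)) ≤ (h * χ) * (3 * C) := by
      calc (h * χ) * (P * (h * χ)) = a * P := by rw [ha]; ring
        _ ≤ _ := f2
        _ = _ := by ring
    exact le_of_mul_le_mul_left f3 (by positivity)
  have hngP : 2 * N * P ≤ a * ng := by
    have f1 : a * ng = 2 * N * (3 * C / (h * χ)) := by
      rw [ha, hng]
      field_simp
      ring
    rw [f1]
    apply mul_le_mul_of_nonneg_left _ (by positivity)
    rw [le_div_iff₀ (by positivity)]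
    exact hPle
  have hGC := GC_tail (ends := ends) (ng := ng) h0.le h1.le ha0 hχ
    (fun x => hP x o a) hngP
  have h32 : 32 * A * χ ^ 3 ≤ e0 * h ^ 4 * N := by
    have f1 : χ ^ 3 ≤ e0 * h ^ 4 / (32 * A) * N :=
      hV.trans (mul_le_mul_of_nonneg_right hc2 hN0.le)
    calc 32 * A * χ ^ 3 ≤ 32 * A * (e0 * h ^ 4 / (32 * A) * N) :=
          mul_le_mul_of_nonneg_left f1 (by positivity)
      _ = _ := by field_simp
  have htail : t * Ex p (fun ω => if ((GC ends ω a).card : ℝ) ≤ ng then (0 : ℝ) else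
      ((GC ends ω a).card : ℝ) ^ 2) ≤ τ := by
    refine (mul_le_mul_of_nonneg_left hGC ht0.le).trans ?_
    have f1 : t * (4 * N * χ / a ^ 2) = (4 * A * W * χ) / h ^ 4 := by
      rw [ht, ha]
      field_simp
    rw [← hN, f1, hτ, div_le_div_iff₀ (by positivity) (by positivity)]
    have f2 := mul_le_mul_of_nonneg_left h32 hW.le
    linarith [f2]
  have hgood := good_prob (ends := ends) h0.le h1.le ht0.le hτ0.le hmean htail
  set Pg : ℝ := Ex p (fun ω => if 2 * τ ≤ Tt ends ω a t ∧ ((GC ends ω a).card : ℝ) ≤ ng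
      then (1 : ℝ) else 0) with hPg
  -- sprinkling
  set s : ℝ := B / (W * χ) with hs
  have hs0 : 0 < s := by positivity
  set m : ℝ := km C * N / χ with hm'
  have hm : m = e0 * h ^ 5 * N / (48 * A * C * χ) := by
    rw [hm']
    unfold km
    rw [← hhdef, ← he0def, ← hAdef]
    field_simp
  have hm0 : 0 ≤ m := by rw [hm]; positivity
  have hτm : t * (m / a) * ng ≤ τ := by
    apply le_of_eq
    rw [ht, hm, ha, hng, hτ]
    field_simp
    ring
  have hng1 : 1 ≤ ng := by
    rw [hng, le_div_iff₀ (by positivity), one_mul]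
    have f1 : h ^ 3 ≤ 1 := pow_le_one₀ hh0.le hh1
    have f2 : χ ^ 3 ≤ N := by
      have : c * N ≤ 1 * N := by
        apply mul_le_mul_of_nonneg_right _ hN0.le
        refine hc1.trans ?_
        rw [div_le_one hC0]
        linarith
      linarith
    have f3 : h ^ 3 * χ ^ 3 ≤ 1 * χ ^ 3 := mul_le_mul_of_nonneg_right f1 (by positivity)
    have f4 : N ≤ 6 * C * N := by
      have := mul_le_mul_of_nonneg_right hC hN0.le
      linarith
    linarith
  have hsτ : ng + 1 ≤ s * τ / 4 := by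
    have f1 : s * τ / 4 = 2 * ng := by
      have g1 : s * τ / 4 = (B * (h ^ 3 * e0)) * N / (32 * h ^ 3 * χ ^ 3) := by
        rw [hs, hτ]
        field_simp
        ring
      rw [g1, hBe, hng]
      field_simp
      ring
    linarith
  have hspr := sprinkle_prob (ends := ends) h0.le h1.le hs0.le hs1 ha0 ht0.le hm0 hτm hsτ
  rw [← hPg] at hspr
  refine le_trans ?_ hspr
  have hPgl : e0 * h ^ 6 / (288 * A * C ^ 2) ≤ Pg := by
    have f1 : t * ng ^ 2 * (e0 * h ^ 6 / (288 * A * C ^ 2)) = τ := by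
      rw [ht, hng, hτ]
      field_simp
      ring
    have f2 : t * ng ^ 2 * (e0 * h ^ 6 / (288 * A * C ^ 2)) ≤ t * ng ^ 2 * Pg := by
      rw [f1]; exact hgood
    exact le_of_mul_le_mul_left f2 (by positivity)
  have hkp : kp C = 1 / 2 * (e0 * h ^ 6 / (288 * A * C ^ 2)) := by
    unfold kp
    rw [← hhdef, ← he0def, ← hAdef]
    field_simp
    ring
  rw [hkp]
  linarith

end Pool.Agent.PERC29
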