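import Pool.Agent.Lib.MP_29e17e_pr.Dct

set_option autoImplicit false
set_option linter.unusedSectionVars false

open Finset

namespace Pool.Agent.PERC29

variable {V : Type*} [Fintype V] [DecidableEq V] {E : Type*} [Fintype E] [DecidableEq E]
  (ends : E → Sym2 V)

/-- `x` is joined to the set `B`. -/
def Conn (ω : E → Bool) (B : Finset V) (x : V) : Prop := ∃ b ∈ B, Rch ends ω Set.univ b x

open scoped Classical in
/-- The set of vertices not joined to `B`. -/
noncomputable def SS (ω : E → Bool) (B : Finset V) : Finset V :=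
  Finset.univ.filter (fun w => ¬ Conn ends ω B w)

variable {ends}

lemma mem_SS {ω : E → Bool} {B : Finset V} {w : V} : w ∈ SS ends ω B ↔ ¬ Conn ends ω B w := by
  classical
  simp [SS]

lemma SS_dep {ω ω' : E → Bool} {B S : Finset V}
    (h : ∀ e, (¬ ∃ a b, ends e = s(a, b) ∧ a ∈ S ∧ b ∈ S) → ω e = ω' e)
    (hS : SS ends ω B = S) : SS ends ω' B = S := by
  have h1 := reach_dep (ends := ends) (ω := ω) (ω' := ω') (S := Set.univ) (B := (B : Set V))
    (A := ((S : Set V))ᶜ)
    (by
      intro z
      rw [Set.mem_compl_iff, Finset.mem_coe, ← hS, mem_SS, not_not]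
      rfl)
    (by
      intro e a b h1 _ _ h4
      apply h
      rintro ⟨a', b', h5, h6, h7⟩
      rw [h1] at h5
      rcases Sym2.eq_iff.1 h5 with ⟨rfl, rfl⟩ | ⟨rfl, rfl⟩
      · exact h4 h6
      · exact h4 h7)
  ext z
  rw [mem_SS]
  have h2 := h1 z
  rw [Set.mem_compl_iff, Finset.mem_coe] at h2
  unfold Conn
  constructor
  · intro h3
    by_contra h4
    exact h3 (h2.2 h4)
  · intro h3 h4
    exact h2.1 h4 h3

open scoped Classical in
/-- The number of edges joining the cluster of `o` to the vertices joined to `B`. -/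
noncomputable def brd (ends : E → Sym2 V) (ω : E → Bool) (B : Finset V) (o : V) : ℝ :=
  ∑ e, (if ∃ x y, ends e = s(x, y) ∧ Rch ends ω Set.univ o x ∧ Conn ends ω B y then (1 : ℝ) else 0)

open scoped Classical in
/-- The Duminil-Copin and Tassion inequality for a fixed set `B`. -/
lemma dct_B (p χ : ℝ) (h0 : 0 ≤ p) (h1 : p ≤ 1) (B : Finset V) (o : V)
    (hχ : ∀ y, Ex p (fun ω => cs ends ω Set.univ y) ≤ χ)
    (hχo : χ ≤ Ex p (fun ω => cs ends ω Set.univ o)) :
    χ * Ex p (fun ω => if Conn ends ω B o then 0 else 1) ≤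
      Ex p (fun ω => (if Conn ends ω B o then 0 else 1) * cs ends ω Set.univ o) +
      p * χ * Ex p (fun ω => (if Conn ends ω B o then 0 else 1) * brd ends ω B o) := by
  have hdec : ∀ (g : (E → Bool) → ℝ) (ω : E → Bool), (if Conn ends ω B o then 0 else 1) * g ω =
      ∑ S : Finset V, (if o ∈ S then (1 : ℝ) else 0) * (g ω * (if SS ends ω B = S then 1 else 0)) := by
    intro g ω
    rw [Finset.sum_eq_single (SS ends ω B)]
    · by_cases h : Conn ends ω B o
      · have : o ∉ SS ends ω B := by rw [mem_SS]; exact not_not.2 h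
        simp [h, this]
      · have : o ∈ SS ends ω B := by rw [mem_SS]; exact h
        simp [h, this]
    · intro S _ hS
      rw [if_neg (Ne.symm hS)]
      ring
    · intro h
      exact absurd (Finset.mem_univ _) h
  have hA : Ex p (fun ω => if Conn ends ω B o then 0 else 1) =
      ∑ S : Finset V, (if o ∈ S then (1 : ℝ) else 0) *
        Ex p (fun ω => (if SS ends ω B = S then 1 else 0)) := by
    have e1 : ∀ ω : E → Bool, (if Conn ends ω B o then (0 : ℝ) else 1) =
        ∑ S : Finset V, (if o ∈ S then (1 : ℝ) else 0) * (if SS ends ω B = S then 1 else 0) := by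
      intro ω
      have := hdec (fun _ => 1) ω
      simpa using this
    rw [Ex_congr e1, Ex_sum]
    exact Finset.sum_congr rfl fun S _ => by rw [Ex_mul_left]
  have hgen : ∀ g : (E → Bool) → ℝ, Ex p (fun ω => (if Conn ends ω B o then 0 else 1) * g ω) =
      ∑ S : Finset V, (if o ∈ S then (1 : ℝ) else 0) *
        Ex p (fun ω => g ω * (if SS ends ω B = S then 1 else 0)) := by
    intro g
    rw [Ex_congr (hdec g), Ex_sum]
    exact Finset.sum_congr rfl fun S _ => by rw [Ex_mul_left]
  rw [hA, hgen (fun ω => cs ends ω Set.univ o), hgen (fun ω => brd ends ω B o), Finset.mul_sum,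
    Finset.mul_sum, ← Finset.sum_add_distrib]
  refine Finset.sum_le_sum fun S _ => ?_
  by_cases ho : o ∈ S
  swap
  · simp [ho]
  simp only [ho, if_true, one_mul]
  have hI0 : 0 ≤ Ex p (fun ω => if SS ends ω B = S then (1 : ℝ) else 0) :=
    Ex_nonneg h0 h1 fun ω => by split_ifs <;> norm_num
  have hexit := hχo.trans (exit_ineq (ends := ends) p χ h0 h1 (S : Set V) o ho hχ)
  set D : Set E := {e | ∃ a b, ends e = s(a, b) ∧ a ∈ S ∧ b ∈ S} with hD
  have hgdep : ∀ ω ω' : E → Bool, (∀ e ∉ D, ω e = ω' e) →
      (if SS ends ω B = S then (1 : ℝ) else 0) = (if SS ends ω' B = S then 1 else 0) := by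
    intro ω ω' h
    by_cases hc : SS ends ω B = S
    · rw [if_pos hc, if_pos (SS_dep (fun e he => h e he) hc)]
    · rw [if_neg hc, if_neg]
      intro hc'
      exact hc (SS_dep (fun e he => (h e he).symm) hc')
  have hcl : ∀ ω ω' : E → Bool, (∀ e ∈ D, ω e = ω' e) →
      cl ends ω (S : Set V) o = cl ends ω' (S : Set V) o := by
    intro ω ω' h
    apply cl_dep
    intro e a b h2 h3 h4
    exact h e ⟨a, b, h2, h3, h4⟩
  -- independence
  have hind1 : Ex p (fun ω => cs ends ω (S : Set V) o * (if SS ends ω B = S then 1 else 0)) =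
      Ex p (fun ω => cs ends ω (S : Set V) o) * Ex p (fun ω => if SS ends ω B = S then 1 else 0) :=
    Ex_indep p D _ _ (fun ω ω' h => by unfold cs; rw [hcl ω ω' h]) hgdep
  have hind2 : ∀ e, Ex p (fun ω => (if Bd ends (cl ends ω (S : Set V) o) (S : Set V) e then 1 else 0) *
      (if SS ends ω B = S then 1 else 0)) =
      Ex p (fun ω => if Bd ends (cl ends ω (S : Set V) o) (S : Set V) e then 1 else 0) *
        Ex p (fun ω => if SS ends ω B = S then 1 else 0) := by
    intro e
    exact Ex_indep p D _ _ (fun ω ω' h => by rw [hcl ω ω' h]) hgdep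
  -- on the event `SS = S` the clusters agree
  have hag : ∀ ω, SS ends ω B = S → cl ends ω Set.univ o = cl ends ω (S : Set V) o := by
    intro ω hω
    ext z
    rw [mem_cl, mem_cl]
    apply inside (B := (B : Set V))
    · intro w
      rw [Finset.mem_coe, ← hω, mem_SS]
      rfl
    · exact ho
  have hag1 : Ex p (fun ω => cs ends ω Set.univ o * (if SS ends ω B = S then 1 else 0)) =
      Ex p (fun ω => cs ends ω (S : Set V) o * (if SS ends ω B = S then 1 else 0)) := by
    apply Ex_congr
    intro ω
    by_cases h : SS ends ω B = S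
    · unfold cs
      rw [hag ω h]
    · rw [if_neg h, mul_zero, mul_zero]
  have hag2 : Ex p (fun ω => brd ends ω B o * (if SS ends ω B = S then 1 else 0)) =
      ∑ e, Ex p (fun ω => (if Bd ends (cl ends ω (S : Set V) o) (S : Set V) e then 1 else 0) *
      (if SS ends ω B = S then 1 else 0)) := by
    rw [← Ex_sum]
    apply Ex_congr
    intro ω
    unfold brd
    rw [Finset.sum_mul]
    refine Finset.sum_congr rfl fun e _ => ?_
    by_cases h : SS ends ω B = S
    · congr 1
      apply if_congr _ rfl rfl
      unfold Bd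
      constructor
      · rintro ⟨x, y, h2, h3, h4⟩
        refine ⟨x, y, h2, ?_, ?_⟩
        · rw [Finset.mem_coe, ← hag ω h, mem_cl]
          exact h3
        · rw [Finset.mem_coe, ← h, mem_SS, not_not]
          exact h4
      · rintro ⟨x, y, h2, h3, h4⟩
        refine ⟨x, y, h2, ?_, ?_⟩
        · rw [Finset.mem_coe, ← hag ω h, mem_cl] at h3
          exact h3
        · rw [Finset.mem_coe, ← h, mem_SS, not_not] at h4
          exact h4
    · rw [if_neg h, mul_zero, mul_zero]
  rw [hag1, hag2, hind1, Finset.sum_congr rfl fun e _ => hind2 e, ← Finset.sum_mul]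
  calc _ ≤ (Ex p (fun ω => cs ends ω (S : Set V) o) +
      p * χ * ∑ e, Ex p (fun ω => if Bd ends (cl ends ω (S : Set V) o) (S : Set V) e then 1 else 0)) *
      Ex p (fun ω => if SS ends ω B = S then (1 : ℝ) else 0) :=
        mul_le_mul_of_nonneg_right hexit hI0
    _ = _ := by ring

open scoped Classical in
/-- Opening an edge counted by `brd` joins `o` to `B`. -/
lemma brd_le (ω : E → Bool) (B : Finset V) (o : V) :
    (if Conn ends ω B o then 0 else 1) * brd ends ω B o ≤
      ∑ e, (if ω e = true then 0 else
        ((if Conn ends (Function.update ω e true) B o then (1 : ℝ) else 0) -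
          (if Conn ends ω B o then 1 else 0))) := by
  have hmono : ∀ e, Conn ends ω B o → Conn ends (Function.update ω e true) B o := by
    rintro e ⟨b, hb, h⟩
    refine ⟨b, hb, h.mono ?_ le_rfl⟩
    intro e' he'
    by_cases h1 : e' = e
    · subst h1; simp
    · rw [Function.update_of_ne h1]; exact he'
  by_cases hc : Conn ends ω B o
  · rw [if_pos hc, zero_mul]
    apply Finset.sum_nonneg
    intro e _
    rw [if_pos (hmono e hc)]
    split_ifs <;> norm_num
  · rw [if_neg hc, one_mul]
    unfold brd
    refine Finset.sum_le_sum fun e _ => ?_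
    by_cases h : ∃ x y, ends e = s(x, y) ∧ Rch ends ω Set.univ o x ∧ Conn ends ω B y
    · rw [if_pos h]
      obtain ⟨x, y, h1, h2, b, hb, h3⟩ := h
      have hω : ¬ ω e = true := by
        intro he
        apply hc
        refine ⟨b, hb, h3.trans ?_⟩
        have hs : Step ends ω Set.univ y x := ⟨trivial, trivial, e, he, by rw [h1, Sym2.eq_swap]⟩
        exact Relation.ReflTransGen.head hs h2.symm
      have hnew : Conn ends (Function.update ω e true) B o := by
        have hm : ∀ e', ω e' = true → Function.update ω e true e' = true := by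
          intro e' he'
          by_cases h4 : e' = e
          · subst h4; simp
          · rw [Function.update_of_ne h4]; exact he'
        refine ⟨b, hb, (h3.mono hm le_rfl).trans ?_⟩
        have hs : Step ends (Function.update ω e true) Set.univ y x :=
          ⟨trivial, trivial, e, by simp, by rw [h1, Sym2.eq_swap]⟩
        exact Relation.ReflTransGen.head hs (h2.symm.mono hm le_rfl)
      rw [if_neg hω, if_pos hnew, if_neg hc]
      norm_num
    · rw [if_neg h]
      split_ifs <;> norm_num

end Pool.Agent.PERC29
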