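import Pool.Agent.Lib.MP_29e17e_pr.Tree

set_option autoImplicit false
set_option linter.unusedSectionVars false

open Finset

namespace Pool.Agent.PERC29

variable {V : Type*} [Fintype V] [DecidableEq V] {E : Type*} [Fintype E] [DecidableEq E]
  {ends : E → Sym2 V}

/-- The elementary inequality. -/
lemma one_sub_pow {p C : ℝ} (h0 : 0 ≤ p) (h1 : p ≤ 1) (n : ℕ) (h : p * n ≤ C) (hC : 0 ≤ C) :
    p * n / (1 + C) ≤ 1 - (1 - p) ^ n := by
  have hn : (0 : ℝ) ≤ p * n := mul_nonneg h0 (Nat.cast_nonneg n)
  have h2 : 1 + (n : ℝ) * p ≤ (1 + p) ^ n := one_add_mul_le_pow (by linarith) n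
  have h3 : (1 - p) ^ n * (1 + p) ^ n ≤ 1 := by
    rw [← mul_pow]
    exact pow_le_one₀ (by nlinarith) (by nlinarith)
  have h4 : 0 ≤ (1 - p) ^ n := pow_nonneg (by linarith) n
  have h5 : (1 - p) ^ n * (1 + p * n) ≤ 1 := by
    have := mul_le_mul_of_nonneg_left h2 h4
    nlinarith
  have h6 : (1 - p) ^ n ≤ 1 := pow_le_one₀ (by linarith) (by linarith)
  rw [div_le_iff₀ (by linarith)]
  nlinarith [mul_nonneg (sub_nonneg.2 h6) (sub_nonneg.2 h)]

open scoped Classical in
/-- The edges at `y` whose other end is joined to `z` by a path which avoids `y`. -/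
noncomputable def Ss (ends : E → Sym2 V) (ω : E → Bool) (y z : V) : Finset E :=
  Finset.univ.filter (fun e => ∃ y', y' ≠ y ∧ ends e = s(y, y') ∧ y' ∈ cl ends ω {y}ᶜ z)

/-- The probability to be joined to `z` through one of these edges. -/
lemma Ss_prob {p : ℝ} (h0 : 0 ≤ p) (h1 : p ≤ 1) (y z : V) (hyz : z ≠ y) :
    1 - Ex p (fun ω => (1 - p) ^ (Ss ends ω y z).card) ≤ ta ends p y z := by
  classical
  set D : Set E := {e | ∃ y', ends e = s(y, y')} with hD
  have hdep : ∀ ω ω' : E → Bool, (∀ e ∉ D, ω e = ω' e) → Ss ends ω y z = Ss ends ω' y z := by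
    intro ω ω' h
    unfold Ss
    have e1 : cl ends ω {y}ᶜ z = cl ends ω' {y}ᶜ z := by
      apply cl_dep
      intro e a b he ha hb
      apply h
      rintro ⟨y', hy'⟩
      rw [he] at hy'
      rcases Sym2.eq_iff.1 hy' with ⟨rfl, -⟩ | ⟨-, rfl⟩
      · exact ha rfl
      · exact hb rfl
    rw [e1]
  have hpt : ∀ ω : E → Bool, 1 - (if z ∈ cu ends ω y then (1 : ℝ) else 0) ≤
      ∑ X : Finset E, (if ∀ e ∈ X, ω e = false then (1 : ℝ) else 0) *
        (if Ss ends ω y z = X then (1 : ℝ) else 0) := by
    intro ω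
    rw [Finset.sum_eq_single (Ss ends ω y z)]
    · rw [if_pos rfl, mul_one]
      by_cases hz : z ∈ cu ends ω y
      · rw [if_pos hz]
        split_ifs <;> norm_num
      · rw [if_neg hz, if_pos]
        · norm_num
        · intro e he
          unfold Ss at he
          rw [Finset.mem_filter] at he
          obtain ⟨-, y', -, h3, h4⟩ := he
          by_contra hcon
          have hopen : ω e = true := by simpa using hcon
          apply hz
          rw [mem_cu]
          rw [mem_cl] at h4
          have h5 : Rch ends ω Set.univ z y' := h4.mono (fun _ h => h) (Set.subset_univ _)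
          exact (Relation.ReflTransGen.single ⟨trivial, trivial, e, hopen, h3⟩ :
            Rch ends ω Set.univ y y').trans h5.symm
    · intro X _ hX
      rw [if_neg (Ne.symm hX), mul_zero]
    · intro h
      exact absurd (Finset.mem_univ _) h
  have hE := Ex_mono h0 h1 hpt
  have e1 : Ex p (fun ω => 1 - (if z ∈ cu ends ω y then (1 : ℝ) else 0)) = 1 - ta ends p y z := by
    have : ∀ ω : E → Bool, 1 - (if z ∈ cu ends ω y then (1 : ℝ) else 0) =
        1 + (-1) * (if z ∈ cu ends ω y then (1 : ℝ) else 0) := by intro ω; ring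
    rw [Ex_congr this, Ex_add, Ex_const, Ex_mul_left]
    unfold ta
    ring
  rw [e1, Ex_sum] at hE
  have e2 : ∀ X : Finset E, Ex p (fun ω => (if ∀ e ∈ X, ω e = false then (1 : ℝ) else 0) *
        (if Ss ends ω y z = X then (1 : ℝ) else 0)) =
      Ex p (fun ω => (1 - p) ^ X.card * (if Ss ends ω y z = X then (1 : ℝ) else 0)) := by
    intro X
    by_cases hX : ∀ e ∈ X, e ∈ D
    · rw [Ex_indep p D, Ex_closed, Ex_mul_left]
      · intro ω ω' h
        apply if_congr _ rfl rfl
        constructor
        · intro h2 e he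
          rw [← h e (hX e he)]
          exact h2 e he
        · intro h2 e he
          rw [h e (hX e he)]
          exact h2 e he
      · intro ω ω' h
        rw [hdep ω ω' h]
    · have hne : ∀ ω : E → Bool, Ss ends ω y z ≠ X := by
        intro ω hω
        apply hX
        intro e he
        rw [← hω] at he
        unfold Ss at he
        rw [Finset.mem_filter] at he
        obtain ⟨-, y', -, h3, -⟩ := he
        exact ⟨y', h3⟩
      apply Ex_congr
      intro ω
      rw [if_neg (hne ω), mul_zero, mul_zero]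
  rw [Finset.sum_congr rfl fun X _ => e2 X, ← Ex_sum] at hE
  have e3 : ∀ ω : E → Bool, ∑ X : Finset E, (1 - p) ^ X.card *
      (if Ss ends ω y z = X then (1 : ℝ) else 0) = (1 - p) ^ (Ss ends ω y z).card := by
    intro ω
    rw [Finset.sum_eq_single (Ss ends ω y z)]
    · rw [if_pos rfl, mul_one]
    · intro X _ hX
      rw [if_neg (Ne.symm hX), mul_zero]
    · intro h
      exact absurd (Finset.mem_univ _) h
  rw [Ex_congr e3] at hE
  linarith

private lemma H1_other {y a b : V} (h : s(y, a) = s(y, b)) : a = b := by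
  rcases Sym2.eq_iff.1 h with ⟨_, h⟩ | ⟨h1, h2⟩
  · exact h
  · rw [h2, h1]

/-- a sum over the other end of the edge has at most one term -/
private lemma H1_one (e : E) (y : V) (P : V → Prop) [DecidablePred P] {q : ℝ} (hq : 0 ≤ q)
    (h : ∀ y', ends e = s(y, y') → P y' → 1 ≤ q) :
    ∑ y', (if ends e = s(y, y') then (1 : ℝ) else 0) * (if P y' then 1 else 0) ≤ q := by
  by_cases hex : ∃ y', ends e = s(y, y') ∧ P y'
  · obtain ⟨y', h1, h2⟩ := hex
    rw [Finset.sum_eq_single y']
    · rw [if_pos h1, if_pos h2]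
      simpa using h y' h1 h2
    · intro b _ hb
      rw [if_neg, zero_mul]
      intro h3
      exact hb (H1_other (h3.symm.trans h1))
    · intro h3
      exact absurd (Finset.mem_univ _) h3
  · refine le_trans (le_of_eq (Finset.sum_eq_zero fun y' _ => ?_)) hq
    by_cases h1 : ends e = s(y, y')
    · rw [if_neg (c := P y') fun h2 => hex ⟨y', h1, h2⟩, mul_zero]
    · rw [if_neg h1, zero_mul]

private lemma H1_sum (y : V) (P : V → Prop) [DecidablePred P] :
    ∑ y', nb ends y y' * (if P y' then 1 else 0) =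
      ∑ e, ∑ y', (if ends e = s(y, y') then (1 : ℝ) else 0) * (if P y' then 1 else 0) := by
  rw [Finset.sum_comm]
  refine Finset.sum_congr rfl fun y' _ => ?_
  unfold nb
  rw [Finset.sum_mul]

/-- every path to `z` avoids `y` if `z` is not joined to `y` -/
private lemma H1_avoid {ω : E → Bool} {y z y' : V} (hz : z ∉ cu ends ω y)
    (h : z ∈ cu ends ω y') : y' ∈ cl ends ω {y}ᶜ z := by
  rw [mem_cu] at hz h
  rw [mem_cl]
  have h' : Rch ends ω Set.univ z y' := h.symm
  clear h
  induction h' with
  | refl => exact Rch.refl z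
  | @tail b c hb hbc ih =>
    have hb' : b ≠ y := by
      rintro rfl
      exact hz (Rch.symm hb)
    have hc' : c ≠ y := by
      rintro rfl
      exact hz (Rch.symm (Relation.ReflTransGen.tail hb hbc))
    obtain ⟨-, -, e, h3, h4⟩ := hbc
    exact Relation.ReflTransGen.tail ih ⟨hb', hc', e, h3, h4⟩

private lemma H1_card (ω : E → Bool) (y z : V) [DecidablePred (· ∈ Ss ends ω y z)] :
    ((Ss ends ω y z).card : ℝ) = ∑ e, if e ∈ Ss ends ω y z then 1 else 0 := by
  rw [Finset.sum_boole]
  congr 2
  ext e
  simp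

/-- Pointwise comparison. -/
lemma Ss_card {W : ℝ} (hdeg : ∀ x, ∑ y, nb ends x y ≤ W) (ω : E → Bool) (y z : V) (hyz : z ≠ y) :
    (((Ss ends ω y z).card : ℝ) ≤ W) ∧
    (∑ y', nb ends y y' * (if z ∈ cu ends ω y' then 1 else 0) ≤
      (Ss ends ω y z).card + W * (if z ∈ cu ends ω y then 1 else 0)) := by
  classical
  constructor
  · refine le_trans ?_ (hdeg y)
    have h1 : ∑ y', nb ends y y' = ∑ e, ∑ y', (if ends e = s(y, y') then (1 : ℝ) else 0) := by
      rw [Finset.sum_comm]
      rfl
    rw [H1_card, h1]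
    refine Finset.sum_le_sum fun e _ => ?_
    split_ifs with he
    · obtain ⟨y', -, h2, -⟩ := (Finset.mem_filter.1 he).2
      calc (1 : ℝ) = if ends e = s(y, y') then (1 : ℝ) else 0 := (if_pos h2).symm
        _ ≤ _ := Finset.single_le_sum (f := fun y' => if ends e = s(y, y') then (1 : ℝ) else 0)
          (fun _ _ => by split_ifs <;> norm_num) (Finset.mem_univ y')
    · exact Finset.sum_nonneg fun _ _ => by split_ifs <;> norm_num
  · by_cases hz : z ∈ cu ends ω y
    · rw [if_pos hz, mul_one]
      refine le_trans ?_ (le_add_of_nonneg_left (Nat.cast_nonneg _))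
      refine le_trans (Finset.sum_le_sum fun y' _ => ?_) (hdeg y)
      have := nb_nonneg (ends := ends) y y'
      split_ifs
      · rw [mul_one]
      · rw [mul_zero]; exact this
    · rw [if_neg hz, mul_zero, add_zero, H1_sum, H1_card]
      refine Finset.sum_le_sum fun e _ => ?_
      refine H1_one e y (fun y' => z ∈ cu ends ω y') (by split_ifs <;> norm_num) ?_
      intro y' h1 h2
      rw [if_pos]
      have h3 := H1_avoid hz h2
      refine Finset.mem_filter.2 ⟨Finset.mem_univ e, y', ?_, h1, h3⟩
      rintro rfl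
      exact hz h2

/-- The two-point function at the neighbours is bounded by the two-point function. -/
lemma harnack {p W C : ℝ} (h0 : 0 ≤ p) (h1 : p ≤ 1) (hC : 0 ≤ C)
    (hdeg : ∀ x, ∑ y, nb ends x y ≤ W) (hpW : p * W ≤ C) (y z : V) :
    p * ∑ y', nb ends y y' * ta ends p y' z ≤ (1 + 2 * C) * ta ends p y z := by
  classical
  by_cases hyz : z = y
  · subst hyz
    rw [ta_self, mul_one]
    have h2 : ∑ y', nb ends z y' * ta ends p y' z ≤ W := by
      refine le_trans (Finset.sum_le_sum fun y' _ => ?_) (hdeg z)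
      have h3 : ta ends p y' z ≤ 1 := by
        have := Ex_mono h0 h1 (f := fun ω => if z ∈ cu ends ω y' then (1 : ℝ) else 0)
          (g := fun _ => (1 : ℝ)) (fun ω => by split_ifs <;> norm_num)
        rwa [Ex_const] at this
      calc nb ends z y' * ta ends p y' z ≤ nb ends z y' * 1 :=
            mul_le_mul_of_nonneg_left h3 (nb_nonneg _ _)
        _ = _ := mul_one _
    have h4 := mul_le_mul_of_nonneg_left h2 h0
    linarith
  · have h2 : ∑ y', nb ends y y' * ta ends p y' z ≤
        Ex p (fun ω => ((Ss ends ω y z).card : ℝ)) + W * ta ends p y z := by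
      have e1 : ∑ y', nb ends y y' * ta ends p y' z =
          Ex p (fun ω => ∑ y', nb ends y y' * (if z ∈ cu ends ω y' then 1 else 0)) := by
        rw [Ex_sum]
        refine Finset.sum_congr rfl fun y' _ => ?_
        rw [Ex_mul_left]
        rfl
      have e2 : W * ta ends p y z =
          Ex p (fun ω => W * (if z ∈ cu ends ω y then 1 else 0)) := by
        rw [Ex_mul_left]
        rfl
      rw [e1, e2, ← Ex_add]
      exact Ex_mono h0 h1 fun ω => (Ss_card hdeg ω y z hyz).2
    have h3 : p * Ex p (fun ω => ((Ss ends ω y z).card : ℝ)) ≤ (1 + C) * ta ends p y z := by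
      have h4 := Ss_prob (ends := ends) h0 h1 y z hyz
      have h5 : p / (1 + C) * Ex p (fun ω => ((Ss ends ω y z).card : ℝ)) ≤
          1 - Ex p (fun ω => (1 - p) ^ (Ss ends ω y z).card) := by
        rw [← Ex_mul_left]
        have e3 : 1 - Ex p (fun ω => (1 - p) ^ (Ss ends ω y z).card) =
            Ex p (fun ω => 1 + (-1) * (1 - p) ^ (Ss ends ω y z).card) := by
          rw [Ex_add, Ex_const, Ex_mul_left]
          ring
        rw [e3]
        refine Ex_mono h0 h1 fun ω => ?_
        have h6 := one_sub_pow h0 h1 (Ss ends ω y z).card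
          ((mul_le_mul_of_nonneg_left (Ss_card hdeg ω y z hyz).1 h0).trans hpW) hC
        calc p / (1 + C) * ((Ss ends ω y z).card : ℝ) = p * ((Ss ends ω y z).card : ℝ) / (1 + C) := by
              ring
          _ ≤ 1 - (1 - p) ^ (Ss ends ω y z).card := h6
          _ = _ := by ring
      have h7 : 0 < 1 + C := by linarith
      have h8 := mul_le_mul_of_nonneg_left (h5.trans h4) h7.le
      have e4 : (1 + C) * (p / (1 + C) * Ex p (fun ω => ((Ss ends ω y z).card : ℝ))) =
          p * Ex p (fun ω => ((Ss ends ω y z).card : ℝ)) := by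
        field_simp
      rw [e4] at h8
      exact h8
    have h9 := mul_le_mul_of_nonneg_left h2 h0
    have h10 := mul_le_mul_of_nonneg_right hpW (ta_nonneg (ends := ends) h0 h1 y z)
    nlinarith

end Pool.Agent.PERC29
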