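import Pool.Agent.Lib.MP_29e17e_pr.Two

set_option autoImplicit false
set_option linter.unusedSectionVars false

open Finset

namespace Pool.Agent.PERC29

variable {V : Type*} [Fintype V] [DecidableEq V] {E : Type*} [Fintype E] [DecidableEq E]
  {ends : E → Sym2 V}

open scoped Classical in
/-- Nested product: the cluster of the first point inside `S`, then the clusters of the other points
inside the rest of `S`. -/
noncomputable def JJ (ends : E → Sym2 V) (ω : E → Bool) :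
    List (V × (Finset V → ℝ)) → Set V → ℝ
  | [], _ => 1
  | a :: L, S => if a.1 ∈ S then a.2 (cl ends ω S a.1) * JJ ends ω L (S \ (cl ends ω S a.1 : Set V))
      else 0

/-- The nested product only depends on the edges inside `S`. -/
lemma JJ_dep {ω ω' : E → Bool} (L : List (V × (Finset V → ℝ))) (S : Set V)
    (h : ∀ e a b, ends e = s(a, b) → a ∈ S → b ∈ S → ω e = ω' e) :
    JJ ends ω L S = JJ ends ω' L S := by
  induction L generalizing S with
  | nil => rfl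
  | cons a L ih =>
    have hcl : cl ends ω S a.1 = cl ends ω' S a.1 := cl_dep h
    unfold JJ
    rw [hcl, ih (S \ (cl ends ω' S a.1 : Set V)) fun e x y he hx hy => h e x y he hx.1 hy.1]

private lemma J1_prod_nonneg {p : ℝ} (h0 : 0 ≤ p) (h1 : p ≤ 1) (L : List (V × (Finset V → ℝ)))
    (hL : ∀ a ∈ L, (∀ A, 0 ≤ a.2 A) ∧ (∀ A B, A ⊆ B → a.2 A ≤ a.2 B)) :
    0 ≤ (L.map (fun a => Ex p (fun ω => a.2 (cu ends ω a.1)))).prod := by
  apply List.prod_nonneg
  intro x hx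
  rw [List.mem_map] at hx
  obtain ⟨a, ha, rfl⟩ := hx
  exact Ex_nonneg h0 h1 fun ω => (hL a ha).1 _

/-- The mean of the nested product. -/
lemma JJ_le {p : ℝ} (h0 : 0 ≤ p) (h1 : p ≤ 1) (L : List (V × (Finset V → ℝ)))
    (hL : ∀ a ∈ L, (∀ A, 0 ≤ a.2 A) ∧ (∀ A B, A ⊆ B → a.2 A ≤ a.2 B)) (S : Set V) :
    Ex p (fun ω => JJ ends ω L S) ≤ (L.map (fun a => Ex p (fun ω => a.2 (cu ends ω a.1)))).prod := by
  classical
  induction L generalizing S with
  | nil =>
    have e1 : ∀ ω : E → Bool, JJ ends ω [] S = 1 := fun ω => rfl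
    rw [Ex_congr e1, Ex_const, List.map_nil, List.prod_nil]
  | cons a L ih =>
    have hL' : ∀ b ∈ L, (∀ A, 0 ≤ b.2 A) ∧ (∀ A B, A ⊆ B → b.2 A ≤ b.2 B) :=
      fun b hb => hL b (List.mem_cons_of_mem _ hb)
    have hP := J1_prod_nonneg (ends := ends) h0 h1 L hL'
    have ha := hL a List.mem_cons_self
    have hE : 0 ≤ Ex p (fun ω => a.2 (cu ends ω a.1)) := Ex_nonneg h0 h1 fun ω => ha.1 _
    rw [List.map_cons, List.prod_cons]
    by_cases haS : a.1 ∈ S
    · have hdec : ∀ ω : E → Bool, JJ ends ω (a :: L) S =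
          ∑ A : Finset V, (if cl ends ω S a.1 = A then (1 : ℝ) else 0) *
            (a.2 A * JJ ends ω L (S \ (A : Set V))) := by
        intro ω
        rw [Finset.sum_eq_single (cl ends ω S a.1)]
        · rw [if_pos rfl, one_mul]
          conv_lhs => unfold JJ
          rw [if_pos haS]
        · intro A _ hA
          rw [if_neg (Ne.symm hA), zero_mul]
        · intro hh
          exact absurd (Finset.mem_univ _) hh
      have hdec2 : ∀ ω : E → Bool, a.2 (cl ends ω S a.1) =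
          ∑ A : Finset V, (if cl ends ω S a.1 = A then (1 : ℝ) else 0) * a.2 A := by
        intro ω
        rw [Finset.sum_eq_single (cl ends ω S a.1)]
        · rw [if_pos rfl, one_mul]
        · intro A _ hA
          rw [if_neg (Ne.symm hA), zero_mul]
        · intro hh
          exact absurd (Finset.mem_univ _) hh
      have hcl : Ex p (fun ω => a.2 (cl ends ω S a.1)) ≤ Ex p (fun ω => a.2 (cu ends ω a.1)) :=
        Ex_mono h0 h1 fun ω => ha.2 _ _ (cl_mono (fun _ h => h) (Set.subset_univ _))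
      refine le_trans ?_ (mul_le_mul_of_nonneg_right hcl hP)
      rw [Ex_congr hdec, Ex_sum, Ex_congr hdec2, Ex_sum, Finset.sum_mul]
      refine Finset.sum_le_sum fun A _ => ?_
      have hI : 0 ≤ Ex p (fun ω => (if cl ends ω S a.1 = A then (1 : ℝ) else 0) * a.2 A) :=
        Ex_nonneg h0 h1 fun ω => mul_nonneg (by split_ifs <;> norm_num) (ha.1 A)
      set D : Set E := {e | ∃ x y, ends e = s(x, y) ∧ x ∈ S ∧ y ∈ S ∧ x ∈ A} with hD
      have e1 : ∀ ω : E → Bool, (if cl ends ω S a.1 = A then (1 : ℝ) else 0) *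
          (a.2 A * JJ ends ω L (S \ (A : Set V))) =
          ((if cl ends ω S a.1 = A then (1 : ℝ) else 0) * a.2 A) *
            JJ ends ω L (S \ (A : Set V)) := by
        intro ω
        ring
      rw [Ex_congr e1, Ex_indep p D]
      · exact mul_le_mul_of_nonneg_left (ih hL' _) hI
      · intro ω ω' hh
        have key : ∀ ω ω' : E → Bool, (∀ e ∈ D, ω e = ω' e) → cl ends ω S a.1 = A →
            cl ends ω' S a.1 = A := by
          intro ω ω' hh hA
          exact cl_eq_dep (fun e' x y h2 h3 h4 h5 => hh e' ⟨x, y, h2, h3, h4, h5⟩) hA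
        by_cases hc : cl ends ω S a.1 = A
        · rw [if_pos hc, if_pos (key ω ω' hh hc)]
        · rw [if_neg hc, if_neg]
          intro hc'
          exact hc (key ω' ω (fun e he => (hh e he).symm) hc')
      · intro ω ω' hh
        apply JJ_dep
        intro e' x y h2 h3 h4
        apply hh
        rintro ⟨x', y', h5, -, -, h8⟩
        rw [h2] at h5
        rcases Sym2.eq_iff.1 h5 with ⟨rfl, rfl⟩ | ⟨rfl, rfl⟩
        · exact h3.2 h8
        · exact h4.2 h8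
    · have e1 : ∀ ω : E → Bool, JJ ends ω (a :: L) S = 0 := by
        intro ω
        unfold JJ
        rw [if_neg haS]
      rw [Ex_zero_of e1]
      exact mul_nonneg hE hP

private lemma J2_nonneg {ω : E → Bool} (L : List (V × (Finset V → ℝ)))
    (hL : ∀ a ∈ L, ∀ A, 0 ≤ a.2 A) : ∀ S : Set V, 0 ≤ JJ ends ω L S := by
  classical
  induction L with
  | nil => intro S; rw [JJ]; exact zero_le_one
  | cons a L ih =>
    intro S
    rw [JJ]
    split_ifs
    · exact mul_nonneg (hL a List.mem_cons_self _)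
        (ih (fun b hb => hL b (List.mem_cons_of_mem _ hb)) _)
    · exact le_rfl

private lemma J2_cl {ω : E → Bool} {S : Set V}
    (hS : ∀ w w', Rch ends ω Set.univ w w' → w ∈ S → w' ∈ S) {o : V} (ho : o ∈ S) :
    cl ends ω S o = cu ends ω o := by
  ext z
  rw [mem_cl, mem_cu]
  refine (inside (B := Sᶜ) (fun w => ⟨fun hw => ?_, fun hw => ?_⟩) ho).symm
  · rintro ⟨b, hb, hbw⟩
    exact hb (hS w b hbw.symm hw)
  · by_contra h
    exact hw ⟨w, h, Rch.refl w⟩

private lemma J2_closed {ω : E → Bool} {S : Set V}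
    (hS : ∀ w w', Rch ends ω Set.univ w w' → w ∈ S → w' ∈ S) (o : V) :
    ∀ w w', Rch ends ω Set.univ w w' → w ∈ S \ (cu ends ω o : Set V) →
      w' ∈ S \ (cu ends ω o : Set V) := by
  rintro w w' h ⟨h1, h2⟩
  refine ⟨hS w w' h h1, fun h3 => h2 ?_⟩
  rw [Finset.mem_coe, mem_cu] at h3 ⊢
  exact h3.trans h.symm

private lemma J2_step {ω : E → Bool} {S : Set V}
    (hS : ∀ w w', Rch ends ω Set.univ w w' → w ∈ S → w' ∈ S) {o : V} (ho : o ∈ S)
    (Φ : Finset V → ℝ) (L : List (V × (Finset V → ℝ))) :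
    JJ ends ω ((o, Φ) :: L) S =
      Φ (cu ends ω o) * JJ ends ω L (S \ (cu ends ω o : Set V)) := by
  classical
  rw [JJ, if_pos ho, J2_cl hS ho]

private lemma J2_univ {ω : E → Bool} :
    ∀ w w', Rch ends ω Set.univ w w' → w ∈ (Set.univ : Set V) → w' ∈ (Set.univ : Set V) :=
  fun _ _ _ _ => Set.mem_univ _

/-- Three clusters. -/
lemma three {p : ℝ} (h0 : 0 ≤ p) (h1 : p ≤ 1) (x y z : V) (Φ Ψ Θ : Finset V → ℝ)
    (hΦ : ∀ A, 0 ≤ Φ A) (hΨ : ∀ A, 0 ≤ Ψ A) (hΘ : ∀ A, 0 ≤ Θ A)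
    (mΦ : ∀ A B, A ⊆ B → Φ A ≤ Φ B) (mΨ : ∀ A B, A ⊆ B → Ψ A ≤ Ψ B)
    (mΘ : ∀ A B, A ⊆ B → Θ A ≤ Θ B) :
    Ex p (fun ω => (if y ∈ cu ends ω x then 0 else 1) * ((if z ∈ cu ends ω x then 0 else 1) *
      ((if z ∈ cu ends ω y then 0 else 1) *
      (Φ (cu ends ω x) * (Ψ (cu ends ω y) * Θ (cu ends ω z)))))) ≤
      Ex p (fun ω => Φ (cu ends ω x)) * (Ex p (fun ω => Ψ (cu ends ω y)) *
        Ex p (fun ω => Θ (cu ends ω z))) := by
  have h := JJ_le (ends := ends) h0 h1 [(x, Φ), (y, Ψ), (z, Θ)] (by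
    intro a ha
    simp only [List.mem_cons, List.not_mem_nil, or_false] at ha
    rcases ha with rfl | rfl | rfl
    · exact ⟨hΦ, mΦ⟩
    · exact ⟨hΨ, mΨ⟩
    · exact ⟨hΘ, mΘ⟩) Set.univ
  simp only [List.map_cons, List.map_nil, List.prod_cons, List.prod_nil, mul_one] at h
  refine le_trans (Ex_mono h0 h1 fun ω => ?_) h
  have hn : 0 ≤ JJ ends ω [(x, Φ), (y, Ψ), (z, Θ)] Set.univ := J2_nonneg _ (by
    intro a ha
    simp only [List.mem_cons, List.not_mem_nil, or_false] at ha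
    rcases ha with rfl | rfl | rfl
    · exact hΦ
    · exact hΨ
    · exact hΘ) _
  by_cases hyx : y ∈ cu ends ω x
  · rw [if_pos hyx, zero_mul]; exact hn
  by_cases hzx : z ∈ cu ends ω x
  · rw [if_pos hzx, zero_mul, mul_zero]; exact hn
  by_cases hzy : z ∈ cu ends ω y
  · rw [if_pos hzy, zero_mul, mul_zero, mul_zero]; exact hn
  have c1 := J2_closed (J2_univ (ends := ends) (ω := ω)) x
  have c2 := J2_closed c1 y
  rw [if_neg hyx, if_neg hzx, if_neg hzy, one_mul, one_mul, one_mul,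
    J2_step J2_univ (Set.mem_univ _), J2_step c1 ⟨Set.mem_univ _, hyx⟩,
    J2_step c2 ⟨⟨Set.mem_univ _, hzx⟩, hzy⟩, JJ, mul_one]

/-- Four clusters. -/
lemma four {p : ℝ} (h0 : 0 ≤ p) (h1 : p ≤ 1) (x y z w : V) (Φ Ψ Θ Ξ : Finset V → ℝ)
    (hΦ : ∀ A, 0 ≤ Φ A) (hΨ : ∀ A, 0 ≤ Ψ A) (hΘ : ∀ A, 0 ≤ Θ A) (hΞ : ∀ A, 0 ≤ Ξ A)
    (mΦ : ∀ A B, A ⊆ B → Φ A ≤ Φ B) (mΨ : ∀ A B, A ⊆ B → Ψ A ≤ Ψ B)
    (mΘ : ∀ A B, A ⊆ B → Θ A ≤ Θ B) (mΞ : ∀ A B, A ⊆ B → Ξ A ≤ Ξ B) :
    Ex p (fun ω => (if y ∈ cu ends ω x then 0 else 1) * ((if z ∈ cu ends ω x then 0 else 1) *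
      ((if w ∈ cu ends ω x then 0 else 1) * ((if z ∈ cu ends ω y then 0 else 1) *
      ((if w ∈ cu ends ω y then 0 else 1) * ((if w ∈ cu ends ω z then 0 else 1) *
      (Φ (cu ends ω x) * (Ψ (cu ends ω y) * (Θ (cu ends ω z) * Ξ (cu ends ω w)))))))))) ≤
      Ex p (fun ω => Φ (cu ends ω x)) * (Ex p (fun ω => Ψ (cu ends ω y)) *
        (Ex p (fun ω => Θ (cu ends ω z)) * Ex p (fun ω => Ξ (cu ends ω w)))) := by
  have h := JJ_le (ends := ends) h0 h1 [(x, Φ), (y, Ψ), (z, Θ), (w, Ξ)] (by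
    intro a ha
    simp only [List.mem_cons, List.not_mem_nil, or_false] at ha
    rcases ha with rfl | rfl | rfl | rfl
    · exact ⟨hΦ, mΦ⟩
    · exact ⟨hΨ, mΨ⟩
    · exact ⟨hΘ, mΘ⟩
    · exact ⟨hΞ, mΞ⟩) Set.univ
  simp only [List.map_cons, List.map_nil, List.prod_cons, List.prod_nil, mul_one] at h
  refine le_trans (Ex_mono h0 h1 fun ω => ?_) h
  have hn : 0 ≤ JJ ends ω [(x, Φ), (y, Ψ), (z, Θ), (w, Ξ)] Set.univ := J2_nonneg _ (by
    intro a ha
    simp only [List.mem_cons, List.not_mem_nil, or_false] at ha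
    rcases ha with rfl | rfl | rfl | rfl
    · exact hΦ
    · exact hΨ
    · exact hΘ
    · exact hΞ) _
  by_cases hyx : y ∈ cu ends ω x
  · rw [if_pos hyx, zero_mul]; exact hn
  by_cases hzx : z ∈ cu ends ω x
  · rw [if_pos hzx, zero_mul, mul_zero]; exact hn
  by_cases hwx : w ∈ cu ends ω x
  · rw [if_pos hwx, zero_mul, mul_zero, mul_zero]; exact hn
  by_cases hzy : z ∈ cu ends ω y
  · rw [if_pos hzy, zero_mul, mul_zero, mul_zero, mul_zero]; exact hn
  by_cases hwy : w ∈ cu ends ω y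
  · rw [if_pos hwy, zero_mul, mul_zero, mul_zero, mul_zero, mul_zero]; exact hn
  by_cases hwz : w ∈ cu ends ω z
  · rw [if_pos hwz, zero_mul, mul_zero, mul_zero, mul_zero, mul_zero, mul_zero]; exact hn
  have c1 := J2_closed (J2_univ (ends := ends) (ω := ω)) x
  have c2 := J2_closed c1 y
  have c3 := J2_closed c2 z
  rw [if_neg hyx, if_neg hzx, if_neg hwx, if_neg hzy, if_neg hwy, if_neg hwz, one_mul, one_mul,
    one_mul, one_mul, one_mul, one_mul, J2_step J2_univ (Set.mem_univ _),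
    J2_step c1 ⟨Set.mem_univ _, hyx⟩, J2_step c2 ⟨⟨Set.mem_univ _, hzx⟩, hzy⟩,
    J2_step c3 ⟨⟨⟨Set.mem_univ _, hwx⟩, hwy⟩, hwz⟩, JJ, mul_one]

end Pool.Agent.PERC29
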