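import Pool.Agent.Lib.MP_29e17e_pr.FixB

set_option autoImplicit false
set_option linter.unusedSectionVars false

open Finset

namespace Pool.Agent.PERC29

variable {V : Type*} [Fintype V] [DecidableEq V] {E : Type*} [Fintype E] [DecidableEq E]
  {ends : E → Sym2 V}

/-- Average over one coordinate. -/
noncomputable def av (p : ℝ) (e : E) (f : (E → Bool) → ℝ) (ω : E → Bool) : ℝ :=
  p * f (Function.update ω e true) + (1 - p) * f (Function.update ω e false)

lemma av_indep (p : ℝ) (e : E) (f : (E → Bool) → ℝ) (ω ω' : E → Bool)
    (h : ∀ e' ≠ e, ω e' = ω' e') : av p e f ω = av p e f ω' := by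
  unfold av
  have : ∀ b, Function.update ω e b = Function.update ω' e b := by
    intro b
    funext x
    by_cases hx : x = e
    · subst hx; simp
    · rw [Function.update_of_ne hx, Function.update_of_ne hx, h x hx]
  rw [this, this]

lemma Ex_split (p : ℝ) (e : E) (u v : (E → Bool) → ℝ)
    (hu : ∀ ω ω' : E → Bool, (∀ e' ≠ e, ω e' = ω' e') → u ω = u ω')
    (hv : ∀ ω ω' : E → Bool, (∀ e' ≠ e, ω e' = ω' e') → v ω = v ω') :
    Ex p (fun ω => if ω e = true then u ω else v ω) = p * Ex p u + (1 - p) * Ex p v := by
  have h1 : ∀ ω : E → Bool, (if ω e = true then u ω else v ω) =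
      ((if ω e = true then 1 else 0) * u ω + (-1) * ((if ω e = true then 1 else 0) * v ω)) + v ω := by
    intro ω
    split_ifs <;> ring
  rw [Ex_congr h1, Ex_add, Ex_add, Ex_mul_left, Ex_coord p e u hu, Ex_coord p e v hv]
  ring

lemma Ex_av (p : ℝ) (e : E) (f : (E → Bool) → ℝ) : Ex p (av p e f) = Ex p f := by
  have h1 : ∀ ω : E → Bool, f ω = if ω e = true then f (Function.update ω e true) else
      f (Function.update ω e false) := by
    intro ω
    by_cases h : ω e = true
    · rw [if_pos h, ← h, Function.update_eq_self]
    · have h' : ω e = false := by simpa using h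
      rw [if_neg h, ← h', Function.update_eq_self]
  have hu : ∀ b, ∀ ω ω' : E → Bool, (∀ e' ≠ e, ω e' = ω' e') →
      f (Function.update ω e b) = f (Function.update ω' e b) := by
    intro b ω ω' h
    congr 1
    funext x
    by_cases hx : x = e
    · subst hx; simp
    · rw [Function.update_of_ne hx, Function.update_of_ne hx, h x hx]
  rw [Ex_congr h1, Ex_split p e _ _ (hu true) (hu false)]
  unfold av
  rw [Ex_add, Ex_mul_left, Ex_mul_left]

lemma av_comm (p : ℝ) (e e' : E) (f : (E → Bool) → ℝ) (ω : E → Bool) :
    av p e (av p e' f) ω = av p e' (av p e f) ω := by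
  by_cases h : e = e'
  · subst h; rfl
  · have hc : ∀ a b : Bool, Function.update (Function.update ω e a) e' b =
        Function.update (Function.update ω e' b) e a := by
      intro a b
      funext x
      by_cases h1 : x = e
      · subst h1
        rw [Function.update_of_ne h, Function.update_self, Function.update_self]
      · rw [Function.update_of_ne h1]
        by_cases h2 : x = e'
        · subst h2
          rw [Function.update_self, Function.update_self]
        · rw [Function.update_of_ne h2, Function.update_of_ne h2, Function.update_of_ne h1]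
    unfold av
    rw [hc, hc, hc, hc]
    ring

/-- The influence of a coordinate. -/
noncomputable def infl (p : ℝ) (e : E) (f : (E → Bool) → ℝ) : ℝ :=
  Ex p (fun ω => |f ω - av p e f ω|)

lemma infl_nonneg {p : ℝ} (h0 : 0 ≤ p) (h1 : p ≤ 1) (e : E) (f : (E → Bool) → ℝ) :
    0 ≤ infl p e f := Ex_nonneg h0 h1 fun _ => abs_nonneg _

lemma infl_av_le {p : ℝ} (h0 : 0 ≤ p) (h1 : p ≤ 1) (e e' : E) (f : (E → Bool) → ℝ) :
    infl p e' (av p e f) ≤ infl p e' f := by
  unfold infl
  rw [← Ex_av p e (fun ω => |f ω - av p e' f ω|)]
  apply Ex_mono h0 h1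
  intro ω
  have h2 : av p e f ω - av p e' (av p e f) ω =
      av p e (fun ω => f ω - av p e' f ω) ω := by
    rw [av_comm p e' e]
    unfold av
    ring
  rw [h2]
  unfold av
  refine (abs_add_le _ _).trans ?_
  rw [abs_mul, abs_mul, abs_of_nonneg h0, abs_of_nonneg (by linarith : 0 ≤ 1 - p)]

/-- Replace the coordinates in `D`. -/
def mrg (D : Finset E) (η ω : E → Bool) : E → Bool := fun e => if e ∈ D then η e else ω e

lemma mrg_insert {D : Finset E} {e : E} (he : e ∉ D) (η ω : E → Bool) :
    mrg D η ω = mrg (insert e D) (Function.update η e (ω e)) ω := by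
  funext x
  unfold mrg
  by_cases hx : x = e
  · subst hx
    simp [he]
  · by_cases hD : x ∈ D
    · simp [hD, hx]
    · simp [hD, hx]

lemma mrg_congr {D : Finset E} {η ω ω' : E → Bool} (h : ∀ e ∉ D, ω e = ω' e) :
    mrg D η ω = mrg D η ω' := by
  funext x
  unfold mrg
  by_cases hD : x ∈ D
  · simp [hD]
  · simp [hD, h x hD]

open scoped Classical in
/-- The edge `e` touches the cluster of `B`. -/
noncomputable def tch (ends : E → Sym2 V) (B : Finset V) (e : E) (ω : E → Bool) : ℝ :=
  if ∃ x, x ∈ ends e ∧ Conn ends ω B x then 1 else 0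

open scoped Classical in
/-- The indicator of `B ↔ o`. -/
noncomputable def cn (ends : E → Sym2 V) (B : Finset V) (o : V) (ω : E → Bool) : ℝ :=
  if Conn ends ω B o then 1 else 0

lemma cn_nonneg (B : Finset V) (o : V) (ω : E → Bool) : 0 ≤ cn ends B o ω := by
  unfold cn; split_ifs <;> norm_num

lemma cn_le_one (B : Finset V) (o : V) (ω : E → Bool) : cn ends B o ω ≤ 1 := by
  unfold cn; split_ifs <;> norm_num

lemma tch_nonneg (B : Finset V) (e : E) (ω : E → Bool) : 0 ≤ tch ends B e ω := by
  unfold tch; split_ifs <;> norm_num

lemma Conn.mono {ω ω' : E → Bool} {B : Finset V} {x : V} (h : ∀ e, ω e = true → ω' e = true)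
    (hc : Conn ends ω B x) : Conn ends ω' B x := by
  obtain ⟨b, hb, hr⟩ := hc
  exact ⟨b, hb, hr.mono h le_rfl⟩

lemma osss_aux {p : ℝ} (h0 : 0 ≤ p) (h1 : p ≤ 1) (B : Finset V) (g : (E → Bool) → ℝ)
    (hg0 : ∀ ω, 0 ≤ g ω) (hg1 : ∀ ω, g ω ≤ 1)
    (hgd : ∀ ω ω' : E → Bool, (∀ e x, x ∈ ends e → Conn ends ω B x → ω e = ω' e) →
      g ω = g ω') : ∀ (n : ℕ) (D : Finset E)
    (η : E → Bool) (f : (E → Bool) → ℝ), (Dᶜ).card = n →
    (∀ ω ω' : E → Bool, (∀ e ∉ D, ω e = ω' e) → f ω = f ω') →
    Ex p (fun ω => f ω * g (mrg D η ω)) -
      Ex p f * Ex p (fun ω => g (mrg D η ω)) ≤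
      ∑ e ∈ Dᶜ, Ex p (fun ω => tch ends B e (mrg D η ω)) * infl p e f := by
  intro n
  induction n using Nat.strong_induction_on with
  | _ n ih =>
    intro D η f hn hf
    by_cases hex : ∃ e, e ∉ D ∧ ∃ x, x ∈ ends e ∧ Conn ends (mrg D η (fun _ => false)) B x
    · obtain ⟨e, heD, x, hx, hconn⟩ := hex
      have hmono : ∀ ω : E → Bool, ∀ e', mrg D η (fun _ => false) e' = true →
          mrg D η ω e' = true := by
        intro ω e' he'
        unfold mrg at he' ⊢
        by_cases hD : e' ∈ D
        · simpa [hD] using he'
        · simp [hD] at he'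
      have htch : ∀ ω : E → Bool, tch ends B e (mrg D η ω) = 1 := by
        intro ω
        unfold tch
        exact if_pos ⟨x, hx, hconn.mono (hmono ω)⟩
      set D' : Finset E := insert e D with hD'
      have hcard : (D'ᶜ).card < n := by
        rw [← hn]
        apply Finset.card_lt_card
        rw [Finset.ssubset_iff_of_subset (Finset.compl_subset_compl.2 (Finset.subset_insert e D))]
        exact ⟨e, Finset.mem_compl.2 heD, by simp⟩
      set F : (E → Bool) → ℝ := av p e f with hF
      have hFind : ∀ ω ω' : E → Bool, (∀ e' ∉ D', ω e' = ω' e') → F ω = F ω' := by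
        intro ω ω' h
        rw [hF]
        unfold av
        have : ∀ b, f (Function.update ω e b) = f (Function.update ω' e b) := by
          intro b
          apply hf
          intro e' he'
          by_cases hx : e' = e
          · subst hx; simp
          · rw [Function.update_of_ne hx, Function.update_of_ne hx]
            apply h
            rw [hD', Finset.mem_insert]
            push Not
            exact ⟨hx, he'⟩
        rw [this, this]
      have hih := fun b => ih _ hcard D' (Function.update η e b) F rfl hFind
      -- splitting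
      have hsplit : ∀ (h : (E → Bool) → ℝ), Ex p (fun ω => h (mrg D η ω)) =
          p * Ex p (fun ω => h (mrg D' (Function.update η e true) ω)) +
          (1 - p) * Ex p (fun ω => h (mrg D' (Function.update η e false) ω)) := by
        intro h
        rw [← Ex_split p e]
        · apply Ex_congr
          intro ω
          rw [mrg_insert heD]
          by_cases hb : ω e = true
          · rw [if_pos hb, hb]
          · rw [if_neg hb]
            have : ω e = false := by simpa using hb
            rw [this]
        · intro ω ω' hh
          rw [mrg_congr (ω' := ω')]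
          intro e' he'
          apply hh
          rintro rfl
          exact he' (Finset.mem_insert_self _ _)
        · intro ω ω' hh
          rw [mrg_congr (ω' := ω')]
          intro e' he'
          apply hh
          rintro rfl
          exact he' (Finset.mem_insert_self _ _)
      have hsplit2 : Ex p (fun ω => F ω * g (mrg D η ω)) =
          p * Ex p (fun ω => F ω * g (mrg D' (Function.update η e true) ω)) +
          (1 - p) * Ex p (fun ω => F ω * g (mrg D' (Function.update η e false) ω)) := by
        rw [← Ex_split p e]
        · apply Ex_congr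
          intro ω
          rw [mrg_insert heD]
          by_cases hb : ω e = true
          · rw [if_pos hb, hb]
          · rw [if_neg hb]
            have : ω e = false := by simpa using hb
            rw [this]
        · intro ω ω' hh
          rw [mrg_congr (ω' := ω'), hFind ω ω']
          · intro e' he'
            apply hh
            rintro rfl
            exact he' (Finset.mem_insert_self _ _)
          · intro e' he'
            apply hh
            rintro rfl
            exact he' (Finset.mem_insert_self _ _)
        · intro ω ω' hh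
          rw [mrg_congr (ω' := ω'), hFind ω ω']
          · intro e' he'
            apply hh
            rintro rfl
            exact he' (Finset.mem_insert_self _ _)
          · intro e' he'
            apply hh
            rintro rfl
            exact he' (Finset.mem_insert_self _ _)
      have hfirst : Ex p (fun ω => f ω * g (mrg D η ω)) ≤
          infl p e f + Ex p (fun ω => F ω * g (mrg D η ω)) := by
        unfold infl
        rw [← Ex_add]
        apply Ex_mono h0 h1
        intro ω
        have h2 := hg0 (mrg D η ω)
        have h3 := hg1 (mrg D η ω)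
        have h4 := le_abs_self (f ω - av p e f ω)
        have h5 := abs_nonneg (f ω - av p e f ω)
        have h6 : (f ω - av p e f ω) * g (mrg D η ω) ≤ |f ω - av p e f ω| := by
          calc _ ≤ |f ω - av p e f ω| * g (mrg D η ω) :=
                mul_le_mul_of_nonneg_right h4 h2
            _ ≤ |f ω - av p e f ω| * 1 := mul_le_mul_of_nonneg_left h3 h5
            _ = _ := mul_one _
        rw [hF]
        linarith
      have hEF : Ex p F = Ex p f := Ex_av p e f
      have hcompl : Dᶜ = insert e (D'ᶜ) := by
        rw [hD']
        ext z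
        simp only [Finset.mem_compl, Finset.mem_insert]
        by_cases hz : z = e
        · subst hz; simp [heD]
        · simp [hz]
      have hnot : e ∉ D'ᶜ := by simp [hD']
      rw [hcompl, Finset.sum_insert hnot]
      have h7 : Ex p (fun ω => tch ends B e (mrg D η ω)) = 1 := by
        rw [Ex_congr htch, Ex_const]
      rw [h7, one_mul]
      have h8 : ∑ x ∈ D'ᶜ, Ex p (fun ω => tch ends B x (mrg D η ω)) * infl p x F ≤
          ∑ x ∈ D'ᶜ, Ex p (fun ω => tch ends B x (mrg D η ω)) * infl p x f := by
        apply Finset.sum_le_sum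
        intro x _
        apply mul_le_mul_of_nonneg_left (infl_av_le h0 h1 e x f)
        exact Ex_nonneg h0 h1 fun ω => tch_nonneg _ _ _
      have h9 : Ex p (fun ω => F ω * g (mrg D η ω)) -
          Ex p F * Ex p (fun ω => g (mrg D η ω)) ≤
          ∑ x ∈ D'ᶜ, Ex p (fun ω => tch ends B x (mrg D η ω)) * infl p x F := by
        rw [hsplit2, hsplit g]
        have hR : ∑ x ∈ D'ᶜ, Ex p (fun ω => tch ends B x (mrg D η ω)) * infl p x F =
            p * (∑ x ∈ D'ᶜ, Ex p (fun ω => tch ends B x (mrg D' (Function.update η e true) ω)) *
              infl p x F) + (1 - p) * (∑ x ∈ D'ᶜ, Ex p (fun ω => tch ends B x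
                (mrg D' (Function.update η e false) ω)) * infl p x F) := by
          rw [Finset.mul_sum, Finset.mul_sum, ← Finset.sum_add_distrib]
          refine Finset.sum_congr rfl fun x _ => ?_
          rw [hsplit (tch ends B x)]
          ring
        rw [hR]
        have i1 := mul_le_mul_of_nonneg_left (hih true) h0
        have i2 := mul_le_mul_of_nonneg_left (hih false) (by linarith : 0 ≤ 1 - p)
        nlinarith [i1, i2]
      rw [← hEF]
      linarith
    · -- the cluster is determined
      push Not at hex
      have hconst : ∀ ω : E → Bool, g (mrg D η ω) = g (mrg D η (fun _ => false)) := by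
        intro ω
        symm
        apply hgd
        intro e x hx hc
        have h5 : e ∈ D := by
          by_contra hcon
          exact hex e hcon x hx hc
        unfold mrg
        simp [h5]
      have e1 : Ex p (fun ω => f ω * g (mrg D η ω)) =
          g (mrg D η (fun _ => false)) * Ex p f := by
        rw [← Ex_mul_left]
        apply Ex_congr
        intro ω
        rw [hconst ω, mul_comm]
      have e2 : Ex p (fun ω => g (mrg D η ω)) =
          g (mrg D η (fun _ => false)) := by
        rw [Ex_congr hconst, Ex_const]
      rw [e1, e2]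
      have e3 : 0 ≤ ∑ e ∈ Dᶜ, Ex p (fun ω => tch ends B e (mrg D η ω)) * infl p e f := by
        apply Finset.sum_nonneg
        intro e _
        exact mul_nonneg (Ex_nonneg h0 h1 fun ω => tch_nonneg _ _ _) (infl_nonneg h0 h1 _ _)
      have e4 : g (mrg D η (fun _ => false)) * Ex p f -
          Ex p f * g (mrg D η (fun _ => false)) = 0 := by ring
      rw [e4]
      exact e3

/-- The inequality of O'Donnell, Saks, Schramm and Servedio for the exploration of the
cluster of `B`. -/
lemma osss_gen {p : ℝ} (h0 : 0 ≤ p) (h1 : p ≤ 1) (B : Finset V) (g : (E → Bool) → ℝ)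
    (hg0 : ∀ ω, 0 ≤ g ω) (hg1 : ∀ ω, g ω ≤ 1)
    (hgd : ∀ ω ω' : E → Bool, (∀ e x, x ∈ ends e → Conn ends ω B x → ω e = ω' e) →
      g ω = g ω') (f : (E → Bool) → ℝ) :
    Ex p (fun ω => f ω * g ω) - Ex p f * Ex p g ≤
      ∑ e, Ex p (tch ends B e) * infl p e f := by
  have h := osss_aux (ends := ends) h0 h1 B g hg0 hg1 hgd _ ∅ (fun _ => false) f rfl (by
    intro ω ω' hh
    have : ω = ω' := funext fun e => hh e (by simp)
    rw [this])
  have hm : ∀ ω : E → Bool, mrg ∅ (fun _ => false) ω = ω := by
    intro ω
    funext x
    simp [mrg]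
  simp only [hm, Finset.compl_empty] at h
  exact h

lemma Conn_det {B : Finset V} (ω ω' : E → Bool)
    (h : ∀ e x, x ∈ ends e → Conn ends ω B x → ω e = ω' e) (z : V) :
    Conn ends ω' B z ↔ Conn ends ω B z := by
  have h2 := reach_dep (ends := ends) (ω := ω) (ω' := ω')
    (S := Set.univ) (B := (B : Set V)) (A := {z | Conn ends ω B z})
    (by intro z; rfl)
    (by
      intro e a b h3 _ _ h4
      exact h e a (by rw [h3]; exact Sym2.mem_mk_left a b) h4)
  exact h2 z

/-- The case of the event that `B` is joined to `o`. -/
lemma osss {p : ℝ} (h0 : 0 ≤ p) (h1 : p ≤ 1) (B : Finset V) (o : V) (f : (E → Bool) → ℝ) :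
    Ex p (fun ω => f ω * cn ends B o ω) - Ex p f * Ex p (cn ends B o) ≤
      ∑ e, Ex p (tch ends B e) * infl p e f := by
  classical
  apply osss_gen h0 h1 B (cn ends B o) (cn_nonneg B o) (cn_le_one B o)
  intro ω ω' h
  unfold cn
  by_cases hc : Conn ends ω B o
  · rw [if_pos hc, if_pos ((Conn_det ω ω' h o).2 hc)]
  · rw [if_neg hc, if_neg (fun h2 => hc ((Conn_det ω ω' h o).1 h2))]

end Pool.Agent.PERC29
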