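import Pool.Agent.Lib.MP_29e17e_pr.Jn
import Pool.Agent.Lib.MP_29e17e_pr.Wk
import Pool.Agent.Lib.MP_29e17e_pr.Prb
import Pool.Agent.Lib.MP_29e17e_pr.Tree

set_option autoImplicit false
set_option linter.unusedSectionVars false

open Finset

namespace Pool.Agent.PERC29

variable {V : Type*} [Fintype V] [DecidableEq V] {E : Type*} [Fintype E] [DecidableEq E]
  {ends : E → Sym2 V}

open scoped Classical in
/-- The number of edges between distinct large clusters (ordered pairs). -/
noncomputable def TT (ends : E → Sym2 V) (ω : E → Bool) (a : ℝ) : ℝ :=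
  ∑ A ∈ GC ends ω a, ∑ B ∈ GC ends ω a, if A = B then 0 else NN ends A B

open scoped Classical in
/-- The number of edges from `A` to the other large clusters. -/
noncomputable def dg (ends : E → Sym2 V) (ω : E → Bool) (a : ℝ) (A : Finset V) : ℝ :=
  ∑ B ∈ GC ends ω a, if A = B then 0 else NN ends A B

open scoped Classical in
/-- The number of cycles of length two. -/
noncomputable def cc (ends : E → Sym2 V) (ω : E → Bool) (a : ℝ) (n : ℕ) : ℝ :=
  ∑ A ∈ GC ends ω a, pth (NN ends) n ((GC ends ω a).erase A) A A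

/-- The mean of the number of edges. -/
lemma TT_mean (p a : ℝ) : Ex p (fun ω => TT ends ω a) = ET ends p a := by
  classical
  unfold TT ET NN
  rw [Ex_congr fun ω => GC_sum2 (ends := ends) ω a (nb ends), Ex_sum]
  refine Finset.sum_congr rfl fun x _ => ?_
  rw [Ex_sum]
  refine Finset.sum_congr rfl fun y _ => ?_
  rw [← Ex_mul_left]
  exact Ex_congr fun ω => mul_comm _ _

open scoped Classical in
/-- Triples: `x, x'` in one large cluster, `y` and `y'` in two other distinct large clusters. -/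
noncomputable def T3 (ends : E → Sym2 V) (ω : E → Bool) (a : ℝ) : ℝ :=
  ∑ x, ∑ y, ∑ x', ∑ y', nb ends x y * nb ends x' y' *
    ((if y ∈ cu ends ω x then 0 else 1) * ((if y' ∈ cu ends ω x then 0 else 1) *
      ((if y' ∈ cu ends ω y then 0 else 1) *
      ((if x' ∈ cu ends ω x then 1 else 0) * ((if a ≤ cz ends ω y then 1 else 0) *
        (if a ≤ cz ends ω y' then 1 else 0))))))

private lemma S1_ind_mono {a : ℝ} (A B : Finset V) (h : A ⊆ B) :
    (if a ≤ (A.card : ℝ) then (1 : ℝ) else 0) ≤ if a ≤ (B.card : ℝ) then 1 else 0 := by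
  have hc : (A.card : ℝ) ≤ B.card := by exact_mod_cast Finset.card_le_card h
  by_cases hA : a ≤ (A.card : ℝ)
  · rw [if_pos hA, if_pos (hA.trans hc)]
  · rw [if_neg hA]
    split_ifs <;> norm_num

private lemma S1_ind_nonneg {a : ℝ} (A : Finset V) :
    (0 : ℝ) ≤ if a ≤ (A.card : ℝ) then (1 : ℝ) else 0 := by
  split_ifs <;> norm_num

lemma T3_mean {p a χ P W : ℝ} (h0 : 0 ≤ p) (h1 : p ≤ 1)
    (hdeg : ∀ x, ∑ y, nb ends x y ≤ W)
    (hχ : ∀ x, Ex p (fun ω => cz ends ω x) = χ)
    (hP : ∀ x, Ex p (fun ω => if a ≤ cz ends ω x then (1 : ℝ) else 0) ≤ P) :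
    Ex p (fun ω => T3 ends ω a) ≤ W ^ 2 * P ^ 2 * (Fintype.card V) * χ := by
  classical
  rcases isEmpty_or_nonempty V with hV | hV
  · unfold T3
    simp only [Finset.univ_eq_empty, Finset.sum_empty, Fintype.card_of_isEmpty, Nat.cast_zero,
      mul_zero, zero_mul]
    rw [Ex_const]
  obtain ⟨o⟩ := hV
  have hW : 0 ≤ W := (Finset.sum_nonneg fun y _ => nb_nonneg o y).trans (hdeg o)
  have hP0 : 0 ≤ P := (Ex_nonneg h0 h1 fun ω => by split_ifs <;> norm_num).trans (hP o)
  unfold T3
  rw [Ex_sum]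
  have hx : ∀ x : V, Ex p (fun ω => ∑ y, ∑ x', ∑ y', nb ends x y * nb ends x' y' *
      ((if y ∈ cu ends ω x then (0 : ℝ) else 1) * ((if y' ∈ cu ends ω x then 0 else 1) *
      ((if y' ∈ cu ends ω y then 0 else 1) *
      ((if x' ∈ cu ends ω x then 1 else 0) * ((if a ≤ cz ends ω y then 1 else 0) *
        (if a ≤ cz ends ω y' then 1 else 0))))))) ≤ W ^ 2 * P ^ 2 * χ := by
    intro x
    have hterm : ∀ y x' y', Ex p (fun ω => nb ends x y * nb ends x' y' *
        ((if y ∈ cu ends ω x then (0 : ℝ) else 1) * ((if y' ∈ cu ends ω x then 0 else 1) *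
        ((if y' ∈ cu ends ω y then 0 else 1) *
        ((if x' ∈ cu ends ω x then 1 else 0) * ((if a ≤ cz ends ω y then 1 else 0) *
          (if a ≤ cz ends ω y' then 1 else 0))))))) ≤
        nb ends x y * nb ends x' y' *
          (Ex p (fun ω => if x' ∈ cu ends ω x then (1 : ℝ) else 0) * P ^ 2) := by
      intro y x' y'
      rw [Ex_mul_left]
      refine mul_le_mul_of_nonneg_left ?_ (mul_nonneg (nb_nonneg _ _) (nb_nonneg _ _))
      have h3 := three (ends := ends) h0 h1 x y y'
        (fun A => if x' ∈ A then (1 : ℝ) else 0)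
        (fun A => if a ≤ (A.card : ℝ) then (1 : ℝ) else 0)
        (fun A => if a ≤ (A.card : ℝ) then (1 : ℝ) else 0)
        (fun A => by split_ifs <;> norm_num) (fun A => S1_ind_nonneg A) (fun A => S1_ind_nonneg A)
        (fun A B hAB => by
          by_cases hA : x' ∈ A
          · rw [if_pos hA, if_pos (hAB hA)]
          · rw [if_neg hA]; split_ifs <;> norm_num)
        S1_ind_mono S1_ind_mono
      refine h3.trans ?_
      refine mul_le_mul_of_nonneg_left ?_ (Ex_nonneg h0 h1 fun ω => by split_ifs <;> norm_num)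
      rw [pow_two]
      exact mul_le_mul (hP y) (hP y') (Ex_nonneg h0 h1 fun ω => S1_ind_nonneg _) hP0
    rw [Ex_sum]
    calc ∑ y, Ex p (fun ω => ∑ x', ∑ y', nb ends x y * nb ends x' y' *
          ((if y ∈ cu ends ω x then (0 : ℝ) else 1) * ((if y' ∈ cu ends ω x then 0 else 1) *
          ((if y' ∈ cu ends ω y then 0 else 1) *
          ((if x' ∈ cu ends ω x then 1 else 0) * ((if a ≤ cz ends ω y then 1 else 0) *
            (if a ≤ cz ends ω y' then 1 else 0)))))))
        = ∑ y, ∑ x', ∑ y', Ex p (fun ω => nb ends x y * nb ends x' y' *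
          ((if y ∈ cu ends ω x then (0 : ℝ) else 1) * ((if y' ∈ cu ends ω x then 0 else 1) *
          ((if y' ∈ cu ends ω y then 0 else 1) *
          ((if x' ∈ cu ends ω x then 1 else 0) * ((if a ≤ cz ends ω y then 1 else 0) *
            (if a ≤ cz ends ω y' then 1 else 0))))))) := by
          refine Finset.sum_congr rfl fun y _ => ?_
          rw [Ex_sum]
          refine Finset.sum_congr rfl fun x' _ => ?_
          rw [Ex_sum]
      _ ≤ ∑ y, ∑ x', ∑ y', nb ends x y * nb ends x' y' *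
          (Ex p (fun ω => if x' ∈ cu ends ω x then (1 : ℝ) else 0) * P ^ 2) :=
          Finset.sum_le_sum fun y _ => Finset.sum_le_sum fun x' _ => Finset.sum_le_sum fun y' _ =>
            hterm y x' y'
      _ = (∑ y, nb ends x y) * ∑ x', (∑ y', nb ends x' y') *
          (Ex p (fun ω => if x' ∈ cu ends ω x then (1 : ℝ) else 0) * P ^ 2) := by
          rw [Finset.sum_mul]
          refine Finset.sum_congr rfl fun y _ => ?_
          rw [Finset.mul_sum]
          refine Finset.sum_congr rfl fun x' _ => ?_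
          rw [Finset.sum_mul, Finset.mul_sum]
          exact Finset.sum_congr rfl fun y' _ => by ring
      _ ≤ W * ∑ x', W * (Ex p (fun ω => if x' ∈ cu ends ω x then (1 : ℝ) else 0) * P ^ 2) := by
          have hnn : ∀ x', 0 ≤ Ex p (fun ω => if x' ∈ cu ends ω x then (1 : ℝ) else 0) * P ^ 2 :=
            fun x' => mul_nonneg (Ex_nonneg h0 h1 fun ω => by split_ifs <;> norm_num)
              (sq_nonneg P)
          refine mul_le_mul (hdeg x) (Finset.sum_le_sum fun x' _ =>
            mul_le_mul_of_nonneg_right (hdeg x') (hnn x')) ?_ hW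
          exact Finset.sum_nonneg fun x' _ => mul_nonneg
            (Finset.sum_nonneg fun y' _ => nb_nonneg _ _) (hnn x')
      _ = W ^ 2 * P ^ 2 * ∑ x', Ex p (fun ω => if x' ∈ cu ends ω x then (1 : ℝ) else 0) := by
          rw [Finset.mul_sum, Finset.mul_sum]
          exact Finset.sum_congr rfl fun x' _ => by ring
      _ = W ^ 2 * P ^ 2 * χ := by
          rw [← Ex_sum, ← hχ x]
          congr 1
          refine Ex_congr fun ω => ?_
          unfold cz
          rw [Finset.sum_ite_mem, Finset.univ_inter, Finset.sum_const, nsmul_eq_mul, mul_one]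
  calc _ ≤ ∑ _x : V, W ^ 2 * P ^ 2 * χ := Finset.sum_le_sum fun x _ => hx x
    _ = W ^ 2 * P ^ 2 * (Fintype.card V) * χ := by
        rw [Finset.sum_const, Finset.card_univ, nsmul_eq_mul]
        ring

open scoped Classical in
/-- Quadruples in four distinct large clusters. -/
noncomputable def T4 (ends : E → Sym2 V) (ω : E → Bool) (a : ℝ) : ℝ :=
  ∑ x, ∑ y, ∑ z, ∑ w, nb ends x y * nb ends z w *
    ((if y ∈ cu ends ω x then 0 else 1) * ((if z ∈ cu ends ω x then 0 else 1) *
      ((if w ∈ cu ends ω x then 0 else 1) * ((if z ∈ cu ends ω y then 0 else 1) *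
      ((if w ∈ cu ends ω y then 0 else 1) * ((if w ∈ cu ends ω z then 0 else 1) *
      ((if a ≤ cz ends ω x then 1 else 0) * ((if a ≤ cz ends ω y then 1 else 0) *
      ((if a ≤ cz ends ω z then 1 else 0) * (if a ≤ cz ends ω w then 1 else 0))))))))))

lemma T4_mean {p a P W : ℝ} (h0 : 0 ≤ p) (h1 : p ≤ 1)
    (hdeg : ∀ x, ∑ y, nb ends x y ≤ W)
    (hP : ∀ x, Ex p (fun ω => if a ≤ cz ends ω x then (1 : ℝ) else 0) ≤ P) :
    Ex p (fun ω => T4 ends ω a) ≤ W ^ 2 * (Fintype.card V) ^ 2 * P ^ 4 := by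
  classical
  rcases isEmpty_or_nonempty V with hV | hV
  · unfold T4
    simp only [Finset.univ_eq_empty, Finset.sum_empty, Fintype.card_of_isEmpty, Nat.cast_zero]
    rw [Ex_const]
    simp
  obtain ⟨o⟩ := hV
  have hW : 0 ≤ W := (Finset.sum_nonneg fun y _ => nb_nonneg o y).trans (hdeg o)
  have hP0 : 0 ≤ P := (Ex_nonneg h0 h1 fun ω => by split_ifs <;> norm_num).trans (hP o)
  have hterm : ∀ x y z w, Ex p (fun ω => nb ends x y * nb ends z w *
      ((if y ∈ cu ends ω x then (0 : ℝ) else 1) * ((if z ∈ cu ends ω x then 0 else 1) *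
      ((if w ∈ cu ends ω x then 0 else 1) * ((if z ∈ cu ends ω y then 0 else 1) *
      ((if w ∈ cu ends ω y then 0 else 1) * ((if w ∈ cu ends ω z then 0 else 1) *
      ((if a ≤ cz ends ω x then 1 else 0) * ((if a ≤ cz ends ω y then 1 else 0) *
      ((if a ≤ cz ends ω z then 1 else 0) * (if a ≤ cz ends ω w then 1 else 0))))))))))) ≤
      nb ends x y * nb ends z w * P ^ 4 := by
    intro x y z w
    rw [Ex_mul_left]
    refine mul_le_mul_of_nonneg_left ?_ (mul_nonneg (nb_nonneg _ _) (nb_nonneg _ _))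
    have h4 := four (ends := ends) h0 h1 x y z w
      (fun A => if a ≤ (A.card : ℝ) then (1 : ℝ) else 0)
      (fun A => if a ≤ (A.card : ℝ) then (1 : ℝ) else 0)
      (fun A => if a ≤ (A.card : ℝ) then (1 : ℝ) else 0)
      (fun A => if a ≤ (A.card : ℝ) then (1 : ℝ) else 0)
      (fun A => S1_ind_nonneg A) (fun A => S1_ind_nonneg A) (fun A => S1_ind_nonneg A)
      (fun A => S1_ind_nonneg A) S1_ind_mono S1_ind_mono S1_ind_mono S1_ind_mono
    refine h4.trans ?_
    have e : ∀ v, 0 ≤ Ex p (fun ω => if a ≤ ((cu ends ω v).card : ℝ) then (1 : ℝ) else 0) :=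
      fun v => Ex_nonneg h0 h1 fun ω => S1_ind_nonneg _
    have : P ^ 4 = P * (P * (P * P)) := by ring
    rw [this]
    exact mul_le_mul (hP x) (mul_le_mul (hP y) (mul_le_mul (hP z) (hP w) (e w) hP0)
      (mul_nonneg (e z) (e w)) hP0) (mul_nonneg (e y) (mul_nonneg (e z) (e w))) hP0
  unfold T4
  calc _ = ∑ x, ∑ y, ∑ z, ∑ w, Ex p (fun ω => nb ends x y * nb ends z w *
      ((if y ∈ cu ends ω x then (0 : ℝ) else 1) * ((if z ∈ cu ends ω x then 0 else 1) *
      ((if w ∈ cu ends ω x then 0 else 1) * ((if z ∈ cu ends ω y then 0 else 1) *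
      ((if w ∈ cu ends ω y then 0 else 1) * ((if w ∈ cu ends ω z then 0 else 1) *
      ((if a ≤ cz ends ω x then 1 else 0) * ((if a ≤ cz ends ω y then 1 else 0) *
      ((if a ≤ cz ends ω z then 1 else 0) * (if a ≤ cz ends ω w then 1 else 0))))))))))) := by
        rw [Ex_sum]
        refine Finset.sum_congr rfl fun x _ => ?_
        rw [Ex_sum]
        refine Finset.sum_congr rfl fun y _ => ?_
        rw [Ex_sum]
        refine Finset.sum_congr rfl fun z _ => ?_
        rw [Ex_sum]
    _ ≤ ∑ x, ∑ y, ∑ z, ∑ w, nb ends x y * nb ends z w * P ^ 4 :=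
        Finset.sum_le_sum fun x _ => Finset.sum_le_sum fun y _ => Finset.sum_le_sum fun z _ =>
          Finset.sum_le_sum fun w _ => hterm x y z w
    _ = (∑ x, ∑ y, nb ends x y) ^ 2 * P ^ 4 := by
        rw [pow_two, Finset.sum_mul_sum]
        have e1 : ∀ x z, (∑ y, nb ends x y) * (∑ w, nb ends z w) =
            ∑ y, ∑ w, nb ends x y * nb ends z w := fun x z => Finset.sum_mul_sum _ _ _ _
        rw [Finset.sum_mul]
        refine Finset.sum_congr rfl fun x _ => ?_
        rw [Finset.sum_mul, Finset.sum_comm]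
        refine Finset.sum_congr rfl fun z _ => ?_
        rw [e1, Finset.sum_mul]
        refine Finset.sum_congr rfl fun y _ => ?_
        rw [Finset.sum_mul]
    _ ≤ (∑ _x : V, W) ^ 2 * P ^ 4 := by
        refine mul_le_mul_of_nonneg_right ?_ (pow_nonneg hP0 4)
        refine pow_le_pow_left₀ (Finset.sum_nonneg fun x _ => Finset.sum_nonneg fun y _ =>
          nb_nonneg _ _) (Finset.sum_le_sum fun x _ => hdeg x) 2
    _ = W ^ 2 * (Fintype.card V) ^ 2 * P ^ 4 := by
        rw [Finset.sum_const, Finset.card_univ, nsmul_eq_mul]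
        ring

private lemma S2_cu_iff (ω : E → Bool) (x y : V) : cu ends ω x = cu ends ω y ↔ y ∈ cu ends ω x := by
  constructor
  · intro h; rw [h]; exact self_mem_cu ω y
  · intro h; exact (cu_eq h).symm

private lemma S2_swap4 {α : Type*} (s : Finset α) (f : α → V → V → V → V → ℝ) :
    ∑ A ∈ s, ∑ x, ∑ y, ∑ z, ∑ w, f A x y z w = ∑ x, ∑ y, ∑ z, ∑ w, ∑ A ∈ s, f A x y z w := by
  rw [Finset.sum_comm]
  refine Finset.sum_congr rfl fun x _ => ?_
  rw [Finset.sum_comm]
  refine Finset.sum_congr rfl fun y _ => ?_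
  rw [Finset.sum_comm]
  refine Finset.sum_congr rfl fun z _ => ?_
  rw [Finset.sum_comm]

open scoped Classical in
private lemma S2_one (ω : E → Bool) (a : ℝ) (Φ : Finset V → ℝ) (x : V) :
    ∑ A ∈ GC ends ω a, (if x ∈ A then (1 : ℝ) else 0) * Φ A =
      (if a ≤ cz ends ω x then (1 : ℝ) else 0) * Φ (cu ends ω x) := by
  by_cases h : a ≤ cz ends ω x
  · rw [if_pos h, Finset.sum_eq_single (cu ends ω x)]
    · rw [if_pos (self_mem_cu ω x)]
    · intro B hB hne
      rw [if_neg, zero_mul]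
      intro hx
      obtain ⟨⟨x0, rfl⟩, -⟩ := mem_GC.1 hB
      exact hne (cu_eq hx).symm
    · intro hn
      exact absurd (mem_GC.2 ⟨⟨x, rfl⟩, h⟩) hn
  · rw [if_neg h, zero_mul]
    refine Finset.sum_eq_zero fun A hA => ?_
    rw [if_neg, zero_mul]
    intro hx
    obtain ⟨⟨x0, rfl⟩, h2⟩ := mem_GC.1 hA
    apply h
    unfold cz
    rw [cu_eq hx]
    exact h2

open scoped Classical in
private lemma S2_NN (A B : Finset V) : NN ends A B =
    ∑ x, ∑ y, (if x ∈ A then (1 : ℝ) else 0) * ((if y ∈ B then (1 : ℝ) else 0) * nb ends x y) := by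
  unfold NN
  rw [← Finset.sum_filter_add_sum_filter_not Finset.univ (fun x => x ∈ A)]
  have h1 : ∑ x ∈ Finset.univ.filter (fun x => ¬ x ∈ A),
      ∑ y, (if x ∈ A then (1 : ℝ) else 0) * ((if y ∈ B then (1 : ℝ) else 0) * nb ends x y) = 0 := by
    refine Finset.sum_eq_zero fun x hx => Finset.sum_eq_zero fun y _ => ?_
    rw [if_neg (Finset.mem_filter.1 hx).2, zero_mul]
  rw [h1, add_zero]
  have h2 : Finset.univ.filter (fun x => x ∈ A) = A := by ext; simp
  rw [h2]
  refine Finset.sum_congr rfl fun x hx => ?_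
  rw [← Finset.sum_filter_add_sum_filter_not Finset.univ (fun y => y ∈ B)]
  have h3 : ∑ y ∈ Finset.univ.filter (fun y => ¬ y ∈ B),
      (if x ∈ A then (1 : ℝ) else 0) * ((if y ∈ B then (1 : ℝ) else 0) * nb ends x y) = 0 := by
    refine Finset.sum_eq_zero fun y hy => ?_
    rw [if_neg (Finset.mem_filter.1 hy).2, zero_mul, mul_zero]
  have h4 : Finset.univ.filter (fun y => y ∈ B) = B := by ext; simp
  rw [h3, add_zero, h4]
  refine Finset.sum_congr rfl fun y hy => ?_
  rw [if_pos hx, if_pos hy, one_mul, one_mul]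

open scoped Classical in
private lemma S2_NNNN (A B C D : Finset V) : NN ends A B * NN ends C D =
    ∑ x, ∑ y, ∑ z, ∑ w, (if x ∈ A then (1 : ℝ) else 0) * ((if y ∈ B then (1 : ℝ) else 0) *
      ((if z ∈ C then (1 : ℝ) else 0) * ((if w ∈ D then (1 : ℝ) else 0) *
        (nb ends x y * nb ends z w)))) := by
  rw [S2_NN A B, S2_NN C D, Finset.sum_mul]
  refine Finset.sum_congr rfl fun x _ => ?_
  rw [Finset.sum_mul]
  refine Finset.sum_congr rfl fun y _ => ?_
  rw [Finset.mul_sum]
  refine Finset.sum_congr rfl fun z _ => ?_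
  rw [Finset.mul_sum]
  refine Finset.sum_congr rfl fun w _ => ?_
  ring

open scoped Classical in
/-- The sum over distinct triples of clusters. -/
lemma T3_low (ω : E → Bool) {a : ℝ} :
    ∑ A ∈ GC ends ω a, ∑ B ∈ GC ends ω a, ∑ B' ∈ GC ends ω a,
      (if A = B then 0 else if A = B' then 0 else if B = B' then 0 else
        NN ends A B * NN ends A B') ≤ T3 ends ω a := by
  set c : Finset V → Finset V → Finset V → ℝ := fun A B B' =>
    if A = B then 0 else if A = B' then 0 else if B = B' then 0 else 1 with hc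
  have h1 : ∀ A B B', (if A = B then 0 else if A = B' then 0 else if B = B' then 0 else
      NN ends A B * NN ends A B') = ∑ x, ∑ y, ∑ x', ∑ y',
        (if x ∈ A then (1 : ℝ) else 0) * ((if y ∈ B then (1 : ℝ) else 0) *
          ((if y' ∈ B' then (1 : ℝ) else 0) * ((if x' ∈ A then (1 : ℝ) else 0) *
            (c A B B' * (nb ends x y * nb ends x' y'))))) := by
    intro A B B'
    have e2 : (if A = B then 0 else if A = B' then 0 else if B = B' then 0 else
        NN ends A B * NN ends A B') = c A B B' * (NN ends A B * NN ends A B') := by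
      simp only [hc]
      split_ifs <;> simp
    rw [e2, S2_NNNN, Finset.mul_sum]
    refine Finset.sum_congr rfl fun x _ => ?_
    rw [Finset.mul_sum]
    refine Finset.sum_congr rfl fun y _ => ?_
    rw [Finset.mul_sum]
    refine Finset.sum_congr rfl fun z _ => ?_
    rw [Finset.mul_sum]
    refine Finset.sum_congr rfl fun w _ => ?_
    ring
  simp only [h1]
  simp only [S2_swap4]
  unfold T3
  refine Finset.sum_le_sum fun x _ => Finset.sum_le_sum fun y _ => Finset.sum_le_sum fun x' _ =>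
    Finset.sum_le_sum fun y' _ => ?_
  simp only [← Finset.mul_sum]
  have h2 : ∀ A B, ∑ B' ∈ GC ends ω a, (if y' ∈ B' then (1 : ℝ) else 0) *
      ((if x' ∈ A then (1 : ℝ) else 0) * (c A B B' * (nb ends x y * nb ends x' y'))) =
      (if a ≤ cz ends ω y' then (1 : ℝ) else 0) * ((if x' ∈ A then (1 : ℝ) else 0) *
        (c A B (cu ends ω y') * (nb ends x y * nb ends x' y'))) :=
    fun A B => S2_one ω a (fun B' => (if x' ∈ A then (1 : ℝ) else 0) *
      (c A B B' * (nb ends x y * nb ends x' y'))) y'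
  simp only [h2]
  have h3 : ∀ A, ∑ B ∈ GC ends ω a, (if y ∈ B then (1 : ℝ) else 0) *
      ((if a ≤ cz ends ω y' then (1 : ℝ) else 0) * ((if x' ∈ A then (1 : ℝ) else 0) *
        (c A B (cu ends ω y') * (nb ends x y * nb ends x' y')))) =
      (if a ≤ cz ends ω y then (1 : ℝ) else 0) * ((if a ≤ cz ends ω y' then (1 : ℝ) else 0) *
        ((if x' ∈ A then (1 : ℝ) else 0) *
        (c A (cu ends ω y) (cu ends ω y') * (nb ends x y * nb ends x' y')))) :=
    fun A => S2_one ω a (fun B => (if a ≤ cz ends ω y' then (1 : ℝ) else 0) *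
      ((if x' ∈ A then (1 : ℝ) else 0) *
        (c A B (cu ends ω y') * (nb ends x y * nb ends x' y')))) y
  simp only [h3]
  rw [S2_one ω a (fun A => (if a ≤ cz ends ω y then (1 : ℝ) else 0) *
    ((if a ≤ cz ends ω y' then (1 : ℝ) else 0) *
        ((if x' ∈ A then (1 : ℝ) else 0) *
        (c A (cu ends ω y) (cu ends ω y') * (nb ends x y * nb ends x' y')))))]
  simp only [hc, S2_cu_iff]
  have hn : 0 ≤ nb ends x y * nb ends x' y' := mul_nonneg (nb_nonneg _ _) (nb_nonneg _ _)
  by_cases i1 : a ≤ cz ends ω x <;> by_cases i2 : y ∈ cu ends ω x <;>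
    by_cases i3 : y' ∈ cu ends ω x <;> by_cases i4 : y' ∈ cu ends ω y <;>
    by_cases i5 : x' ∈ cu ends ω x <;> by_cases i6 : a ≤ cz ends ω y <;>
    by_cases i7 : a ≤ cz ends ω y' <;> simp [i1, i2, i3, i4, i5, i6, i7, hn]

open scoped Classical in
/-- The sum over distinct quadruples of clusters. -/
lemma T4_low (ω : E → Bool) {a : ℝ} :
    ∑ A ∈ GC ends ω a, ∑ B ∈ GC ends ω a, ∑ A' ∈ GC ends ω a, ∑ B' ∈ GC ends ω a,
      (if A = B then 0 else if A = A' then 0 else if A = B' then 0 else if B = A' then 0 else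
        if B = B' then 0 else if A' = B' then 0 else NN ends A B * NN ends A' B') ≤
      T4 ends ω a := by
  set c : Finset V → Finset V → Finset V → Finset V → ℝ := fun A B A' B' =>
    if A = B then 0 else if A = A' then 0 else if A = B' then 0 else if B = A' then 0 else
        if B = B' then 0 else if A' = B' then 0 else 1 with hc
  have h1 : ∀ A B A' B', (if A = B then 0 else if A = A' then 0 else if A = B' then 0 else
      if B = A' then 0 else if B = B' then 0 else if A' = B' then 0 else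
        NN ends A B * NN ends A' B') = ∑ x, ∑ y, ∑ z, ∑ w,
        (if x ∈ A then (1 : ℝ) else 0) * ((if y ∈ B then (1 : ℝ) else 0) *
          ((if z ∈ A' then (1 : ℝ) else 0) * ((if w ∈ B' then (1 : ℝ) else 0) *
            (c A B A' B' * (nb ends x y * nb ends z w))))) := by
    intro A B A' B'
    have e2 : (if A = B then 0 else if A = A' then 0 else if A = B' then 0 else
      if B = A' then 0 else if B = B' then 0 else if A' = B' then 0 else
        NN ends A B * NN ends A' B') = c A B A' B' * (NN ends A B * NN ends A' B') := by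
      simp only [hc]
      split_ifs <;> simp
    rw [e2, S2_NNNN, Finset.mul_sum]
    refine Finset.sum_congr rfl fun x _ => ?_
    rw [Finset.mul_sum]
    refine Finset.sum_congr rfl fun y _ => ?_
    rw [Finset.mul_sum]
    refine Finset.sum_congr rfl fun z _ => ?_
    rw [Finset.mul_sum]
    refine Finset.sum_congr rfl fun w _ => ?_
    ring
  simp only [h1]
  simp only [S2_swap4]
  unfold T4
  refine Finset.sum_le_sum fun x _ => Finset.sum_le_sum fun y _ => Finset.sum_le_sum fun z _ =>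
    Finset.sum_le_sum fun w _ => ?_
  simp only [← Finset.mul_sum]
  have h2 : ∀ A B A', ∑ B' ∈ GC ends ω a, (if w ∈ B' then (1 : ℝ) else 0) *
      (c A B A' B' * (nb ends x y * nb ends z w)) =
      (if a ≤ cz ends ω w then (1 : ℝ) else 0) *
        (c A B A' (cu ends ω w) * (nb ends x y * nb ends z w)) :=
    fun A B A' => S2_one ω a (fun B' => c A B A' B' * (nb ends x y * nb ends z w)) w
  simp only [h2]
  have h3 : ∀ A B, ∑ A' ∈ GC ends ω a, (if z ∈ A' then (1 : ℝ) else 0) *
      ((if a ≤ cz ends ω w then (1 : ℝ) else 0) *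
        (c A B A' (cu ends ω w) * (nb ends x y * nb ends z w))) =
      (if a ≤ cz ends ω z then (1 : ℝ) else 0) * ((if a ≤ cz ends ω w then (1 : ℝ) else 0) *
        (c A B (cu ends ω z) (cu ends ω w) * (nb ends x y * nb ends z w))) :=
    fun A B => S2_one ω a (fun A' => (if a ≤ cz ends ω w then (1 : ℝ) else 0) *
        (c A B A' (cu ends ω w) * (nb ends x y * nb ends z w))) z
  simp only [h3]
  have h4 : ∀ A, ∑ B ∈ GC ends ω a, (if y ∈ B then (1 : ℝ) else 0) *
      ((if a ≤ cz ends ω z then (1 : ℝ) else 0) * ((if a ≤ cz ends ω w then (1 : ℝ) else 0) *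
        (c A B (cu ends ω z) (cu ends ω w) * (nb ends x y * nb ends z w)))) =
      (if a ≤ cz ends ω y then (1 : ℝ) else 0) *
      ((if a ≤ cz ends ω z then (1 : ℝ) else 0) * ((if a ≤ cz ends ω w then (1 : ℝ) else 0) *
        (c A (cu ends ω y) (cu ends ω z) (cu ends ω w) * (nb ends x y * nb ends z w)))) :=
    fun A => S2_one ω a (fun B => (if a ≤ cz ends ω z then (1 : ℝ) else 0) *
      ((if a ≤ cz ends ω w then (1 : ℝ) else 0) *
        (c A B (cu ends ω z) (cu ends ω w) * (nb ends x y * nb ends z w)))) y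
  simp only [h4]
  rw [S2_one ω a (fun A => (if a ≤ cz ends ω y then (1 : ℝ) else 0) *
      ((if a ≤ cz ends ω z then (1 : ℝ) else 0) * ((if a ≤ cz ends ω w then (1 : ℝ) else 0) *
        (c A (cu ends ω y) (cu ends ω z) (cu ends ω w) * (nb ends x y * nb ends z w)))))]
  simp only [hc, S2_cu_iff]
  have hn : 0 ≤ nb ends x y * nb ends z w := mul_nonneg (nb_nonneg _ _) (nb_nonneg _ _)
  by_cases j1 : y ∈ cu ends ω x
  · simp [j1]
  by_cases j2 : z ∈ cu ends ω x
  · simp [j1, j2]
  by_cases j3 : w ∈ cu ends ω x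
  · simp [j1, j2, j3]
  by_cases j4 : z ∈ cu ends ω y
  · simp [j1, j2, j3, j4]
  by_cases j5 : w ∈ cu ends ω y
  · simp [j1, j2, j3, j4, j5]
  by_cases j6 : w ∈ cu ends ω z
  · simp [j1, j2, j3, j4, j5, j6]
  by_cases i1 : a ≤ cz ends ω x <;> by_cases i2 : a ≤ cz ends ω y <;>
    by_cases i3 : a ≤ cz ends ω z <;> by_cases i4 : a ≤ cz ends ω w <;>
    simp [j1, j2, j3, j4, j5, j6, i1, i2, i3, i4]

/-- distinct triples -/
private noncomputable def S3_F3 {ι : Type*} [DecidableEq ι] (N : ι → ι → ℝ) (A B B' : ι) : ℝ :=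
  if A = B then 0 else if A = B' then 0 else if B = B' then 0 else N A B * N A B'

/-- distinct quadruples -/
private noncomputable def S3_F4 {ι : Type*} [DecidableEq ι] (N : ι → ι → ℝ) (A B A' B' : ι) : ℝ :=
  if A = B then 0 else if A = A' then 0 else if A = B' then 0 else if B = A' then 0 else
        if B = B' then 0 else if A' = B' then 0 else N A B * N A' B'

private lemma S3_cyc {ι : Type*} [DecidableEq ι] (S : Finset ι) (N : ι → ι → ℝ)
    (hs : ∀ A B, N A B = N B A) :
    ∑ A ∈ S, pth N 1 (S.erase A) A A = ∑ A ∈ S, ∑ B ∈ S, if A = B then 0 else N A B ^ 2 := by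
  refine Finset.sum_congr rfl fun A hA => ?_
  have h1 : pth N 1 (S.erase A) A A = ∑ D ∈ S.erase A, N A D * N D A := rfl
  rw [h1, ← Finset.sum_erase S (f := fun B => if A = B then (0 : ℝ) else N A B ^ 2) (a := A)
    (by simp)]
  refine Finset.sum_congr rfl fun B hB => ?_
  have h : ¬ A = B := fun h => (Finset.ne_of_mem_erase hB) h.symm
  rw [if_neg h, hs B A]
  ring

private lemma S3_dg {ι : Type*} [DecidableEq ι] (S : Finset ι) (N : ι → ι → ℝ) :
    ∑ A ∈ S, (∑ B ∈ S, if A = B then 0 else N A B) ^ 2 =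
      ∑ A ∈ S, ∑ B ∈ S, ∑ B' ∈ S, S3_F3 N A B B' +
        ∑ A ∈ S, ∑ B ∈ S, if A = B then 0 else N A B ^ 2 := by
  rw [← Finset.sum_add_distrib]
  refine Finset.sum_congr rfl fun A _ => ?_
  rw [sq, Finset.sum_mul_sum, ← Finset.sum_add_distrib]
  refine Finset.sum_congr rfl fun B hB => ?_
  have h1 : (if A = B then (0 : ℝ) else N A B ^ 2) =
      ∑ B' ∈ S, if B = B' then (if A = B then (0 : ℝ) else N A B ^ 2) else 0 := by
    rw [Finset.sum_ite_eq, if_pos hB]
  rw [h1, ← Finset.sum_add_distrib]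
  refine Finset.sum_congr rfl fun B' _ => ?_
  unfold S3_F3
  by_cases h2 : A = B
  · simp [h2]
  · by_cases h3 : A = B'
    · subst h3
      simp [h2, Ne.symm h2]
    · by_cases h4 : B = B'
      · subst h4
        simp [h2]
        ring
      · simp [h2, h3, h4]

private lemma S3_pt {ι : Type*} [DecidableEq ι] (N : ι → ι → ℝ)
    (hs : ∀ A B, N A B = N B A) (A B A' B' : ι) :
    (if A = B then 0 else N A B) * (if A' = B' then 0 else N A' B') =
      S3_F4 N A B A' B' + (if A = A' then S3_F3 N A B B' else 0) +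
      (if A = B' then S3_F3 N A B A' else 0) + (if B = A' then S3_F3 N B A B' else 0) +
      (if B = B' then S3_F3 N B A A' else 0) +
      (if A = A' then (if B = B' then (if A = B then 0 else N A B ^ 2) else 0) else 0) +
      (if A = B' then (if B = A' then (if A = B then 0 else N A B ^ 2) else 0) else 0) := by
  unfold S3_F4 S3_F3
  by_cases h1 : A = B
  · subst h1
    simp
  · by_cases h2 : A' = B'
    · subst h2
      by_cases h3 : A = A'
      · subst h3
        simp [h1, Ne.symm h1]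
      · by_cases h4 : B = A'
        · subst h4
          simp [h1, Ne.symm h1]
        · simp [h1, Ne.symm h1, h3, h4]
    · by_cases h3 : A = A'
      · subst h3
        by_cases h4 : B = B'
        · subst h4
          simp [h1, Ne.symm h1]
          ring
        · simp [h1, Ne.symm h1, h2, h4]
      · by_cases h4 : A = B'
        · subst h4
          by_cases h5 : B = A'
          · subst h5
            simp [h1, Ne.symm h1]
            rw [hs B A]
            ring
          · simp [h1, Ne.symm h1, h2, h3, h5]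
            exact Or.inl (hs A' A)
        · by_cases h5 : B = A'
          · subst h5
            simp [h1, Ne.symm h1, h2, h4]
            exact Or.inl (hs A B)
          · by_cases h6 : B = B'
            · subst h6
              simp [h1, Ne.symm h1, h2, h3, h5]
              rw [hs A B, hs A' B]
            · simp [h1, h2, h3, h4, h5, h6]

private lemma S3_TT {ι : Type*} [DecidableEq ι] (S : Finset ι) (N : ι → ι → ℝ)
    (hs : ∀ A B, N A B = N B A) :
    (∑ A ∈ S, ∑ B ∈ S, if A = B then 0 else N A B) ^ 2 =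
      ∑ A ∈ S, ∑ B ∈ S, ∑ A' ∈ S, ∑ B' ∈ S, S3_F4 N A B A' B' +
      4 * (∑ A ∈ S, ∑ B ∈ S, ∑ B' ∈ S, S3_F3 N A B B') +
        2 * ∑ A ∈ S, ∑ B ∈ S, if A = B then 0 else N A B ^ 2 := by
  have h0 : (∑ A ∈ S, ∑ B ∈ S, if A = B then 0 else N A B) ^ 2 =
      ∑ A ∈ S, ∑ B ∈ S, ∑ A' ∈ S, ∑ B' ∈ S,
        (if A = B then 0 else N A B) * (if A' = B' then 0 else N A' B') := by
    rw [sq, Finset.sum_mul]
    refine Finset.sum_congr rfl fun A _ => ?_
    rw [Finset.sum_mul]
    refine Finset.sum_congr rfl fun B _ => ?_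
    rw [Finset.mul_sum]
    refine Finset.sum_congr rfl fun A' _ => ?_
    rw [Finset.mul_sum]
  rw [h0]
  simp_rw [S3_pt N hs, Finset.sum_add_distrib]
  have e1 : ∑ A ∈ S, ∑ B ∈ S, ∑ A' ∈ S, ∑ B' ∈ S, (if A = A' then S3_F3 N A B B' else 0) =
      ∑ A ∈ S, ∑ B ∈ S, ∑ B' ∈ S, S3_F3 N A B B' := by
    refine Finset.sum_congr rfl fun A hA => Finset.sum_congr rfl fun B hB => ?_
    rw [Finset.sum_comm]
    refine Finset.sum_congr rfl fun B' _ => ?_
    rw [Finset.sum_ite_eq, if_pos hA]
  have e2 : ∑ A ∈ S, ∑ B ∈ S, ∑ A' ∈ S, ∑ B' ∈ S, (if A = B' then S3_F3 N A B A' else 0) =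
      ∑ A ∈ S, ∑ B ∈ S, ∑ B' ∈ S, S3_F3 N A B B' := by
    refine Finset.sum_congr rfl fun A hA => Finset.sum_congr rfl fun B hB =>
      Finset.sum_congr rfl fun A' _ => ?_
    rw [Finset.sum_ite_eq, if_pos hA]
  have e3 : ∑ A ∈ S, ∑ B ∈ S, ∑ A' ∈ S, ∑ B' ∈ S, (if B = A' then S3_F3 N B A B' else 0) =
      ∑ A ∈ S, ∑ B ∈ S, ∑ B' ∈ S, S3_F3 N A B B' := by
    rw [Finset.sum_comm]
    refine Finset.sum_congr rfl fun B hB => Finset.sum_congr rfl fun A hA => ?_
    rw [Finset.sum_comm]
    refine Finset.sum_congr rfl fun B' _ => ?_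
    rw [Finset.sum_ite_eq, if_pos hB]
  have e4 : ∑ A ∈ S, ∑ B ∈ S, ∑ A' ∈ S, ∑ B' ∈ S, (if B = B' then S3_F3 N B A A' else 0) =
      ∑ A ∈ S, ∑ B ∈ S, ∑ B' ∈ S, S3_F3 N A B B' := by
    rw [Finset.sum_comm]
    refine Finset.sum_congr rfl fun B hB => Finset.sum_congr rfl fun A hA =>
      Finset.sum_congr rfl fun A' _ => ?_
    rw [Finset.sum_ite_eq, if_pos hB]
  have e5 : ∑ A ∈ S, ∑ B ∈ S, ∑ A' ∈ S, ∑ B' ∈ S,
      (if A = A' then (if B = B' then (if A = B then 0 else N A B ^ 2) else 0) else 0) =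
      ∑ A ∈ S, ∑ B ∈ S, if A = B then 0 else N A B ^ 2 := by
    refine Finset.sum_congr rfl fun A hA => Finset.sum_congr rfl fun B hB => ?_
    rw [Finset.sum_comm]
    simp_rw [Finset.sum_ite_eq, if_pos hA]
    rw [Finset.sum_ite_eq, if_pos hB]
  have e6 : ∑ A ∈ S, ∑ B ∈ S, ∑ A' ∈ S, ∑ B' ∈ S,
      (if A = B' then (if B = A' then (if A = B then 0 else N A B ^ 2) else 0) else 0) =
      ∑ A ∈ S, ∑ B ∈ S, if A = B then 0 else N A B ^ 2 := by
    refine Finset.sum_congr rfl fun A hA => Finset.sum_congr rfl fun B hB => ?_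
    simp_rw [Finset.sum_ite_eq, if_pos hA]
    rw [Finset.sum_ite_eq, if_pos hB]
  rw [e1, e2, e3, e4, e5, e6]
  ring

/-- The second moment of the degrees, pointwise. -/
lemma dg_sq (ω : E → Bool) {a : ℝ} :
    ∑ A ∈ GC ends ω a, dg ends ω a A ^ 2 ≤ T3 ends ω a + cc ends ω a 1 := by
  have h1 := S3_dg (GC ends ω a) (NN ends)
  have h2 := S3_cyc (GC ends ω a) (NN ends) NN_symm
  have h3 := T3_low (ends := ends) ω (a := a)
  have h4 : ∑ A ∈ GC ends ω a, ∑ B ∈ GC ends ω a, ∑ B' ∈ GC ends ω a, S3_F3 (NN ends) A B B' ≤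
      T3 ends ω a := by
    refine le_trans (le_of_eq ?_) h3
    unfold S3_F3
    congr!
  have h5 : ∑ A ∈ GC ends ω a, dg ends ω a A ^ 2 =
      ∑ A ∈ GC ends ω a, (∑ B ∈ GC ends ω a, if A = B then 0 else NN ends A B) ^ 2 := by
    unfold dg
    congr!
  have h6 : cc ends ω a 1 = ∑ A ∈ GC ends ω a, pth (NN ends) 1 ((GC ends ω a).erase A) A A := by
    unfold cc
    congr!
  rw [h5, h1, h6, h2]
  linarith

/-- The second moment of the number of edges, pointwise. -/
lemma TT_sq (ω : E → Bool) {a : ℝ} :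
    TT ends ω a ^ 2 ≤ T4 ends ω a + 4 * T3 ends ω a + 2 * cc ends ω a 1 := by
  have h1 := S3_TT (GC ends ω a) (NN ends) NN_symm
  have h2 := S3_cyc (GC ends ω a) (NN ends) NN_symm
  have h3 := T3_low (ends := ends) ω (a := a)
  have h4 : ∑ A ∈ GC ends ω a, ∑ B ∈ GC ends ω a, ∑ B' ∈ GC ends ω a, S3_F3 (NN ends) A B B' ≤
      T3 ends ω a := by
    refine le_trans (le_of_eq ?_) h3
    unfold S3_F3
    congr!
  have h4' : ∑ A ∈ GC ends ω a, ∑ B ∈ GC ends ω a, ∑ A' ∈ GC ends ω a, ∑ B' ∈ GC ends ω a,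
      S3_F4 (NN ends) A B A' B' ≤ T4 ends ω a := by
    refine le_trans (le_of_eq ?_) (T4_low (ends := ends) ω (a := a))
    unfold S3_F4
    congr!
  have h5 : TT ends ω a =
      ∑ A ∈ GC ends ω a, ∑ B ∈ GC ends ω a, if A = B then 0 else NN ends A B := by
    unfold TT
    congr!
  have h6 : cc ends ω a 1 = ∑ A ∈ GC ends ω a, pth (NN ends) 1 ((GC ends ω a).erase A) A A := by
    unfold cc
    congr!
  rw [h5, h1, h6, h2]
  linarith

-- END S3

end Pool.Agent.PERC29
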