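import Pool.Agent.Lib.MP_29e17e_pr.Cut

set_option autoImplicit false
set_option linter.unusedSectionVars false

open Finset

namespace Pool.Agent.PERC29

variable {V : Type*} [Fintype V] [DecidableEq V] {E : Type*} [Fintype E] [DecidableEq E]
  {ends : E → Sym2 V}

/-- The union of two configurations. -/
def orc (ω ω' : E → Bool) : E → Bool := fun e => ω e || ω' e

/-- Sprinkling: the union of two independent configurations. -/
lemma Ex_orc (p s : ℝ) (f : (E → Bool) → ℝ) :
    Ex (1 - (1 - p) * (1 - s)) f = Ex p (fun ω => Ex s (fun ω' => f (orc ω ω'))) := by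
  classical
  set w : ℝ → Bool → ℝ := fun p b => if b = true then p else 1 - p with hw
  set r : ℝ := 1 - (1 - p) * (1 - s) with hr
  have h1 : ∀ b : Bool, w r b = ∑ c : Bool × Bool, if (c.1 || c.2) = b then w p c.1 * w s c.2
      else 0 := by
    intro b
    rw [Fintype.sum_prod_type]
    simp only [Fintype.sum_bool, hw, hr]
    cases b <;> simp <;> ring
  have h2 : ∀ η : E → Bool, wt r η = ∑ κ : E → Bool × Bool,
      ∏ e, (if ((κ e).1 || (κ e).2) = η e then w p (κ e).1 * w s (κ e).2 else 0) := by
    intro η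
    have h3 := (Finset.prod_univ_sum (fun _ : E => (Finset.univ : Finset (Bool × Bool)))
      (fun e c => if (c.1 || c.2) = η e then w p c.1 * w s c.2 else 0))
    rw [Fintype.piFinset_univ] at h3
    rw [← h3]
    unfold wt
    exact Finset.prod_congr rfl fun e _ => h1 (η e)
  have h4 : ∀ (κ : E → Bool × Bool) (η : E → Bool),
      ∏ e, (if ((κ e).1 || (κ e).2) = η e then w p (κ e).1 * w s (κ e).2 else 0) =
      (if (fun e => ((κ e).1 || (κ e).2)) = η then
        (∏ e, w p (κ e).1) * ∏ e, w s (κ e).2 else 0) := by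
    intro κ η
    by_cases h : (fun e => ((κ e).1 || (κ e).2)) = η
    · rw [if_pos h, ← Finset.prod_mul_distrib]
      refine Finset.prod_congr rfl fun e _ => ?_
      rw [if_pos (congrFun h e)]
    · rw [if_neg h]
      have : ∃ e, ((κ e).1 || (κ e).2) ≠ η e := by
        by_contra hcon
        push Not at hcon
        exact h (funext hcon)
      obtain ⟨e, he⟩ := this
      exact Finset.prod_eq_zero (Finset.mem_univ e) (if_neg he)
  have hL : Ex r f = ∑ κ : E → Bool × Bool, (∏ e, w p (κ e).1) * (∏ e, w s (κ e).2) *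
      f (fun e => ((κ e).1 || (κ e).2)) := by
    unfold Ex
    calc ∑ η, wt r η * f η = ∑ η, ∑ κ : E → Bool × Bool,
          (if (fun e => ((κ e).1 || (κ e).2)) = η then
          (∏ e, w p (κ e).1) * (∏ e, w s (κ e).2) * f η else 0) := by
          refine Finset.sum_congr rfl fun η _ => ?_
          rw [h2, Finset.sum_mul]
          refine Finset.sum_congr rfl fun κ _ => ?_
          rw [h4]
          split_ifs <;> simp
      _ = _ := by
          rw [Finset.sum_comm]
          refine Finset.sum_congr rfl fun κ _ => ?_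
          rw [Finset.sum_ite_eq]
          simp
  rw [hL]
  unfold Ex
  rw [← Equiv.sum_comp (Equiv.arrowProdEquivProdArrow E (fun _ => Bool) (fun _ => Bool)).symm,
    Fintype.sum_prod_type]
  refine Finset.sum_congr rfl fun ω _ => ?_
  rw [Finset.mul_sum]
  refine Finset.sum_congr rfl fun ω' _ => ?_
  simp only [Equiv.arrowProdEquivProdArrow, Equiv.coe_fn_symm_mk]
  unfold wt orc
  simp only [hw]
  ring

/-- The probability that all edges of a set are closed. -/
lemma Ex_closed (s : ℝ) (X : Finset E) :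
    Ex s (fun ω => if ∀ e ∈ X, ω e = false then (1 : ℝ) else 0) = (1 - s) ^ X.card := by
  classical
  unfold Ex wt
  have h3 : ∀ ω : E → Bool, (∏ e, (if ω e = true then s else 1 - s)) *
      (if ∀ e ∈ X, ω e = false then (1 : ℝ) else 0) =
      ∏ e, (if e ∈ X then (if ω e = true then 0 else 1 - s) else
        (if ω e = true then s else 1 - s)) := by
    intro ω
    by_cases h : ∀ e ∈ X, ω e = false
    · rw [if_pos h, mul_one]
      refine Finset.prod_congr rfl fun e _ => ?_
      by_cases he : e ∈ X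
      · rw [if_pos he, h e he]
        simp
      · rw [if_neg he]
    · rw [if_neg h, mul_zero]
      push Not at h
      obtain ⟨e, he, hω⟩ := h
      have h5 : ω e = true := by simpa using hω
      symm
      apply Finset.prod_eq_zero (Finset.mem_univ e)
      rw [if_pos he, if_pos h5]
  rw [Finset.sum_congr rfl (fun ω _ => h3 ω)]
  have h4 := (Finset.prod_univ_sum (fun _ : E => (Finset.univ : Finset Bool))
    (fun e b => if e ∈ X then (if b = true then 0 else 1 - s) else
        (if b = true then s else 1 - s)))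
  rw [Fintype.piFinset_univ] at h4
  rw [← h4]
  have h5 : ∀ e : E, ∑ b : Bool, (if e ∈ X then (if b = true then 0 else 1 - s) else
        (if b = true then s else 1 - s)) = if e ∈ X then 1 - s else 1 := by
    intro e
    by_cases he : e ∈ X <;> simp [he]
  rw [Finset.prod_congr rfl fun e _ => h5 e, Finset.prod_ite_mem]
  simp

/-- Half of the pairs with distinct labels can be separated. -/
lemma maxcut {L ι : Type*} [Fintype L] [DecidableEq L] (s : Finset ι) (l : ι → L)
    (W : ι → ι → ℝ) :
    ∃ f : L → Bool, (1 / 2) * ∑ A ∈ s, ∑ B ∈ s, (if l A = l B then 0 else W A B) ≤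
      ∑ A ∈ s, ∑ B ∈ s, (if f (l A) = f (l B) then 0 else W A B) := by
  classical
  have hcount : ∀ a b : L, a ≠ b → ∑ f : L → Bool, (if f a = f b then (0 : ℝ) else 1) =
      (Fintype.card (L → Bool)) / 2 := by
    intro a b hab
    set φ : (L → Bool) ≃ (L → Bool) :=
      { toFun := fun f => Function.update f a (!f a)
        invFun := fun f => Function.update f a (!f a)
        left_inv := fun f => by
          funext x
          by_cases hx : x = a
          · subst hx; simp
          · simp [Function.update_of_ne hx]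
        right_inv := fun f => by
          funext x
          by_cases hx : x = a
          · subst hx; simp
          · simp [Function.update_of_ne hx] } with hφ
    have h1 : ∑ f : L → Bool, (if f a = f b then (0 : ℝ) else 1) =
        ∑ f : L → Bool, (if f a = f b then (1 : ℝ) else 0) := by
      rw [← Equiv.sum_comp φ]
      refine Finset.sum_congr rfl fun f _ => ?_
      have h2 : φ f a = !f a := by simp [hφ]
      have h3 : φ f b = f b := by simp [hφ, Function.update_of_ne (Ne.symm hab)]
      rw [h2, h3]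
      cases f a <;> cases f b <;> simp
    have h4 : ∑ f : L → Bool, (if f a = f b then (0 : ℝ) else 1) +
        ∑ f : L → Bool, (if f a = f b then (1 : ℝ) else 0) = Fintype.card (L → Bool) := by
      rw [← Finset.sum_add_distrib]
      have : ∀ f : L → Bool, ((if f a = f b then (0 : ℝ) else 1) +
          (if f a = f b then (1 : ℝ) else 0)) = 1 := by
        intro f; split_ifs <;> norm_num
      rw [Finset.sum_congr rfl fun f _ => this f]
      simp
    linarith
  by_contra hcon
  push Not at hcon
  have hsum : ∑ f : L → Bool, ∑ A ∈ s, ∑ B ∈ s, (if f (l A) = f (l B) then 0 else W A B) =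
      (Fintype.card (L → Bool)) * ((1 / 2) * ∑ A ∈ s, ∑ B ∈ s,
        (if l A = l B then 0 else W A B)) := by
    rw [Finset.sum_comm, Finset.mul_sum, Finset.mul_sum]
    refine Finset.sum_congr rfl fun A _ => ?_
    rw [Finset.sum_comm, Finset.mul_sum, Finset.mul_sum]
    refine Finset.sum_congr rfl fun B _ => ?_
    by_cases h : l A = l B
    · simp [h]
    · rw [if_neg h]
      have : ∀ f : L → Bool, (if f (l A) = f (l B) then 0 else W A B) =
          (if f (l A) = f (l B) then (0 : ℝ) else 1) * W A B := by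
        intro f; split_ifs <;> simp
      rw [Finset.sum_congr rfl fun f _ => this f, ← Finset.sum_mul, hcount _ _ h]
      ring
  have hlt := Finset.sum_lt_sum_of_nonempty (s := (Finset.univ : Finset (L → Bool)))
    ⟨fun _ => true, Finset.mem_univ _⟩ (fun f _ => hcon f)
  rw [hsum, Finset.sum_const, nsmul_eq_mul] at hlt
  exact lt_irrefl _ hlt

open scoped Classical in
/-- The clusters of size at least `a`. -/
noncomputable def GC (ends : E → Sym2 V) (ω : E → Bool) (a : ℝ) : Finset (Finset V) :=
  (Finset.univ.image (cu ends ω)).filter (fun A => a ≤ (A.card : ℝ))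

/-- The number of edges between two sets. -/
noncomputable def NN (ends : E → Sym2 V) (A B : Finset V) : ℝ := ∑ x ∈ A, ∑ y ∈ B, nb ends x y

lemma NN_nonneg (A B : Finset V) : 0 ≤ NN ends A B :=
  Finset.sum_nonneg fun x _ => Finset.sum_nonneg fun y _ => nb_nonneg x y

lemma NN_symm (A B : Finset V) : NN ends A B = NN ends B A := by
  unfold NN
  rw [Finset.sum_comm]
  exact Finset.sum_congr rfl fun y _ => Finset.sum_congr rfl fun x _ => nb_symm x y

/-- The truncated number of edges between distinct large clusters. -/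
noncomputable def Tt (ends : E → Sym2 V) (ω : E → Bool) (a t : ℝ) : ℝ :=
  ∑ A ∈ GC ends ω a, ∑ B ∈ GC ends ω a, if A = B then 0 else min (NN ends A B) t

open scoped Classical in
/-- The edges between the clusters in `𝒮` and the other large clusters. -/
noncomputable def XX (ends : E → Sym2 V) (ω : E → Bool) (a : ℝ) (𝒮 : Finset (Finset V)) :
    Finset E :=
  Finset.univ.filter (fun e => ∃ A ∈ 𝒮, ∃ B ∈ GC ends ω a \ 𝒮, ∃ x ∈ A, ∃ y ∈ B,
    ends e = s(x, y))

lemma mem_GC {ω : E → Bool} {a : ℝ} {A : Finset V} :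
    A ∈ GC ends ω a ↔ (∃ x, cu ends ω x = A) ∧ a ≤ (A.card : ℝ) := by
  classical
  unfold GC
  rw [Finset.mem_filter, Finset.mem_image]
  simp

lemma GC_disj {ω : E → Bool} {a : ℝ} {A B : Finset V} (hA : A ∈ GC ends ω a)
    (hB : B ∈ GC ends ω a) (h : A ≠ B) : Disjoint A B := by
  obtain ⟨⟨x, rfl⟩, -⟩ := mem_GC.1 hA
  obtain ⟨⟨y, rfl⟩, -⟩ := mem_GC.1 hB
  rw [Finset.disjoint_left]
  intro z hz1 hz2
  apply h
  rw [← cu_eq hz1, ← cu_eq hz2]

open scoped Classical in
/-- The edge count. -/
lemma XX_card (ω : E → Bool) (a : ℝ) (𝒮 : Finset (Finset V)) (h𝒮 : 𝒮 ⊆ GC ends ω a) :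
    ∑ A ∈ 𝒮, ∑ B ∈ GC ends ω a \ 𝒮, NN ends A B ≤ ((XX ends ω a 𝒮).card : ℝ) := by
  set 𝒯 := GC ends ω a \ 𝒮 with h𝒯
  set U := 𝒮.biUnion id with hU
  set W := 𝒯.biUnion id with hW
  have hd1 : Set.PairwiseDisjoint (𝒮 : Set (Finset V)) id := by
    intro A hA B hB hAB
    exact GC_disj (h𝒮 hA) (h𝒮 hB) hAB
  have hd2 : Set.PairwiseDisjoint (𝒯 : Set (Finset V)) id := by
    intro A hA B hB hAB
    exact GC_disj (Finset.mem_sdiff.1 hA).1 (Finset.mem_sdiff.1 hB).1 hAB
  have hUW : Disjoint U W := by
    rw [Finset.disjoint_left]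
    intro z hz1 hz2
    rw [hU, Finset.mem_biUnion] at hz1
    rw [hW, Finset.mem_biUnion] at hz2
    obtain ⟨A, hA, hzA⟩ := hz1
    obtain ⟨B, hB, hzB⟩ := hz2
    have hB' := Finset.mem_sdiff.1 hB
    have hne : A ≠ B := by
      rintro rfl
      exact hB'.2 hA
    exact Finset.disjoint_left.1 (GC_disj (h𝒮 hA) hB'.1 hne) hzA hzB
  have e1 : ∑ A ∈ 𝒮, ∑ B ∈ 𝒯, NN ends A B = ∑ x ∈ U, ∑ y ∈ W, nb ends x y := by
    rw [hU, Finset.sum_biUnion hd1]
    refine Finset.sum_congr rfl fun A _ => ?_
    unfold NN
    rw [Finset.sum_comm]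
    refine Finset.sum_congr rfl fun x _ => ?_
    rw [hW, Finset.sum_biUnion hd2]
    rfl
  rw [e1]
  have e2 : ∑ x ∈ U, ∑ y ∈ W, nb ends x y =
      ∑ e : E, ∑ x ∈ U, ∑ y ∈ W, (if ends e = s(x, y) then (1 : ℝ) else 0) := by
    unfold nb
    calc ∑ x ∈ U, ∑ y ∈ W, ∑ e : E, (if ends e = s(x, y) then (1 : ℝ) else 0) =
        ∑ x ∈ U, ∑ e : E, ∑ y ∈ W, (if ends e = s(x, y) then (1 : ℝ) else 0) :=
          Finset.sum_congr rfl fun x _ => Finset.sum_comm
      _ = _ := Finset.sum_comm
  have e3 : ((XX ends ω a 𝒮).card : ℝ) = ∑ e : E, (if e ∈ XX ends ω a 𝒮 then (1 : ℝ) else 0) := by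
    simp
  rw [e2, e3]
  refine Finset.sum_le_sum fun e _ => ?_
  by_cases he : ∃ x ∈ U, ∃ y ∈ W, ends e = s(x, y)
  · obtain ⟨x, hx, y, hy, hxy⟩ := he
    have hmem : e ∈ XX ends ω a 𝒮 := by
      unfold XX
      rw [Finset.mem_filter]
      rw [hU, Finset.mem_biUnion] at hx
      rw [hW, Finset.mem_biUnion] at hy
      obtain ⟨A, hA, hxA⟩ := hx
      obtain ⟨B, hB, hyB⟩ := hy
      exact ⟨Finset.mem_univ _, A, hA, B, hB, x, hxA, y, hyB, hxy⟩
    rw [if_pos hmem]
    have hun : ∀ x' ∈ U, ∀ y' ∈ W, ends e = s(x', y') → x' = x ∧ y' = y := by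
      intro x' hx' y' hy' h'
      rw [hxy] at h'
      rcases Sym2.eq_iff.1 h' with ⟨h1, h2⟩ | ⟨h1, h2⟩
      · exact ⟨h1.symm, h2.symm⟩
      · exfalso
        rw [h1] at hx
        exact Finset.disjoint_left.1 hUW hx hy'
    rw [Finset.sum_eq_single x]
    · rw [Finset.sum_eq_single y]
      · rw [if_pos hxy]
      · intro y' hy' hne
        rw [if_neg]
        intro h'
        exact hne (hun x hx y' hy' h').2
      · intro h'
        exact absurd hy h'
    · intro x' hx' hne
      apply Finset.sum_eq_zero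
      intro y' hy'
      rw [if_neg]
      intro h'
      exact hne (hun x' hx' y' hy' h').1
    · intro h'
      exact absurd hx h'
  · have : ∑ x ∈ U, ∑ y ∈ W, (if ends e = s(x, y) then (1 : ℝ) else 0) = 0 := by
      apply Finset.sum_eq_zero
      intro x hx
      apply Finset.sum_eq_zero
      intro y hy
      rw [if_neg]
      intro h'
      exact he ⟨x, hx, y, hy, h'⟩
    rw [this]
    split_ifs <;> norm_num

end Pool.Agent.PERC29
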