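import Pool.Agent.Lib.MP_29e17e_pr.Ave
import Pool.Agent.Lib.MP_29e17e_pr.Osss

set_option autoImplicit false
set_option linter.unusedSectionVars false

open Finset

namespace Pool.Agent.PERC29

variable {V : Type*} [Fintype V] [DecidableEq V] {E : Type*} [Fintype E] [DecidableEq E]
  {ends : E → Sym2 V}

/-- The cluster of `x`. -/
noncomputable def cu (ends : E → Sym2 V) (ω : E → Bool) (x : V) : Finset V :=
  cl ends ω Set.univ x

/-- The cluster size. -/
noncomputable def cz (ends : E → Sym2 V) (ω : E → Bool) (x : V) : ℝ := ((cu ends ω x).card : ℝ)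

lemma mem_cu {ω : E → Bool} {x y : V} : y ∈ cu ends ω x ↔ Rch ends ω Set.univ x y := mem_cl

lemma self_mem_cu (ω : E → Bool) (x : V) : x ∈ cu ends ω x := mem_cu.2 (Rch.refl x)

lemma cu_symm {ω : E → Bool} {x y : V} : y ∈ cu ends ω x ↔ x ∈ cu ends ω y := by
  rw [mem_cu, mem_cu]
  exact ⟨Rch.symm, Rch.symm⟩

lemma cu_eq {ω : E → Bool} {x y : V} (h : y ∈ cu ends ω x) : cu ends ω y = cu ends ω x := by
  ext z
  rw [mem_cu, mem_cu]
  rw [mem_cu] at h
  exact ⟨fun h2 => h.trans h2, fun h2 => h.symm.trans h2⟩

lemma cz_nonneg (ω : E → Bool) (x : V) : 0 ≤ cz ends ω x := Nat.cast_nonneg _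

lemma one_le_cz (ω : E → Bool) (x : V) : 1 ≤ cz ends ω x := by
  unfold cz
  have : 0 < (cu ends ω x).card := Finset.card_pos.2 ⟨x, self_mem_cu ω x⟩
  exact_mod_cast this

/-- Two clusters: the joint expectation on the event that they are distinct is bounded by the
product. -/
lemma two {p : ℝ} (h0 : 0 ≤ p) (h1 : p ≤ 1) (x y : V) (Φ : Finset V → ℝ) (hΦ : ∀ A, 0 ≤ Φ A)
    (h : Finset V → ℝ) (hh0 : ∀ A, 0 ≤ h A) (hmono : ∀ A B, A ⊆ B → h A ≤ h B) :
    Ex p (fun ω => (if y ∈ cu ends ω x then 0 else 1) * (Φ (cu ends ω x) * h (cu ends ω y))) ≤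
      Ex p (fun ω => Φ (cu ends ω x)) * Ex p (fun ω => h (cu ends ω y)) := by
  classical
  have hdec : ∀ ω : E → Bool, (if y ∈ cu ends ω x then (0 : ℝ) else 1) *
      (Φ (cu ends ω x) * h (cu ends ω y)) =
      ∑ A : Finset V, (if cu ends ω x = A then 1 else 0) *
        ((if y ∈ A then 0 else 1) * (Φ A * h (cu ends ω y))) := by
    intro ω
    rw [Finset.sum_eq_single (cu ends ω x)]
    · rw [if_pos rfl, one_mul]
    · intro A _ hA
      rw [if_neg (Ne.symm hA), zero_mul]
    · intro hh
      exact absurd (Finset.mem_univ _) hh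
  have hdec2 : ∀ ω : E → Bool, Φ (cu ends ω x) =
      ∑ A : Finset V, (if cu ends ω x = A then 1 else 0) * Φ A := by
    intro ω
    rw [Finset.sum_eq_single (cu ends ω x)]
    · rw [if_pos rfl, one_mul]
    · intro A _ hA
      rw [if_neg (Ne.symm hA), zero_mul]
    · intro hh
      exact absurd (Finset.mem_univ _) hh
  rw [Ex_congr hdec, Ex_sum, Ex_congr hdec2, Ex_sum, Finset.sum_mul]
  refine Finset.sum_le_sum fun A _ => ?_
  have hI : 0 ≤ Ex p (fun ω => (if cu ends ω x = A then (1 : ℝ) else 0) * Φ A) :=
    Ex_nonneg h0 h1 fun ω => mul_nonneg (by split_ifs <;> norm_num) (hΦ A)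
  have hE : 0 ≤ Ex p (fun ω => h (cu ends ω y)) := Ex_nonneg h0 h1 fun ω => hh0 _
  by_cases hy : y ∈ A
  · have : ∀ ω : E → Bool, (if cu ends ω x = A then (1 : ℝ) else 0) *
        ((if y ∈ A then 0 else 1) * (Φ A * h (cu ends ω y))) = 0 := by
      intro ω
      rw [if_pos hy]
      ring
    rw [Ex_zero_of this]
    exact mul_nonneg hI hE
  · set D : Set E := {e | ∃ a b, ends e = s(a, b) ∧ a ∈ A} with hD
    have hcl : ∀ ω : E → Bool, cu ends ω x = A →
        cu ends ω y = cl ends ω ((A : Set V))ᶜ y := by
      intro ω hA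
      ext z
      rw [mem_cu, mem_cl]
      apply inside (B := ({x} : Set V))
      · intro w
        simp only [Set.mem_compl_iff, Finset.mem_coe, ← hA, mem_cu, Set.mem_singleton_iff,
          exists_eq_left]
      · simpa using hy
    have e1 : ∀ ω : E → Bool, (if cu ends ω x = A then (1 : ℝ) else 0) *
        ((if y ∈ A then 0 else 1) * (Φ A * h (cu ends ω y))) =
        ((if cu ends ω x = A then (1 : ℝ) else 0) * Φ A) * h (cl ends ω ((A : Set V))ᶜ y) := by
      intro ω
      by_cases hA : cu ends ω x = A
      · rw [hcl ω hA, if_neg hy]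
        ring
      · rw [if_neg hA]
        ring
    rw [Ex_congr e1, Ex_indep p D]
    · apply mul_le_mul_of_nonneg_left _ hI
      apply Ex_mono h0 h1
      intro ω
      apply hmono
      exact cl_mono (fun _ h => h) (Set.subset_univ _)
    · intro ω ω' hh
      have key : ∀ ω ω' : E → Bool, (∀ e ∈ D, ω e = ω' e) → cu ends ω x = A →
          cu ends ω' x = A := by
        intro ω ω' hh hA
        exact cl_eq_dep (fun e' a b h2 _ _ h5 => hh e' ⟨a, b, h2, h5⟩) hA
      by_cases hc : cu ends ω x = A
      · rw [if_pos hc, if_pos (key ω ω' hh hc)]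
      · rw [if_neg hc, if_neg]
        intro hc'
        exact hc (key ω' ω (fun e he => (hh e he).symm) hc')
    · intro ω ω' hh
      rw [cl_dep (S := ((A : Set V))ᶜ) (ω' := ω')]
      intro e' a b h2 h3 h4
      apply hh
      rintro ⟨a', b', h5, h8⟩
      rw [h2] at h5
      rcases Sym2.eq_iff.1 h5 with ⟨rfl, rfl⟩ | ⟨rfl, rfl⟩
      · exact h3 h8
      · exact h4 h8

/-- The ghost-field form of the exploration inequality. -/
lemma osss_ghost {p γ M : ℝ} (h0 : 0 ≤ p) (h1 : p ≤ 1) (hγ0 : 0 ≤ γ) (hγ1 : γ ≤ 1) (o : V)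
    (hM : ∀ x, Ex p (mg ends γ x) ≤ M) (f : (E → Bool) → ℝ) :
    Ex p (fun ω => f ω * mg ends γ o ω) - Ex p f * Ex p (mg ends γ o) ≤
      2 * M * ∑ e, infl p e f := by
  classical
  have e1 : Ex p (fun ω => f ω * mg ends γ o ω) =
      ∑ B : Finset V, gw γ B * Ex p (fun ω => f ω * cn ends B o ω) := by
    have : ∀ ω : E → Bool, f ω * mg ends γ o ω =
        ∑ B : Finset V, gw γ B * (f ω * cn ends B o ω) := by
      intro ω
      rw [mg_eq, Finset.mul_sum]
      refine Finset.sum_congr rfl fun B _ => ?_
      unfold cn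
      ring
    rw [Ex_congr this, Ex_sum]
    exact Finset.sum_congr rfl fun B _ => Ex_mul_left _ _ _
  have e2 : ∀ x, Ex p (mg ends γ x) = ∑ B : Finset V, gw γ B * Ex p (cn ends B x) := by
    intro x
    have : ∀ ω : E → Bool, mg ends γ x ω = ∑ B : Finset V, gw γ B * cn ends B x ω := by
      intro ω
      rw [mg_eq]
      rfl
    rw [Ex_congr this, Ex_sum]
    exact Finset.sum_congr rfl fun B _ => Ex_mul_left _ _ _
  have e3 : ∀ e : E, ∑ B : Finset V, gw γ B * Ex p (tch ends B e) ≤ 2 * M := by
    intro e
    induction hs : ends e using Sym2.ind with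
    | _ a b =>
      have h2 : ∀ B : Finset V, Ex p (tch ends B e) ≤ Ex p (cn ends B a) + Ex p (cn ends B b) := by
        intro B
        rw [← Ex_add]
        apply Ex_mono h0 h1
        intro ω
        unfold tch cn
        by_cases hx : ∃ x, x ∈ ends e ∧ Conn ends ω B x
        · rw [if_pos hx]
          obtain ⟨x, hx1, hx2⟩ := hx
          rw [hs, Sym2.mem_iff] at hx1
          rcases hx1 with rfl | rfl
          · rw [if_pos hx2]
            split_ifs <;> norm_num
          · rw [if_pos hx2]
            split_ifs <;> norm_num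
        · rw [if_neg hx]
          split_ifs <;> norm_num
      calc ∑ B : Finset V, gw γ B * Ex p (tch ends B e) ≤
          ∑ B : Finset V, gw γ B * (Ex p (cn ends B a) + Ex p (cn ends B b)) :=
            Finset.sum_le_sum fun B _ => mul_le_mul_of_nonneg_left (h2 B) (gw_nonneg hγ0 hγ1 B)
        _ = Ex p (mg ends γ a) + Ex p (mg ends γ b) := by
            rw [e2 a, e2 b, ← Finset.sum_add_distrib]
            exact Finset.sum_congr rfl fun B _ => by ring
        _ ≤ 2 * M := by linarith [hM a, hM b]
  rw [e1, e2 o, Finset.mul_sum, ← Finset.sum_sub_distrib]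
  calc _ ≤ ∑ B : Finset V, gw γ B * ∑ e, Ex p (tch ends B e) * infl p e f := by
        refine Finset.sum_le_sum fun B _ => ?_
        have := mul_le_mul_of_nonneg_left (osss (ends := ends) h0 h1 B o f) (gw_nonneg hγ0 hγ1 B)
        calc _ = gw γ B * (Ex p (fun ω => f ω * cn ends B o ω) - Ex p f * Ex p (cn ends B o)) := by
              ring
          _ ≤ _ := this
    _ = ∑ e, (∑ B : Finset V, gw γ B * Ex p (tch ends B e)) * infl p e f := by
        have : ∀ B : Finset V, gw γ B * ∑ e, Ex p (tch ends B e) * infl p e f =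
            ∑ e, gw γ B * Ex p (tch ends B e) * infl p e f := by
          intro B
          rw [Finset.mul_sum]
          exact Finset.sum_congr rfl fun e _ => by ring
        rw [Finset.sum_congr rfl fun B _ => this B, Finset.sum_comm]
        exact Finset.sum_congr rfl fun e _ => by rw [Finset.sum_mul]
    _ ≤ ∑ e, (2 * M) * infl p e f :=
        Finset.sum_le_sum fun e _ => mul_le_mul_of_nonneg_right (e3 e) (infl_nonneg h0 h1 e f)
    _ = _ := by rw [Finset.mul_sum]

/-- The influence of an increasing function. -/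
lemma infl_eq {p : ℝ} (h0 : 0 ≤ p) (h1 : p ≤ 1) (e : E) (f : (E → Bool) → ℝ)
    (hf : ∀ ω, f ω ≤ f (Function.update ω e true)) :
    infl p e f = 2 * p * Ex p (fun ω => if ω e = true then 0 else
      f (Function.update ω e true) - f ω) := by
  have hind : ∀ b, ∀ ω ω' : E → Bool, (∀ e' ≠ e, ω e' = ω' e') →
      f (Function.update ω e b) = f (Function.update ω' e b) := by
    intro b ω ω' h
    congr 1
    funext x
    by_cases hx : x = e
    · subst hx; simp
    · rw [Function.update_of_ne hx, Function.update_of_ne hx, h x hx]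
  set g : (E → Bool) → ℝ := fun ω => f (Function.update ω e true) - f (Function.update ω e false)
    with hg
  have hgi : ∀ ω ω' : E → Bool, (∀ e' ≠ e, ω e' = ω' e') → g ω = g ω' := by
    intro ω ω' h
    simp only [hg]
    rw [hind true ω ω' h, hind false ω ω' h]
  have hg0 : ∀ ω, 0 ≤ g ω := by
    intro ω
    have := hf (Function.update ω e false)
    rw [Function.update_idem] at this
    simp only [hg]
    linarith
  have e1 : Ex p (fun ω => if ω e = true then 0 else f (Function.update ω e true) - f ω) =
      (1 - p) * Ex p g := by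
    have : ∀ ω : E → Bool, (if ω e = true then 0 else f (Function.update ω e true) - f ω) =
        if ω e = true then (fun _ => (0 : ℝ)) ω else g ω := by
      intro ω
      by_cases h : ω e = true
      · rw [if_pos h, if_pos h]
      · rw [if_neg h, if_neg h]
        have h' : ω e = false := by simpa using h
        simp only [hg]
        congr 2
        rw [← h', Function.update_eq_self]
    rw [Ex_congr this, Ex_split p e _ _ (fun _ _ _ => rfl) hgi, Ex_const]
    ring
  have e2 : infl p e f = p * ((1 - p) * Ex p g) + (1 - p) * (p * Ex p g) := by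
    unfold infl
    have : ∀ ω : E → Bool, |f ω - av p e f ω| =
        if ω e = true then (1 - p) * g ω else p * g ω := by
      intro ω
      by_cases h : ω e = true
      · rw [if_pos h]
        have h2 : f ω = f (Function.update ω e true) := by rw [← h, Function.update_eq_self]
        unfold av
        rw [h2]
        have h3 : f (Function.update ω e true) - (p * f (Function.update (ω) e true) +
            (1 - p) * f (Function.update (ω) e false)) = (1 - p) * g ω := by
          simp only [hg]; ring
        rw [h3, abs_of_nonneg (mul_nonneg (by linarith) (hg0 ω))]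
      · rw [if_neg h]
        have h' : ω e = false := by simpa using h
        have h2 : f ω = f (Function.update ω e false) := by rw [← h', Function.update_eq_self]
        unfold av
        rw [h2]
        have h3 : f (Function.update ω e false) - (p * f (Function.update (ω) e true) +
            (1 - p) * f (Function.update (ω) e false)) = -(p * g ω) := by
          simp only [hg]; ring
        rw [h3, abs_neg, abs_of_nonneg (mul_nonneg h0 (hg0 ω))]
    rw [Ex_congr this, Ex_split p e]
    · rw [Ex_mul_left, Ex_mul_left]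
    · intro ω ω' h
      rw [hgi ω ω' h]
    · intro ω ω' h
      rw [hgi ω ω' h]
  rw [e1, e2]
  ring

/-- The exploration inequality for increasing functions. -/
lemma osss_mono {p γ M : ℝ} (h0 : 0 ≤ p) (h1 : p ≤ 1) (hγ0 : 0 ≤ γ) (hγ1 : γ ≤ 1) (o : V)
    (hM : ∀ x, Ex p (mg ends γ x) ≤ M) (f : (E → Bool) → ℝ)
    (hf : ∀ e ω, f ω ≤ f (Function.update ω e true)) :
    Ex p (fun ω => f ω * mg ends γ o ω) - Ex p f * Ex p (mg ends γ o) ≤
      4 * p * M * Ex p (fun ω => ∑ e, if ω e = true then 0 else
        f (Function.update ω e true) - f ω) := by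
  refine (osss_ghost h0 h1 hγ0 hγ1 o hM f).trans (le_of_eq ?_)
  rw [Ex_sum, Finset.sum_congr rfl fun e _ => infl_eq h0 h1 e f (hf e), ← Finset.mul_sum]
  ring

end Pool.Agent.PERC29
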