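import Pool.Agent.Lib.MP_29e17e_pr.Spr

set_option autoImplicit false
set_option linter.unusedSectionVars false

open Finset

namespace Pool.Agent.PERC29

variable {V : Type*} [Fintype V] [DecidableEq V] {E : Type*} [Fintype E] [DecidableEq E]
  {ends : E → Sym2 V}

lemma orc_left (ω ω' : E → Bool) : ∀ e, ω e = true → orc ω ω' e = true := by
  intro e he
  simp [orc, he]

lemma orc_right (ω ω' : E → Bool) : ∀ e, ω' e = true → orc ω ω' e = true := by
  intro e he
  simp [orc, he]

/-- The cluster in the configuration `η` of a cluster of `ω`. -/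
noncomputable def lab (ends : E → Sym2 V) (η : E → Bool) (A : Finset V) : Finset V :=
  A.biUnion (cu ends η)

lemma lab_eq {ω η : E → Bool} (h : ∀ e, ω e = true → η e = true) {a : ℝ} {A : Finset V} {x : V}
    (hA : A ∈ GC ends ω a) (hx : x ∈ A) : lab ends η A = cu ends η x := by
  obtain ⟨⟨x0, rfl⟩, -⟩ := mem_GC.1 hA
  unfold lab
  ext z
  rw [Finset.mem_biUnion]
  constructor
  · rintro ⟨w, hw, hz⟩
    have h2 : w ∈ cu ends ω x := by rw [cu_eq hx]; exact hw
    have h3 : w ∈ cu ends η x := cu_mono h h2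
    rwa [cu_eq h3] at hz
  · intro hz
    exact ⟨x, hx, hz⟩

lemma GC_nonempty {ω : E → Bool} {a : ℝ} {A : Finset V} (hA : A ∈ GC ends ω a) : A.Nonempty := by
  obtain ⟨⟨x0, rfl⟩, -⟩ := mem_GC.1 hA
  exact ⟨x0, self_mem_cu ω x0⟩

lemma same_label {ω η : E → Bool} (h : ∀ e, ω e = true → η e = true) {a m : ℝ} (ha : 0 < a)
    (hm : ∀ x, cz ends η x < m) {A : Finset V} (hA : A ∈ GC ends ω a) :
    (((GC ends ω a).filter (fun B => lab ends η A = lab ends η B)).card : ℝ) ≤ m / a := by
  classical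
  set S := (GC ends ω a).filter (fun B => lab ends η A = lab ends η B) with hS
  obtain ⟨x, hx⟩ := GC_nonempty hA
  have hd : Set.PairwiseDisjoint (S : Set (Finset V)) id := by
    intro B hB C hC hBC
    exact GC_disj (Finset.mem_filter.1 hB).1 (Finset.mem_filter.1 hC).1 hBC
  have hsub : S.biUnion id ⊆ cu ends η x := by
    intro z hz
    rw [Finset.mem_biUnion] at hz
    obtain ⟨B, hB, hzB⟩ := hz
    obtain ⟨hB1, hB2⟩ := Finset.mem_filter.1 hB
    rw [lab_eq h hA hx, lab_eq h hB1 hzB] at hB2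
    rw [hB2]
    exact self_mem_cu η z
  have hc1 : ∑ B ∈ S, (B.card : ℝ) ≤ cz ends η x := by
    have h2 := Finset.card_le_card hsub
    rw [Finset.card_biUnion (fun B hB C hC hBC => hd hB hC hBC)] at h2
    unfold cz
    exact_mod_cast h2
  have hc2 : (S.card : ℝ) * a ≤ ∑ B ∈ S, (B.card : ℝ) := by
    rw [← nsmul_eq_mul]
    apply Finset.card_nsmul_le_sum
    intro B hB
    exact (mem_GC.1 (Finset.mem_filter.1 hB).1).2
  rw [le_div_iff₀ ha]
  linarith [hm x]

/-- If after sprinkling all clusters are small, some union of clusters is not joined to the rest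
although there are many edges between them. -/
lemma cut_exists (ω ω' : E → Bool) {a t m τ ng : ℝ} (ha : 0 < a) (ht : 0 ≤ t)
    (hm : ∀ x, cz ends (orc ω ω') x < m) (hm0 : 0 ≤ m)
    (hng : ((GC ends ω a).card : ℝ) ≤ ng) (hτ : t * (m / a) * ng ≤ τ)
    (hT : 2 * τ ≤ Tt ends ω a t) :
    ∃ 𝒮 ∈ (GC ends ω a).powerset, τ / 4 ≤ ((XX ends ω a 𝒮).card : ℝ) ∧
      ∀ e ∈ XX ends ω a 𝒮, ω' e = false := by
  classical
  set η := orc ω ω' with hη
  set G := GC ends ω a with hG
  set l := lab ends η with hl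
  set W : Finset V → Finset V → ℝ := fun A B => if A = B then 0 else min (NN ends A B) t with hW
  have hW0 : ∀ A B, 0 ≤ W A B := by
    intro A B
    simp only [hW]
    split_ifs
    · exact le_rfl
    · exact le_min (NN_nonneg A B) ht
  have hWt : ∀ A B, W A B ≤ t := by
    intro A B
    simp only [hW]
    split_ifs
    · exact ht
    · exact min_le_right _ _
  have hWN : ∀ A B, W A B ≤ NN ends A B := by
    intro A B
    simp only [hW]
    split_ifs
    · exact NN_nonneg A B
    · exact min_le_left _ _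
  have hWs : ∀ A B, W A B = W B A := by
    intro A B
    simp only [hW]
    rw [NN_symm A B]
    exact if_congr eq_comm rfl rfl
  have hTt : Tt ends ω a t = ∑ A ∈ G, ∑ B ∈ G, W A B := rfl
  have hsplit : ∑ A ∈ G, ∑ B ∈ G, W A B =
      ∑ A ∈ G, ∑ B ∈ G, (if l A = l B then W A B else 0) +
      ∑ A ∈ G, ∑ B ∈ G, (if l A = l B then 0 else W A B) := by
    rw [← Finset.sum_add_distrib]
    refine Finset.sum_congr rfl fun A _ => ?_
    rw [← Finset.sum_add_distrib]
    refine Finset.sum_congr rfl fun B _ => ?_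
    split_ifs <;> simp
  have hsame : ∑ A ∈ G, ∑ B ∈ G, (if l A = l B then W A B else 0) ≤ τ := by
    calc ∑ A ∈ G, ∑ B ∈ G, (if l A = l B then W A B else 0) ≤ ∑ _A ∈ G, t * (m / a) := by
          refine Finset.sum_le_sum fun A hA => ?_
          calc ∑ B ∈ G, (if l A = l B then W A B else 0) ≤ ∑ B ∈ G, (if l A = l B then t else 0) := by
                refine Finset.sum_le_sum fun B _ => ?_
                split_ifs
                · exact hWt A B
                · exact le_rfl
            _ = t * ((G.filter (fun B => l A = l B)).card : ℝ) := by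
                rw [← Finset.sum_filter, Finset.sum_const, nsmul_eq_mul, mul_comm]
            _ ≤ t * (m / a) := mul_le_mul_of_nonneg_left
                (same_label (orc_left ω ω') ha hm hA) ht
      _ = (G.card : ℝ) * (t * (m / a)) := by rw [Finset.sum_const, nsmul_eq_mul]
      _ ≤ ng * (t * (m / a)) := mul_le_mul_of_nonneg_right hng
          (mul_nonneg ht (div_nonneg hm0 ha.le))
      _ ≤ τ := by linarith
  obtain ⟨f, hf⟩ := maxcut G l W
  set 𝒮 := G.filter (fun A => f (l A) = true) with h𝒮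
  have h𝒮G : 𝒮 ⊆ G := Finset.filter_subset _ _
  have hsd : G \ 𝒮 = G.filter (fun A => ¬ f (l A) = true) := by
    rw [h𝒮]
    ext B
    rw [Finset.mem_sdiff, Finset.mem_filter, Finset.mem_filter]
    tauto
  have hcut : ∑ A ∈ G, ∑ B ∈ G, (if f (l A) = f (l B) then 0 else W A B) =
      2 * ∑ A ∈ 𝒮, ∑ B ∈ G \ 𝒮, W A B := by
    have e1 : ∀ A B, (if f (l A) = f (l B) then 0 else W A B) =
        (if f (l A) = true then (if ¬ f (l B) = true then W A B else 0) else 0) +
        (if f (l B) = true then (if ¬ f (l A) = true then W B A else 0) else 0) := by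
      intro A B
      rw [hWs B A]
      cases f (l A) <;> cases f (l B) <;> simp
    simp_rw [e1, Finset.sum_add_distrib]
    have e2 : ∑ A ∈ G, ∑ B ∈ G, (if f (l A) = true then (if ¬ f (l B) = true then W A B else 0)
        else 0) = ∑ A ∈ 𝒮, ∑ B ∈ G \ 𝒮, W A B := by
      rw [hsd, h𝒮, Finset.sum_filter]
      refine Finset.sum_congr rfl fun A _ => ?_
      by_cases hA : f (l A) = true
      · simp only [if_pos hA]
        rw [Finset.sum_filter]
      · simp only [if_neg hA]
        simp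
    have e3 : ∑ A ∈ G, ∑ B ∈ G, (if f (l B) = true then (if ¬ f (l A) = true then W B A else 0)
        else 0) = ∑ A ∈ 𝒮, ∑ B ∈ G \ 𝒮, W A B := by
      rw [Finset.sum_comm, ← e2]
    rw [e2, e3]
    ring
  refine ⟨𝒮, Finset.mem_powerset.2 h𝒮G, ?_, ?_⟩
  · have h5 := XX_card (ends := ends) ω a 𝒮 h𝒮G
    have h6 : ∑ A ∈ 𝒮, ∑ B ∈ G \ 𝒮, W A B ≤ ∑ A ∈ 𝒮, ∑ B ∈ G \ 𝒮, NN ends A B :=
      Finset.sum_le_sum fun A _ => Finset.sum_le_sum fun B _ => hWN A B
    rw [hcut] at hf
    linarith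
  · intro e he
    unfold XX at he
    rw [Finset.mem_filter] at he
    obtain ⟨-, A, hA, B, hB, x, hx, y, hy, hxy⟩ := he
    by_contra hcon
    have hopen : ω' e = true := by simpa using hcon
    have h7 : y ∈ cu ends η x := by
      rw [mem_cu]
      exact Relation.ReflTransGen.single ⟨trivial, trivial, e, orc_right ω ω' e hopen, hxy⟩
    have hBG := (Finset.mem_sdiff.1 hB).1
    have h8 : l A = l B := by
      rw [hl, lab_eq (orc_left ω ω') (h𝒮G hA) hx, lab_eq (orc_left ω ω') hBG hy]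
      exact (cu_eq h7).symm
    rw [hsd, Finset.mem_filter] at hB
    rw [h𝒮, Finset.mem_filter] at hA
    exact hB.2 (h8 ▸ hA.2)

open scoped Classical in
lemma union_bound {s : ℝ} (hs0 : 0 ≤ s) (hs1 : s ≤ 1) (ω : E → Bool) {a t m τ ng : ℝ}
    (ha : 0 < a) (ht : 0 ≤ t) (hm0 : 0 ≤ m)
    (hng : ((GC ends ω a).card : ℝ) ≤ ng) (hτ : t * (m / a) * ng ≤ τ)
    (hT : 2 * τ ≤ Tt ends ω a t) (hs : ng + 1 ≤ s * τ / 4) :
    Ex s (fun ω' => if ∀ x, cz ends (orc ω ω') x < m then (1 : ℝ) else 0) ≤ 1 / 2 := by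
  have hpt : ∀ ω' : E → Bool, (if ∀ x, cz ends (orc ω ω') x < m then (1 : ℝ) else 0) ≤
      ∑ 𝒮 ∈ (GC ends ω a).powerset, (if τ / 4 ≤ ((XX ends ω a 𝒮).card : ℝ) then (1 : ℝ) else 0) *
        (if ∀ e ∈ XX ends ω a 𝒮, ω' e = false then (1 : ℝ) else 0) := by
    intro ω'
    have hnn : ∀ 𝒮 ∈ (GC ends ω a).powerset,
        0 ≤ (if τ / 4 ≤ ((XX ends ω a 𝒮).card : ℝ) then (1 : ℝ) else 0) *
        (if ∀ e ∈ XX ends ω a 𝒮, ω' e = false then (1 : ℝ) else 0) := by
      intro 𝒮 _
      split_ifs <;> norm_num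
    by_cases h : ∀ x, cz ends (orc ω ω') x < m
    · rw [if_pos h]
      obtain ⟨𝒮, h1, h2, h3⟩ := cut_exists ω ω' ha ht h hm0 hng hτ hT
      calc (1 : ℝ) = (if τ / 4 ≤ ((XX ends ω a 𝒮).card : ℝ) then (1 : ℝ) else 0) *
          (if ∀ e ∈ XX ends ω a 𝒮, ω' e = false then (1 : ℝ) else 0) := by
            rw [if_pos h2, if_pos h3, one_mul]
        _ ≤ _ := Finset.single_le_sum (f := fun 𝒮 =>
            (if τ / 4 ≤ ((XX ends ω a 𝒮).card : ℝ) then (1 : ℝ) else 0) *
            (if ∀ e ∈ XX ends ω a 𝒮, ω' e = false then (1 : ℝ) else 0)) hnn h1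
    · rw [if_neg h]
      exact Finset.sum_nonneg hnn
  have hE := Ex_mono hs0 hs1 hpt
  rw [Ex_sum] at hE
  refine hE.trans ?_
  have hterm : ∀ 𝒮 ∈ (GC ends ω a).powerset,
      Ex s (fun ω' : E → Bool => (if τ / 4 ≤ ((XX ends ω a 𝒮).card : ℝ) then (1 : ℝ) else 0) *
        (if ∀ e ∈ XX ends ω a 𝒮, ω' e = false then (1 : ℝ) else 0)) ≤
        Real.exp (-(s * τ / 4)) := by
    intro 𝒮 _
    rw [Ex_mul_left, Ex_closed]
    by_cases h : τ / 4 ≤ ((XX ends ω a 𝒮).card : ℝ)
    · rw [if_pos h, one_mul]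
      calc (1 - s) ^ (XX ends ω a 𝒮).card ≤ (Real.exp (-s)) ^ (XX ends ω a 𝒮).card := by
            apply pow_le_pow_left₀ (by linarith)
            have := Real.add_one_le_exp (-s)
            linarith
        _ = Real.exp (-(s * (XX ends ω a 𝒮).card)) := by
            rw [← Real.exp_nat_mul]
            congr 1
            ring
        _ ≤ _ := by
            apply Real.exp_le_exp.2
            have := mul_le_mul_of_nonneg_left h hs0
            linarith
    · rw [if_neg h, zero_mul]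
      exact (Real.exp_pos _).le
  calc _ ≤ ∑ _𝒮 ∈ (GC ends ω a).powerset, Real.exp (-(s * τ / 4)) := Finset.sum_le_sum hterm
    _ = (2 : ℝ) ^ (GC ends ω a).card * Real.exp (-(s * τ / 4)) := by
        rw [Finset.sum_const, Finset.card_powerset, nsmul_eq_mul]
        push_cast
        ring
    _ ≤ Real.exp ng * Real.exp (-(s * τ / 4)) := by
        apply mul_le_mul_of_nonneg_right _ (Real.exp_pos _).le
        have h2 : (2 : ℝ) ≤ Real.exp 1 := by
          have := Real.exp_one_gt_d9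
          linarith
        calc (2 : ℝ) ^ (GC ends ω a).card ≤ (Real.exp 1) ^ (GC ends ω a).card :=
              pow_le_pow_left₀ (by norm_num) h2 _
          _ = Real.exp ((GC ends ω a).card : ℝ) := by
              rw [← Real.exp_nat_mul]
              congr 1
              ring
          _ ≤ _ := Real.exp_le_exp.2 hng
    _ = Real.exp (ng - s * τ / 4) := by
        rw [← Real.exp_add]
        congr 1
    _ ≤ Real.exp (-1) := Real.exp_le_exp.2 (by linarith)
    _ ≤ 1 / 2 := by
        have := Real.exp_one_gt_d9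
        have h2 : Real.exp (-1) * Real.exp 1 = 1 := by rw [← Real.exp_add]; norm_num
        have h3 := Real.exp_pos (-1)
        nlinarith

/-- The size of the largest cluster. -/
noncomputable def mxc (ends : E → Sym2 V) (ω : E → Bool) : ℝ :=
  ((Finset.univ.sup (fun x => (cu ends ω x).card) : ℕ) : ℝ)

lemma mxc_nonneg (ω : E → Bool) : 0 ≤ mxc ends ω := Nat.cast_nonneg _

lemma cz_le_mxc (ω : E → Bool) (x : V) : cz ends ω x ≤ mxc ends ω := by
  unfold cz mxc
  have : (cu ends ω x).card ≤ Finset.univ.sup (fun x => (cu ends ω x).card) :=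
    Finset.le_sup (f := fun x => (cu ends ω x).card) (Finset.mem_univ x)
  exact_mod_cast this

open scoped Classical in
/-- The sprinkling bound. -/
lemma sprinkle {p s : ℝ} (h0 : 0 ≤ p) (h1 : p ≤ 1) (hs0 : 0 ≤ s) (hs1 : s ≤ 1)
    {a t m τ ng : ℝ} (ha : 0 < a) (ht : 0 ≤ t) (hm0 : 0 ≤ m) (hτ : t * (m / a) * ng ≤ τ)
    (hs : ng + 1 ≤ s * τ / 4) :
    m / 2 * Ex p (fun ω => if 2 * τ ≤ Tt ends ω a t ∧ ((GC ends ω a).card : ℝ) ≤ ng
      then (1 : ℝ) else 0) ≤ Ex (1 - (1 - p) * (1 - s)) (mxc ends) := by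
  rw [Ex_orc, ← Ex_mul_left]
  apply Ex_mono h0 h1
  intro ω
  by_cases h : 2 * τ ≤ Tt ends ω a t ∧ ((GC ends ω a).card : ℝ) ≤ ng
  · rw [if_pos h, mul_one]
    have hub := union_bound hs0 hs1 ω ha ht hm0 h.2 hτ h.1 hs
    have hpt : ∀ ω' : E → Bool, m + (-m) * (if ∀ x, cz ends (orc ω ω') x < m then (1 : ℝ) else 0) ≤
        mxc ends (orc ω ω') := by
      intro ω'
      by_cases h2 : ∀ x, cz ends (orc ω ω') x < m
      · rw [if_pos h2]
        have := mxc_nonneg (ends := ends) (orc ω ω')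
        linarith
      · rw [if_neg h2]
        push Not at h2
        obtain ⟨x, hx⟩ := h2
        have := cz_le_mxc (ends := ends) (orc ω ω') x
        linarith
    have hE := Ex_mono hs0 hs1 hpt
    rw [Ex_add, Ex_const, Ex_mul_left] at hE
    nlinarith
  · rw [if_neg h, mul_zero]
    exact Ex_nonneg hs0 hs1 fun ω' => mxc_nonneg _

end Pool.Agent.PERC29
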